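import Mathlib

/-! Basic facts: divisor bound, roots of `x (x+1)` modulo `d (d+1)`, gap lemmas. -/

namespace Pool.Agent.P.MP_d9fb17_nt

open Finset

lemma div_bound {ε : ℝ} (hε : 0 < ε) :
    ∃ C : ℝ, 1 ≤ C ∧ ∀ n : ℕ, n ≠ 0 → (n.divisors.card : ℝ) ≤ C * (n : ℝ) ^ ε := by
  have hl2 : 0 < Real.log 2 := Real.log_pos one_lt_two
  set c : ℝ := 1 + (ε * Real.log 2)⁻¹ with hc
  have hc1 : 1 ≤ c := by
    have : 0 < (ε * Real.log 2)⁻¹ := by positivity
    linarith
  set N : ℕ := ⌈(2 : ℝ) ^ (ε⁻¹)⌉₊ with hN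
  refine ⟨c ^ N, one_le_pow₀ hc1, fun n hn => ?_⟩
  have key : ∀ p ∈ n.primeFactors, ((n.factorization p + 1 : ℕ) : ℝ) ≤
      (if p < N then c else 1) * ((p : ℝ) ^ n.factorization p) ^ ε := by
    intro p hp
    have hpp := Nat.prime_of_mem_primeFactors hp
    have hp2 : (2 : ℝ) ≤ p := by exact_mod_cast hpp.two_le
    set a := n.factorization p
    have e1 : ((p : ℝ) ^ a) ^ ε = ((p : ℝ) ^ ε) ^ a := by
      rw [← Real.rpow_natCast, ← Real.rpow_mul (by positivity), mul_comm,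
        Real.rpow_mul (by positivity), Real.rpow_natCast]
    split_ifs with h
    · have h1 : (2 : ℝ) ^ ε ≤ (p : ℝ) ^ ε := Real.rpow_le_rpow (by norm_num) hp2 hε.le
      have h2 : ((2 : ℝ) ^ ε) ^ a ≤ ((p : ℝ) ^ ε) ^ a := pow_le_pow_left₀ (by positivity) h1 a
      have h3 : ((2 : ℝ) ^ ε) ^ a = Real.exp (a * (ε * Real.log 2)) := by
        rw [Real.rpow_def_of_pos two_pos, ← Real.exp_nat_mul]; ring_nf
      have h4 := Real.add_one_le_exp (a * (ε * Real.log 2))
      have h5 : (0 : ℝ) < ε * Real.log 2 := by positivity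
      have h6 : (a : ℝ) + 1 ≤ c * (a * (ε * Real.log 2) + 1) := by
        rw [hc]
        have : (ε * Real.log 2)⁻¹ * (a * (ε * Real.log 2)) = a := by field_simp
        have h7 : (0 : ℝ) ≤ a * (ε * Real.log 2) := by positivity
        have h8 : 0 < (ε * Real.log 2)⁻¹ := by positivity
        nlinarith
      push_cast
      rw [e1]
      calc (a : ℝ) + 1 ≤ c * (a * (ε * Real.log 2) + 1) := h6
        _ ≤ c * ((p : ℝ) ^ ε) ^ a := by
          refine mul_le_mul_of_nonneg_left ?_ (by linarith)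
          linarith
    · have h1 : (2 : ℝ) ^ (ε⁻¹) ≤ p := (Nat.le_ceil _).trans (by exact_mod_cast not_lt.1 h)
      have h2 : (2 : ℝ) ≤ (p : ℝ) ^ ε := by
        have := Real.rpow_le_rpow (by positivity) h1 hε.le
        rwa [← Real.rpow_mul (by norm_num), inv_mul_cancel₀ hε.ne', Real.rpow_one] at this
      have h3 : a + 1 ≤ 2 ^ a := Nat.lt_two_pow_self
      rw [one_mul, e1]
      calc ((a + 1 : ℕ) : ℝ) ≤ (2 : ℝ) ^ a := by exact_mod_cast h3
        _ ≤ _ := pow_le_pow_left₀ (by norm_num) h2 a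
  rw [Nat.card_divisors hn, Nat.cast_prod]
  refine (Finset.prod_le_prod (fun _ _ => by positivity) key).trans ?_
  rw [Finset.prod_mul_distrib, Real.finsetProd_rpow _ _ (fun _ _ => by positivity)]
  have e2 : ∏ p ∈ n.primeFactors, (p : ℝ) ^ n.factorization p = n := by
    conv_rhs => rw [← Nat.prod_factorization_pow_eq_self hn]
    rw [Finsupp.prod, Nat.support_factorization]; push_cast; rfl
  rw [e2]
  refine mul_le_mul_of_nonneg_right ?_ (by positivity)
  rw [Finset.prod_ite, Finset.prod_const_one, mul_one, Finset.prod_const]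
  refine pow_le_pow_right₀ hc1 ?_
  calc (n.primeFactors.filter fun p => p < N).card ≤ (range N).card :=
        Finset.card_le_card fun p hp => Finset.mem_range.2 (Finset.mem_filter.1 hp).2
    _ = N := Finset.card_range N

/-- The pronic number `n (n+1)`. -/
def Q (n : ℕ) : ℕ := n * (n + 1)

lemma Q_pos {n : ℕ} (h : 1 ≤ n) : 0 < Q n := by unfold Q; positivity

lemma Q_strictMono : StrictMono Q := by
  intro a b h
  unfold Q
  nlinarith

lemma Q_inj {a b : ℕ} (h : Q a = Q b) : a = b := Q_strictMono.injective h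

lemma Q_cast (n : ℕ) : (Q n : ℝ) = (n : ℝ) * (n + 1) := by unfold Q; push_cast; ring

/-- The number of roots of `x (x+1)` modulo `m` is at most the number of divisors of `m`. -/
lemma roots_le (m : ℕ) (hm : m ≠ 0) :
    ((range m).filter fun x => m ∣ Q x).card ≤ m.divisors.card := by
  refine Finset.card_le_card_of_injOn (fun x => Nat.gcd x m) ?_ ?_
  · intro x _
    simp only [Nat.mem_divisors, Finset.mem_coe]
    exact ⟨Nat.gcd_dvd_right _ _, hm⟩
  · have aux : ∀ x : ℕ, m ∣ Q x → m / Nat.gcd x m ∣ x + 1 := by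
      intro x hx
      have hg : 0 < Nat.gcd x m := Nat.gcd_pos_of_pos_right _ (Nat.pos_of_ne_zero hm)
      have hc := Nat.coprime_div_gcd_div_gcd hg
      obtain ⟨a, ha⟩ := Nat.gcd_dvd_left x m
      obtain ⟨b, hb⟩ := Nat.gcd_dvd_right x m
      set g := Nat.gcd x m
      have e1 : x / g = a := by rw [ha]; exact Nat.mul_div_cancel_left _ hg
      have e2 : m / g = b := by rw [hb]; exact Nat.mul_div_cancel_left _ hg
      rw [e1, e2] at hc
      rw [e2]
      have : g * b ∣ g * (a * (x + 1)) := by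
        rw [← hb, ← mul_assoc, ← ha]; exact hx
      have h2 : b ∣ a * (x + 1) := Nat.dvd_of_mul_dvd_mul_left hg this
      exact hc.symm.dvd_of_dvd_mul_left h2
    have key : ∀ x y : ℕ, x ≤ y → y < m → m ∣ Q x → m ∣ Q y → Nat.gcd x m = Nat.gcd y m →
        x = y := by
      intro x y hxy hy hx hy' hg
      have h1 := aux x hx
      have h2 := aux y hy'
      rw [← hg] at h2
      set g := Nat.gcd x m with hgdef
      have hgx : g ∣ x := Nat.gcd_dvd_left _ _
      have hgy : g ∣ y := by rw [hg]; exact Nat.gcd_dvd_left _ _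
      have hcop : Nat.Coprime g (m / g) := by
        have : Nat.Coprime x (x + 1) := by simp
        exact Nat.Coprime.coprime_dvd_left hgx (Nat.Coprime.coprime_dvd_right h1 this)
      have d1 : g ∣ y - x := Nat.dvd_sub hgy hgx
      have d2 : m / g ∣ y - x := by
        have := Nat.dvd_sub h2 h1
        rwa [Nat.add_sub_add_right] at this
      have d3 : g * (m / g) ∣ y - x := hcop.mul_dvd_of_dvd_of_dvd d1 d2
      rw [Nat.mul_div_cancel' (Nat.gcd_dvd_right _ _)] at d3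
      have : y - x = 0 := Nat.eq_zero_of_dvd_of_lt d3 (by omega)
      omega
    intro x hx y hy hxy
    simp only [coe_filter, mem_range, Set.mem_ofPred_eq] at hx hy
    rcases le_total x y with h | h
    · exact key x y h hy.1 hx.2 hy.2 hxy
    · exact (key y x h hx.1 hy.2 hx.2 hxy.symm).symm

/-- The number of `d` with `Q d ∣ m` is at most the number of divisors of `m`. -/
lemma card_Q_dvd_le (m : ℕ) (hm : m ≠ 0) (s : Finset ℕ) (hs : ∀ d ∈ s, Q d ∣ m) :
    s.card ≤ m.divisors.card := by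
  refine Finset.card_le_card_of_injOn Q ?_ (fun a _ b _ h => Q_inj h)
  intro d hd
  simp only [Finset.mem_coe, Nat.mem_divisors]
  exact ⟨hs d hd, hm⟩

lemma le_of_sq_le_sq_of_nonneg {a b : ℝ} (hb : 0 ≤ b) (h : a ^ 2 ≤ b ^ 2) : a ≤ b :=
  abs_le_of_sq_le_sq' h hb |>.2

lemma gap_fin {q w β j δ : ℝ} (hq : 0 < q) (hw1 : 1 < w) (hj1 : 1 ≤ j) (hjβ : j ≤ β)
    (δ0 : 0 < δ) (δ2 : 8 * q * δ ≤ β * w)
    (hint : 0 < (2 * w * δ) * (2 * (j * (w ^ 2 + 1)) - 2 * w * δ) →
      1 ≤ (2 * w * δ) * (2 * (j * (w ^ 2 + 1)) - 2 * w * δ)) :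
    q ≤ β ^ 2 * (w ^ 2 + 1) ^ 2 := by
  have hw0 : 0 < w := by linarith
  have hβ1 : 1 ≤ β := by linarith
  have hw2 : 1 ≤ w ^ 2 + 1 := by nlinarith
  by_cases h : w * δ < j * (w ^ 2 + 1)
  · have h1 := hint (mul_pos (by positivity) (by linarith))
    have h2 : (2 * w * δ) * (2 * (j * (w ^ 2 + 1)) - 2 * w * δ) ≤
        (2 * w * δ) * (2 * (β * (w ^ 2 + 1))) := by
      have a1 : 0 < 2 * w * δ := by positivity
      have a2 : j * (w ^ 2 + 1) ≤ β * (w ^ 2 + 1) := by gcongr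
      refine mul_le_mul_of_nonneg_left (by linarith) a1.le
    have h3 : 1 ≤ 4 * w * β * (w ^ 2 + 1) * δ := by linarith
    have h4 : 8 * q ≤ 4 * w * β * (w ^ 2 + 1) * (8 * q * δ) := by
      have := mul_le_mul_of_nonneg_left h3 (by positivity : 0 ≤ 8 * q)
      linarith
    have h5 : 4 * w * β * (w ^ 2 + 1) * (8 * q * δ) ≤ 4 * w * β * (w ^ 2 + 1) * (β * w) := by
      gcongr
    have h7 : β ^ 2 * (w ^ 2 + 1) * w ^ 2 ≤ β ^ 2 * (w ^ 2 + 1) * (w ^ 2 + 1) := by
      gcongr; linarith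
    have h8 : 0 ≤ β ^ 2 * (w ^ 2 + 1) * (w ^ 2 + 1) := by positivity
    linarith
  · push Not at h
    have h1 : w ^ 2 + 1 ≤ w * δ := by
      have : 1 * (w ^ 2 + 1) ≤ j * (w ^ 2 + 1) := by gcongr
      linarith
    have h2 : 8 * q * (w ^ 2 + 1) ≤ β * w ^ 2 := by
      have a1 : 8 * q * (w ^ 2 + 1) ≤ 8 * q * (w * δ) := by gcongr
      have a2 : w * (8 * q * δ) ≤ w * (β * w) := by gcongr
      linarith
    have h3 : 8 * q ≤ β := by
      have a1 : w ^ 2 * (8 * q) ≤ w ^ 2 * β := by linarith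
      exact le_of_mul_le_mul_left a1 (by positivity)
    have h4 : β ≤ β ^ 2 * (w ^ 2 + 1) ^ 2 := by
      have a1 : 1 ≤ (w ^ 2 + 1) ^ 2 := one_le_pow₀ hw2
      have a2 : β ≤ β ^ 2 := by nlinarith
      have a3 : β ^ 2 * 1 ≤ β ^ 2 * (w ^ 2 + 1) ^ 2 := by gcongr
      linarith
    linarith

/-- Real form of the two point gap lemma. -/
lemma gap_real {q k α β H G : ℝ} (hq : 0 < q) (hk : 1 < k) (hα : 1 ≤ α) (hαβ : α + 1 ≤ β)
    (hH0 : 0 ≤ H) (hG0 : 0 ≤ G)
    (hH : H ^ 2 = (1 + α * q) * (1 + k * (α * q)))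
    (hG : G ^ 2 = (1 + β * q) * (1 + k * (β * q)))
    (hint : 0 < (β - α) ^ 2 * (k + 1) ^ 2 - 4 * k * (β * H - α * G) ^ 2 →
      1 ≤ (β - α) ^ 2 * (k + 1) ^ 2 - 4 * k * (β * H - α * G) ^ 2) :
    q ≤ β ^ 2 * (k + 1) ^ 2 := by
  obtain ⟨w, hw0, hw⟩ : ∃ w : ℝ, 0 < w ∧ w ^ 2 = k :=
    ⟨Real.sqrt k, Real.sqrt_pos.2 (by linarith), Real.sq_sqrt (by linarith)⟩
  subst hw
  have hw1 : 1 < w := by nlinarith
  obtain ⟨m, hm2, hm0⟩ : ∃ m : ℝ, 2 * w * m = w ^ 2 + 1 ∧ 0 < m :=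
    ⟨(w ^ 2 + 1) / (2 * w), by field_simp, by positivity⟩
  obtain ⟨c, hc⟩ : ∃ c : ℝ, c = m ^ 2 - 1 := ⟨_, rfl⟩
  have hc4 : 4 * w ^ 2 * c = (w ^ 2 - 1) ^ 2 := by
    have : 4 * w ^ 2 * c = (2 * w * m) ^ 2 - 4 * w ^ 2 := by rw [hc]; ring
    rw [this, hm2]; ring
  have hc0 : 0 < c := by
    have h0 : 0 < w ^ 2 - 1 := by linarith
    have h1 : 0 < (w ^ 2 - 1) ^ 2 := by positivity
    by_contra h
    push Not at h
    have : 4 * w ^ 2 * c ≤ 0 := mul_nonpos_of_nonneg_of_nonpos (by positivity) h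
    linarith
  have hc1 : 4 * c ≤ w ^ 2 := by
    have h1 : (w ^ 2 - 1) ^ 2 ≤ (w ^ 2) ^ 2 := by
      have h0 : 0 < w ^ 2 - 1 := by linarith
      gcongr; linarith
    have h2 : w ^ 2 * (4 * c) ≤ w ^ 2 * w ^ 2 := by linarith
    exact le_of_mul_le_mul_left h2 (by positivity)
  obtain ⟨s, hs⟩ : ∃ s, s = α * q := ⟨_, rfl⟩
  obtain ⟨t, ht⟩ : ∃ t, t = β * q := ⟨_, rfl⟩
  rw [← hs] at hH
  rw [← ht] at hG
  have hqs : q ≤ s := by
    have : 1 * q ≤ α * q := by gcongr
    linarith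
  have hst : s ≤ t := by rw [hs, ht]; gcongr; linarith
  have hs0 : 0 < s := by linarith
  have ht0 : 0 < t := by linarith
  have eH : (w * s + m - H) * (w * s + m + H) = c := by
    have : (w * s + m - H) * (w * s + m + H) = w ^ 2 * s ^ 2 + (2 * w * m) * s + m ^ 2 - H ^ 2 := by
      ring
    rw [this, hm2, hH, hc]; ring
  have eG : (w * t + m - G) * (w * t + m + G) = c := by
    have : (w * t + m - G) * (w * t + m + G) = w ^ 2 * t ^ 2 + (2 * w * m) * t + m ^ 2 - G ^ 2 := by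
      ring
    rw [this, hm2, hG, hc]; ring
  have hHG : H ≤ G := by
    refine le_of_sq_le_sq_of_nonneg hG0 ?_
    rw [hH, hG]
    gcongr
  have hHs : w * s ≤ H := by
    refine le_of_sq_le_sq_of_nonneg hH0 ?_
    rw [hH]
    have : 0 ≤ w ^ 2 * s := by positivity
    linarith
  obtain ⟨eh, heh⟩ : ∃ eh, eh = w * s + m - H := ⟨_, rfl⟩
  obtain ⟨eg, heg⟩ : ∃ eg, eg = w * t + m - G := ⟨_, rfl⟩
  rw [← heh] at eH
  rw [← heg] at eG
  have pH : 0 < w * s + m + H := by positivity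
  have pG : 0 < w * t + m + G := by positivity
  have eh0 : 0 < eh := by
    by_contra h
    push Not at h
    have := mul_nonpos_of_nonpos_of_nonneg h pH.le
    linarith
  have eg0 : 0 < eg := by
    by_contra h
    push Not at h
    have := mul_nonpos_of_nonpos_of_nonneg h pG.le
    linarith
  have egh : eg ≤ eh := by
    have h0 : w * s ≤ w * t := by gcongr
    have h1 : w * s + m + H ≤ w * t + m + G := by linarith
    by_contra h
    push Not at h
    have : eh * (w * s + m + H) < eg * (w * t + m + G) := by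
      calc eh * (w * s + m + H) ≤ eh * (w * t + m + G) := by gcongr
        _ < _ := by gcongr
    linarith
  have ehle : 8 * q * eh ≤ w := by
    have h1 : eh * (2 * (w * s)) ≤ c := by
      rw [← eH]; gcongr; linarith
    have h2 : w * (8 * s * eh) ≤ w * w := by linarith
    have h3 : 8 * s * eh ≤ w := le_of_mul_le_mul_left h2 hw0
    have h4 : 8 * q * eh ≤ 8 * s * eh := by gcongr
    linarith
  have hD : β * H - α * G = (β - α) * m - (β * eh - α * eg) := by
    rw [heh, heg, hs, ht]; ring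
  have a1 : α * eg ≤ α * eh := by gcongr
  have a2 : (α + 1) * eh ≤ β * eh := by gcongr
  have a3 : 0 < α * eg := by positivity
  have δ0 : 0 < β * eh - α * eg := by linarith
  have δ2 : 8 * q * (β * eh - α * eg) ≤ β * w := by
    have b1 : β * (8 * q * eh) ≤ β * w := by gcongr; linarith
    have b2 : 0 < 8 * q * (α * eg) := by positivity
    linarith
  refine gap_fin (j := β - α) hq hw1 (by linarith) (by linarith) δ0 δ2 ?_
  have hx : (β - α) ^ 2 * (w ^ 2 + 1) ^ 2 - 4 * w ^ 2 * (β * H - α * G) ^ 2 =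
      (2 * w * (β * eh - α * eg)) * (2 * ((β - α) * (w ^ 2 + 1)) - 2 * w * (β * eh - α * eg)) := by
    rw [hD, ← hm2]; ring
  rwa [hx] at hint

/-- Two point gap lemma. -/
lemma gap {g k α β a b a' b' : ℕ} (hg : 0 < g) (hk : 2 ≤ k) (hα : 1 ≤ α) (hαβ : α < β)
    (ha : Q a = α * g) (hb : Q b = β * g) (ha' : Q a' = k * Q a) (hb' : Q b' = k * Q b) :
    4 * g ≤ β ^ 2 * (k + 1) ^ 2 := by
  have h := gap_real (q := 4 * g) (k := k) (α := α) (β := β) (H := (2 * a + 1) * (2 * a' + 1))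
    (G := (2 * b + 1) * (2 * b' + 1)) (by positivity) (by exact_mod_cast hk)
    (by exact_mod_cast hα) (by exact_mod_cast hαβ) (by positivity) (by positivity) ?_ ?_ ?_
  · exact_mod_cast h
  · have e1 : (a : ℝ) * (a + 1) = α * g := by rw [← Q_cast, ha]; push_cast; ring
    have e2 : (a' : ℝ) * (a' + 1) = k * (α * g) := by rw [← Q_cast, ha', ha]; push_cast; ring
    have : ((2 * a + 1) * (2 * a' + 1) : ℝ) ^ 2 =
      (1 + 4 * (a * (a + 1))) * (1 + 4 * (a' * (a' + 1))) := by ring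
    rw [this, e1, e2]; ring
  · have e1 : (b : ℝ) * (b + 1) = β * g := by rw [← Q_cast, hb]; push_cast; ring
    have e2 : (b' : ℝ) * (b' + 1) = k * (β * g) := by rw [← Q_cast, hb', hb]; push_cast; ring
    have : ((2 * b + 1) * (2 * b' + 1) : ℝ) ^ 2 =
      (1 + 4 * (b * (b + 1))) * (1 + 4 * (b' * (b' + 1))) := by ring
    rw [this, e1, e2]; ring
  · intro h
    have : ((((β : ℤ) - α) ^ 2 * (k + 1) ^ 2 - 4 * k * (β * ((2 * a + 1) * (2 * a' + 1)) -
      α * ((2 * b + 1) * (2 * b' + 1))) ^ 2 : ℤ) : ℝ) = ((β : ℝ) - α) ^ 2 * (k + 1) ^ 2 -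
      4 * k * (β * ((2 * a + 1) * (2 * a' + 1)) - α * ((2 * b + 1) * (2 * b' + 1))) ^ 2 := by
      push_cast; ring
    rw [← this] at h ⊢
    exact_mod_cast h

end Pool.Agent.P.MP_d9fb17_nt
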