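import Pool.Agent.P.MP_d9fb17_nt.K4

/-! Kernel computations. -/

namespace Pool.Agent.P.MP_d9fb17_nt

set_option maxRecDepth 1000000

theorem ka1 : tabOK = true := by decide +kernel
theorem ka2 (c : Nat) (h1 : 0 ≤ c) (h2 : c < 8) : allTo (fun k => rowE (72 + 26 * c + k)) 26 = true := by
  interval_cases c <;> decide +kernel
theorem ka3 : blk 40 280 = true := by decide +kernel

end Pool.Agent.P.MP_d9fb17_nt
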