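import Pool.Agent.P.MP_d9fb17_nt.K4

/-! Kernel computations. -/

namespace Pool.Agent.P.MP_d9fb17_nt

set_option maxRecDepth 1000000

theorem kb1 (c : Nat) (h1 : 0 ≤ c) (h2 : c < 8) : allTo (fun k => rowI (72 + 47 * c + k)) 47 = true := by
  interval_cases c <;> decide +kernel
theorem kb2 : finA = true := by decide +kernel
theorem kb3 : finB = true := by decide +kernel
theorem kb4 : chkL (fun v => v - 64) 4095 posL = true := by decide +kernel
theorem kb5 : chkL (fun v => 64 - v) 4095 negL = true := by decide +kernel
theorem kb6 : chkT0 = true := by decide +kernel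
theorem kb7 (c : Nat) (h1 : 0 ≤ c) (h2 : c < 9) : allTo (fun k => chkT (1 + 7 * c + k)) 7 = true := by
  interval_cases c <;> decide +kernel

end Pool.Agent.P.MP_d9fb17_nt
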