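import Pool.Agent.P.MP_d9fb17_nt.K4

/-! Kernel computations. -/

namespace Pool.Agent.P.MP_d9fb17_nt

set_option maxRecDepth 1000000

theorem ke1 (c : Nat) (h1 : 8 ≤ c) (h2 : c < 16) : Nat.ble (en c) (enB.getD c 0) = true := by
  interval_cases c <;> decide +kernel

end Pool.Agent.P.MP_d9fb17_nt
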