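import Pool.Agent.P.MP_d9fb17_nt.CFinal
import Pool.Agent.P.MP_d9fb17_nt.KA
import Pool.Agent.P.MP_d9fb17_nt.KB
import Pool.Agent.P.MP_d9fb17_nt.KE0
import Pool.Agent.P.MP_d9fb17_nt.KE1
import Pool.Agent.P.MP_d9fb17_nt.KE2
import Pool.Agent.P.MP_d9fb17_nt.KE3
import Pool.Agent.P.MP_d9fb17_nt.KE4
import Pool.Agent.P.MP_d9fb17_nt.KE5
import Pool.Agent.P.MP_d9fb17_nt.KE6
import Pool.Agent.P.MP_d9fb17_nt.KE7
import Pool.Agent.P.MP_d9fb17_nt.KP0
import Pool.Agent.P.MP_d9fb17_nt.KP1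
import Pool.Agent.P.MP_d9fb17_nt.KP2
import Pool.Agent.P.MP_d9fb17_nt.KP3

/-! The computed facts hold. -/

namespace Pool.Agent.P.MP_d9fb17_nt

lemma blocks {f : ℕ → Bool} {a n m : ℕ} (hn : 0 < n)
    (h : ∀ c, 0 ≤ c → c < m → allTo (fun k => f (a + n * c + k)) n = true) (i : ℕ) (h1 : a ≤ i)
    (h2 : i < a + n * m) : f i = true := by
  have := allTo_spec (h ((i - a) / n) (Nat.zero_le _) (Nat.div_lt_of_lt_mul (by omega)))
    ((i - a) % n) (Nat.mod_lt _ hn)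
  rwa [add_assoc, Nat.div_add_mod, Nat.add_sub_of_le h1] at this

theorem comp : Comp := by
  refine ⟨ka1, blocks (by decide) ka2, blocks (by decide) kb1, ka3, kb2, kb3, kb4, kb5, kb6,
    blocks (by decide) kb7, fun c h => ?_, fun c h1 h2 => Nat.le_of_ble_eq_true ?_⟩
  · rcases lt_or_ge c 62 with h1 | h1
    · exact kp0 c (Nat.zero_le _) h1
    rcases lt_or_ge c 124 with h2 | h2
    · exact kp1 c h1 h2
    rcases lt_or_ge c 186 with h3 | h3
    · exact kp2 c h2 h3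
    · exact kp3 c h3 h
  rcases lt_or_ge c 8 with a1 | a1
  · exact ke0 c h1 a1
  rcases lt_or_ge c 16 with a2 | a2
  · exact ke1 c a1 a2
  rcases lt_or_ge c 24 with a3 | a3
  · exact ke2 c a2 a3
  rcases lt_or_ge c 32 with a4 | a4
  · exact ke3 c a3 a4
  rcases lt_or_ge c 40 with a5 | a5
  · exact ke4 c a4 a5
  rcases lt_or_ge c 48 with a6 | a6
  · exact ke5 c a5 a6
  rcases lt_or_ge c 56 with a7 | a7
  · exact ke6 c a6 a7
  · exact ke7 c a7 h2

end Pool.Agent.P.MP_d9fb17_nt
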