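import Pool.Agent.P.MP_d9fb17_nt.CWin

/-! Bounds for the coefficients of the window identity. -/

namespace Pool.Agent.P.MP_d9fb17_nt

open Finset

lemma ci_Q_ge {n : ℕ} (h : 262144 < n) : 72 ≤ ci (Q n) :=
  (le_ci (Q_pos (by omega))).2 (le_trans (by norm_num [Q])
    (Nat.pow_le_pow_left (Q_strictMono.monotone h.le) 2))

lemma log_facts {i : ℕ} (h : 16384 ≤ i) : 14 ≤ Nat.log2 i ∧ 2 ^ Nat.log2 i ≤ i ∧
    i < 2 ^ (Nat.log2 i + 1) ∧ 81 * Nat.log2 i ^ 2 ≤ i := by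
  have h1 : 14 ≤ Nat.log2 i := (Nat.le_log2 (by omega)).2 h
  have h2 := Nat.log2_self_le (by omega : i ≠ 0)
  refine ⟨h1, h2, Nat.lt_log2_self, le_trans ?_ h2⟩
  generalize Nat.log2 i = a at h1
  induction a, h1 using Nat.le_induction with
  | base => norm_num
  | succ a ha ih => rw [pow_succ 2]; nlinarith

lemma Comp.row (H : Comp) {i : ℕ} (h1 : 72 ≤ i) (h2 : i < 280) :
    2 ^ om i * SS + abel (cnt i (om i)) (tE i) 364 0 + (i + 5) * 2 ^ (i / 14) * SS / 256 + 1 ≤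
      pst i * SS ∧ 3 * jt i ≤ i + 4 ∧ 1 ≤ jt i ∧ jt i ≤ 46 ∧ pst i ≤ 2 ^ (12 + i / 14) := by
  have := H.rowE i h1 h2
  simp only [Pool.Agent.P.MP_d9fb17_nt.rowE, Bool.and_eq_true, Nat.ble_eq] at this
  exact ⟨this.1.1.1.1, this.1.1.1.2, this.1.1.2, this.1.2, this.2⟩

lemma jf_eq (i : ℕ) : jf i = if 280 ≤ i then 46 else jt i := rec_ble _ _ _ _

lemma ps_eq (i : ℕ) : ps i = if 280 ≤ i then 2 ^ (10 + i / 14) else pst i := rec_ble _ _ _ _

lemma Comp.J (H : Comp) {i : ℕ} (h : 72 ≤ i) : 3 * Jt i ≤ i + 4 ∧ jf i ≤ Jt i ∧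
    (i < 16384 → Jt i = jf i ∧ jf i ≤ 46) ∧ ps i ≤ 2 ^ (12 + i / 14) := by
  unfold Jt
  rw [jf_eq, ps_eq]
  have h0 : 2 ^ (10 + i / 14) ≤ 2 ^ (12 + i / 14) := Nat.pow_le_pow_right two_pos (by omega)
  split_ifs with h1 h2 h2
  · exact ⟨by omega, le_rfl, fun _ => ⟨rfl, le_rfl⟩, h0⟩
  · have := H.row h (by omega)
    exact ⟨this.2.1, le_rfl, fun _ => ⟨rfl, this.2.2.2.1⟩, this.2.2.2.2⟩
  · have := log_facts (not_lt.1 h1)
    exact ⟨by nlinarith, by omega, fun h => absurd h h1, h0⟩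
  · omega

lemma mem_Sw {n e u : ℕ} : u ∈ Sw n e ↔ (e < u ∧ u < n) ∧ inW n u ∧ Q e ∣ Q u := by
  simp [Sw]

lemma nuv_zieg (n e : ℕ) : (nuv n e).natAbs ^ 5 ≤ 4 ^ (Sw n e).card :=
  zieg (fun _ _ => Or.symm) _

lemma nuv_le {n e F : ℕ} (hF : 1 ≤ F) (h : ∀ u ∈ Sw n e, (nuv n u).natAbs ≤ F) :
    (nuv n e).natAbs ≤ ((Sw n e).card + 1) * F := by
  have h1 := (Int.natAbs_sum_le (Sw n e) (nuv n)).trans (sum_le_card_nsmul _ _ _ h)
  rw [nuv_rec, add_one_mul]
  rw [smul_eq_mul] at h1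
  omega

variable {n e : ℕ}

lemma lab_self (hn : 1 ≤ n) : lab n n = 1 := Nat.div_self (Q_pos hn)

lemma Comp.card1 (H : Comp) (he : 262144 < e) (hen : e < n) (hd : Q e ∣ Q n) :
    ((Sw n e).card + 1) * (Sw n e).card ≤ 2 ^ ((lab n e).primeFactors.card + 1) := by
  have h1 : n ∉ Sw n e := fun h => lt_irrefl _ (mem_Sw.1 h).1.2
  have h2 := ci_Q_ge (he.trans hen)
  have := sidon (n := n) (A := insert n (Sw n e)) (by omega) (lab_pos (by omega) hd).ne' fun u hu => by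
    rcases mem_insert.1 hu with rfl | hu
    · rw [lab_self (by omega)]
      exact ⟨dvd_rfl, one_dvd _, le_trans (by decide) (Nat.add_le_add_right h2 4)⟩
    · obtain ⟨-, h3, h4⟩ := mem_Sw.1 hu
      exact ⟨h3.2.1, lab_dvd h4 h3.2.1, by have := h3.2.2; have := (H.J h2).1; omega⟩
  rwa [card_insert_of_notMem h1] at this

lemma Comp.card2 (H : Comp) (he : 262144 < e) (hen : e < n) (hd : Q e ∣ Q n)
    (h : 3 * (ci (lab n e) + 1) ≤ ci (Q n) + 4) :
    ((Sw n e).card + 1 + 1) * ((Sw n e).card + 1) ≤ 2 ^ ((lab n e).primeFactors.card + 1) := by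
  have h1 : n ∉ Sw n e := fun h => lt_irrefl _ (mem_Sw.1 h).1.2
  have h0 : e ∉ insert n (Sw n e) := by simp [mem_Sw, hen.ne]
  have h2 := ci_Q_ge (he.trans hen)
  have := sidon (n := n) (A := insert e (insert n (Sw n e))) (by omega)
    (lab_pos (by omega) hd).ne' fun u hu => by
    rcases mem_insert.1 hu with rfl | hu
    · exact ⟨hd, dvd_rfl, h⟩
    rcases mem_insert.1 hu with rfl | hu
    · rw [lab_self (by omega)]
      exact ⟨dvd_rfl, one_dvd _, le_trans (by decide) (Nat.add_le_add_right h2 4)⟩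
    · obtain ⟨-, h3, h4⟩ := mem_Sw.1 hu
      exact ⟨h3.2.1, lab_dvd h4 h3.2.1, by have := h3.2.2; have := (H.J h2).1; omega⟩
  rwa [card_insert_of_notMem h0, card_insert_of_notMem h1] at this

lemma card3 (hen : e < n) (he : inW n e) (h : 16384 ≤ ci (Q n)) :
    (Sw n e).card + 1 ≤ (lab n e).primeFactors.card := by
  have h1 : n ∉ Sw n e := fun h => lt_irrefl _ (mem_Sw.1 h).1.2
  have h0 : e ∉ insert n (Sw n e) := by simp [mem_Sw, hen.ne]
  obtain ⟨h2, h3, h4⟩ := he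
  have hn : 1 ≤ n := by omega
  have h5 := lab_pos hn h3
  obtain ⟨a1, -, -, a2⟩ := log_facts h
  rw [Jt, if_neg (by omega)] at h4
  have h6 := omega_le h5
  have h7 : lab n e ≤ 2 ^ (4 * Nat.log2 (ci (Q n))) := by
    refine (Nat.pow_le_pow_iff_left two_ne_zero).1 (((ci_lt h5).1 h4).le.trans ?_)
    rw [← pow_mul]
    exact Nat.pow_le_pow_right two_pos (by omega)
  have := affine (A := insert e (insert n (Sw n e))) hn h5.ne' (fun u hu => by
    have h8 : Q e ∣ Q u ∧ Q u ∣ Q n := by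
      rcases mem_insert.1 hu with rfl | hu
      · exact ⟨dvd_rfl, h3⟩
      rcases mem_insert.1 hu with rfl | hu
      · exact ⟨h3, dvd_rfl⟩
      · exact ⟨(mem_Sw.1 hu).2.2, (mem_Sw.1 hu).2.1.2.1⟩
    exact ⟨h8.2, lab_dvd h8.1 h8.2, (Nat.le_of_dvd h5 (lab_dvd h8.1 h8.2)).trans h7⟩) (by
    refine le_trans ((Nat.pow_le_pow_iff_left two_ne_zero).1 (le_trans ?_ (ci_le (Q_pos hn))))
      (Nat.le_mul_of_pos_left _ four_pos)
    rw [← pow_mul]
    refine Nat.pow_le_pow_right two_pos (le_trans ?_ a2)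
    generalize Nat.log2 (ci (Q n)) = a at *
    have : (lab n e).primeFactors.card + 2 ≤ 2 * a := by omega
    nlinarith)
  rw [card_insert_of_notMem h0, card_insert_of_notMem h1] at this
  omega

lemma Comp.b1 (H : Comp) (hen : e < n) (he : inW n e) {j : ℕ} (hj : j < 46)
    (h : ci (lab n e) ≤ j) : (nuv n e).natAbs ≤ zt (mT j - 2) := by
  have T := H.tb
  have h1 : ∀ j < 46, mT j ≤ 16 := by decide +kernel
  have h2 := H.card2 he.1 hen he.2.1
    (by have := he.2.2; have := (H.J (ci_Q_ge (he.1.trans hen))).1; omega)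
  have h3 := T.mT j (by omega) _ (h2.trans (Nat.pow_le_pow_right two_pos (Nat.succ_le_succ
    (T.om _ j (lab_pos (by omega) he.2.1) h (by omega)))))
  have := h1 j hj
  exact T.zt _ (by omega) _ ((nuv_zieg n e).trans (Nat.pow_le_pow_right four_pos (by omega)))

lemma Comp.b48 (H : Comp) (hen : e < n) (he : inW n e) (h : ci (Q n) < 16384) :
    (nuv n e).natAbs ≤ 48 := by
  have h1 := (H.J (ci_Q_ge (he.1.trans hen))).2.2.1 h
  have h2 : zt (mT 45 - 2) = 48 := by decide +kernel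
  exact h2 ▸ H.b1 hen he (by norm_num) (by have := he.2.2; omega)

lemma bgen {u : ℕ} (hu : u ∈ Sw n e) (hd : Q e ∣ Q n) (h : 16384 ≤ ci (Q n)) :
    (nuv n u).natAbs ^ 5 ≤ 4 ^ ((lab n e).primeFactors.card - 1) := by
  obtain ⟨h1, h2, h3⟩ := mem_Sw.1 hu
  have := card3 h1.2 h2 h
  have := card_le_card (Nat.primeFactors_mono (lab_dvd h3 h2.2.1) (lab_pos (by omega) hd).ne')
  exact (nuv_zieg n u).trans (Nat.pow_le_pow_right four_pos (by omega))

lemma Comp.bfB (H : Comp) {u : ℕ} (hu : u ∈ Sw n e) (hd : Q e ∣ Q n) (hj : ci (lab n e) < 364) :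
    (nuv n u).natAbs ≤ fwB (ci (lab n e)) := by
  have T := H.tb
  obtain ⟨h1, h2, -⟩ := mem_Sw.1 hu
  rw [fwB, mx_eq]
  rcases lt_or_ge (ci (Q n)) 16384 with h | h
  · exact (H.b48 h1.2 h2 h).trans (le_max_left _ _)
  · have h3 := T.om _ _ (lab_pos (by omega) hd) le_rfl (by omega)
    have h4 := T.om_le _ hj
    refine le_trans (T.zt (om (ci (lab n e)) - 1) (by omega) _ ((bgen hu hd h).trans
      (Nat.pow_le_pow_right four_pos (by omega)))) (le_max_right _ _)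

lemma Comp.bfw (H : Comp) (hn : 262144 < n) (hd : Q e ∣ Q n) (hj : ci (lab n e) < 364) :
    1 ≤ fw (ci (Q n)) (ci (lab n e)) ∧
      ∀ u ∈ Sw n e, (nuv n u).natAbs ≤ fw (ci (Q n)) (ci (lab n e)) := by
  unfold fw
  rw [rec_ble]
  split_ifs with h
  · exact ⟨by rw [fwB, mx_eq]; omega, fun u hu => H.bfB hu hd hj⟩
  · have h1 := H.row (ci_Q_ge hn) (not_le.1 h)
    have h2 : ∀ j < 46, 1 ≤ zt (mT j - 2) := by decide +kernel
    refine ⟨h2 (jt _ - 1) (by omega), fun u hu => ?_⟩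
    obtain ⟨h3, h4, -⟩ := mem_Sw.1 hu
    have h5 := h4.2.2
    rw [Jt, if_pos (by omega), jf_eq, if_neg h] at h5
    exact H.b1 (j := jt _ - 1) h3.2 h4 (by omega) (by omega)

lemma Comp.bnu (H : Comp) (he : 262144 < e) (hen : e < n) (hd : Q e ∣ Q n)
    (hj : ci (lab n e) < 364) {i F : ℕ} (hi : i ≤ ci (Q n)) (hF : 1 ≤ F)
    (h : ∀ u ∈ Sw n e, (nuv n u).natAbs ≤ F) : (nuv n e).natAbs ≤ nu (ci (lab n e)) i F := by
  have T := H.tb
  have h0 := Nat.pow_le_pow_right two_pos (Nat.succ_le_succ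
    (T.om _ _ (lab_pos (by omega) hd) le_rfl (by omega)))
  have h1 := T.mT _ hj _ ((H.card1 he hen hd).trans h0)
  have h2 := (nuv_le hF h).trans (Nat.mul_le_mul_right _ h1)
  unfold nu nu1
  rw [rec_ble, rec_ble, mn_eq]
  split_ifs with h3 h4
  · have h5 := T.mT _ hj _ ((H.card2 he hen hd (le_trans h4 (Nat.add_le_add_right hi 4))).trans h0)
    exact le_min h2 (T.zt (mT _ - 2) (by omega) _
      ((nuv_zieg n e).trans (Nat.pow_le_pow_right four_pos (by omega))))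
  · exact le_min h2 (T.zt (mT _ - 1) (by omega) _
      ((nuv_zieg n e).trans (Nat.pow_le_pow_right four_pos (by omega))))
  · exact h2

lemma Comp.bfar (H : Comp) (he : 262144 < e) (hen : e < n) (hd : Q e ∣ Q n)
    (hj : 98 ≤ ci (lab n e)) : (nuv n e).natAbs ≤ 2 ^ (8 + ci (lab n e) / 14) := by
  have h1 := H.card1 he hen hd
  have h2 := omega_le (lab_pos (by omega) hd)
  obtain ⟨y, hy⟩ : ∃ y, ci (lab n e) / 14 = y + 7 := ⟨ci (lab n e) / 14 - 7, by omega⟩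
  rw [hy] at h2 ⊢
  have h3 : ((Sw n e).card + 1) ^ 2 ≤ 2 ^ (y + 17) := by
    have h4 := h1.trans (Nat.pow_le_pow_right two_pos (by omega : _ ≤ y + 16))
    have := Nat.two_pow_pos (y + 16)
    rw [pow_succ 2 (y + 16)]
    rcases Nat.eq_zero_or_pos (Sw n e).card with h | h <;> nlinarith
  rcases lt_or_ge (ci (Q n)) 16384 with h | h
  · refine (nuv_le (F := 48) (by norm_num) fun u hu =>
      H.b48 (mem_Sw.1 hu).1.2 (mem_Sw.1 hu).2.1 h).trans
      ((Nat.pow_le_pow_iff_left two_ne_zero).1 ?_)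
    rw [mul_pow, ← pow_mul]
    calc _ ≤ 2 ^ (y + 17) * 2 ^ 12 := Nat.mul_le_mul h3 (by norm_num)
      _ ≤ _ := by rw [← pow_add]; exact Nat.pow_le_pow_right two_pos (by omega)
  · have h4 : ∀ z, z ^ 5 ≤ 4 ^ (y + 14) →
        z ≤ Nat.findGreatest (fun z => z ^ 5 ≤ 4 ^ (y + 14)) (4 ^ (y + 14)) := fun z hz =>
      Nat.le_findGreatest ((Nat.le_self_pow (by norm_num) z).trans hz) hz
    have h5 := Nat.findGreatest_spec (P := fun z => z ^ 5 ≤ 4 ^ (y + 14)) (Nat.zero_le (4 ^ (y + 14)))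
      (by simp)
    generalize Nat.findGreatest (fun z => z ^ 5 ≤ 4 ^ (y + 14)) (4 ^ (y + 14)) = F at h4 h5
    refine (nuv_le (h4 1 (by simpa using Nat.one_le_pow _ _ four_pos)) fun u hu => h4 _
      ((bgen hu hd h).trans (Nat.pow_le_pow_right four_pos (by omega)))).trans
      ((Nat.pow_le_pow_iff_left (by norm_num : 10 ≠ 0)).1 ?_)
    calc _ = (((Sw n e).card + 1) ^ 2) ^ 5 * (F ^ 5) ^ 2 := by ring
      _ ≤ (2 ^ (y + 17)) ^ 5 * (4 ^ (y + 14)) ^ 2 := by gcongr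
      _ ≤ _ := by
        rw [show 4 = 2 ^ 2 from rfl, ← pow_mul, ← pow_mul, ← pow_mul, ← pow_mul, ← pow_add]
        exact Nat.pow_le_pow_right two_pos (by omega)

lemma Comp.bwin (H : Comp) (hi : 448 ≤ ci (Q n)) {W : ℕ} :
    ∑ u ∈ (Ioo W n).filter (inW n), (nuv n u).natAbs ≤ 2 ^ (13 + ci (Q n) / 28) := by
  have key : ∀ k, Jt (ci (Q n)) ≤ 2 * k → ((Ioo W n).filter (inW n)).card ≤ 2 ^ k := by
    intro k hk
    rw [← card_range (2 ^ k)]
    refine card_le_card_of_injOn (lab n) (fun u hu => ?_) fun u hu v hv => ?_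
    · obtain ⟨h1, h2⟩ := mem_filter.1 hu
      have := (ci_lt (lab_pos (by have := mem_Ioo.1 h1; omega) h2.2.1)).1 (h2.2.2.trans_le hk)
      rw [mul_comm, pow_mul] at this
      exact mem_coe.2 (mem_range.2 (lt_of_pow_lt_pow_left₀ 2 (Nat.zero_le _) this))
    · exact lab_inj (by have := mem_Ioo.1 (mem_filter.1 hu).1; omega) (mem_filter.1 hu).2.2.1
        (mem_filter.1 hv).2.2.1
  rcases lt_or_ge (ci (Q n)) 16384 with h | h
  · refine (sum_le_card_nsmul _ _ (2 ^ 6) fun u hu => (H.b48 (mem_Ioo.1 (mem_filter.1 hu).1).2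
      (mem_filter.1 hu).2 h).trans (by norm_num)).trans ?_
    have := (H.J (by omega : 72 ≤ ci (Q n))).2.2.1 h
    refine (Nat.mul_le_mul_right _ (key 23 (by omega))).trans ?_
    rw [← pow_add]
    exact Nat.pow_le_pow_right two_pos (by omega)
  · obtain ⟨a1, -, -, a2⟩ := log_facts h
    have h0 : Jt (ci (Q n)) = 7 * Nat.log2 (ci (Q n)) := if_neg (by omega)
    refine (sum_le_card_nsmul _ _ (2 ^ (8 + Nat.log2 (ci (Q n)))) fun u hu => ?_).trans ?_
    · obtain ⟨h1, h2⟩ := mem_filter.1 hu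
      have h3 := card3 (mem_Ioo.1 h1).2 h2 h
      have h4 := omega_le (lab_pos (by have := mem_Ioo.1 h1; omega) h2.2.1)
      have h5 := h2.2.2
      refine (Nat.pow_le_pow_iff_left (by norm_num : 5 ≠ 0)).1 ((nuv_zieg n u).trans ?_)
      rw [show 4 = 2 ^ 2 from rfl, ← pow_mul, ← pow_mul]
      exact Nat.pow_le_pow_right two_pos (by omega)
    · refine (Nat.mul_le_mul_right _ (key (4 * Nat.log2 (ci (Q n))) (by omega))).trans ?_
      rw [← pow_add]
      refine Nat.pow_le_pow_right two_pos ?_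
      have : 560 * Nat.log2 (ci (Q n)) ≤ ci (Q n) := by nlinarith
      omega

end Pool.Agent.P.MP_d9fb17_nt
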