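import Mathlib

/-! Moment bounds for families of sign vectors. -/

namespace Pool.Agent.P.MP_d9fb17_nt

open Finset
open scoped symmDiff

lemma posdef {β ι : Type*} (B : Finset β) (P : Finset ι) {w : ι → ℝ} (hw : ∀ p ∈ P, 0 ≤ w p)
    (ε : β → ι → ℝ) {c : ℝ} (hc : 0 ≤ c) (r : ℕ) : ∀ ν : β → ℝ,
    0 ≤ ∑ a ∈ B, ∑ b ∈ B, ν a * ν b * (∑ p ∈ P, w p * (ε a p * ε b p) + c) ^ r := by
  induction r with
  | zero =>
    intro ν
    simp only [pow_zero, mul_one]
    rw [← sum_mul_sum]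
    exact mul_self_nonneg _
  | succ r ih =>
    intro ν
    have : ∑ a ∈ B, ∑ b ∈ B, ν a * ν b * (∑ p ∈ P, w p * (ε a p * ε b p) + c) ^ (r + 1) =
        ∑ q ∈ P, w q * ∑ a ∈ B, ∑ b ∈ B, ν a * ε a q * (ν b * ε b q) *
          (∑ p ∈ P, w p * (ε a p * ε b p) + c) ^ r +
        c * ∑ a ∈ B, ∑ b ∈ B, ν a * ν b * (∑ p ∈ P, w p * (ε a p * ε b p) + c) ^ r := by
      simp only [mul_sum]
      rw [sum_comm (s := P), ← sum_add_distrib]
      refine sum_congr rfl fun a _ => ?_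
      rw [sum_comm (s := P), ← sum_add_distrib]
      refine sum_congr rfl fun b _ => ?_
      rw [pow_succ, ← mul_assoc, mul_add, mul_sum]
      congr 1
      · exact sum_congr rfl fun _ _ => by ring
      · ring
    rw [this]
    exact add_nonneg (sum_nonneg fun q hq => mul_nonneg (hw q hq) (ih _)) (mul_nonneg hc (ih _))

open Classical in
/-- The sign of a condition. -/
noncomputable def sg (P : Prop) : ℝ := if P then -1 else 1

/-- The moment of a sum of `d` signs, times `2^d`. -/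
noncomputable def Mo (d r : ℕ) : ℝ := ∑ a ∈ range (d + 1), (d.choose a : ℝ) * ((d : ℝ) - 2 * a) ^ r

lemma Mo_two (d : ℕ) : Mo d 2 = 2 ^ d * d := by
  have : ∀ x : ℝ, ∑ a ∈ range (d + 1), (d.choose a : ℝ) * (x + d - 2 * a) ^ 2 =
      2 ^ d * (x ^ 2 + d) := by
    induction d with
    | zero => simp
    | succ d ih =>
      intro x
      rw [sum_choose_succ_mul fun a _ => (x + (d + 1 : ℕ) - 2 * a) ^ 2]
      have h1 := ih (x + 1)
      have h2 := ih (x - 1)
      rw [sum_congr rfl (g := fun a => (d.choose a : ℝ) * (x + 1 + d - 2 * a) ^ 2)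
        fun a _ => by push_cast; ring, h1, sum_congr rfl
        (g := fun a => (d.choose a : ℝ) * (x - 1 + d - 2 * a) ^ 2) fun a _ => by push_cast; ring, h2]
      push_cast; ring
  simpa [Mo] using this 0

lemma moment {d : ℕ} [NeZero d] (w : ZMod d → ℝ) {r : ℕ} (hr : Even r) (c : ℝ) :
    ((∑ p, w p) / d) ^ r * Mo d r ≤ ∑ T : Finset (ZMod d), (∑ p, w p * sg (p ∈ T) + c) ^ r := by
  have hd : (0 : ℝ) < d := by exact_mod_cast NeZero.pos d
  have h1 : ∑ T : Finset (ZMod d), (∑ p, w p * sg (p ∈ T)) ^ r ≤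
      ∑ T : Finset (ZMod d), (∑ p, w p * sg (p ∈ T) + c) ^ r := by
    have e : ∑ T : Finset (ZMod d), (∑ p, w p * sg (p ∈ T) - c) ^ r =
        ∑ T : Finset (ZMod d), (∑ p, w p * sg (p ∈ T) + c) ^ r := by
      refine Fintype.sum_bijective _ compl_involutive.bijective _ _ fun T => ?_
      rw [← hr.neg_pow, neg_sub, sub_eq_neg_add, ← sum_neg_distrib]
      congr 2
      refine sum_congr rfl fun p _ => ?_
      by_cases h : p ∈ T <;> simp [sg, h]
    refine le_of_mul_le_mul_left ?_ two_pos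
    rw [two_mul (∑ T, (_ + c) ^ r)]
    nth_rewrite 2 [← e]
    rw [← sum_add_distrib, mul_sum]
    refine sum_le_sum fun T _ => ?_
    generalize ∑ p, w p * sg (p ∈ T) = x
    have := hr.convexOn_pow.2 (Set.mem_univ (x + c)) (Set.mem_univ (x - c))
      (by norm_num : (0 : ℝ) ≤ 1 / 2) (by norm_num : (0 : ℝ) ≤ 1 / 2) (by norm_num)
    simp only [smul_eq_mul] at this
    rw [show 1 / 2 * (x + c) + 1 / 2 * (x - c) = x by ring] at this
    linarith
  refine le_trans ?_ h1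
  have h2 : Mo d r = ∑ T : Finset (ZMod d), (∑ p, sg (p ∈ T)) ^ r := by
    have := sum_powerset_apply_card (x := (univ : Finset (ZMod d)))
      fun a => ((d : ℝ) - 2 * a) ^ r
    simp only [powerset_univ, card_univ, ZMod.card, nsmul_eq_mul] at this
    rw [Mo, ← this]
    refine sum_congr rfl fun T _ => congrArg (· ^ r) ?_
    rw [sum_congr rfl (g := fun p => 1 - 2 * if p ∈ T then (1 : ℝ) else 0)
      fun p _ => by unfold sg; split_ifs <;> norm_num, sum_sub_distrib, ← mul_sum]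
    simp
  have h3 : ∀ t : ZMod d, ∑ T : Finset (ZMod d), (∑ p, w (p + t) * sg (p ∈ T)) ^ r =
      ∑ T : Finset (ZMod d), (∑ p, w p * sg (p ∈ T)) ^ r := fun t =>
    Fintype.sum_equiv (Equiv.addRight t).finsetCongr _ _ fun T => congrArg (· ^ r)
      (Fintype.sum_equiv (Equiv.addRight t) _ _ fun p => by simp [sg])
  calc _ = ∑ T : Finset (ZMod d), (∑ t : ZMod d, (d : ℝ)⁻¹ • ∑ p, w (p + t) * sg (p ∈ T)) ^ r := by
        rw [h2, mul_sum]
        refine sum_congr rfl fun T _ => ?_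
        rw [← mul_pow, ← smul_sum, sum_comm, smul_eq_mul, div_eq_inv_mul, mul_assoc, mul_sum]
        congr 2
        refine sum_congr rfl fun p _ => ?_
        rw [← sum_mul, ← Equiv.sum_comp (Equiv.addLeft p) w]
        rfl
    _ ≤ ∑ T : Finset (ZMod d), ∑ t : ZMod d, (d : ℝ)⁻¹ • (∑ p, w (p + t) * sg (p ∈ T)) ^ r :=
        sum_le_sum fun T _ => hr.convexOn_pow.map_sum_le (fun _ _ => by positivity)
          (by simp [hd.ne']) fun _ _ => Set.mem_univ _
    _ = _ := by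
        rw [sum_comm]
        simp only [← smul_sum, h3]
        simp [hd.ne']

lemma welch0 {d : ℕ} [NeZero d] {w : ZMod d → ℝ} (hw : ∀ p, 0 ≤ w p) {r : ℕ} (hr : Even r) {c : ℝ}
    (hc : 0 ≤ c) (A : Finset ℕ) (σ : ℕ → Finset (ZMod d)) :
    (A.card : ℝ) ^ 2 * (((∑ p, w p) / d) ^ r * Mo d r) ≤
      2 ^ d * ∑ a ∈ A, ∑ b ∈ A, (∑ p, w p * (sg (p ∈ σ a) * sg (p ∈ σ b)) + c) ^ r := by
  set M := ∑ T : Finset (ZMod d), (∑ p, w p * sg (p ∈ T) + c) ^ r with hM
  have h1 : ∀ S : Finset (ZMod d),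
      ∑ T : Finset (ZMod d), (∑ p, w p * (sg (p ∈ S) * sg (p ∈ T)) + c) ^ r = M := fun S =>
    Fintype.sum_bijective _ (symmDiff_right_involutive S).bijective _ _ fun T => by
      congr 2
      refine sum_congr rfl fun p _ => ?_
      by_cases h : p ∈ S <;> by_cases h' : p ∈ T <;> simp [sg, h, h', mem_symmDiff]
  have h2 := posdef (A.disjSum (univ : Finset (Finset (ZMod d)))) univ (fun p _ => hw p)
    (fun x p => sg (p ∈ Sum.elim σ id x)) hc r
    (Sum.elim (fun _ => 2 ^ d) fun _ => -A.card)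
  have h1' : ∀ S : Finset (ZMod d),
      ∑ T : Finset (ZMod d), (∑ p, w p * (sg (p ∈ T) * sg (p ∈ S)) + c) ^ r = M := fun S => by
    simpa only [mul_comm (sg (_ ∈ S))] using h1 S
  simp only [sum_disjSum, Sum.elim_inl, Sum.elim_inr, id, sum_add_distrib, ← mul_sum] at h2
  rw [sum_comm (s := univ) (t := A)] at h2
  simp only [h1, h1', sum_const, card_univ,
    Fintype.card_finset, ZMod.card, nsmul_eq_mul] at h2
  push_cast at h2
  have h3 : (0 : ℝ) < 2 ^ d := by positivity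
  refine (mul_le_mul_of_nonneg_left (moment w hr c) (by positivity)).trans
    (le_of_mul_le_mul_left ?_ h3)
  linarith

lemma welch {d : ℕ} {P : Finset ℕ} (hd : P.card ≤ d) (hd0 : d ≠ 0) {w : ℕ → ℝ}
    (hw : ∀ p ∈ P, 0 ≤ w p) {r : ℕ} (hr : Even r) {c : ℝ} (hc : 0 ≤ c) (A : Finset ℕ) :
    (A.card : ℝ) ^ 2 * (((∑ p ∈ P, w p) / d) ^ r * Mo d r) ≤
      2 ^ d * ∑ a ∈ A, ∑ b ∈ A, (∑ p ∈ P, w p * (sg (p ∣ a) * sg (p ∣ b)) + c) ^ r := by
  have : NeZero d := ⟨hd0⟩
  obtain ⟨e⟩ := Function.Embedding.nonempty_of_card_le (α := P) (β := ZMod d) (by simpa using hd)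
  have h1 : ∀ F : ZMod d → ℝ, ∑ x, (∑ p : P, if e p = x then w p else 0) * F x =
      ∑ p : P, w p * F (e p) := by
    intro F
    simp only [sum_mul]
    rw [sum_comm]
    simp
  have h := welch0 (w := fun x => ∑ p : P, if e p = x then w p else 0)
    (fun x => sum_nonneg fun p _ => by split_ifs; exacts [hw p p.2, le_rfl]) hr hc A
    fun a => (univ.filter fun p : P => (p : ℕ) ∣ a).map e
  have h2 := h1 fun _ => 1
  simp only [mul_one] at h2
  simp only [h1, h2, mem_map', mem_filter, mem_univ, true_and] at h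
  simp only [← sum_coe_sort P]
  convert h using 1

end Pool.Agent.P.MP_d9fb17_nt
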