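import Pool.Agent.P.MP_d9fb17_nt.CBound
import Pool.Agent.P.MP_d9fb17_nt.CWelch

/-! Counting the multiples of `e` with a bounded ratio. -/

namespace Pool.Agent.P.MP_d9fb17_nt

open Finset

/-- Product of the prime powers of `q` selected by a condition. -/
noncomputable def pp (q : ℕ) (C : ℕ → Prop) [DecidablePred C] : ℕ :=
  ∏ p ∈ q.primeFactors.filter C, p ^ q.factorization p

lemma pp_mul {q : ℕ} (hq : q ≠ 0) (C : ℕ → Prop) [DecidablePred C] :
    pp q C * pp q (fun p => ¬ C p) = q := by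
  unfold pp
  rw [prod_filter_mul_prod_filter_not]
  exact Nat.prod_factorization_pow_eq_self hq

lemma pp_dvd {q x : ℕ} (C : ℕ → Prop) [DecidablePred C]
    (h : ∀ p, p.Prime → C p → p ∣ q → p ^ q.factorization p ∣ x) : pp q C ∣ x := by
  refine Finset.prod_dvd_of_isRelPrime (fun p hp r hr hpr => ?_) fun p hp => ?_
  · exact Nat.coprime_iff_isRelPrime.1 (Nat.Coprime.pow _ _ ((Nat.coprime_primes
      (Nat.prime_of_mem_primeFactors (mem_filter.1 hp).1)
      (Nat.prime_of_mem_primeFactors (mem_filter.1 hr).1)).2 hpr))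
  · exact h p (Nat.prime_of_mem_primeFactors (mem_filter.1 hp).1) (mem_filter.1 hp).2
      (Nat.dvd_of_mem_primeFactors (mem_filter.1 hp).1)

lemma pow_side {q p a : ℕ} (hp : p.Prime) (h : q ∣ Q a) :
    (p ∣ a → p ^ q.factorization p ∣ a) ∧ (¬ p ∣ a → p ^ q.factorization p ∣ a + 1) := by
  have h1 := (Nat.ordProj_dvd q p).trans h
  constructor <;> intro h2
  · refine Nat.Coprime.dvd_of_dvd_mul_right (Nat.Coprime.pow_left _ ?_) h1
    exact Nat.Coprime.coprime_dvd_left h2 (by simp)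
  · exact Nat.Coprime.dvd_of_dvd_mul_left
      (Nat.Coprime.pow_left _ ((Nat.Prime.coprime_iff_not_dvd hp).2 h2)) h1

lemma pp_agree {q a b : ℕ} (ha : q ∣ Q a) (hb : q ∣ Q b) :
    pp q (fun p => p ∣ a ↔ p ∣ b) ∣ a - b := by
  refine pp_dvd _ fun p hp h _ => ?_
  by_cases h1 : p ∣ a
  · exact Nat.dvd_sub ((pow_side hp ha).1 h1) ((pow_side hp hb).1 (h.1 h1))
  · have := Nat.dvd_sub ((pow_side hp ha).2 h1) ((pow_side hp hb).2 (mt h.2 h1))
    rwa [Nat.add_sub_add_right] at this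

lemma pp_dis {q a b : ℕ} (ha : q ∣ Q a) (hb : q ∣ Q b) :
    pp q (fun p => ¬ (p ∣ a ↔ p ∣ b)) ∣ a + b + 1 := by
  refine pp_dvd _ fun p hp h _ => ?_
  by_cases h1 : p ∣ a
  · rw [add_assoc]
    exact dvd_add ((pow_side hp ha).1 h1) ((pow_side hp hb).2 (by tauto))
  · rw [add_right_comm]
    exact dvd_add ((pow_side hp ha).2 h1) ((pow_side hp hb).1 (by tauto))

/-- The weighted inner product of two sign vectors. -/
noncomputable def ip (q a b : ℕ) : ℝ := ∑ p ∈ q.primeFactors,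
  Real.log ((p : ℝ) ^ q.factorization p) * (sg (p ∣ a) * sg (p ∣ b))

lemma log_pp (q : ℕ) (C : ℕ → Prop) [DecidablePred C] : Real.log (pp q C) =
    ∑ p ∈ q.primeFactors.filter C, Real.log ((p : ℝ) ^ q.factorization p) := by
  unfold pp
  push_cast
  refine Real.log_prod fun p hp => pow_ne_zero _ ?_
  exact_mod_cast (Nat.pos_of_mem_primeFactors (mem_filter.1 hp).1).ne'

lemma ip_eq (q a b : ℕ) : ip q a b = Real.log (pp q fun p => p ∣ a ↔ p ∣ b) -
    Real.log (pp q fun p => ¬ (p ∣ a ↔ p ∣ b)) := by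
  rw [log_pp, log_pp, sum_filter, sum_filter, ← sum_sub_distrib]
  refine sum_congr rfl fun p _ => ?_
  by_cases h : p ∣ a <;> by_cases h' : p ∣ b <;> simp [sg, h, h']

lemma log_sum (q : ℕ) :
    ∑ p ∈ q.primeFactors, Real.log ((p : ℝ) ^ q.factorization p) = Real.log q := by
  simp only [Real.log_pow]
  exact (Real.log_nat_eq_sum_factorization q).symm

lemma ip_self (q a : ℕ) : ip q a a = Real.log q := by
  rw [← log_sum]
  refine sum_congr rfl fun p _ => ?_
  by_cases h : p ∣ a <;> simp [sg, h]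

lemma ip_comm (q a b : ℕ) : ip q a b = ip q b a :=
  sum_congr rfl fun p _ => by rw [mul_comm (sg _)]

lemma log_w (q : ℕ) : ∀ p ∈ q.primeFactors, 0 ≤ Real.log ((p : ℝ) ^ q.factorization p) :=
  fun p hp => Real.log_nonneg (one_le_pow₀ (by exact_mod_cast Nat.pos_of_mem_primeFactors hp))

lemma log_diff {A B x y : ℕ} (hA : 0 < A) (hB : 0 < B) (hy : 0 < y) (h : A * y ≤ B * x) :
    Real.log A - Real.log B ≤ Real.log x - Real.log y := by
  have hx : 0 < x := Nat.pos_of_ne_zero fun h0 => by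
    have := Nat.mul_pos hA hy
    simp only [h0] at h
    omega
  have := Real.log_le_log (by positivity : (0 : ℝ) < (A * y : ℕ)) (Nat.cast_le.2 h)
  push_cast at this
  rw [Real.log_mul (by positivity) (by positivity), Real.log_mul (by positivity) (by positivity)]
    at this
  linarith

lemma ip_off {q a b k : ℕ} (hq : 0 < q) (hab : b < a) (ha : Q a = k * q) (hb : q ∣ Q b) :
    |ip q a b + Real.log 2| ≤ Real.log k + Real.log 2 := by
  have ha' : q ∣ Q a := Dvd.intro_left _ ha.symm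
  have h1 := Nat.le_of_dvd (by omega) (pp_agree ha' hb)
  have h2 := Nat.le_of_dvd (by omega) (pp_dis ha' hb)
  have h3 := pp_mul hq.ne' fun p => p ∣ a ↔ p ∣ b
  rw [ip_eq]
  generalize pp q (fun p => p ∣ a ↔ p ∣ b) = A at *
  generalize pp q (fun p => ¬ (p ∣ a ↔ p ∣ b)) = B at *
  have hA : 0 < A := Nat.pos_of_mul_pos_right (h3 ▸ hq)
  have hB : 0 < B := Nat.pos_of_mul_pos_left (h3 ▸ hq)
  unfold Q at ha
  have h4 := log_diff (x := k) hA hB one_pos (Nat.le_of_mul_le_mul_left (by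
    have := Nat.mul_le_mul (h1.trans (Nat.sub_le _ _)) (h1.trans (by omega : _ ≤ a + 1))
    nlinarith) hA)
  have h5 := log_diff (x := 2 ^ 2 * k) hB hA one_pos (Nat.le_of_mul_le_mul_left (by
    have := Nat.mul_le_mul (h2.trans (by omega : _ ≤ 2 * a)) (h2.trans (by omega : _ ≤ 2 * (a + 1)))
    nlinarith) hB)
  have hk : (k : ℝ) ≠ 0 := by
    rintro h
    rw [Nat.cast_eq_zero.1 h] at ha
    nlinarith
  push_cast at h4 h5
  rw [show (4 : ℝ) = 2 ^ 2 by norm_num, Real.log_mul (by norm_num) hk, Real.log_pow] at h5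
  rw [Real.log_one] at h4 h5
  push_cast at h5
  exact abs_le.2 ⟨by linarith, by linarith⟩

lemma rt_le {e : ℕ} (he : 1 ≤ e) : rt e ≤ 2 ^ (Q e).primeFactors.card := by
  rw [← card_powerset]
  refine card_le_card_of_injOn (fun x => (Q e).primeFactors.filter (· ∣ x))
    (fun x _ => mem_coe.2 (mem_powerset.2 (filter_subset _ _))) fun a ha b hb h => ?_
  wlog hab : b ≤ a generalizing a b
  · exact (this b hb a ha h.symm (by omega)).symm
  simp only [coe_filter, mem_range, Set.mem_ofPred_eq] at ha hb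
  have h1 := pp_agree ha.2 hb.2
  have h2 := pp_mul (Q_pos he).ne' fun p => p ∣ a ↔ p ∣ b
  rw [pp, filter_true_of_mem fun p hp => by simpa [hp] using Finset.ext_iff.1 h p] at h1
  replace h1 : Q e ∣ a - b := Nat.prod_factorization_pow_eq_self (Q_pos he).ne' ▸ h1
  have := Nat.eq_zero_of_dvd_of_lt h1 (by omega)
  omega

/-- The multiples of `e` up to `X` whose ratio lies in a cell of index at most `j`. -/
noncomputable def Up (e X j : ℕ) : Finset ℕ :=
  (Ioc e X).filter fun n => Q e ∣ Q n ∧ ci (lab n e) ≤ j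

lemma mem_Up {e X j n : ℕ} : n ∈ Up e X j ↔ (e < n ∧ n ≤ X) ∧ Q e ∣ Q n ∧ ci (lab n e) ≤ j := by
  simp [Up]

lemma two_le_lab {e n : ℕ} (h : e < n) (hd : Q e ∣ Q n) : 2 ≤ lab n e := by
  have h1 := lab_mul hd
  have h2 := Q_strictMono h
  by_contra h3
  have := Nat.mul_le_mul_right (Q e) (by omega : lab n e ≤ 1)
  omega

lemma mem_ins {e X j n : ℕ} (he : 1 ≤ e) (h : n ∈ insert e (Up e X j)) :
    1 ≤ n ∧ Q e ∣ Q n ∧ lab n e ^ 2 < 2 ^ (j + 1) := by
  rcases mem_insert.1 h with rfl | h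
  · exact ⟨he, dvd_rfl, by rw [lab_self he]; exact Nat.one_lt_two_pow (by omega)⟩
  · obtain ⟨h1, h2, h3⟩ := mem_Up.1 h
    exact ⟨by omega, h2, (ci_lt (lab_pos (by omega) h2)).1 (by omega)⟩

variable {e X i j d : ℕ}

lemma up_welch (he : 1 ≤ e) (hi0 : 0 < i) (hi : i ≤ ci (Q e))
    (hd : (Q e).primeFactors.card ≤ d) {r : ℕ} (hr : Even r) :
    ((Up e X j).card + 1) * (Mo d r * i ^ r) ≤
      2 ^ d * d ^ r * ((i + 2) ^ r + (Up e X j).card * (j + 3) ^ r) := by
  have hq := Q_pos he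
  have hd0 : 0 < d := (card_pos.2 ⟨2, Nat.mem_primeFactors.2
    ⟨Nat.prime_two, Q_one_dvd e, hq.ne'⟩⟩).trans_le hd
  have hl := Real.log_pos one_lt_two
  have h := welch hd hd0.ne' (log_w (Q e)) hr hl.le (insert e (Up e X j))
  have h0 : e ∉ Up e X j := fun h => lt_irrefl _ (mem_Up.1 h).1.1
  have hi1 : (0 : ℝ) < i := by exact_mod_cast hi0
  have hL : i * Real.log 2 ≤ 2 * Real.log (Q e) := by
    have := Real.log_le_log (by positivity) (Nat.cast_le (α := ℝ).2 ((le_ci hq).1 hi))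
    push_cast at this
    simpa using this
  rw [log_sum] at h
  change _ ≤ _ * ∑ a ∈ _, ∑ b ∈ _, (ip (Q e) a b + _) ^ r at h
  obtain ⟨t, ht⟩ : ∃ t, Real.log (Q e) = i * t := ⟨Real.log (Q e) / i, by field_simp⟩
  have ht2 : Real.log 2 ≤ 2 * t := by
    refine le_of_mul_le_mul_left ?_ hi1
    rw [ht] at hL
    linarith
  have h1 : ∀ a ∈ insert e (Up e X j), ∑ b ∈ insert e (Up e X j), (ip (Q e) a b + Real.log 2) ^ r ≤
      t ^ r * ((i + 2) ^ r + (Up e X j).card * (j + 3) ^ r) := by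
    intro a ha
    rw [← add_sum_erase _ _ ha, ip_self, mul_add, ← mul_pow, mul_left_comm, ← mul_pow]
    refine add_le_add (pow_le_pow_left₀ (by rw [ht]; nlinarith) (by rw [ht]; linarith) r)
      ((sum_le_card_nsmul _ _ ((t * (j + 3)) ^ r) fun b hb => ?_).trans_eq ?_)
    · have key : ∀ a ∈ insert e (Up e X j), ∀ b ∈ insert e (Up e X j), b < a →
          (ip (Q e) a b + Real.log 2) ^ r ≤ (t * (j + 3)) ^ r := by
        intro a ha b hb hab
        obtain ⟨a1, a2, a3⟩ := mem_ins he ha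
        have h2 := Real.log_le_log (by exact_mod_cast pow_pos (lab_pos a1 a2) 2)
          (Nat.cast_le (α := ℝ).2 a3.le)
        push_cast at h2
        rw [Real.log_pow, Real.log_pow] at h2
        push_cast at h2
        rw [← hr.pow_abs]
        refine pow_le_pow_left₀ (abs_nonneg _) ((ip_off hq hab (lab_mul a2).symm
          (mem_ins he hb).2.1).trans ?_) r
        nlinarith [mul_le_mul_of_nonneg_left ht2 (by positivity : (0 : ℝ) ≤ j + 3)]
      rcases lt_or_gt_of_ne (ne_of_mem_erase hb) with h2 | h2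
      · exact key a ha b (mem_of_mem_erase hb) h2
      · rw [ip_comm]
        exact key b (mem_of_mem_erase hb) a ha h2
    · rw [card_erase_of_mem ha, card_insert_of_notMem h0, nsmul_eq_mul, Nat.add_sub_cancel]
  replace h := h.trans (mul_le_mul_of_nonneg_left (sum_le_card_nsmul _ _ _ h1) (by positivity))
  rw [card_insert_of_notMem h0, nsmul_eq_mul, ht, div_pow, mul_pow] at h
  push_cast at h
  have ht0 : 0 < t := by linarith
  have hd1 : (0 : ℝ) < d := by exact_mod_cast hd0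
  refine le_of_mul_le_mul_left ?_
    (by positivity : 0 < (((Up e X j).card : ℝ) + 1) * t ^ r / d ^ r)
  convert h using 1 <;> field_simp

lemma moA_eq (d : ℕ) {r : ℕ} (hr : Even r) (fuel : ℕ) : ∀ a, (moA d r fuel a (d.choose a) : ℝ) =
    ∑ k ∈ range fuel, (d.choose (a + k) : ℝ) * ((d : ℝ) - 2 * (a + k : ℕ)) ^ r := by
  induction fuel with
  | zero => intro a; simp [moA]
  | succ fuel ih =>
    intro a
    change ((d.choose a * (d - 2 * a + (2 * a - d)) ^ r +
      moA d r fuel (a + 1) (d.choose a * (d - a) / (a + 1)) : ℕ) : ℝ) = _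
    rw [← Nat.choose_succ_right_eq, Nat.mul_div_cancel _ (Nat.succ_pos a), sum_range_succ',
      Nat.cast_add, ih, add_comm]
    simp only [add_assoc, add_comm 1, add_zero]
    congr 1
    rw [Nat.cast_mul, Nat.cast_pow, ← hr.pow_abs ((d : ℝ) - _)]
    congr 2
    have : ((d - 2 * a + (2 * a - d) : ℕ) : ℤ) = |(d : ℤ) - 2 * a| := by
      rcases abs_cases ((d : ℤ) - 2 * a) with h | h <;> omega
    exact_mod_cast this

lemma mo_eq (d : ℕ) {r : ℕ} (hr : Even r) : (mo d r : ℝ) = Mo d r := by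
  simpa [Mo, mo] using moA_eq d hr (d + 1) 0

lemma up_half (he : 1 ≤ e) (hi : i ≤ ci (Q e)) (hj : j + 5 ≤ i) :
    (Up e X j).card + 1 ≤ 2 ^ ((Q e).primeFactors.card - 1) := by
  have hq := Q_pos he
  have h2 : 2 ∈ (Q e).primeFactors := Nat.mem_primeFactors.2 ⟨Nat.prime_two, Q_one_dvd e, hq.ne'⟩
  rw [← card_erase_of_mem h2, ← card_powerset,
    ← card_insert_of_notMem fun h => lt_irrefl _ (mem_Up.1 h).1.1]
  refine card_le_card_of_injOn
    (fun x => ((Q e).primeFactors.erase 2).filter fun p => p ∣ x ↔ 2 ∣ x)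
    (fun x _ => mem_coe.2 (mem_powerset.2 (filter_subset _ _))) fun a ha b hb h => ?_
  wlog hab : b < a generalizing a b
  · by_contra h3
    exact h3 (this b hb a ha h.symm (by omega)).symm
  exfalso
  obtain ⟨a1, a2, a3⟩ := mem_ins he ha
  have h3 : ∀ p ∈ (Q e).primeFactors, ((p ∣ a ↔ 2 ∣ a) ↔ (p ∣ b ↔ 2 ∣ b)) := by
    intro p hp
    by_cases h4 : p = 2
    · simp [h4]
    · simpa [hp, h4] using Finset.ext_iff.1 h p
  have h4 : Q e ≤ 2 * a := by
    have h5 := Nat.prod_factorization_pow_eq_self hq.ne'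
    by_cases h6 : 2 ∣ a ↔ 2 ∣ b
    · have h7 := pp_agree a2 (mem_ins he hb).2.1
      rw [pp, filter_true_of_mem fun p hp => by have := h3 p hp; tauto] at h7
      have := Nat.le_of_dvd (by omega) (h5 ▸ h7 : Q e ∣ a - b)
      omega
    · have h7 := pp_dis a2 (mem_ins he hb).2.1
      rw [pp, filter_true_of_mem fun p hp => by have := h3 p hp; tauto] at h7
      have := Nat.le_of_dvd (by omega) (h5 ▸ h7 : Q e ∣ a + b + 1)
      omega
  have h5 := lab_mul a2
  have h6 : Q e ≤ 4 * lab a e := Nat.le_of_mul_le_mul_right (by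
    have := Nat.mul_le_mul h4 (h4.trans (by omega : _ ≤ 2 * (a + 1)))
    unfold Q at h5 this ⊢
    nlinarith) hq
  have h7 := (Nat.pow_le_pow_right two_pos hj).trans (((le_ci hq).1 hi).trans
    (Nat.pow_le_pow_left h6 2))
  rw [mul_pow, show j + 5 = j + 1 + 4 from rfl, pow_add] at h7
  omega

lemma up_per (he : 1 ≤ e) (hi : i ≤ ci (Q e)) {t : ℕ} (ht : j + 1 ≤ i + 4 * t) :
    (Up e X j).card ≤ rt e * 2 ^ t := by
  have hq := Q_pos he
  rw [rt, ← card_range (2 ^ t), ← card_product]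
  refine card_le_card_of_injOn (fun n => (n % Q e, n / Q e)) (fun n hn => ?_) fun a _ b _ h => ?_
  · obtain ⟨a1, a2, a3⟩ := mem_ins he (mem_insert_of_mem hn)
    simp only [coe_product, coe_filter, mem_range, Set.mem_prod, Set.mem_ofPred_eq, coe_range,
      Set.mem_Iio]
    refine ⟨⟨Nat.mod_lt _ hq, (Q_congr (Nat.mod_modEq _ _)).2 a2⟩, Nat.div_lt_of_lt_mul
      (lt_of_pow_lt_pow_left₀ 4 (Nat.zero_le _) ?_)⟩
    calc n ^ 4 = (n * n) ^ 2 := by ring
      _ ≤ (lab n e * Q e) ^ 2 := by rw [lab_mul a2, Q]; gcongr; omega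
      _ < 2 ^ (i + 4 * t) * Q e ^ 2 := by
        rw [mul_pow]
        exact Nat.mul_lt_mul_of_pos_right (a3.trans_le (Nat.pow_le_pow_right two_pos ht))
          (by positivity)
      _ ≤ Q e ^ 2 * 2 ^ (4 * t) * Q e ^ 2 := by
        have := (le_ci hq).1 hi
        rw [pow_add]
        gcongr
      _ = _ := by ring
  · rw [← Nat.mod_add_div a (Q e), ← Nat.mod_add_div b (Q e), (Prod.mk.inj h).1, (Prod.mk.inj h).2]

theorem Tabs.cnt (T : Tabs) (he : 1 ≤ e) (hi0 : 0 < i) (hi : i ≤ ci (Q e))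
    (hd : (Q e).primeFactors.card ≤ d) (hj : j < 449) : (Up e X j).card ≤ cnt i d j := by
  have h0 : (Up e X j).card ≤ cnt0 i d j := by
    unfold cnt0
    rw [mn_eq, rec_ble]
    refine le_min ?_ ?_
    · change _ ≤ Pool.Agent.P.MP_d9fb17_nt.kl (j + 1) - 2
      rw [← Nat.card_Ico]
      refine card_le_card_of_injOn (fun n => lab n e) (fun n hn => ?_) fun a ha b hb h => ?_
      · obtain ⟨h1, h2, h3⟩ := mem_Up.1 hn
        have h4 := two_le_lab h1.1 h2
        exact mem_coe.2 (mem_Ico.2 ⟨h4, not_le.1 fun h =>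
          absurd ((T.kl _ (by omega) (lab n e) (by omega)).1 h) (by omega)⟩)
      · exact Q_inj (by rw [← lab_mul (mem_Up.1 ha).2.1, ← lab_mul (mem_Up.1 hb).2.1,
          show lab a e = lab b e from h])
    · split_ifs with h
      · have := (up_half (X := X) he hi h).trans
          (Nat.pow_le_pow_right two_pos (Nat.sub_le_sub_right hd 1))
        change _ ≤ 2 ^ (d - 1) - 1
        omega
      · exact (up_per (t := (j + 1 - i + 3) / 4) he hi (by omega)).trans (Nat.mul_le_mul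
          ((rt_le he).trans (Nat.pow_le_pow_right two_pos hd)) (Nat.le_succ _))
  unfold Pool.Agent.P.MP_d9fb17_nt.cnt
  rw [rec_ble]
  split_ifs
  · exact h0
  generalize 8 = s
  induction s with
  | zero => exact h0
  | succ s ih =>
    change _ ≤ wl2 _ (mo d (2 * (s + 1)) * i ^ (2 * (s + 1))) (2 ^ d * d ^ (2 * (s + 1)))
      ((i + 2) ^ (2 * (s + 1))) ((j + 3) ^ (2 * (s + 1)))
    have h1 := up_welch (X := X) (j := j) he hi0 hi hd (even_two_mul (s + 1))
    rw [← mo_eq _ (even_two_mul _)] at h1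
    replace h1 : ((Up e X j).card + 1) * (mo d (2 * (s + 1)) * i ^ (2 * (s + 1))) ≤
        2 ^ d * d ^ (2 * (s + 1)) * ((i + 2) ^ (2 * (s + 1)) +
        (Up e X j).card * (j + 3) ^ (2 * (s + 1))) := by exact_mod_cast h1
    generalize mo d (2 * (s + 1)) * i ^ (2 * (s + 1)) = L at *
    generalize 2 ^ d * d ^ (2 * (s + 1)) = D at *
    generalize (i + 2) ^ (2 * (s + 1)) = A at *
    generalize (j + 3) ^ (2 * (s + 1)) = B at *
    unfold wl2
    rw [rec_ble, mn_eq]
    split_ifs with h2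
    · exact ih
    refine le_min ih (Nat.le_pred_of_lt ((Nat.le_div_iff_mul_le (Nat.sub_pos_of_lt
      (not_le.1 h2))).2 ?_))
    obtain ⟨E, rfl⟩ := Nat.exists_eq_add_of_le (not_le.1 h2).le
    change (_ + 1) * (D * B + E - D * B) ≤ D * (A - B)
    have := Nat.mul_le_mul_left D (le_tsub_add (a := B) (b := A))
    rw [Nat.add_sub_cancel_left]
    rw [Nat.mul_eq] at h1
    linarith

lemma up_plotkin (he : 1 ≤ e) {s : ℕ} (hs : j + 1 ≤ 4 * s) :
    (Up e X j).card ≤ (ci (Q e) + 5) * 2 ^ s := by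
  have hq := Q_pos he
  have hl := Real.log_pos one_lt_two
  have key : ∀ A ⊆ Up e X j, (∀ a ∈ A, ∀ b ∈ A, 2 * (a - b) ≤ e) → 4 * A.card ≤ ci (Q e) + 5 := by
    intro A hA h
    have h1 := posdef A _ (log_w (Q e)) (fun a p => sg (p ∣ a)) le_rfl 1 fun _ => 1
    simp only [mul_one, one_mul, add_zero, pow_one] at h1
    change 0 ≤ ∑ a ∈ A, ∑ b ∈ A, ip (Q e) a b at h1
    have h2 : ∀ a ∈ A, ∀ b ∈ A, b < a → ip (Q e) a b ≤ -(2 * Real.log 2) := by
      intro a ha b hb hab
      have h3 := Nat.le_of_dvd (by omega) (pp_agree (mem_Up.1 (hA ha)).2.1 (mem_Up.1 (hA hb)).2.1)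
      have h4 := pp_mul hq.ne' fun p => p ∣ a ↔ p ∣ b
      have h5 := h a ha b hb
      rw [ip_eq]
      generalize pp (Q e) (fun p => p ∣ a ↔ p ∣ b) = A at *
      generalize pp (Q e) (fun p => ¬ (p ∣ a ↔ p ∣ b)) = B at *
      have hA : 0 < A := Nat.pos_of_mul_pos_right (h4 ▸ hq)
      have := log_diff (x := 1) (y := 2 ^ 2) hA (Nat.pos_of_mul_pos_left (h4 ▸ hq)) four_pos
        (Nat.le_of_mul_le_mul_left (by unfold Q at h4; nlinarith) hA)
      simpa [-Nat.reducePow] using this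
    have h3 : ∀ a ∈ A, ∑ b ∈ A, ip (Q e) a b ≤
        Real.log (Q e) + (A.card - 1 : ℕ) • (-(2 * Real.log 2)) := by
      intro a ha
      rw [← add_sum_erase _ _ ha, ip_self, ← card_erase_of_mem ha]
      refine add_le_add le_rfl (sum_le_card_nsmul _ _ _ fun b hb => ?_)
      rcases lt_or_gt_of_ne (ne_of_mem_erase hb) with h4 | h4
      · exact h2 a ha b (mem_of_mem_erase hb) h4
      · rw [ip_comm]
        exact h2 b (mem_of_mem_erase hb) a ha h4
    rcases Nat.eq_zero_or_pos A.card with h4 | h4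
    · omega
    replace h1 := h1.trans (sum_le_card_nsmul _ _ _ h3)
    rw [nsmul_eq_mul, nsmul_eq_mul, mul_nonneg_iff_of_pos_left (by exact_mod_cast h4)] at h1
    have h5 := Real.log_le_log (by positivity) (Nat.cast_le (α := ℝ).2 (lt_ci (Q e)).le)
    push_cast at h5
    rw [Real.log_pow, Real.log_pow] at h5
    have h6 : ((4 * (A.card - 1) : ℕ) : ℝ) ≤ (ci (Q e) + 1 : ℕ) :=
      le_of_mul_le_mul_right (by rw [Nat.cast_mul]; push_cast at h5 ⊢; linarith) hl
    have := Nat.cast_le.1 h6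
    omega
  have h1 := card_le_mul_card_image_of_maps_to (s := Up e X j) (t := range (2 ^ (s + 2)))
    (f := fun n => n / (e / 2 + 1)) (fun n hn => ?_) ((ci (Q e) + 5) / 4) fun b _ => ?_
  · rw [card_range, pow_add] at h1
    have := Nat.mul_le_mul_right (2 ^ s) (Nat.div_mul_le_self (ci (Q e) + 5) 4)
    nlinarith
  · obtain ⟨a1, a2, a3⟩ := mem_ins he (mem_insert_of_mem hn)
    refine mem_range.2 (Nat.div_lt_of_lt_mul (lt_of_pow_lt_pow_left₀ 4 (Nat.zero_le _) ?_))
    calc n ^ 4 = (n * n) ^ 2 := by ring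
      _ ≤ (lab n e * Q e) ^ 2 := by rw [lab_mul a2, Q]; gcongr; omega
      _ < 2 ^ (4 * s) * Q e ^ 2 := by
        rw [mul_pow]
        exact Nat.mul_lt_mul_of_pos_right (a3.trans_le (Nat.pow_le_pow_right two_pos hs))
          (by positivity)
      _ ≤ 2 ^ (4 * s) * ((4 * (e / 2 + 1)) * (4 * (e / 2 + 1))) ^ 2 := by
        rw [Q]; gcongr <;> omega
      _ = _ := by ring
  · rw [Nat.le_div_iff_mul_le four_pos, mul_comm]
    refine key _ (filter_subset _ _) fun a ha c hc => ?_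
    have h2 := Nat.div_add_mod a (e / 2 + 1)
    have h3 := Nat.div_add_mod c (e / 2 + 1)
    have h4 := Nat.mod_lt a (Nat.add_one_pos (e / 2))
    rw [(mem_filter.1 ha).2] at h2
    rw [(mem_filter.1 hc).2] at h3
    omega

end Pool.Agent.P.MP_d9fb17_nt
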