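import Pool.Agent.P.MP_d9fb17_nt.K1
import Pool.Agent.P.MP_d9fb17_nt.KT
import Pool.Agent.P.MP_d9fb17_nt.KR

/-! The checkers for the table and for the scan of the truncated sums. -/

namespace Pool.Agent.P.MP_d9fb17_nt

noncomputable section

def dup (m e : Nat) (R : List Nat) : List Nat :=
  List.rec (motive := fun _ => List Nat) [] (fun x _ r => x :: Nat.mod (Nat.add x e) m :: r) R
def inv1 (r p q : Nat) : Nat :=
  Nat.sub q (Nat.mod (Nat.pow (Nat.mod r q) (Nat.pred (Nat.sub q (Nat.div q p)))) q)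
def st3 (m c q e : Nat) (R : List Nat) (k : Nat → List Nat → List Nat) : List Nat :=
  Bool.rec [] (k (Nat.div c q) (dup m e R)) (Nat.beq (Nat.mod (Nat.succ e) q) 0)
def st2 (m c p q : Nat) (R : List Nat) (k : Nat → List Nat → List Nat) : List Nat :=
  Bool.rec [] (Bool.rec (st3 m c q (Nat.mul (Nat.div m q) (inv1 (Nat.div m q) p q)) R k) R
    (Nat.beq q c)) (Nat.beq (Nat.land (Nat.shiftRight pm p) 1) 1)
def st1 (m c p : Nat) (R : List Nat) (k : Nat → List Nat → List Nat) : List Nat :=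
  st2 m c p (Nat.gcd c (Nat.pow p 18)) R k
def step (m fuel : Nat) : Nat → List Nat → List Nat :=
  Nat.rec (motive := fun _ => Nat → List Nat → List Nat) (fun _ _ => []) (fun _ ih c R =>
    Bool.rec (st1 m c (orc (Nat.gcd c PR)) R ih) R (Nat.beq (Nat.gcd c PR) 1)) fuel
def half (m : Nat) : List Nat := step m 8 m [0]
def mir (m : Nat) (R : List Nat) : List Nat :=
  List.rec (motive := fun _ => List Nat) [] (fun x _ r => x :: Nat.sub (Nat.pred m) x :: r) R
def len (l : List Nat) : Nat := List.rec (motive := fun _ => Nat) 0 (fun _ _ r => Nat.succ r) l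
def rr (d : Nat) : Nat := Nat.mul 4 (Nat.mul (len (half d)) (len (half (Nat.succ d))))
def hit (d x : Nat) : Nat :=
  Bool.rec (Bool.rec 0 1180591620717411303424 (Nat.ble (Nat.succ d) x))
    (Bool.rec (Nat.succ (Nat.div 4835703278458516698824704 (Nat.mul x x))) 0
      (Nat.ble 134217728 x)) (Nat.ble 262145 x)
def hit2 (d x : Nat) : Nat :=
  Nat.add (hit d x) (hit d (Nat.sub (Nat.pred (Nat.mul d (Nat.succ d))) x))
def inner (d d' a a' tm2 : Nat) (l : List Nat) (acc : Nat) : Nat :=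
  List.rec (motive := fun _ => Nat) acc (fun b _ r =>
    Bool.rec (Nat.add r (hit2 d (Nat.add a (Nat.mul d (Nat.mod (Nat.sub (Nat.add a d') b) d'))))) r
      (Nat.ble tm2 (Nat.mod (Nat.sub a' b) d'))) l
def outer (d d' tm : Nat) (la lb : List Nat) : Nat :=
  List.rec (motive := fun _ => Nat) 0
    (fun a _ r => inner d d' a (Nat.add (Nat.add a d') tm) (Nat.add tm tm) lb r) la
def one2 (d v r q : Nat) : Nat :=
  Nat.add (Nat.mul (Nat.add (Nat.sub v 64) (Nat.sub 64 v)) (Nat.add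
    (outer d (Nat.succ d) (Nat.succ (Nat.div 134217728 d)) (half d)
      (mir (Nat.succ d) (half (Nat.succ d))))
    (Nat.mul r (Nat.add 759266000 (Nat.div 3541774862152233910272 (Nat.mul q d))))))
    (Bool.rec (Nat.mul (Nat.sub 64 v) (Nat.succ (Nat.div (Nat.mul 18446744073709551616 r) q)))
      1267650600228229401496703205376 (Nat.beq r 0))
def one (d v : Nat) : Nat :=
  Bool.rec (one2 d v (rr d) (Nat.mul d (Nat.succ d))) 0 (Nat.beq v 64)
def lv (T i : Nat) : Nat := Nat.land (Nat.shiftRight T (Nat.mul 16 i)) 127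
def en (c : Nat) : Nat :=
  sumTo (fun a => sumTo (fun b => one (Nat.succ (Nat.add (Nat.mul 4096 c) (Nat.add (Nat.mul 64 a) b)))
    (lv (tab.getD c 0) (Nat.add (Nat.mul 64 a) b))) 64) 64
def tv (d : Nat) : Nat := lv (tab.getD ((d - 1) / 4096) 0) ((d - 1) % 4096)

def ones (n : Nat) : Nat := Nat.div (Nat.shiftLeft 1 (Nat.mul 16 n)) 65535
def o26 (n : Nat) : Nat := Nat.div (Nat.shiftLeft 1 (Nat.mul 26 n)) 67108863
def cn (s r x : Nat) : Nat := Nat.mod (Nat.land (Nat.shiftRight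
  (Nat.sub (Nat.mul (Nat.add 33554431 s) (o26 r)) x) 25) (o26 r)) 67108863
def get (y : Nat) : Nat := Nat.land y 67108863
def run1 (m s e z : Nat) (k : Nat → Nat) (acc : Nat) : Nat :=
  Bool.rec (k (Bool.rec acc (Nat.add acc (Nat.shiftLeft m (Nat.mul 16 (Nat.sub z s))))
    (Nat.ble s z))) acc (Nat.ble e z)
def run (m s e t fuel : Nat) : Nat → Nat → Nat :=
  Nat.rec (motive := fun _ => Nat → Nat → Nat) (fun _ acc => acc) (fun _ ih y acc =>
    run1 m s e (Nat.add (get y) t) (ih (Nat.shiftRight y 26)) acc) fuel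
def start (s c x : Nat) : Nat :=
  Bool.rec c 0 (Nat.ble s (get (Nat.shiftRight x (Nat.mul 26 (Nat.pred c)))))
def win2 (s e m r x c acc : Nat) : Nat :=
  run m s e 0 (Nat.sub r c) (Nat.shiftRight x (Nat.mul 26 c)) acc
def win1 (s e m q r x acc : Nat) : Nat :=
  win2 s e m r x (start s (mn r (cn s r x)) x)
    (Bool.rec (run m s e q r x acc) acc (Nat.ble e q))
def win (s n m q r x acc : Nat) : Nat := win1 s (Nat.add s n) m q r x acc
def dbl (n fuel : Nat) : Nat → Nat → Nat :=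
  Nat.rec (motive := fun _ => Nat → Nat → Nat) (fun _ p => p) (fun _ ih q p =>
    Bool.rec (ih (Nat.add q q) (Nat.add p (Nat.shiftLeft p (Nat.mul 16 q)))) p (Nat.ble n q)) fuel
def onp (a n : Nat) (e : En) (acc : Nat) : Nat :=
  Bool.rec
    (Nat.add acc (Nat.mod (dbl n n e.q (win (Nat.mod a e.q) e.q e.m e.q e.r e.x 0))
      (Nat.shiftLeft 1 (Nat.mul 16 n))))
    (win (Nat.mod a e.q) n e.m e.q e.r e.x acc) (Nat.ble n e.q)
def tot (a n : Nat) (l : List En) : Nat :=
  List.rec (motive := fun _ => Nat) 0 (fun e _ r => onp a n e r) l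
def rl2 (y k : Nat) : Nat :=
  sumTo (fun b => Nat.mul (Nat.pow 2 b) (Nat.mod (Nat.land (Nat.shiftRight y b) k) 65535)) 12
def rl1 (y : Nat) : Nat := rl2 y (Nat.land (Nat.shiftRight y 12) (ones 32768))
def rl (p n o : Nat) : Nat := rl1 (Nat.sub (Nat.add p (Nat.mul o (ones 32768))) n)
def chkP1 (p n : Nat) : Bool :=
  Nat.ble (rl p n 4097 + rl n p 4095) 16296 && Nat.ble (rl p n 4093 + rl n p 4091) 201
def chkP (k : Nat) : Bool :=
  chkP1 (tot (262145 + 32768 * k) 32768 posL) (tot (262145 + 32768 * k) 32768 negL)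
def hs (a : Nat) (g : Nat → Nat) (l : List (Nat × Nat)) : Nat :=
  List.rec (motive := fun _ => Nat) 0 (fun e _ r =>
    Bool.rec r (Bool.rec (r + g (tv e.1) * 65536 ^ (e.2 - a)) r (Nat.ble (a + 4096) e.2))
      (Nat.ble a e.2)) l
def chkT (c : Nat) : Bool :=
  Nat.beq (Nat.land (tab.getD c 0) (127 * ones 4096) + tot (4096 * c + 1) 4096 posL +
    ones 4096 + hs (4096 * c + 1) (fun v => v - 64) hL)
   (tot (4096 * c + 1) 4096 negL + 64 * ones 4096 + hs (4096 * c + 1) (fun v => 64 - v) hL)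
def chkT0 : Bool := Nat.beq (tot 1 4096 posL + ones 4096) (tot 1 4096 negL + 1)
def srt (q fuel : Nat) : Nat → Nat → Bool :=
  Nat.rec (motive := fun _ => Nat → Nat → Bool) (fun _ lo => Nat.ble lo q) (fun _ ih y lo =>
    Bool.rec false (Bool.rec false (ih (Nat.shiftRight y 26) (Nat.succ (get y)))
      (Nat.beq (Nat.mod (Nat.mul (get y) (Nat.succ (get y))) q) 0)) (Nat.ble lo (get y))) fuel
def okE (d g : Nat) (e : En) : Bool :=
  Nat.beq e.d d && Nat.beq e.q (d * (d + 1)) && Nat.beq e.m g && Nat.beq e.r (rr d) &&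
    Nat.ble 1 e.r && srt e.q e.r e.x 0
def chkL (g : Nat → Nat) (k : Nat) : List En → Bool :=
  Nat.rec (motive := fun _ => List En → Bool)
    (fun l => List.rec (motive := fun _ => Bool) true (fun _ _ _ => false) l)
    (fun k ih l => Bool.rec (List.rec (motive := fun _ => Bool) false
      (fun e l' _ => okE (k + 2) (g (tv (k + 2))) e && ih l') l) (ih l)
      (Nat.beq (g (tv (k + 2))) 0)) k

end

end Pool.Agent.P.MP_d9fb17_nt
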