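import Pool.Agent.P.MP_d9fb17_nt.Main
import Pool.Agent.P.MP_d9fb17_nt.K2

/-! Correctness of the enumeration of roots. -/

namespace Pool.Agent.P.MP_d9fb17_nt

open Finset

lemma rec_ble {α : Type} (a b : α) (x y : ℕ) :
    (Bool.rec a b (Nat.ble x y) : α) = if x ≤ y then b else a := by
  by_cases h : x ≤ y
  · rw [if_pos h, Nat.ble_eq_true_of_le h]
  · rw [if_neg h]
    cases h2 : Nat.ble x y
    · rfl
    · exact absurd (Nat.le_of_ble_eq_true h2) h

lemma rec_beq {α : Type} (a b : α) (x y : ℕ) :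
    (Bool.rec a b (Nat.beq x y) : α) = if x = y then b else a := by
  by_cases h : x = y
  · subst h
    rw [if_pos rfl, Nat.beq_refl]
  · rw [if_neg h]
    cases h2 : Nat.beq x y
    · rfl
    · exact absurd (Nat.eq_of_beq_eq_true h2) h

lemma sumTo_eq (f : ℕ → ℕ) (n : ℕ) : sumTo f n = ∑ i ∈ range n, f i := by
  induction n with
  | zero => rfl
  | succ n ih => rw [sum_range_succ, ← ih]; rfl

lemma allTo_spec {f : ℕ → Bool} {n : ℕ} (h : allTo f n = true) : ∀ i < n, f i = true := by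
  induction n with
  | zero => simp
  | succ n ih =>
    change (Bool.rec false (allTo f n) (f n) : Bool) = true at h
    cases h2 : f n
    · simp [h2] at h
    · rw [h2] at h
      intro i hi
      rcases Nat.lt_succ_iff_lt_or_eq.1 hi with h3 | rfl
      · exact ih h i h3
      · exact h2

lemma Q_congr {q a b : ℕ} (h : a ≡ b [MOD q]) : q ∣ Q a ↔ q ∣ Q b :=
  (h.mul (h.add_right 1)).dvd_iff dvd_rfl

lemma Q_mirror {m x : ℕ} (hx : x < m) (h : m ∣ Q x) : m ∣ Q (m - 1 - x) := by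
  obtain ⟨y, rfl⟩ : ∃ y, m = x + y + 1 := ⟨m - 1 - x, by omega⟩
  have e : x + y + 1 - 1 - x = y := by omega
  rw [e]
  have : Q y + (x + y + 1) * x = Q x + (x + y + 1) * y := by unfold Q; ring
  exact (Nat.dvd_add_left (Dvd.intro _ rfl)).1 (this ▸ dvd_add h (Dvd.intro _ rfl))

lemma dvd_or {p k q x : ℕ} (hp : p.Prime) (hq : q ∣ p ^ k) (h : q ∣ Q x) : q ∣ x ∨ q ∣ x + 1 := by
  obtain ⟨a, -, rfl⟩ := (Nat.dvd_prime_pow hp).1 hq
  by_cases h1 : p ∣ x
  · refine Or.inl (Nat.Coprime.dvd_of_dvd_mul_right ?_ h)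
    refine Nat.Coprime.pow_left _ ((Nat.Prime.coprime_iff_not_dvd hp).2 fun h2 => ?_)
    exact hp.one_lt.ne' (Nat.dvd_one.1 ((Nat.dvd_add_right h1).1 h2))
  · exact Or.inr (Nat.Coprime.dvd_of_dvd_mul_left
      (Nat.Coprime.pow_left _ ((Nat.Prime.coprime_iff_not_dvd hp).2 h1)) h)

lemma pm_prime {p : ℕ} (h : (pm >>> p) &&& 1 = 1) : p.Prime := by
  have h1 : ∀ p < 512, (pm >>> p) &&& 1 = 1 → p.Prime := by decide +kernel
  rcases lt_or_ge p 512 with h2 | h2
  · exact h1 p h2 h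
  · have h3 : pm < 2 ^ 512 := by decide +kernel
    rw [Nat.shiftRight_eq_div_pow,
      Nat.div_eq_of_lt (h3.trans_le (Nat.pow_le_pow_right two_pos h2))] at h
    exact absurd h (by decide)

lemma prime_of_gcd {c : ℕ} (h0 : c ≠ 1) (h1 : 0 < c) (h2 : c < 521 ^ 2) (h : Nat.gcd c PR = 1) :
    c.Prime := by
  by_contra hc
  have h3 := Nat.minFac_sq_le_self h1 hc
  have h4 := Nat.minFac_prime h0
  have h5 : ∀ p < 521, 2 ≤ p → Nat.gcd p PR ≠ 1 := by decide +kernel
  refine h5 c.minFac (lt_of_pow_lt_pow_left₀ 2 (by norm_num) (h3.trans_lt h2)) h4.two_le ?_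
  exact Nat.Coprime.coprime_dvd_left (Nat.minFac_dvd c) h

/-- Invariant of the enumeration. -/
def EInv (m c : ℕ) (R : List ℕ) : Prop :=
  ∃ A, m = A * c ∧ Nat.Coprime A c ∧ ∀ x, m ∣ Q x → ∃ y ∈ R, y < m ∧ y ≡ x [MOD A] ∧ c ∣ y

/-- The list contains every root or its mirror image. -/
def Cov (m : ℕ) (R : List ℕ) : Prop := ∀ x < m, m ∣ Q x → x ∈ R ∨ m - 1 - x ∈ R

lemma EInv.fin {m c : ℕ} {R : List ℕ} (h : EInv m c R) (hc : ∀ x, c ∣ Q x → c ∣ x ∨ c ∣ x + 1) :
    Cov m R := by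
  obtain ⟨A, hm, hco, h⟩ := h
  have key : ∀ x < m, m ∣ Q x → c ∣ x → x ∈ R := by
    intro x hx h1 h2
    obtain ⟨y, hy, h3, h4, h5⟩ := h x h1
    have h6 : y ≡ x [MOD c] := ((Nat.modEq_zero_iff_dvd.2 h5).trans
      (Nat.modEq_zero_iff_dvd.2 h2).symm)
    have h7 := (Nat.modEq_and_modEq_iff_modEq_mul hco).1 ⟨h4, h6⟩
    rw [← hm] at h7
    rwa [← Nat.ModEq.eq_of_lt_of_lt h7 h3 hx]
  intro x hx h1
  have hcm : c ∣ m := ⟨A, by rw [hm, mul_comm]⟩
  rcases hc x (hcm.trans h1) with h2 | h2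
  · exact Or.inl (key x hx h1 h2)
  · refine Or.inr (key _ (by omega) (Q_mirror hx h1) ?_)
    have : m - 1 - x = m - (x + 1) := by omega
    rw [this]
    exact Nat.dvd_sub hcm h2

lemma mem_dup {m e y : ℕ} {R : List ℕ} (h : y ∈ R) : y ∈ dup m e R ∧ (y + e) % m ∈ dup m e R := by
  induction R with
  | nil => simp at h
  | cons x R ih =>
    change y ∈ x :: (x + e) % m :: dup m e R ∧ _ ∈ x :: (x + e) % m :: dup m e R
    rcases List.mem_cons.1 h with rfl | h
    · simp
    · simp [ih h]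

lemma EInv.next {m c q s : ℕ} {R : List ℕ} (hm0 : 0 < m) (h : EInv m c R) (hq : q ∣ c)
    (hc : ∀ x, q ∣ Q x → q ∣ x ∨ q ∣ x + 1) (he : q ∣ m / q * s + 1) :
    EInv m (c / q) (dup m (m / q * s) R) := by
  obtain ⟨A, hm, hco, h⟩ := h
  obtain ⟨c', rfl⟩ := hq
  have hq0 : 0 < q := Nat.pos_of_ne_zero fun h0 => by simp [h0] at hm; omega
  have e1 : m / q = A * c' := by
    rw [hm, show A * (q * c') = q * (A * c') by ring, Nat.mul_div_cancel_left _ hq0]
  rw [Nat.mul_div_cancel_left _ hq0, e1]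
  rw [e1] at he
  have hAq : Nat.Coprime A q := Nat.Coprime.coprime_dvd_right (Dvd.intro _ rfl) hco
  have hqc : Nat.Coprime q c' := by
    refine Nat.Coprime.coprime_dvd_left he (Nat.Coprime.coprime_dvd_right
      (⟨A * s, by ring⟩ : c' ∣ A * c' * s) ?_)
    simp
  refine ⟨A * q, by rw [hm]; ring, Nat.Coprime.mul_left
    (Nat.Coprime.coprime_dvd_right (Dvd.intro_left _ rfl) hco) hqc, fun x hx => ?_⟩
  obtain ⟨y, hy, h1, h2, h3⟩ := h x hx
  have hqy : q ∣ y := (Dvd.intro _ rfl).trans h3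
  have hcy : c' ∣ y := (Dvd.intro_left _ rfl).trans h3
  rcases hc x (dvd_trans ⟨A * c', by rw [hm]; ring⟩ hx) with h4 | h4
  · exact ⟨y, (mem_dup hy).1, h1, (Nat.modEq_and_modEq_iff_modEq_mul hAq).1
      ⟨h2, (Nat.modEq_zero_iff_dvd.2 hqy).trans (Nat.modEq_zero_iff_dvd.2 h4).symm⟩, hcy⟩
  · refine ⟨_, (mem_dup hy).2, Nat.mod_lt _ hm0, ?_, ?_⟩
    · refine ((Nat.mod_modEq _ m).of_dvd ⟨c', by rw [hm]; ring⟩).trans
        ((Nat.modEq_and_modEq_iff_modEq_mul hAq).1 ⟨?_, ?_⟩)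
      · have := h2.add (Nat.modEq_zero_iff_dvd.2 (⟨c' * s, by ring⟩ : A ∣ A * c' * s))
        rwa [add_zero] at this
      · refine Nat.ModEq.add_right_cancel' 1 ?_
        rw [add_assoc]
        exact (Nat.modEq_zero_iff_dvd.2 (dvd_add hqy he)).trans (Nat.modEq_zero_iff_dvd.2 h4).symm
    · exact (Nat.dvd_mod_iff ⟨A * q, by rw [hm]; ring⟩).2 (dvd_add hcy ⟨A * s, by ring⟩)

lemma step_spec {m : ℕ} (hm0 : 0 < m) (hm : m < 521 ^ 2) (fuel : ℕ) :
    ∀ c R, EInv m c R → step m fuel c R ≠ [] → Cov m (step m fuel c R) := by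
  induction fuel with
  | zero => intro c R _ h; exact absurd rfl h
  | succ fuel ih =>
    intro c R h
    have hcm : c ∣ m := by
      obtain ⟨A, hm, -⟩ := h
      exact ⟨A, by rw [hm, mul_comm]⟩
    have e : step m (fuel + 1) c R = Bool.rec (st1 m c (orc (Nat.gcd c PR)) R (step m fuel)) R
      (Nat.beq (Nat.gcd c PR) 1) := rfl
    rw [e, rec_beq]
    split_ifs with h1
    · intro _
      refine h.fin fun x hx => ?_
      by_cases h2 : c = 1
      · simp [h2]
      · exact dvd_or (k := 1) (prime_of_gcd h2 (Nat.pos_of_dvd_of_pos hcm hm0)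
          ((Nat.le_of_dvd hm0 hcm).trans_lt hm) h1) (by simp) hx
    generalize orc (Nat.gcd c PR) = p
    unfold st1 st2 st3
    rw [rec_beq, rec_beq, rec_beq]
    split_ifs with h2 h3 h4
    · intro _
      exact h.fin fun x hx => dvd_or (pm_prime h2) (h3 ▸ Nat.gcd_dvd_right _ _) hx
    · exact ih _ _ (h.next hm0 (Nat.gcd_dvd_left _ _)
        (fun x hx => dvd_or (pm_prime h2) (Nat.gcd_dvd_right _ _) hx) (Nat.dvd_of_mod_eq_zero h4))
    · exact fun h => absurd rfl h
    · exact fun h => absurd rfl h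

lemma half_spec {m : ℕ} (hm0 : 0 < m) (hm : m < 521 ^ 2) (h : half m ≠ []) : Cov m (half m) :=
  step_spec hm0 hm 8 m [0] ⟨1, by simp, by simp, fun x _ => ⟨0, by simp, hm0, Nat.modEq_one,
    dvd_zero _⟩⟩ h

lemma len_eq (l : List ℕ) : len l = l.length := by
  induction l with
  | nil => rfl
  | cons x l ih => rw [List.length_cons, ← ih]; rfl

lemma mir_spec (m : ℕ) (R : List ℕ) : (mir m R).length = 2 * R.length ∧
    ∀ x ∈ R, x ∈ mir m R ∧ m - 1 - x ∈ mir m R := by
  induction R with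
  | nil => exact ⟨rfl, by simp⟩
  | cons y R ih =>
    change (y :: (m - 1 - y) :: mir m R).length = _ ∧ ∀ x ∈ y :: R,
      x ∈ y :: (m - 1 - y) :: mir m R ∧ _ ∈ y :: (m - 1 - y) :: mir m R
    refine ⟨by simp [ih.1]; ring, fun x hx => ?_⟩
    rcases List.mem_cons.1 hx with rfl | h
    · simp
    · simp [ih.2 x h]

lemma sum_le_list {l : List ℕ} {s : Finset ℕ} (h : ∀ x ∈ s, x ∈ l) (f : ℕ → ℕ) :
    ∑ x ∈ s, f x ≤ (l.map f).sum := by
  refine (sum_le_sum_of_subset (t := l.toFinset) fun x hx => List.mem_toFinset.2 (h x hx)).trans ?_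
  rw [Finset.sum_list_map_count]
  exact sum_le_sum fun x hx => Nat.le_mul_of_pos_left _
    (List.count_pos_iff.2 (List.mem_toFinset.1 hx))

lemma root_sum {d : ℕ} (hd : 1 ≤ d) {la lb : List ℕ} (ha : Cov d la) (hb : Cov (d + 1) lb)
    (g : ℕ → ℕ) (G : ℕ → ℕ → ℕ)
    (hG : ∀ a < d, ∀ t ≤ d, g (a + d * t) + g (Q d - 1 - (a + d * t)) ≤
      G a ((a + d * t) % (d + 1))) :
    ∑ x ∈ (range (Q d)).filter (fun x => Q d ∣ Q x), g x ≤
      (la.map fun a => ((mir (d + 1) lb).map (G a)).sum).sum := by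
  set R := (range (Q d)).filter (fun x => Q d ∣ Q x) with hR
  set R1 := R.filter fun x => x % d ∈ la with hR1
  have h1 : R ⊆ R1 ∪ R1.image fun x => Q d - 1 - x := by
    intro x hx
    obtain ⟨h2, h3⟩ := mem_filter.1 hx
    rw [mem_range] at h2
    have h4 : d ∣ Q (x % d) := (Q_congr (Nat.mod_modEq x d)).2 ((Dvd.intro _ rfl).trans h3)
    rcases ha _ (Nat.mod_lt x hd) h4 with h5 | h5
    · exact mem_union_left _ (mem_filter.2 ⟨hx, h5⟩)
    · refine mem_union_right _ (mem_image.2 ⟨Q d - 1 - x, mem_filter.2 ⟨mem_filter.2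
        ⟨mem_range.2 (by omega), Q_mirror h2 h3⟩, ?_⟩, by omega⟩)
      convert h5 using 1
      have h6 := Nat.mod_lt x hd
      have h7 := Nat.div_add_mod x d
      have h8 : x / d < d + 1 := Nat.div_lt_of_lt_mul h2
      obtain ⟨t, ht⟩ : ∃ t, d = x / d + t := ⟨d - x / d, by omega⟩
      have h9 : Q d = d * (x / d) + d * t + d := by
        rw [← mul_add, ← ht]; rfl
      have : Q d - 1 - x = d - 1 - x % d + d * t := by omega
      rw [this, Nat.add_mul_mod_self_left, Nat.mod_eq_of_lt (by omega)]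
  have h2 : ∑ x ∈ R, g x ≤ ∑ x ∈ R1, (g x + g (Q d - 1 - x)) := by
    refine (sum_le_sum_of_subset h1).trans ?_
    have h3 := sum_union_inter (s₁ := R1) (s₂ := R1.image fun x => Q d - 1 - x) (f := g)
    have h4 : ∑ x ∈ R1.image (fun x => Q d - 1 - x), g x ≤ ∑ x ∈ R1, g (Q d - 1 - x) :=
      sum_image_le_of_nonneg fun _ _ => Nat.zero_le _
    rw [sum_add_distrib]
    omega
  refine h2.trans ?_
  rw [← sum_fiberwise_of_maps_to (t := la.toFinset) (g := fun x => x % d)
    fun x hx => List.mem_toFinset.2 (mem_filter.1 hx).2]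
  refine le_trans (sum_le_sum fun a _ => ?_) (sum_le_list (fun x hx => List.mem_toFinset.1 hx) _)
  have h3 : ∀ x ∈ R1.filter (fun x => x % d = a), x < Q d ∧ Q d ∣ Q x ∧ x % d = a := by
    intro x hx
    simp only [hR1, hR, mem_filter, mem_range] at hx
    exact ⟨hx.1.1.1, hx.1.1.2, hx.2⟩
  refine le_trans (sum_le_sum (g := fun x => G a (x % (d + 1))) fun x hx => ?_) ?_
  · obtain ⟨h4, -, h5⟩ := h3 x hx
    have h6 := hG a (h5 ▸ Nat.mod_lt x hd) (x / d) (Nat.lt_succ_iff.1 (Nat.div_lt_of_lt_mul h4))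
    rwa [← h5, Nat.mod_add_div, h5] at h6
  rw [← sum_image (f := G a) (g := fun x => x % (d + 1))]
  · refine sum_le_list (fun b hb' => ?_) _
    obtain ⟨x, hx, rfl⟩ := mem_image.1 hb'
    have h4 : d + 1 ∣ Q (x % (d + 1)) := (Q_congr (Nat.mod_modEq x _)).2
      ((Dvd.intro_left _ rfl).trans (h3 x hx).2.1)
    have h5 := Nat.mod_lt x (Nat.add_one_pos d)
    rcases hb _ h5 h4 with h6 | h6
    · exact ((mir_spec _ _).2 _ h6).1
    · convert ((mir_spec (d + 1) _).2 _ h6).2 using 1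
      omega
  · intro x hx y hy hxy
    have hco : Nat.Coprime d (d + 1) := by simp
    exact Nat.ModEq.eq_of_lt_of_lt ((Nat.modEq_and_modEq_iff_modEq_mul hco).1
      ⟨(h3 x hx).2.2.trans (h3 y hy).2.2.symm, hxy⟩) (h3 x hx).1 (h3 y hy).1

lemma rr_cov {d : ℕ} (hd : 1 ≤ d) (hd2 : d ≤ 262144) (h : rr d ≠ 0) :
    Cov d (half d) ∧ Cov (d + 1) (half (d + 1)) := by
  change 4 * (len (half d) * len (half (d + 1))) ≠ 0 at h
  constructor
  · refine half_spec hd (by omega) fun h0 => h ?_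
    rw [h0, len_eq]; simp
  · refine half_spec (by omega) (by omega) fun h0 => h ?_
    rw [h0, len_eq []]; simp

lemma rt_le_rr {d : ℕ} (hd : 1 ≤ d) (hd2 : d ≤ 262144) (h : rr d ≠ 0) : rt d ≤ rr d := by
  obtain ⟨ha, hb⟩ := rr_cov hd hd2 h
  have := root_sum hd ha hb (fun _ => 1) (fun _ _ => 2) fun _ _ _ _ => le_rfl
  simp only [sum_const, smul_eq_mul, mul_one, List.map_const', List.sum_replicate,
    (mir_spec _ _).1] at this
  change _ ≤ 4 * (len (half d) * len (half (d + 1)))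
  rw [len_eq, len_eq]
  refine le_trans this (le_of_eq (by ring))

lemma hit_sum {d : ℕ} (hd : 4096 < d) (hd2 : d ≤ 262144) (h : rr d ≠ 0) :
    ∑ x ∈ (range (Q d)).filter (fun x => Q d ∣ Q x), hit d x ≤
      outer d (d + 1) (134217728 / d + 1) (half d) (mir (d + 1) (half (d + 1))) := by
  obtain ⟨ha, hb⟩ := rr_cov (by omega) hd2 h
  set tm := 134217728 / d + 1 with htm
  refine (root_sum (by omega) ha hb (hit d) (fun a b => if tm + tm ≤ (a + (d + 1) + tm - b) % (d + 1)
    then 0 else hit2 d (a + d * ((a + (d + 1) - b) % (d + 1)))) fun a ha t ht => ?_).trans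
    (le_of_eq ?_)
  · have h1 := Nat.mod_lt (a + d * t) (Nat.add_one_pos d)
    have h2 : ∀ k, (a + (d + 1) + k - (a + d * t) % (d + 1)) ≡ t + k [MOD d + 1] := by
      intro k
      refine Nat.ModEq.add_right_cancel' ((a + d * t) % (d + 1)) ?_
      rw [Nat.sub_add_cancel (by omega)]
      refine Nat.ModEq.trans ?_ ((Nat.mod_modEq _ _).add_left _).symm
      rw [show t + k + (a + d * t) = a + k + (d + 1) * t by ring,
        show a + (d + 1) + k = a + k + (d + 1) * 1 by ring]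
      exact (Nat.add_modulus_mul_modEq_iff.2 rfl).trans (Nat.add_modulus_mul_modEq_iff.2 rfl).symm
    split_ifs with h3
    · rw [h2 tm] at h3
      have h4 : 134217728 < d * tm := Nat.lt_mul_div_succ _ (by omega)
      have h5 : t + tm < d + 1 ∧ tm ≤ t := by
        rcases lt_or_ge (t + tm) (d + 1) with h5 | h5
        · rw [Nat.mod_eq_of_lt h5] at h3
          omega
        · have h6 := Nat.mod_le (t + tm - (d + 1)) (d + 1)
          rw [Nat.mod_eq_sub_mod h5] at h3
          omega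
      have h6 : d * tm ≤ d * t := Nat.mul_le_mul_left _ h5.2
      have h7 : d * (t + tm) ≤ d * d := Nat.mul_le_mul_left _ (by omega)
      have h8 : Q d = d * d + d := by unfold Q; ring
      rw [mul_add] at h7
      unfold hit
      simp only [rec_ble]
      rw [if_pos (by omega), if_pos (by omega), if_pos (by omega), if_pos (by omega)]
    · have h4 := h2 0
      rw [add_zero, add_zero] at h4
      rw [h4, Nat.mod_eq_of_lt (by omega : t < d + 1)]
      exact le_rfl
  · generalize mir (d + 1) (half (d + 1)) = lb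
    induction half d with
    | nil => rfl
    | cons a la ih =>
      rw [List.map_cons, List.sum_cons, ih]
      change _ = inner d (d + 1) a (a + (d + 1) + tm) (tm + tm) lb (outer d (d + 1) tm la lb)
      generalize outer d (d + 1) tm la lb = acc
      clear ih
      induction lb with
      | nil => exact zero_add _
      | cons b lb ih =>
        rw [List.map_cons, List.sum_cons, add_assoc, ih]
        symm
        refine (rec_ble _ _ _ _).trans ?_
        split_ifs with h1 h2 h2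
        · exact (zero_add _).symm
        · exact absurd h1 h2
        · exact absurd h2 h1
        · exact add_comm _ _

end Pool.Agent.P.MP_d9fb17_nt
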