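import Pool.Agent.P.MP_d9fb17_nt.CSource

/-! The constant is positive. -/

namespace Pool.Agent.P.MP_d9fb17_nt

open Finset Filter

attribute [local irreducible] posL negL hL tab tot ones tv

lemma fW_split {μ : ℕ → ℤ} {K W : ℕ} (hK : K ≤ W) (h : ∀ n, 1 ≤ n → n ≤ W → μ n = mu0 n) (u : ℕ) :
    (fW μ W u).natAbs ≤ (∑ d ∈ (Icc 1 K).filter (fun d => Q d ∣ Q u), mu0 d).natAbs +
      ∑ d ∈ (Ioc K W).filter (fun d => Q d ∣ Q u), aw d := by
  rw [fW, sum_congr rfl fun d hd => h d (mem_Icc.1 (mem_filter.1 hd).1).1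
    (mem_Icc.1 (mem_filter.1 hd).1).2, sum_filter, ← Ico_add_one_right_eq_Icc,
    ← sum_Ico_consecutive _ (by omega : 1 ≤ K + 1) (by omega), Ico_add_one_right_eq_Icc,
    Ico_add_one_add_one_eq_Ioc, ← sum_filter, ← sum_filter]
  exact (Int.natAbs_add_le _ _).trans (Nat.add_le_add_left ((Int.natAbs_sum_le _ _).trans
    (sum_le_sum fun d _ => (aw_nat d).le)) _)

lemma low_eq (H : Comp) (μ : ℕ → ℤ) {W : ℕ} (hW : 262144 = W) (X : ℕ) :
    ∑ n ∈ (Ioc W X).filter (fun n => ci (Q n) < 448), ps (ci (Q n)) / Q n * bb μ W n =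
    ∑ u ∈ (Ioc W X).filter (fun n => ci (Q n) < 448),
      (fW μ W u).natAbs * ((ps (ci (Q u)) + ∑ n ∈ Inn u X, wt u n) / Q u) := by
  simp only [bb, mul_add, add_div, sum_add_distrib, mul_sum, sum_div]
  congr 1
  · exact sum_congr rfl fun u _ => mul_comm _ _
  rw [sum_comm' (t' := (Ioc W X).filter fun n => ci (Q n) < 448) (s' := fun u => Inn u X)]
  · refine sum_congr rfl fun u _ => sum_congr rfl fun n hn => ?_
    rw [← wt_eq (H.inn hn).2.2.1]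
    ring
  · intro n u
    refine ⟨fun h => ?_, fun h => ?_⟩
    · simp only [mem_filter, mem_Ioc, mem_Ioo] at h ⊢
      have h1 : n ∈ Inn u X := mem_filter.2 ⟨mem_Ioc.2 (by omega), h.2.2, h.1.2⟩
      exact ⟨h1, by omega, (H.inn h1).2.2.2.2.2.1⟩
    · have h1 := mem_filter.1 h.1
      simp only [mem_filter, mem_Ioc, mem_Ioo] at h h1 ⊢
      exact ⟨⟨by omega, h1.2.2⟩, by omega, h1.2.1⟩

lemma low_pt {F a g p t l u : ℕ} {I q : ℝ} (hq : 0 < q) (hI : 0 ≤ I) (h1 : I ≤ t) (h2 : F ≤ a + g)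
    (h3 : a ≤ l + if u ≤ 8388608 then a - 4 else 0) : F * ((p + I) / q) ≤
    (if u ≤ 8388608 then ((a * p + (a - 4) * t : ℕ) : ℝ) / q else (a * p : ℕ) / q) + l * I / q +
      g * ((p + t : ℕ) / q) := by
  have h4 : (F : ℝ) ≤ a + g := by exact_mod_cast h2
  have h5 := mul_le_mul_of_nonneg_right h4 (by positivity : 0 ≤ p + I)
  have h6 := mul_le_mul_of_nonneg_left h1 (Nat.cast_nonneg g)
  have h7 := mul_le_mul_of_nonneg_right (Nat.cast_le.2 h3) hI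
  have h8 := mul_le_mul_of_nonneg_left h1 (Nat.cast_nonneg (a - 4))
  split_ifs at h7 ⊢ <;>
  · rw [← mul_div_assoc, ← mul_div_assoc, ← add_div, ← add_div]
    refine div_le_div_of_nonneg_right ?_ hq.le
    push_cast at h7 ⊢
    linarith

lemma Comp.f1_lam (H : Comp) {u : ℕ} (hu : 1 ≤ u) :
    (f1 u).natAbs ≤ lam (ci (Q u)) + if u ≤ 8388608 then (f1 u).natAbs - 4 else 0 := by
  have h1 := H.fb.f1_eq u
  have h2 := H.fb.pl_le u
  have h3 : 8388608 < u → 92 ≤ ci (Q u) := fun h => (le_ci (Q_pos hu)).2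
    (le_trans (by norm_num [Q]) (Nat.pow_le_pow_left (Q_strictMono.monotone h.le) 2))
  rw [lam, rec_ble]
  generalize f1 u = x at *
  split_ifs <;> omega

lemma low_aux {L : Finset ℕ} {a b : ℕ} (hL : ∀ u ∈ L, a < u) {F G : ℕ → ℝ} (hF : ∀ u, 0 ≤ F u)
    {s : ℝ} (hs : 0 ≤ s) : (∑ u ∈ L, if u ≤ b then F u else G u) * s ≤
    ∑ u ∈ Ioc a b, F u * s + ∑ u ∈ L.filter (fun u => ¬ u ≤ b), G u * s := by
  rw [sum_ite, add_mul, sum_mul, sum_mul]
  exact add_le_add_left (sum_le_sum_of_subset_of_nonneg (fun u hu => mem_Ioc.2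
    ⟨hL u (mem_filter.1 hu).1, (mem_filter.1 hu).2⟩) fun u _ _ => mul_nonneg (hF u) hs) _

lemma Comp.low (H : Comp) {μ : ℕ → ℤ} (h : ∀ n, 1 ≤ n → n ≤ 262144 → μ n = mu0 n) (X : ℕ) :
    ∑ n ∈ (Ioc 262144 X).filter (fun n => ci (Q n) < 448), ps (ci (Q n)) / Q n * bb μ 262144 n -
      ∑ d ∈ Ioc 4096 262144, mu0 d * rho d ≤ 1 / 40 + 1 / 180 := by
  rw [low_eq H μ rfl]
  set L := (Ioc 262144 X).filter fun n => ci (Q n) < 448
  have hL : ∀ u ∈ L, (262144 < u ∧ u ≤ X) ∧ ci (Q u) < 448 := fun u hu =>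
    ⟨mem_Ioc.1 (mem_filter.1 hu).1, (mem_filter.1 hu).2⟩
  have h1 := sum_le_sum (s := L) fun u hu => low_pt (p := ps (ci (Q u)))
    (Nat.cast_pos.2 (Q_pos (by have := hL u hu; omega : 1 ≤ u)))
    (sum_nonneg fun n _ => by unfold wt; positivity) (H.inn_le (X := X) (hL u hu).1.1 (hL u hu).2)
    (fW_split (K := 4096) (by norm_num) h u) (H.f1_lam (by have := hL u hu; omega))
  rw [sum_add_distrib, sum_add_distrib] at h1
  have h2 := H.t3_le hL
  have h3 := H.pell L X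
  have h4 := (low_aux (fun u hu => (hL u hu).1.1)
    (fun u => div_nonneg (Nat.cast_nonneg _) (Nat.cast_nonneg _)) SS_pos.le).trans
    (add_le_add H.t12_le (H.t4_le fun u (hu : u ∈ L.filter fun u => ¬ u ≤ 8388608) =>
      ⟨not_le.1 (mem_filter.1 hu).2, (hL u (mem_filter.1 hu).1).2⟩))
  have h5 : (40 : ℝ) * (t12 + t4 + tP) ≤ SS := by exact_mod_cast H.fa.2.2.2
  have h6 : ∀ x y z w v : ℝ, x ≤ y + z + w → w - v ≤ 1 / 180 → z * SS ≤ tP → y * SS ≤ t12 + t4 →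
      x - v ≤ 1 / 40 + 1 / 180 := by
    intro x y z w v a1 a2 a3 a4
    have : y + z ≤ 1 / 40 := le_of_mul_le_mul_right (by linarith) SS_pos
    linarith
  exact h6 _ _ _ _ _ h1 h2 h3 h4

lemma c1_aux {k K : ℕ} (hK : k + 1 = K) (h : 36870000000 +
    ∑ d ∈ Ico 2 K, (64 - tv d) * (rt d * 1000000000000 / Q d + 1) ≤
    1000000000000 + ∑ d ∈ Ico 2 K, (tv d - 64) * (rt d * 1000000000000 / Q d)) :
    3687 / 100000 - 1 ≤ ∑ d ∈ Ico 2 (k + 1), mu0 d * rho d := by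
  rw [hK]
  have h1 := Nat.cast_le (α := ℝ).2 h
  rw [Nat.cast_add, Nat.cast_add, Nat.cast_sum, Nat.cast_sum] at h1
  have h2 : ∑ d ∈ Ico 2 K, (((tv d - 64) * (rt d * 1000000000000 / Q d) : ℕ) : ℝ) -
      ∑ d ∈ Ico 2 K, (((64 - tv d) * (rt d * 1000000000000 / Q d + 1) : ℕ) : ℝ) ≤
      (∑ d ∈ Ico 2 K, mu0 d * rho d) * 1000000000000 := by
    rw [← sum_sub_distrib, sum_mul]
    refine sum_le_sum fun d hd => ?_
    have h3 := mul_le_mul_of_nonneg_left (div_le_nat (le_refl (rt d * 1000000000000))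
      (Q_pos (by have := mem_Ico.1 hd; omega)) (le_refl (Q d))) (Nat.cast_nonneg (α := ℝ) (64 - tv d))
    have h4 := mul_le_mul_of_nonneg_left (Nat.cast_div_le (α := ℝ) (m := rt d * 1000000000000)
      (n := Q d)) (Nat.cast_nonneg (tv d - 64))
    have h5 : (mu0 d : ℝ) = (tv d - 64 : ℕ) - (64 - tv d : ℕ) := by
      exact_mod_cast (by unfold mu0; omega : mu0 d = (tv d - 64 : ℕ) - (64 - tv d : ℕ))
    rw [Nat.cast_mul, mul_div_right_comm, ← rho] at h3 h4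
    rw [h5, Nat.cast_mul, Nat.cast_mul]
    push_cast at h3 h4 ⊢
    linarith
  push_cast at h1 h2
  linarith

lemma part_aux {μ : ℕ → ℤ} {K W X : ℕ} (hK : 1 ≤ K) (hW : K ≤ W) (hX : W ≤ X) (h1 : μ 1 = 1)
    (h : ∀ n, 1 ≤ n → n ≤ W → μ n = mu0 n) :
    1 + ∑ d ∈ Ico 2 (K + 1), mu0 d * rho d + ∑ d ∈ Ioc K W, mu0 d * rho d -
      ∑ d ∈ Ioc W X, rho d * (μ d).natAbs ≤ ∑ d ∈ range (X + 1), μ d * rho d := by
  have r1 : rho 1 = 1 := by
    have : rt 1 = 2 := by decide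
    norm_num [rho, this, Q]
  rw [range_eq_Ico, sum_eq_sum_Ico_succ_bot (by omega : 0 < X + 1),
    sum_eq_sum_Ico_succ_bot (by omega : 0 + 1 < X + 1),
    ← sum_Ico_consecutive _ (by omega : 0 + 1 + 1 ≤ K + 1) (by omega : K + 1 ≤ X + 1),
    Ico_add_one_add_one_eq_Ioc K, ← sum_Ioc_consecutive _ hW hX, rho_zero, zero_add, h1, r1,
    sum_congr (s₁ := Ico (1 + 1) (K + 1)) rfl fun d hd => by
      rw [h d (by have := mem_Ico.1 hd; omega) (by have := mem_Ico.1 hd; omega)],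
    sum_congr (s₁ := Ioc K W) (f := fun d => μ d * rho d) rfl fun d hd => by
      rw [h d (by have := mem_Ioc.1 hd; omega) (mem_Ioc.1 hd).2]]
  have h2 : -∑ d ∈ Ioc W X, rho d * (μ d).natAbs ≤ ∑ d ∈ Ioc W X, μ d * rho d := by
    rw [← sum_neg_distrib]
    refine sum_le_sum fun d _ => ?_
    rw [mul_comm, ← neg_mul]
    exact mul_le_mul_of_nonneg_right (by exact_mod_cast (by omega : -((μ d).natAbs : ℤ) ≤ μ d))
      (rho_nonneg d)
  push_cast
  linarith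

theorem Comp.pos (H : Comp) {μ : ℕ → ℤ} (h1 : μ 1 = 1)
    (hrec : ∀ n, 2 ≤ n → μ n = -∑ d ∈ (Ico 1 n).filter (fun d => Q d ∣ Q n), μ d)
    (hs : Summable fun d => μ d * rho d) : 1 / 200 ≤ ∑' d, μ d * rho d := by
  have h := H.mu_eq h1 hrec
  refine ge_of_tendsto (hs.hasSum.tendsto_sum_nat.comp (tendsto_add_atTop_nat 1))
    ((eventually_ge_atTop 262144).mono fun X hX => ?_)
  have h2 := part_aux (K := 4096) (by norm_num) (by norm_num) hX h1 h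
  have h3 := (H.dual le_rfl hrec X).trans_eq
    (sum_filter_add_sum_filter_not _ (fun n => ci (Q n) < 448) _).symm
  have h4 : ∀ a b c d e f : ℝ, 1 + a + b - c ≤ d → c ≤ e + f → 3687 / 100000 - 1 ≤ a →
      e - b ≤ 1 / 40 + 1 / 180 → f ≤ 1 / 8192 → 1 / 200 ≤ d := by
    intros; linarith
  exact h4 _ _ _ _ _ _ h2 h3 (c1_aux (K := 4097) rfl H.fb.c1) (H.low h X) (H.high rfl h X)

end Pool.Agent.P.MP_d9fb17_nt
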