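import Pool.Agent.P.MP_d9fb17_nt.CTable

/-! Cells, the number of prime factors, and the small tables. -/

namespace Pool.Agent.P.MP_d9fb17_nt

open Finset

lemma mn_eq (a b : ℕ) : mn a b = min a b := by
  unfold mn; rw [rec_ble]; split_ifs <;> omega

lemma mx_eq (a b : ℕ) : mx a b = max a b := by
  unfold mx; rw [rec_ble]; split_ifs <;> omega

lemma le_maxTo (f : ℕ → ℕ) {n i : ℕ} (h : i < n) : f i ≤ maxTo f n := by
  induction n with
  | zero => omega
  | succ n ih =>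
    change _ ≤ mx (maxTo f n) (f n)
    rw [mx_eq]
    rcases Nat.lt_succ_iff_lt_or_eq.1 h with h | rfl
    · exact (ih h).trans (le_max_left _ _)
    · exact le_max_right _ _

lemma ci_le {N : ℕ} (h : 0 < N) : 2 ^ ci N ≤ N ^ 2 := by
  rw [sq]; exact Nat.log2_self_le (by positivity)

lemma lt_ci (N : ℕ) : N ^ 2 < 2 ^ (ci N + 1) := by
  rw [sq]; exact Nat.lt_log2_self

lemma ci_lt {N j : ℕ} (h : 0 < N) : ci N < j ↔ N ^ 2 < 2 ^ j := by
  rw [sq]; exact Nat.log2_lt (by positivity)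

lemma le_ci {N j : ℕ} (h : 0 < N) : j ≤ ci N ↔ 2 ^ j ≤ N ^ 2 := by
  rw [← not_lt, ci_lt h, not_lt]

lemma ci_mono {a b : ℕ} (h : 0 < a) (hab : a ≤ b) : ci a ≤ ci b :=
  (le_ci (h.trans_le hab)).2 ((ci_le h).trans (Nat.pow_le_pow_left hab 2))

lemma ci_mul {a b : ℕ} (ha : 0 < a) (hb : 0 < b) :
    ci a + ci b ≤ ci (a * b) ∧ ci (a * b) ≤ ci a + ci b + 1 := by
  constructor
  · rw [le_ci (by positivity), pow_add, mul_pow]
    exact Nat.mul_le_mul (ci_le ha) (ci_le hb)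
  · rw [← Nat.lt_succ_iff, ci_lt (by positivity), mul_pow,
      show (ci a + ci b + 1).succ = (ci a + 1) + (ci b + 1) by omega, pow_add]
    exact Nat.mul_lt_mul'' (lt_ci a) (lt_ci b)

lemma exch {N n : ℕ} (hN : N ≠ 0) {P : Finset ℕ} (h1 : ∀ p < n, p.Prime → p ∈ P)
    (h2 : ∀ p ∈ P, p ≤ n) : (∏ p ∈ P, p) * n ^ N.primeFactors.card ≤ N * n ^ P.card := by
  set s := N.primeFactors
  have h3 : ∏ p ∈ P \ s, p ≤ n ^ (P \ s).card :=
    prod_le_pow_card _ _ _ fun p hp => h2 p (mem_sdiff.1 hp).1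
  have h4 : n ^ (s \ P).card ≤ ∏ p ∈ s \ P, p := pow_card_le_prod _ _ _ fun p hp => by
    rw [mem_sdiff] at hp
    exact not_lt.1 fun h => hp.2 (h1 p h (Nat.prime_of_mem_primeFactors hp.1))
  have h5 : ∏ p ∈ s, p ≤ N := Nat.le_of_dvd (Nat.pos_of_ne_zero hN) (Nat.prod_primeFactors_dvd N)
  rw [← prod_inter_mul_prod_sdiff s P] at h5
  rw [← prod_inter_mul_prod_sdiff P s, ← card_inter_add_card_sdiff s P,
    ← card_inter_add_card_sdiff P s, inter_comm P s, pow_add, pow_add]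
  calc _ ≤ (∏ p ∈ s ∩ P, p) * n ^ (P \ s).card * (n ^ (s ∩ P).card * ∏ p ∈ s \ P, p) := by gcongr
    _ = ((∏ p ∈ s ∩ P, p) * ∏ p ∈ s \ P, p) * (n ^ (s ∩ P).card * n ^ (P \ s).card) := by ring
    _ ≤ _ := by gcongr

lemma omega_le {N : ℕ} (hN : 0 < N) : N.primeFactors.card ≤ 8 + ci N / 14 := by
  have h := exch (n := 128) (P := (range 128).filter Nat.Prime) hN.ne'
    (fun p h1 h2 => mem_filter.2 ⟨mem_range.2 h1, h2⟩)
    fun p hp => (mem_range.1 (mem_filter.1 hp).1).le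
  have h1 : ((range 128).filter Nat.Prime).card = 31 := by decide +kernel
  have h2 : 2 ^ 161 ≤ ∏ p ∈ (range 128).filter Nat.Prime, p := by decide +kernel
  rw [h1] at h
  replace h := (Nat.mul_le_mul_right _ h2).trans h
  rw [show 128 = 2 ^ 7 by norm_num, ← pow_mul, ← pow_mul, ← pow_add] at h
  have h3 := (Nat.pow_le_pow_left h 2).trans_lt ((mul_pow _ _ _).trans_lt
    (Nat.mul_lt_mul_of_pos_right (lt_ci N) (by positivity)))
  rw [← pow_mul, ← pow_mul, ← pow_add, Nat.pow_lt_pow_iff_right one_lt_two] at h3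
  omega

lemma omA_spec {N b : ℕ} (hN : N ≠ 0) (hb : N ^ 2 < b) (fuel : ℕ) : ∀ (n : ℕ) (P : Finset ℕ),
    2 ≤ n → (∀ p < n, p.Prime → p ∈ P) → (∀ p ∈ P, 0 < p ∧ p < n) →
    N.primeFactors.card ≤ omA b fuel n (∏ p ∈ P, p) P.card := by
  induction fuel with
  | zero =>
    intro n P _ _ _
    have h1 := card_le_card (s := N.primeFactors) (t := Icc 1 N) fun p hp =>
      mem_Icc.2 ⟨(Nat.pos_of_mem_primeFactors hp), Nat.le_of_mem_primeFactors hp⟩
    change _ ≤ b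
    simp only [Nat.card_Icc] at h1
    have := Nat.le_self_pow two_ne_zero N
    omega
  | succ fuel ih =>
    intro n P hn h1 h2
    change _ ≤ (Bool.rec (Bool.rec (omA b fuel (n + 1) _ _) (omA b fuel (n + 1) (_ * n) (_ + 1))
      (Nat.beq (Nat.gcd n _) 1)) (P.card - 1) (Nat.ble b (_ * _)) : ℕ)
    rw [rec_ble, rec_beq]
    split_ifs with h3 h4
    · by_contra h
      have h5 := exch hN h1 fun p hp => (h2 p hp).2.le
      have h6 : n ^ P.card ≤ n ^ N.primeFactors.card := Nat.pow_le_pow_right (by omega) (by omega)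
      have h7 := Nat.le_of_mul_le_mul_right ((Nat.mul_le_mul_left _ h6).trans h5) (by positivity)
      have := Nat.mul_le_mul h7 h7
      rw [sq] at hb
      omega
    · have h5 : n ∉ P := fun h => lt_irrefl _ (h2 n h).2
      have := ih (n + 1) (insert n P) (by omega) (fun p hp hp2 => ?_) fun p hp => ?_
      · rwa [prod_insert h5, card_insert_of_notMem h5, mul_comm] at this
      · rcases Nat.lt_succ_iff_lt_or_eq.1 hp with h | rfl
        · exact mem_insert_of_mem (h1 p h hp2)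
        · exact mem_insert_self _ _
      · rcases mem_insert.1 hp with rfl | h
        · omega
        · have := h2 p h; omega
    · refine ih (n + 1) P (by omega) (fun p hp hp2 => ?_) fun p hp => by have := h2 p hp; omega
      rcases Nat.lt_succ_iff_lt_or_eq.1 hp with h | rfl
      · exact h1 p h hp2
      · exact absurd (Nat.Coprime.prod_right fun q hq => (Nat.coprime_of_lt_prime
          (h2 q hq).1.ne' (h2 q hq).2 hp2)) h4

lemma omF_spec {N i : ℕ} (hN : 0 < N) (h : ci N ≤ i) : N.primeFactors.card ≤ omF i :=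
  omA_spec hN.ne' ((ci_lt hN).1 (Nat.lt_succ_of_le h)) 8000 2 ∅ le_rfl
    (fun p h1 h2 => absurd h2.two_le (by omega)) (by simp)

/-- The meaning of the small tables. -/
structure Tabs : Prop where
  om : ∀ N i, 0 < N → ci N ≤ i → i < 448 → N.primeFactors.card ≤ om i
  om_le : ∀ j < 364, Pool.Agent.P.MP_d9fb17_nt.om j ≤ 46
  mT : ∀ j < 364, ∀ m, (m + 1) * m ≤ 2 ^ (Pool.Agent.P.MP_d9fb17_nt.om j + 1) → m + 1 ≤ mT j
  zt : ∀ m < 47, ∀ z, z ^ 5 ≤ 4 ^ m → z ≤ zt m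
  kl : ∀ j < 450, ∀ k, 0 < k → (kl j ≤ k ↔ j ≤ ci k)
  r4 : ∀ j < 450, r4 j ^ 4 ≤ 2 ^ j ∧ 2 ^ j < (r4 j + 1) ^ 4

lemma Comp.tb (H : Comp) : Tabs := by
  have h := H.tabs
  unfold tabOK at h
  simp only [Bool.and_eq_true] at h
  obtain ⟨⟨⟨⟨⟨h1, h2⟩, h3⟩, h4⟩, h5⟩, h6⟩ := h
  refine ⟨fun N i hN h hi => (omF_spec hN h).trans (Nat.le_of_ble_eq_true (allTo_spec h1 i hi)),
    fun j hj => Nat.le_of_ble_eq_true (allTo_spec h6 j hj), fun j hj m hm => ?_,
    fun m hm z hz => ?_, fun j hj k hk => ?_, fun j hj => ?_⟩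
  · have := Nat.le_of_ble_eq_true (allTo_spec h2 j hj)
    by_contra h
    have := Nat.mul_le_mul (by omega : mT j + 1 ≤ m + 1) (by omega : mT j ≤ m)
    omega
  · have := Nat.le_of_ble_eq_true (allTo_spec h3 m hm)
    by_contra h
    have := Nat.pow_le_pow_left (by omega : zt m + 1 ≤ z) 5
    omega
  · have := allTo_spec h4 j hj
    simp only [Bool.and_eq_true, Nat.ble_eq] at this
    rw [le_ci hk]
    refine ⟨fun h => this.2.trans (Nat.pow_le_pow_left h 2), fun h => ?_⟩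
    by_contra h7
    have := Nat.pow_le_pow_left (by omega : k ≤ kl j - 1) 2
    omega
  · have := allTo_spec h5 j hj
    simp only [Bool.and_eq_true, Nat.ble_eq] at this
    exact this

lemma Tabs.r4_le (T : Tabs) {u i : ℕ} (hu : 1 ≤ u) (hi : i < 450) (h : i ≤ ci (Q u)) :
    Pool.Agent.P.MP_d9fb17_nt.r4 i ≤ u := by
  have h1 := (T.r4 i hi).1.trans ((le_ci (Q_pos hu)).1 h)
  have h2 : Q u ^ 2 < (u + 1) ^ 4 := by
    rw [show 4 = 2 * 2 from rfl, pow_mul]
    exact Nat.pow_lt_pow_left (by unfold Q; nlinarith) two_ne_zero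
  exact Nat.lt_succ_iff.1 (lt_of_pow_lt_pow_left₀ 4 (Nat.zero_le _) (h1.trans_lt h2))

lemma Tabs.le_r4 (T : Tabs) {u i : ℕ} (hu : 1 ≤ u) (hi : i < 450) (h : ci (Q u) < i) :
    u ≤ Pool.Agent.P.MP_d9fb17_nt.r4 i := by
  have h1 := ((ci_lt (Q_pos hu)).1 h).trans (T.r4 i hi).2
  have h2 : u ^ 4 ≤ Q u ^ 2 := by
    rw [show 4 = 2 * 2 from rfl, pow_mul]
    exact Nat.pow_le_pow_left (by unfold Q; nlinarith) 2
  exact Nat.lt_succ_iff.1 (lt_of_pow_lt_pow_left₀ 4 (Nat.zero_le _) (h2.trans_lt h1))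

end Pool.Agent.P.MP_d9fb17_nt
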