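import Pool.Agent.P.MP_d9fb17_nt.CEnum

/-! Correctness of the packed arithmetic. -/

namespace Pool.Agent.P.MP_d9fb17_nt

open Finset

/-- The number with digits `g 0, ..., g (n-1)` in base `65536`. -/
def pk (g : ℕ → ℕ) (n : ℕ) : ℕ := ∑ i ∈ range n, g i * 65536 ^ i

lemma pk_succ (g : ℕ → ℕ) (n : ℕ) : pk g (n + 1) = g 0 + 65536 * pk (fun i => g (i + 1)) n := by
  unfold pk
  rw [sum_range_succ', mul_sum, add_comm]
  simp only [pow_zero, mul_one, pow_succ]
  congr 1
  exact sum_congr rfl fun _ _ => by ring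

lemma pk_congr {f g : ℕ → ℕ} {n : ℕ} (h : ∀ i < n, f i = g i) : pk f n = pk g n :=
  sum_congr rfl fun i hi => by rw [h i (mem_range.1 hi)]

lemma pk_add (f g : ℕ → ℕ) (n : ℕ) : pk f n + pk g n = pk (fun i => f i + g i) n := by
  unfold pk
  rw [← sum_add_distrib]
  exact sum_congr rfl fun _ _ => by ring

lemma pk_mul (c : ℕ) (g : ℕ → ℕ) (n : ℕ) : c * pk g n = pk (fun i => c * g i) n := by
  unfold pk
  rw [mul_sum]
  exact sum_congr rfl fun _ _ => by ring

lemma pk_sub {f g : ℕ → ℕ} {n : ℕ} (h : ∀ i < n, g i ≤ f i) :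
    pk f n - pk g n = pk (fun i => f i - g i) n := by
  rw [Nat.sub_eq_iff_eq_add, pk_add]
  · exact pk_congr fun i hi => (Nat.sub_add_cancel (h i hi)).symm
  · exact sum_le_sum fun i hi => Nat.mul_le_mul_right _ (h i (mem_range.1 hi))

lemma pk_lt {g : ℕ → ℕ} {n : ℕ} (h : ∀ i < n, g i < 65536) : pk g n < 65536 ^ n := by
  induction n generalizing g with
  | zero => simp [pk]
  | succ n ih =>
    have := ih (g := fun i => g (i + 1)) fun i hi => h _ (by omega)
    have h0 := h 0 (by omega)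
    rw [pk_succ, pow_succ]
    omega

lemma pk_lane {g : ℕ → ℕ} {n : ℕ} (h : ∀ i < n, g i < 65536) {i : ℕ} (hi : i < n) :
    pk g n / 65536 ^ i % 65536 = g i := by
  induction i generalizing g n with
  | zero =>
    obtain ⟨n, rfl⟩ : ∃ k, n = k + 1 := ⟨n - 1, by omega⟩
    have h0 := h 0 hi
    rw [pk_succ, pow_zero]
    omega
  | succ i ih =>
    obtain ⟨n, rfl⟩ : ∃ k, n = k + 1 := ⟨n - 1, by omega⟩
    have h0 := h 0 (by omega)
    rw [pk_succ, pow_succ', ← Nat.div_div_eq_div_mul, Nat.add_mul_div_left _ _ (by norm_num),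
      Nat.div_eq_of_lt h0, zero_add, ih (fun i hi => h _ (by omega)) (by omega)]

lemma pk_split (g : ℕ → ℕ) (n k : ℕ) :
    pk g (n + k) = pk g n + pk (fun i => g (n + i)) k * 65536 ^ n := by
  unfold pk
  rw [sum_range_add, sum_mul]
  congr 1
  exact sum_congr rfl fun _ _ => by ring

lemma shl (m i : ℕ) : Nat.shiftLeft m (Nat.mul 16 i) = m * 65536 ^ i := by
  change m <<< (16 * i) = _
  rw [Nat.shiftLeft_eq, pow_mul]
  norm_num

lemma ones_eq (n : ℕ) : ones n = pk (fun _ => 1) n := by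
  have : 65536 ^ n = 1 + 65535 * pk (fun _ => 1) n := by
    induction n with
    | zero => simp [pk]
    | succ n ih => rw [pk_succ, pow_succ, ih]; ring
  unfold ones
  rw [shl, this]
  change (1 * _) / 65535 = _
  omega

lemma land_pk (T : ℕ) {g : ℕ → ℕ} {n : ℕ} (h : ∀ i < n, g i < 65536) :
    T &&& pk g n = pk (fun i => (T / 65536 ^ i) &&& g i) n := by
  induction n generalizing g T with
  | zero => simp [pk]
  | succ n ih =>
    have h0 := h 0 (by omega)
    rw [pk_succ, pk_succ, ← Nat.mod_add_div (T &&& _) (2 ^ 16), Nat.and_mod_two_pow,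
      Nat.and_div_two_pow]
    have e1 : (g 0 + 65536 * pk (fun i => g (i + 1)) n) % 2 ^ 16 = g 0 % 2 ^ 16 := by omega
    have e2 : (g 0 + 65536 * pk (fun i => g (i + 1)) n) / 2 ^ 16 = pk (fun i => g (i + 1)) n := by
      omega
    rw [e1, e2, ← Nat.and_mod_two_pow, Nat.mod_eq_of_lt (Nat.and_le_right.trans_lt h0),
      ih _ fun i hi => h _ (by omega)]
    simp only [pow_zero, Nat.div_one, pow_succ', Nat.div_div_eq_div_mul]
    norm_num

lemma pk_mod (g : ℕ → ℕ) (n : ℕ) : pk g n % 65535 = (∑ i ∈ range n, g i) % 65535 := by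
  induction n generalizing g with
  | zero => simp [pk]
  | succ n ih =>
    have := ih fun i => g (i + 1)
    rw [pk_succ, sum_range_succ']
    omega

lemma rl_spec {p q : ℕ → ℕ} {o : ℕ} (h : ∀ i < 32768, q i ≤ p i + o ∧ p i + o - q i < 8192) :
    ∑ i ∈ range 32768, (p i + o - q i - 4096) ≤ rl (pk p 32768) (pk q 32768) o := by
  generalize hn : 32768 = n at h ⊢
  have e : rl (pk p n) (pk q n) o = rl1 (pk (fun i => p i + o - q i) n) := by
    unfold rl
    rw [hn, ones_eq]
    change rl1 (_ + o * _ - _) = _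
    rw [pk_mul, pk_add, pk_sub fun i hi => by simpa using (h i hi).1]
    simp only [mul_one]
  rw [e]
  generalize hy : (fun i => p i + o - q i) = y
  have h1 : ∀ i < n, y i < 8192 := fun i hi => hy ▸ (h i hi).2
  have h2 : ∀ i < n, ∀ b < 13, pk y n / 2 ^ b / 65536 ^ i % 2 = y i / 2 ^ b % 2 := by
    intro i hi b hb
    rw [Nat.div_div_eq_div_mul, mul_comm, ← Nat.div_div_eq_div_mul,
      ← pk_lane (fun i hi => (h1 i hi).trans (by norm_num)) hi]
    generalize pk y n / 65536 ^ i = z
    interval_cases b <;> omega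
  have e2 : rl1 (pk y n) =
      ∑ b ∈ range 12, ∑ i ∈ range n, 2 ^ b * (y i / 2 ^ b % 2 * (y i / 2 ^ 12 % 2)) := by
    unfold rl1 rl2
    rw [sumTo_eq, hn, ones_eq]
    refine sum_congr rfl fun b hb => ?_
    rw [← mul_sum]
    change 2 ^ b * ((pk y n >>> b &&& (pk y n >>> 12 &&& _)) % 65535) = _
    rw [land_pk _ fun _ _ => by norm_num, land_pk _ fun _ _ => Nat.and_le_right.trans_lt
      (by norm_num), pk_mod, Nat.shiftRight_eq_div_pow, Nat.shiftRight_eq_div_pow]
    have h3 : ∀ i ∈ range n, (pk y n / 2 ^ b / 65536 ^ i &&& (pk y n / 2 ^ 12 / 65536 ^ i &&& 1)) =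
        y i / 2 ^ b % 2 * (y i / 2 ^ 12 % 2) := by
      intro i hi
      rw [Nat.and_one_is_mod, h2 i (mem_range.1 hi) 12 (by norm_num),
        ← h2 i (mem_range.1 hi) b (by have := mem_range.1 hb; omega)]
      rcases Nat.mod_two_eq_zero_or_one (y i / 2 ^ 12) with h4 | h4 <;> rw [h4] <;> simp
    rw [sum_congr rfl h3, Nat.mod_eq_of_lt]
    refine (sum_le_card_nsmul _ _ 1 fun i _ => ?_).trans_lt (by simp [← hn])
    exact (Nat.mul_le_mul (Nat.lt_succ_iff.1 (Nat.mod_lt _ two_pos))
      (Nat.lt_succ_iff.1 (Nat.mod_lt _ two_pos)))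
  rw [e2, sum_comm]
  have h3 : ∀ y < 8192, y - 4096 ≤ ∑ b ∈ range 12, 2 ^ b * (y / 2 ^ b % 2 * (y / 2 ^ 12 % 2)) := by
    intro y hy
    have h4 : ∀ k, ∑ b ∈ range k, 2 ^ b * (y / 2 ^ b % 2) = y % 2 ^ k := by
      intro k
      induction k with
      | zero => simp [Nat.mod_one]
      | succ k ih => rw [sum_range_succ, ih, Nat.mod_pow_succ]
    simp only [← mul_assoc]
    rw [← sum_mul, h4]
    rcases Nat.mod_two_eq_zero_or_one (y / 2 ^ 12) with h4 | h4 <;> rw [h4] <;> omega
  exact sum_le_sum fun i hi => hy ▸ h3 _ (h i (mem_range.1 hi)).2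

/-- The list of the first `k` digits in base `2^26`. -/
noncomputable def lanes : ℕ → ℕ → List ℕ
  | 0, _ => []
  | k + 1, y => get y :: lanes k (y >>> 26)

lemma run_spec (m s e t k : ℕ) : ∀ y acc, (lanes k y).Pairwise (· < ·) → run m s e t k y acc =
    acc + ((lanes k y).map fun z =>
      if s ≤ z + t ∧ z + t < e then m * 65536 ^ (z + t - s) else 0).sum := by
  induction k with
  | zero => intro y acc _; rfl
  | succ k ih =>
    intro y acc h
    rw [lanes, List.pairwise_cons] at h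
    change run1 m s e (get y + t) (run m s e t k (y >>> 26)) acc = _
    unfold run1
    rw [rec_ble, rec_ble, lanes, List.map_cons, List.sum_cons, ih _ _ h.2, shl]
    by_cases h1 : e ≤ get y + t
    · rw [if_pos h1, if_neg (by omega), List.sum_eq_zero]
      · rfl
      · intro x hx
        obtain ⟨z, hz, rfl⟩ := List.mem_map.1 hx
        have := h.1 z hz
        exact if_neg (by omega)
    · rw [if_neg h1]
      by_cases h2 : s ≤ get y + t
      · rw [if_pos h2, if_pos (by omega)]
        exact add_assoc _ _ _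
      · rw [if_neg h2, if_neg (by omega), zero_add]

lemma mem_lanes {r c : ℕ} (h : c < r) (x : ℕ) : get (x >>> (26 * c)) ∈ lanes r x := by
  induction c generalizing r x with
  | zero =>
    obtain ⟨r, rfl⟩ : ∃ k, r = k + 1 := ⟨r - 1, by omega⟩
    simp [lanes]
  | succ c ih =>
    obtain ⟨r, rfl⟩ : ∃ k, r = k + 1 := ⟨r - 1, by omega⟩
    rw [lanes, show 26 * (c + 1) = 26 + 26 * c by ring, Nat.shiftRight_add]
    exact List.mem_cons_of_mem _ (ih (by omega) _)

lemma skip_lanes {s : ℕ} {F : ℕ → ℕ} (hF : ∀ z < s, F z = 0) (c : ℕ) : ∀ r x, c ≤ r →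
    (lanes r x).Pairwise (· < ·) → (c = 0 ∨ get (x >>> (26 * (c - 1))) < s) →
    ((lanes (r - c) (x >>> (26 * c))).map F).sum = ((lanes r x).map F).sum := by
  induction c with
  | zero => intro r x _ _ _; rfl
  | succ c ih =>
    intro r x h1 h2 h3
    obtain ⟨r, rfl⟩ : ∃ k, r = k + 1 := ⟨r - 1, by omega⟩
    replace h3 : get (x >>> (26 * c)) < s := h3.resolve_left (by omega)
    rw [lanes, List.pairwise_cons] at h2
    have e : ∀ c, 26 * (c + 1) = 26 + 26 * c := fun c => by ring
    rw [lanes, List.map_cons, List.sum_cons, Nat.add_sub_add_right, e, Nat.shiftRight_add]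
    rcases c with _ | c
    · rw [hF (get x) h3, zero_add]
      rfl
    · rw [e, Nat.shiftRight_add] at h3
      rw [hF _ ((h2.1 _ (mem_lanes (by omega) _)).trans h3), zero_add]
      exact ih _ _ (by omega) h2.2 (Or.inr h3)

/-- A correct entry of the list of roots. -/
structure Good (e : En) : Prop where
  pos : 0 < e.q
  lt : e.m < 65536
  srt : (lanes e.r e.x).Pairwise (· < ·)
  mem : ∀ z, z ∈ lanes e.r e.x ↔ z < e.q ∧ e.q ∣ Q z

lemma win_spec {e : En} (h : Good e) (a : ℕ) {n : ℕ} (hn : n ≤ e.q) (acc : ℕ) :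
    win (a % e.q) n e.m e.q e.r e.x acc =
      acc + pk (fun i => if e.q ∣ Q (a + i) then e.m else 0) n := by
  obtain ⟨d, q, m, r, x⟩ := e
  obtain ⟨h1, -, h2, h3⟩ := h
  dsimp only at *
  have hs := Nat.mod_lt a h1
  have e0 : ∀ i, q ∣ Q (a + i) ↔ q ∣ Q (a % q + i) := fun i =>
    Q_congr ((Nat.mod_modEq a q).add_right i).symm
  simp only [e0]
  generalize a % q = s at *
  have e1 : ∀ F : ℕ → ℕ, ((lanes r x).map F).sum = ∑ z ∈ range q, if q ∣ Q z then F z else 0 := by
    intro F
    rw [← List.sum_toFinset _ (h2.imp ne_of_lt), ← sum_filter]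
    refine sum_congr ?_ fun _ _ => rfl
    ext z
    simp [h3]
  set H : ℕ → ℕ := fun u => if q ∣ Q u then
    (if s ≤ u ∧ u < s + n then m * 65536 ^ (u - s) else 0) else 0 with hH
  have e2 : (Bool.rec (run m s (s + n) q r x acc) acc (Nat.ble (s + n) q) : ℕ) =
      acc + ∑ z ∈ range q, H (q + z) := by
    rw [rec_ble, run_spec _ _ _ _ _ _ _ h2, e1]
    split_ifs with h4
    · rw [sum_eq_zero, add_zero]
      intro z _
      simp only [hH]
      rw [if_neg (by omega : ¬(s ≤ q + z ∧ q + z < s + n)), ite_self]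
    · congr 1
      refine sum_congr rfl fun z _ => ?_
      simp only [hH, add_comm q z, Q_congr (Nat.add_modEq_right (n := q) (a := z))]
  have e3 : ∀ c acc, c ≤ r → win2 s (s + n) m r x (start s c x) acc =
      acc + ∑ z ∈ range q, H z := by
    intro c acc hc
    have h4 : start s c x ≤ r ∧
        (start s c x = 0 ∨ get (x >>> (26 * (start s c x - 1))) < s) := by
      unfold start
      rw [rec_ble]
      split_ifs with h4
      · simp
      · exact ⟨hc, Or.inr (not_le.1 h4)⟩
    generalize start s c x = c at h4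
    have h5 := skip_lanes (s := s) (F := fun z =>
      if s ≤ z + 0 ∧ z + 0 < s + n then m * 65536 ^ (z + 0 - s) else 0)
      (fun z hz => if_neg (by omega)) c r x h4.1 h2 h4.2
    have h6 : ∀ c r x, c ≤ r → (lanes r x).Pairwise (· < ·) →
        (lanes (r - c) (x >>> (26 * c))).Pairwise (· < ·) := by
      intro c
      induction c with
      | zero => exact fun _ _ _ h => h
      | succ c ih =>
        intro r x h1 h2
        obtain ⟨r, rfl⟩ : ∃ k, r = k + 1 := ⟨r - 1, by omega⟩
        rw [Nat.add_sub_add_right, show 26 * (c + 1) = 26 + 26 * c by ring, Nat.shiftRight_add]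
        exact ih _ _ (by omega) (List.pairwise_cons.1 h2).2
    exact (run_spec _ _ _ _ _ _ _ (h6 c r x h4.1 h2)).trans (by rw [h5, e1]; rfl)
  change win2 s (s + n) m r x (start s (mn r (cn s r x)) x)
    (Bool.rec (run m s (s + n) q r x acc) acc (Nat.ble (s + n) q)) = _
  rw [e3 _ _ (by unfold mn; rw [rec_ble]; split_ifs <;> omega), e2, add_assoc, add_comm (∑ _ ∈ _, _),
    ← sum_range_add, pk]
  congr 1
  rw [← sum_subset (s₁ := Ico s (s + n)) (fun u hu => by simp at hu ⊢; omega), sum_Ico_eq_sum_range,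
    Nat.add_sub_cancel_left]
  · refine sum_congr rfl fun i hi => ?_
    have := mem_range.1 hi
    simp only [hH]
    rw [if_pos (by omega : s ≤ s + i ∧ s + i < s + n), Nat.add_sub_cancel_left]
    split_ifs <;> simp
  · intro u _ hu
    simp only [hH]
    rw [if_neg (by simpa using hu : ¬(s ≤ u ∧ u < s + n)), ite_self]

lemma dbl_spec (g : ℕ → ℕ) (n fuel : ℕ) : ∀ q, (∀ i, g (q + i) = g i) → n ≤ q * 2 ^ fuel →
    ∃ k, dbl n fuel q (pk g q) = pk g (n + k) := by
  induction fuel with
  | zero => exact fun q _ h => ⟨q - n, by rw [Nat.add_sub_cancel' (by simpa using h)]; rfl⟩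
  | succ fuel ih =>
    intro q h1 h2
    change ∃ k, (Bool.rec (dbl n fuel (q + q) (pk g q + Nat.shiftLeft (pk g q) (Nat.mul 16 q)))
      (pk g q) (Nat.ble n q) : ℕ) = _
    rw [rec_ble]
    split_ifs with h3
    · exact ⟨q - n, by rw [Nat.add_sub_cancel' h3]⟩
    · have := pk_split g q q
      simp only [h1] at this
      rw [shl, ← this]
      exact ih _ (fun i => by rw [add_assoc, h1, h1]) (h2.trans_eq (by ring))

lemma tot_spec (a n : ℕ) (l : List En) (h : ∀ e ∈ l, Good e) : tot a n l =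
    pk (fun i => (l.map fun e => if e.q ∣ Q (a + i) then e.m else 0).sum) n := by
  induction l with
  | nil => simp [pk]; rfl
  | cons e l ih =>
    have he := h e (by simp)
    change onp a n e (tot a n l) = _
    simp only [List.map_cons, List.sum_cons]
    rw [← pk_add, ← ih fun e he => h e (by simp [he]), add_comm]
    unfold onp
    rw [rec_ble]
    split_ifs with h1
    · exact win_spec he a h1 _
    · have h2 := win_spec he a le_rfl 0
      rw [zero_add] at h2
      obtain ⟨k, hk⟩ := dbl_spec (fun i => if e.q ∣ Q (a + i) then e.m else 0) n n e.q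
        (fun i => by simp only [show a + (e.q + i) = a + i + e.q by ring,
          Q_congr (Nat.add_modEq_right (n := e.q) (a := a + i))])
        (Nat.lt_two_pow_self.le.trans (Nat.le_mul_of_pos_left _ he.pos))
      change _ + dbl n n e.q (win (a % e.q) e.q e.m e.q e.r e.x 0) % _ = _
      rw [h2, hk, shl, one_mul, pk_split, Nat.add_mul_mod_self_right, Nat.mod_eq_of_lt]
      refine pk_lt fun i _ => ?_
      have := he.lt
      split_ifs <;> omega

lemma srt_spec (q k : ℕ) : ∀ y lo, srt q k y lo = true → lo ≤ q ∧ (lanes k y).Pairwise (· < ·) ∧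
    (lanes k y).length = k ∧ ∀ z ∈ lanes k y, lo ≤ z ∧ z < q ∧ q ∣ Q z := by
  induction k with
  | zero => exact fun y lo h => ⟨Nat.le_of_ble_eq_true h, by simp [lanes]⟩
  | succ k ih =>
    intro y lo h
    change (Bool.rec false (Bool.rec false (srt q k (y >>> 26) (get y + 1))
      (Nat.beq (Q (get y) % q) 0)) (Nat.ble lo (get y)) : Bool) = true at h
    rw [rec_ble, rec_beq] at h
    split_ifs at h with h1 h2
    obtain ⟨h3, h4, h5, h6⟩ := ih _ _ h
    rw [lanes]
    refine ⟨by omega, List.pairwise_cons.2 ⟨fun z hz => (h6 z hz).1, h4⟩, by simp [h5], ?_⟩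
    intro z hz
    rcases List.mem_cons.1 hz with rfl | hz
    · exact ⟨h1, h3, Nat.dvd_of_mod_eq_zero h2⟩
    · have := h6 z hz
      exact ⟨by omega, this.2⟩

lemma okE_spec {d g : ℕ} {e : En} (hd : 1 ≤ d) (hd2 : d ≤ 4097) (hg : g < 65536)
    (h : okE d g e = true) : e.d = d ∧ e.q = Q d ∧ e.m = g ∧ e.r = rt d ∧ Good e := by
  simp only [okE, Bool.and_eq_true, Nat.beq_eq, Nat.ble_eq] at h
  obtain ⟨⟨⟨⟨⟨h1, h2⟩, h3⟩, h4⟩, h5⟩, h6⟩ := h
  obtain ⟨-, h7, h8, h9⟩ := srt_spec _ _ _ _ h6
  change e.q = Q d at h2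
  have h10 := rt_le_rr hd (by omega) (by omega)
  have h11 : (lanes e.r e.x).toFinset ⊆ (range (Q d)).filter fun x => Q d ∣ Q x := by
    intro z hz
    have := h9 z (List.mem_toFinset.1 hz)
    rw [h2] at this
    exact mem_filter.2 ⟨mem_range.2 this.2.1, this.2.2⟩
  have h12 := List.toFinset_card_of_nodup (h7.imp ne_of_lt)
  have h13 := card_le_card h11
  change _ ≤ rt d at h13
  have h14 := eq_of_subset_of_card_le h11 (by change rt d ≤ _; omega)
  refine ⟨h1, h2, h3, by omega, h2 ▸ Q_pos hd, h3 ▸ hg, h7, fun z => ?_⟩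
  rw [← List.mem_toFinset, h14, h2]
  simp

lemma chkL_spec {g : ℕ → ℕ} (hg : ∀ d, g (tv d) < 65536) (k : ℕ) (hk : k ≤ 4095) :
    ∀ l, chkL g k l = true → (∀ e ∈ l, Good e) ∧ ∀ F : ℕ → ℕ → ℕ → ℕ → ℕ,
      (∀ d q r, F d q 0 r = 0) → (l.map fun e => F e.d e.q e.m e.r).sum =
        ∑ d ∈ Ico 2 (k + 2), F d (Q d) (g (tv d)) (rt d) := by
  induction k with
  | zero =>
    intro l h
    cases l
    · simp
    · exact absurd h (by simp [chkL])
  | succ k ih =>
    intro l h
    change (Bool.rec (List.rec (motive := fun _ => Bool) false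
      (fun e l' _ => okE (k + 2) (g (tv (k + 2))) e && chkL g k l') l) (chkL g k l)
      (Nat.beq (g (tv (k + 2))) 0) : Bool) = true at h
    rw [rec_beq] at h
    simp only [show k + 1 + 2 = k + 2 + 1 by ring, sum_Ico_succ_top (by omega : 2 ≤ k + 2)]
    split_ifs at h with h1
    · obtain ⟨h2, h3⟩ := ih (by omega) l h
      exact ⟨h2, fun F hF => by rw [h1, hF, h3 F hF, add_zero]⟩
    · cases l with
      | nil => exact absurd h (by simp)
      | cons e l =>
        replace h := Bool.and_eq_true_iff.1 h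
        obtain ⟨h2, h3⟩ := ih (by omega) l h.2
        obtain ⟨h4, h5, h6, h7, h8⟩ := okE_spec (by omega) (by omega) (hg _) h.1
        refine ⟨by simpa using ⟨h8, h2⟩, fun F hF => ?_⟩
        rw [List.map_cons, List.sum_cons, h3 F hF, h4, h5, h6, h7, add_comm]

end Pool.Agent.P.MP_d9fb17_nt
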