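import Pool.Agent.P.MP_d9fb17_nt.CSuper

/-! Pairs with a fixed small ratio: classes of solutions of a Pell equation. -/

namespace Pool.Agent.P.MP_d9fb17_nt

open Finset

lemma pell_par {u n k a : ℕ} (hun : u < n) (hk : 2 ≤ k) (h : Q n = k * Q u)
    (ha : Nat.gcd (n - u) (k - 1) = a) : ∃ s t : ℤ, 2 * u + 1 = ((k - 1) / a : ℕ) * t - a * s ∧
      2 * n + 1 = ((k - 1) / a : ℕ) * t + a * s := by
  obtain ⟨v, rfl⟩ := Nat.exists_eq_add_of_le hun.le
  obtain ⟨m, rfl⟩ : ∃ m, k = m + 1 := ⟨k - 1, by omega⟩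
  rw [Nat.add_sub_cancel_left] at ha
  rw [Nat.add_sub_cancel] at ha ⊢
  have h0 : 0 < a := ha ▸ Nat.gcd_pos_of_pos_left _ (by omega)
  have hc := Nat.coprime_div_gcd_div_gcd (ha ▸ h0 : 0 < Nat.gcd v m)
  obtain ⟨s, hs⟩ := Nat.gcd_dvd_left v m
  obtain ⟨b, hb⟩ := Nat.gcd_dvd_right v m
  rw [ha] at hs hb hc
  subst hs hb
  rw [Nat.mul_div_cancel_left _ h0, Nat.mul_div_cancel_left _ h0] at hc
  rw [Nat.mul_div_cancel_left _ h0]
  have h1 : s * (2 * u + a * s + 1) = b * Q u :=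
    Nat.eq_of_mul_eq_mul_left h0 (by unfold Q at h ⊢; linarith)
  obtain ⟨t, ht⟩ := hc.symm.dvd_of_dvd_mul_left (Dvd.intro _ h1.symm)
  have h2 : (2 * u + a * s + 1 : ℤ) = b * t := by exact_mod_cast ht
  exact ⟨s, t, by linarith, by push_cast; linarith⟩

lemma pell_gap {u n u' n' k : ℕ} (hu : u < u') (h1 : u < n) (h2 : u' < n') (hk : 2 ≤ k)
    (h3 : Q n = k * Q u) (h4 : Q n' = k * Q u')
    (h : Nat.gcd (n - u) (k - 1) = Nat.gcd (n' - u') (k - 1)) : 16 * k * Q u ≤ Q u' := by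
  obtain ⟨s, t, e1, e2⟩ := pell_par h1 hk h3 rfl
  obtain ⟨s', t', e3, e4⟩ := pell_par h2 hk h4 h.symm
  have e5 : (Nat.gcd (n - u) (k - 1) : ℤ) * ((k - 1) / Nat.gcd (n - u) (k - 1) : ℕ) = k - 1 := by
    rw [← Nat.cast_mul, Nat.mul_div_cancel' (Nat.gcd_dvd_right _ _), Nat.cast_pred (by omega)]
  generalize (((k - 1) / Nat.gcd (n - u) (k - 1) : ℕ) : ℤ) = b at *
  generalize (Nat.gcd (n - u) (k - 1) : ℤ) = a at *
  have f1 : (2 * u + 1 : ℤ) ^ 2 = 4 * Q u + 1 := by unfold Q; push_cast; ring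
  have f2 : (2 * u' + 1 : ℤ) ^ 2 = 4 * Q u' + 1 := by unfold Q; push_cast; ring
  have f3 : (2 * n + 1 : ℤ) ^ 2 = 4 * (k * Q u) + 1 := by
    rw [← Nat.cast_mul, ← h3]; unfold Q; push_cast; ring
  have f4 : (2 * n' + 1 : ℤ) ^ 2 = 4 * (k * Q u') + 1 := by
    rw [← Nat.cast_mul, ← h4]; unfold Q; push_cast; ring
  have hq : (Q u : ℤ) < Q u' := by exact_mod_cast Q_strictMono hu
  have hk' : (2 : ℤ) ≤ k := by exact_mod_cast hk
  have p1 : (0 : ℤ) < 2 * u + 1 := by positivity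
  have p2 : (0 : ℤ) < 2 * u' + 1 := by positivity
  have p3 : (0 : ℤ) < 2 * n + 1 := by positivity
  have p4 : (0 : ℤ) < 2 * n' + 1 := by positivity
  have q0 : (0 : ℤ) ≤ Q u := by positivity
  by_contra hc
  have hc' : (Q u' : ℤ) < 16 * k * Q u := by exact_mod_cast not_le.1 hc
  generalize (2 * u + 1 : ℤ) = X at *
  generalize (2 * u' + 1 : ℤ) = X' at *
  generalize (2 * n + 1 : ℤ) = Y at *
  generalize (2 * n' + 1 : ℤ) = Y' at *
  generalize (Q u : ℤ) = q at *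
  generalize (Q u' : ℤ) = q' at *
  have g1 : X * Y' - Y * X' = 2 * (k - 1) * (t * s' - s * t') := by
    rw [e1, e2, e3, e4, ← e5]; ring
  have g2 : (k - 1) * ((t * s' - s * t') * (X * Y' + Y * X')) = (k - 1) * (2 * (q' - q)) := by
    have : (X * Y' - Y * X') * (X * Y' + Y * X') = X ^ 2 * Y' ^ 2 - Y ^ 2 * X' ^ 2 := by ring
    rw [g1, f1, f2, f3, f4] at this
    linarith
  replace g2 := mul_left_cancel₀ (by omega) g2
  have g3 : 0 < X * Y' + Y * X' := by positivity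
  have g4 : 0 < t * s' - s * t' := (mul_pos_iff_of_pos_right g3).1 (by linarith)
  have g5 := mul_lt_mul_of_pos_right hc' (by omega : 0 < q')
  have k1 : 0 ≤ k * q := by positivity
  have k2 : 0 ≤ k * q' := mul_nonneg (by omega) (by omega)
  have g6 : q' < X * Y' := lt_of_pow_lt_pow_left₀ 2 (by positivity)
    (by rw [mul_pow, f1, f4]; linarith)
  have g7 : q' < Y * X' := lt_of_pow_lt_pow_left₀ 2 (by positivity)
    (by rw [mul_pow, f2, f3]; linarith)
  linarith [mul_le_mul_of_nonneg_right (by omega : 1 ≤ t * s' - s * t') g3.le]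

lemma tau_le {m s : ℕ} (hm : 0 < m) (h : m < (s + 1) ^ 2) :
    m.divisors.card ≤ 2 * ((range s).filter fun a => a + 1 ∣ m).card := by
  set S := (range s).filter fun a => a + 1 ∣ m
  have : m.divisors ⊆ S.image (· + 1) ∪ S.image fun a => m / (a + 1) := by
    intro d hd
    obtain ⟨c, hc⟩ := Nat.dvd_of_mem_divisors hd
    have hd0 : 0 < d := Nat.pos_of_mul_pos_right (hc ▸ hm)
    have hc0 : 0 < c := Nat.pos_of_mul_pos_left (hc ▸ hm)
    rcases le_or_gt d s with h1 | h1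
    · exact mem_union_left _ (mem_image.2 ⟨d - 1, mem_filter.2 ⟨mem_range.2 (by omega),
        by rw [Nat.sub_add_cancel hd0]; exact ⟨c, hc⟩⟩, by omega⟩)
    · have : c ≤ s := by
        by_contra h2
        have := Nat.mul_le_mul (by omega : s + 1 ≤ d) (by omega : s + 1 ≤ c)
        rw [sq] at h
        omega
      refine mem_union_right _ (mem_image.2 ⟨c - 1, mem_filter.2 ⟨mem_range.2 (by omega), ?_⟩, ?_⟩)
      · rw [Nat.sub_add_cancel hc0]; exact Dvd.intro_left _ hc.symm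
      · rw [Nat.sub_add_cancel hc0, hc, Nat.mul_div_cancel _ hc0]
  have h1 := (card_le_card this).trans (card_union_le _ _)
  have h2 := card_image_le (s := S) (f := (· + 1))
  have h3 := card_image_le (s := S) (f := fun a => m / (a + 1))
  omega

lemma tau_sum {lo hi s : ℕ} (h : ∀ m ∈ Ioc lo hi, m < (s + 1) ^ 2) :
    ∑ m ∈ Ioc lo hi, m.divisors.card ≤ 2 * ∑ a ∈ range s, (hi / (a + 1) - lo / (a + 1)) := by
  refine (sum_le_sum fun m hm => tau_le (by have := mem_Ioc.1 hm; omega) (h m hm)).trans ?_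
  rw [← mul_sum]
  simp only [card_filter]
  rw [sum_comm]
  refine Nat.mul_le_mul_left _ (sum_le_sum fun a _ => ?_)
  rcases le_or_gt lo hi with h1 | h1
  · rw [← Nat.Ioc_filter_dvd_card_eq_div, ← Nat.Ioc_filter_dvd_card_eq_div, card_filter, card_filter,
      ← sum_Ioc_consecutive _ (Nat.zero_le lo) h1, Nat.add_sub_cancel_left]
  · rw [Ioc_eq_empty (by omega)]
    simp

lemma Tabs.pell (T : Tabs) {j c : ℕ} (hj : j < 46) (P : Finset (ℕ × ℕ))
    (h : ∀ p ∈ P, 1 ≤ p.1 ∧ p.1 < p.2 ∧ Q p.1 ∣ Q p.2 ∧ ci (lab p.2 p.1) = j ∧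
      c ≤ ci (Q p.1) ∧ ci (Q p.1) < c + (8 + j)) : P.card ≤ ct j := by
  have h0 : ∀ m ∈ Ioc (Pool.Agent.P.MP_d9fb17_nt.kl j - 2)
      (Pool.Agent.P.MP_d9fb17_nt.kl (j + 1) - 2),
      m < (Pool.Agent.P.MP_d9fb17_nt.r4 (j + 1) + 1) ^ 2 := by
    intro m hm
    rw [mem_Ioc] at hm
    have h1 := (ci_lt (by omega)).1
      (not_le.1 (mt (T.kl (j + 1) (by omega) m (by omega)).2 (by omega)))
    refine lt_of_pow_lt_pow_left₀ 2 (Nat.zero_le _) (h1.trans ?_)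
    rw [← pow_mul]
    exact (T.r4 _ (by omega)).2
  rw [ct, sumTo_eq]
  refine le_trans ?_ (tau_sum h0)
  rw [← card_sigma]
  have key : ∀ p ∈ P, ∀ q ∈ P, lab p.2 p.1 = lab q.2 q.1 →
      Nat.gcd (p.2 - p.1) (lab p.2 p.1 - 1) = Nat.gcd (q.2 - q.1) (lab p.2 p.1 - 1) →
      ¬ p.1 < q.1 := by
    intro p hp q hq h1 h2 h3
    obtain ⟨a1, a2, a3, a4, a5, -⟩ := h p hp
    obtain ⟨b1, b2, b3, -, -, b6⟩ := h q hq
    have h4 := pell_gap h3 a2 b2 (two_le_lab a2 a3) (lab_mul a3).symm (h1 ▸ (lab_mul b3).symm) h2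
    have h5 := lab_pos (by omega) a3
    have h6 := ci_mono (by have := Q_pos a1; positivity) h4
    have h7 := (ci_mul (by positivity : 0 < 16 * lab p.2 p.1) (Q_pos a1)).1
    have h8 := (ci_mul (by norm_num : 0 < 16) h5).1
    have : ci 16 = 8 := by decide +kernel
    omega
  refine card_le_card_of_injOn
    (fun p => ⟨lab p.2 p.1 - 1, Nat.gcd (p.2 - p.1) (lab p.2 p.1 - 1)⟩) (fun p hp => ?_)
    fun p hp q hq hpq => ?_
  · obtain ⟨a1, a2, a3, a4, -⟩ := h p hp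
    have h1 := two_le_lab a2 a3
    have h2 := (T.kl j (by omega) (lab p.2 p.1) (by omega)).2 a4.ge
    have h3 := mt (T.kl (j + 1) (by omega) (lab p.2 p.1) (by omega)).1 (by omega)
    exact mem_coe.2 (mem_sigma.2 ⟨mem_Ioc.2 (by dsimp only; omega),
      Nat.mem_divisors.2 ⟨Nat.gcd_dvd_right _ _, by dsimp only; omega⟩⟩)
  · simp only [Sigma.mk.injEq, heq_eq_eq] at hpq
    have h1 := two_le_lab (h p hp).2.1 (h p hp).2.2.1
    have h2 := two_le_lab (h q hq).2.1 (h q hq).2.2.1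
    have h3 : lab p.2 p.1 = lab q.2 q.1 := by omega
    have h4 := key p hp q hq h3 (hpq.1 ▸ hpq.2)
    have h5 := key q hq p hp h3.symm (hpq.1 ▸ hpq.2.symm)
    have h6 : p.1 = q.1 := by omega
    refine Prod.ext h6 (Q_inj ?_)
    rw [← lab_mul (h p hp).2.2.1, ← lab_mul (h q hq).2.2.1, h3, h6]

/-- The multiples of `u` in the lower range whose window contains `u`. -/
noncomputable def Inn (u X : ℕ) : Finset ℕ :=
  (Ioc u X).filter fun n => inW n u ∧ ci (Q n) < 448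

lemma Comp.inn (H : Comp) {u X n : ℕ} (hn : n ∈ Inn u X) : 262144 < u ∧ u < n ∧ Q u ∣ Q n ∧
    2 ≤ ci (lab n u) ∧ ci (lab n u) < 46 ∧ ci (Q u) < 448 ∧
    (nuv n u).natAbs * ps (ci (Q n)) ≤ zI (ci (Q u)) (ci (lab n u)) := by
  obtain ⟨h1, h2, h3⟩ := mem_filter.1 hn
  rw [mem_Ioc] at h1
  have h4 := (H.J (ci_Q_ge (h2.1.trans h1.1))).2.2.1 (by omega)
  have h5 := h2.2.2
  have h6 := ci_lab (by have := h2.1; omega) h1.1 h2.2.1
  refine ⟨h2.1, h1.1, h2.2.1, two_le_ci (two_le_lab h1.1 h2.2.1), by omega, by omega, ?_⟩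
  rw [mul_comm]
  refine Nat.mul_le_mul ?_ (H.b1 h1.1 h2 (by omega) le_rfl)
  have : ps (ci (Q n)) = zi1 (ci (lab n u)) (ci (Q n)) := by
    unfold zi1
    rw [rec_ble, if_neg (by omega)]
  rw [this, mx_eq]
  rcases (by omega : ci (Q n) = ci (Q u) + ci (lab n u) ∨
    ci (Q n) = ci (Q u) + ci (lab n u) + 1) with h | h <;> rw [h]
  · exact le_max_left _ _
  · exact le_max_right _ _

lemma Comp.inn_le (H : Comp) {u X : ℕ} (hu : 262144 < u) (hi : ci (Q u) < 448) :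
    ∑ n ∈ Inn u X, wt u n ≤ it (ci (Q u)) := by
  have T := H.tb
  have h0 := ci_Q_ge hu
  have h1 := abel_spec (Inn u X) (fun n => ci (lab n u)) (fun n => wt u n * SS)
    (cnt (ci (Q u)) (om (ci (Q u)))) (tI (ci (Q u))) 46 (fun n hn hj => ?_) (fun j hj =>
      (card_le_card (up_abel (fun n hn => ⟨mem_Ioc.1 (mem_filter.1 hn).1, (H.inn hn).2.2.1⟩) j)).trans
      (T.cnt (by omega) (by omega) le_rfl (T.om _ _ (Q_pos (by omega)) le_rfl hi) (by omega))) 0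
  · rw [filter_true_of_mem fun n hn => (H.inn hn).2.2.2.2.1, ← sum_mul] at h1
    have h2 := Nat.cast_le (α := ℝ).2 (Nat.le_of_ble_eq_true (H.rowI _ h0 hi))
    refine le_of_mul_le_mul_right ?_ SS_pos
    push_cast at h1 h2
    linarith
  · obtain ⟨-, a2, a3, a4, -, -, a5⟩ := H.inn hn
    rw [wt, div_mul_eq_mul_div, ← Nat.cast_mul]
    exact div_le_nat (Nat.mul_le_mul_right _ a5) (T.kl_pos (by omega) (by omega))
      ((T.kl _ (by omega) _ (lab_pos (by omega) a3)).2 le_rfl)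

lemma Comp.pell (H : Comp) (L : Finset ℕ) (X : ℕ) :
    (∑ u ∈ L, lam (ci (Q u)) * (∑ n ∈ Inn u X, wt u n) / Q u) * SS ≤ tP := by
  have T := H.tb
  simp only [mul_sum, sum_div, sum_mul]
  rw [sum_sigma', tP, sumTo_eq, Nat.cast_sum, ← sum_fiberwise_of_maps_to (t := range 44)
    (g := fun p : (_ : ℕ) × ℕ => ci (lab p.2 p.1) - 2) fun p hp => mem_range.2 (by
      have := H.inn (mem_sigma.1 hp).2; omega)]
  refine sum_le_sum fun j hj => ?_
  rw [mem_range] at hj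
  have hk := T.kl_pos (by omega : 1 ≤ j + 2) (by omega)
  refine le_trans ?_ (div_le_nat le_rfl hk le_rfl)
  rw [sumTo_eq, mul_sum, Nat.cast_sum, sum_div, ← sum_fiberwise_of_maps_to
    (t := range (376 / (8 + (j + 2)) + 1))
    (g := fun p : (_ : ℕ) × ℕ => (ci (Q p.1) - 72) / (8 + (j + 2))) fun p hp => mem_range.2
      (Nat.lt_succ_of_le (Nat.div_le_div_right (by
        have := H.inn (mem_sigma.1 (mem_filter.1 hp).1).2; omega)))]
  refine sum_le_sum fun b _ => ?_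
  have h1 : ∀ p ∈ ((L.sigma fun u => Inn u X).filter fun p => ci (lab p.2 p.1) - 2 = j).filter
      fun p => (ci (Q p.1) - 72) / (8 + (j + 2)) = b, p.2 ∈ Inn p.1 X ∧ ci (lab p.2 p.1) = j + 2 ∧
      ∃ t < 8 + (j + 2), ci (Q p.1) = 72 + (8 + (j + 2)) * b + t := by
    intro p hp
    simp only [mem_filter, mem_sigma] at hp
    have h1 := H.inn hp.1.1.2
    have h2 := ci_Q_ge h1.1
    have h3 := Nat.div_add_mod (ci (Q p.1) - 72) (8 + (j + 2))
    rw [hp.2] at h3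
    exact ⟨hp.1.1.2, by omega, _, Nat.mod_lt (ci (Q p.1) - 72) (by omega), by omega⟩
  refine (sum_le_card_nsmul _ _ ((maxTo (fun t => wP (72 + (8 + (j + 2)) * b + t) (j + 2))
    (8 + (j + 2)) : ℝ) / kl (j + 2)) fun p hp => ?_).trans ?_
  · obtain ⟨h2, h3, t, h4, h5⟩ := h1 p hp
    obtain ⟨a1, a2, a3, -, -, a4, a5⟩ := H.inn h2
    have h6 := le_maxTo (fun t => wP (72 + (8 + (j + 2)) * b + t) (j + 2)) h4
    have h7 := ci_Q_ge a1
    have h8 := div_le_nat (Nat.mul_le_mul_right SS (Nat.mul_le_mul_left (lam (ci (Q p.1))) a5))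
      (T.kl_pos (j := ci (Q p.1)) (by omega) (by omega))
      ((T.kl _ (by omega) _ (Q_pos (by omega : 1 ≤ p.1))).2 le_rfl)
    rw [← h5, ← h3] at h6
    rw [← mul_assoc] at h8
    calc _ = ((lam (ci (Q p.1)) * ((nuv p.2 p.1).natAbs * ps (ci (Q p.2))) * SS : ℕ) : ℝ) / Q p.1 /
          lab p.2 p.1 := by rw [wt]; push_cast; ring
      _ ≤ _ := by
        rw [← mul_assoc]
        refine div_le_div₀ (Nat.cast_nonneg _) (h8.trans ?_) (Nat.cast_pos.2 hk)
          (Nat.cast_le.2 ((T.kl _ (by omega) _ (lab_pos (by omega) a3)).2 h3.ge))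
        rw [h3]
        rw [h3, wP, mul_assoc] at h6
        rw [mul_assoc]
        exact_mod_cast h6
  · rw [nsmul_eq_mul, Nat.cast_mul, mul_div_assoc]
    gcongr
    rw [← card_map (Equiv.sigmaEquivProd ℕ ℕ).toEmbedding]
    refine T.pell (c := 72 + (8 + (j + 2)) * b) (by omega) _ fun p hp => ?_
    obtain ⟨q, hq, rfl⟩ := mem_map.1 hp
    obtain ⟨h2, h3, t, h4, h5⟩ := h1 q hq
    obtain ⟨a1, a2, a3, -⟩ := H.inn h2
    exact ⟨le_trans (by norm_num) a1.le, a2, a3, h3, h5 ▸ Nat.le_add_right _ _,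
      h5 ▸ Nat.add_lt_add_left h4 _⟩

end Pool.Agent.P.MP_d9fb17_nt
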