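import Mathlib

/-! Products of shifted labels are not squares (Runge's method). -/

namespace Pool.Agent.P.MP_d9fb17_nt

open Finset Polynomial

lemma sq_two {t a b Y : ℤ} (ha : 0 < a) (hab : a < b) (hb : b ^ 3 ≤ t) :
    (t + a) * (t + b) ≠ Y ^ 2 := by
  intro h
  wlog hY : 0 ≤ Y generalizing Y
  · exact this (Y := -Y) (by rw [h]; ring) (by omega)
  have h1 : (2 * t + a + b) ^ 2 = (2 * Y) ^ 2 + (b - a) ^ 2 := by linear_combination 4 * h
  have h2 : 2 * Y < 2 * t + a + b :=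
    lt_of_pow_lt_pow_left₀ 2 (by nlinarith [pow_pos (ha.trans hab) 3]) (by nlinarith)
  have h3 : b ^ 2 ≤ t := by nlinarith [pow_pos (ha.trans hab) 2]
  have h4 : (2 * Y) ^ 2 ≤ (2 * t + a + b - 1) ^ 2 := pow_le_pow_left₀ (by omega) (by omega) 2
  nlinarith

lemma four_aux {x : ℤ} (P R : ℤ) (u : |P + R| ≤ 2 * x) (v : |P - R| ≤ 2 * x) :
    (P * R) ^ 2 ≤ x ^ 4 := by
  have u' := sq_le_sq' (abs_le.1 u).1 (abs_le.1 u).2
  have v' := sq_le_sq' (abs_le.1 v).1 (abs_le.1 v).2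
  have : (P * R) ^ 2 ≤ (x ^ 2) ^ 2 :=
    sq_le_sq' (by linarith [sq_nonneg (P + R)]) (by linarith [sq_nonneg (P - R)])
  linarith

lemma four_aux2 {x t s : ℤ} (hx1 : 1 ≤ x) (hx : x ^ 3 ≤ t) (ht : 100 ≤ t) (hst : 4 * t ≤ s) :
    x ^ 2 ≤ t ∧ 16 * x ^ 4 ≤ t ^ 2 ∧ 4 * (t * s) ≤ s ^ 2 ∧ 16 * t ^ 2 ≤ s ^ 2 ∧
      100 * t ≤ t ^ 2 := by
  refine ⟨(pow_le_pow_right₀ hx1 (by norm_num)).trans hx, ?_, by nlinarith, by nlinarith,
    by nlinarith⟩
  rcases le_or_gt x 4 with h4 | h4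
  · have := pow_le_pow_left₀ (by omega) h4 4
    nlinarith
  · have h5 := pow_le_pow_left₀ (by positivity) hx 2
    have h6 : 16 ≤ x ^ 2 := by nlinarith
    linarith [mul_le_mul_of_nonneg_right h6 (pow_pos (by omega : 0 < x) 4).le]

lemma near_sq {y b e m : ℤ} (hy : 0 ≤ y) (h1 : -m ≤ e) (h2 : e ≤ m) (h3 : m < b)
    (h : y ^ 2 = b * b + e) : e = 0 := by
  rcases lt_trichotomy y b with h4 | h4 | h4
  · have := pow_le_pow_left₀ hy (by omega : y ≤ b - 1) 2
    linarith
  · rw [h4] at h; linarith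
  · have := pow_le_pow_left₀ (by omega) (by omega : b + 1 ≤ y) 2
    linarith

lemma sq_four {t x a b c d Y : ℤ} (ha : 0 < a) (hb : 0 < b) (hc : 0 < c) (hd : 0 < d)
    (hax : a ≤ x) (hbx : b ≤ x) (hcx : c ≤ x) (hdx : d ≤ x) (hx : x ^ 3 ≤ t) (ht : 100 ≤ t)
    (h1 : a ≠ b) (h2 : a ≠ c) (h3 : a ≠ d) : (t + a) * (t + b) * (t + c) * (t + d) ≠ Y ^ 2 := by
  intro h
  wlog hY : 0 ≤ Y generalizing Y
  · exact this (Y := -Y) (by rw [h]; ring) (by omega)
  obtain ⟨A, hA⟩ : ∃ A, A = a + b - c - d := ⟨_, rfl⟩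
  obtain ⟨B, hB⟩ : ∃ B, B = a - b + c - d := ⟨_, rfl⟩
  obtain ⟨C, hC⟩ : ∃ C, C = a - b - c + d := ⟨_, rfl⟩
  obtain ⟨s, hs⟩ : ∃ s, s = 4 * t + a + b + c + d := ⟨_, rfl⟩
  have key : (16 * Y) ^ 2 = (s ^ 2 - A ^ 2 - B ^ 2 - C ^ 2) ^ 2 + 8 * (A * B * C) * s -
      4 * ((A * B) ^ 2 + (A * C) ^ 2 + (B * C) ^ 2) := by
    rw [mul_pow, ← h, hA, hB, hC, hs]; ring
  have hx1 : 1 ≤ x := by omega
  have hAB := four_aux A B (x := x) (abs_le.2 (by omega)) (abs_le.2 (by omega))
  have hAC := four_aux A C (x := x) (abs_le.2 (by omega)) (abs_le.2 (by omega))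
  have hBC := four_aux B C (x := x) (abs_le.2 (by omega)) (abs_le.2 (by omega))
  have hst : 4 * t ≤ s := by omega
  obtain ⟨hx2, hx4, hts, htt, ht2⟩ := four_aux2 hx1 hx ht hst
  have hP : |A * B * C| ≤ t := by
    have h4 : ((A * B * C) ^ 2) ^ 2 ≤ (t ^ 2) ^ 2 := by
      calc _ = (A * B) ^ 2 * (A * C) ^ 2 * (B * C) ^ 2 := by ring
        _ ≤ x ^ 4 * x ^ 4 * x ^ 4 := by gcongr
        _ = (x ^ 3) ^ 4 := by ring
        _ ≤ t ^ 4 := by gcongr
        _ = _ := by ring
    exact abs_le_of_sq_le_sq (abs_le_of_sq_le_sq' h4 (by positivity)).2 (by omega)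
  obtain ⟨E, hE⟩ : ∃ E, s ^ 2 - A ^ 2 - B ^ 2 - C ^ 2 = 2 * E := by
    have : Even (s ^ 2 - A ^ 2 - B ^ 2 - C ^ 2) := by
      have e1 : s = A + 2 * (2 * t + c + d) := by omega
      have e2 : B = A + 2 * (c - b) := by omega
      have e3 : C = A + 2 * (d - b) := by omega
      rw [e1, e2, e3]
      generalize 2 * t + c + d = u, c - b = v, d - b = w
      exact ⟨2 * (A * u + u ^ 2 - A * v - v ^ 2 - A * w - w ^ 2) - A ^ 2, by ring⟩
    exact this.two_dvd
  have hsq : A ^ 2 + B ^ 2 + C ^ 2 ≤ 12 * x ^ 2 := by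
    have := sq_le_sq' (by omega : -(2 * x) ≤ A) (by omega)
    have := sq_le_sq' (by omega : -(2 * x) ≤ B) (by omega)
    have := sq_le_sq' (by omega : -(2 * x) ≤ C) (by omega)
    linarith
  have hPs : |A * B * C * s| ≤ t * s := by
    rw [abs_mul _ s, abs_of_nonneg (by omega : 0 ≤ s)]
    exact mul_le_mul_of_nonneg_right hP (by omega)
  rw [hE] at key
  generalize hS : (A * B) ^ 2 + (A * C) ^ 2 + (B * C) ^ 2 = S at key
  have hS0 : 0 ≤ S := by rw [← hS]; positivity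
  have hS1 : 16 * S ≤ 3 * t ^ 2 := by linarith
  have hP2 := abs_le.1 hPs
  have hE2 : s ^ 2 - 12 * t ≤ 2 * E := by linarith
  have h5 : 2 * (A * B * C * s) = S := by
    rw [mul_assoc 8] at key
    generalize A * B * C * s = p at key hP2
    rcases lt_trichotomy (8 * Y) E with h4 | h4 | h4
    · have := pow_le_pow_left₀ (by omega) (by omega : 16 * Y ≤ 2 * E - 2) 2
      rw [show (2 * E - 2) ^ 2 = (2 * E) ^ 2 - 8 * E + 4 by ring] at this
      linarith
    · rw [← h4] at key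
      linarith
    · have := pow_le_pow_left₀ (by linarith) (by omega : 2 * E + 2 ≤ 16 * Y) 2
      rw [show (2 * E + 2) ^ 2 = (2 * E) ^ 2 + 8 * E + 4 by ring] at this
      linarith
  by_cases h6 : A * B * C = 0
  · rw [h6] at h5
    have w1 := sq_nonneg (A * B)
    have w2 := sq_nonneg (A * C)
    have w3 := sq_nonneg (B * C)
    have u1 : A * B = 0 := pow_eq_zero_iff two_ne_zero |>.1 (by linarith)
    have u2 : A * C = 0 := pow_eq_zero_iff two_ne_zero |>.1 (by linarith)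
    have u3 : B * C = 0 := pow_eq_zero_iff two_ne_zero |>.1 (by linarith)
    rw [mul_eq_zero] at u1 u2 u3
    omega
  · have aux2 : ∀ P R U : ℤ, P * R * U ≠ 0 → (P * R) ^ 2 ≤ x ^ 4 →
        (P * R) ^ 2 ≤ t * |P * R * U| := by
      intro P R U u v
      have u1 : 1 ≤ |U| := Int.one_le_abs (right_ne_zero_of_mul u)
      have u2 : |P * R| ≤ x ^ 2 := abs_le_of_sq_le_sq (by linarith) (by positivity)
      rw [abs_mul, ← sq_abs, sq]
      exact mul_le_mul (u2.trans hx2) (le_mul_of_one_le_right (abs_nonneg _) u1) (abs_nonneg _)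
        (by omega)
    have v1 := aux2 A B C h6 hAB
    have v2 := aux2 A C B (by rwa [mul_right_comm]) hAC
    have v3 := aux2 B C A (by rwa [mul_comm, ← mul_assoc]) hBC
    rw [mul_right_comm] at v2
    rw [mul_comm (B * C), ← mul_assoc] at v3
    have v4 := abs_pos.2 h6
    have v5 : S = 2 * (|A * B * C| * s) := by
      rw [← abs_of_nonneg hS0, ← h5, abs_mul, abs_mul _ s, abs_of_nonneg (by omega : 0 ≤ s)]
      rfl
    have v6 := mul_le_mul_of_nonneg_left hst v4.le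
    have v7 := mul_pos v4 (by omega : 0 < t)
    linarith

lemma coeff_mul_le {F G : PowerSeries ℤ} {c M : ℤ} (hM : 0 ≤ M) (hc : 0 ≤ c)
    (hF : ∀ n, |PowerSeries.coeff n F| ≤ M ^ n)
    (hG : ∀ n, |PowerSeries.coeff n G| ≤ c * (2 * M) ^ n) (n : ℕ) :
    |PowerSeries.coeff n (F * G)| ≤ 2 * c * (2 * M) ^ n := by
  rw [mul_comm F, PowerSeries.coeff_mul, Nat.sum_antidiagonal_eq_sum_range_succ_mk]
  refine (abs_sum_le_sum_abs _ _).trans ((sum_le_sum (g := fun i => c * M ^ n * 2 ^ i)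
    fun i hi => ?_).trans ?_)
  · obtain ⟨j, rfl⟩ := Nat.exists_eq_add_of_le (Nat.lt_succ_iff.1 (mem_range.1 hi))
    rw [abs_mul, Nat.add_sub_cancel_left]
    exact (mul_le_mul (hG i) (hF j) (abs_nonneg _) (by positivity)).trans_eq (by ring)
  · have := mul_geom_sum (2 : ℤ) n.succ
    rw [← mul_sum, show ∑ i ∈ range n.succ, (2 : ℤ) ^ i = 2 ^ n * 2 - 1 by
      rw [← pow_succ]; simpa using this, mul_pow]
    nlinarith [mul_nonneg hc (pow_nonneg hM n)]

lemma coeff_sq_le {G : PowerSeries ℤ} {c M : ℤ} (hM : 0 ≤ M) (hc : 0 ≤ c)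
    (hG : ∀ n, |PowerSeries.coeff n G| ≤ c * M ^ n) (n : ℕ) :
    |PowerSeries.coeff n (G * G)| ≤ (n + 1) * (c ^ 2 * M ^ n) := by
  rw [PowerSeries.coeff_mul, Nat.sum_antidiagonal_eq_sum_range_succ_mk]
  refine (abs_sum_le_sum_abs _ _).trans ((sum_le_card_nsmul _ _ (c ^ 2 * M ^ n)
    fun i hi => ?_).trans_eq (by simp))
  obtain ⟨j, rfl⟩ := Nat.exists_eq_add_of_le (Nat.lt_succ_iff.1 (mem_range.1 hi))
  rw [abs_mul, Nat.add_sub_cancel_left]
  exact (mul_le_mul (hG i) (hG j) (abs_nonneg _) (by positivity)).trans_eq (by ring)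

lemma root_series {K : ℕ} (s : Finset ℕ) (hs : ∀ a ∈ s, a ≤ K) : ∃ G : PowerSeries ℤ,
    G * G = ((∏ a ∈ s, (1 + C (4 * a : ℤ) * X) : ℤ[X]) : PowerSeries ℤ) ∧
    PowerSeries.coeff 0 G = 1 ∧ ∀ n, |PowerSeries.coeff n G| ≤ 2 ^ s.card * (2 * (4 * K)) ^ n := by
  induction s using Finset.induction_on with
  | empty => exact ⟨1, by simp, by simp, fun n => by
      rw [PowerSeries.coeff_one]; split_ifs with h <;> simp [h]⟩
  | insert a s ha ih =>
    obtain ⟨G, h1, h2, h3⟩ := ih fun b hb => hs b (mem_insert_of_mem hb)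
    set c := PowerSeries.map (Nat.castRingHom ℤ) PowerSeries.catalanSeries with hc
    have h4 : c ^ 2 * PowerSeries.X + 1 = c := by
      simpa using congrArg (PowerSeries.map (Nat.castRingHom ℤ))
        PowerSeries.catalanSeries_sq_mul_X_add_one
    have h5 : (1 - 2 * (c * PowerSeries.X)) * (1 - 2 * (c * PowerSeries.X)) =
        1 - 4 * PowerSeries.X := by linear_combination 4 * PowerSeries.X * h4
    have h6 : ∀ n, |PowerSeries.coeff n (1 - 2 * (c * PowerSeries.X))| ≤ 4 ^ n := by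
      intro n
      rcases n with _ | n
      · simp
      · have : catalan n ≤ 4 ^ n := by
          rw [catalan_eq_centralBinom_div]
          exact (Nat.div_le_self _ _).trans (Nat.centralBinom_le_four_pow n)
        have h7 : (catalan n : ℤ) ≤ 4 ^ n := by exact_mod_cast this
        rw [two_mul, map_sub, map_add, PowerSeries.coeff_succ_mul_X, PowerSeries.coeff_one,
          if_neg (by omega), hc, PowerSeries.coeff_map, PowerSeries.catalanSeries_coeff, pow_succ]
        simp only [eq_natCast]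
        rw [abs_le]
        constructor <;> nlinarith [Int.natCast_nonneg (catalan n)]
    refine ⟨PowerSeries.rescale (-a : ℤ) (1 - 2 * (c * PowerSeries.X)) * G, ?_, ?_, fun n => ?_⟩
    · rw [mul_mul_mul_comm, ← map_mul, h5, h1, prod_insert ha, Polynomial.coe_mul]
      congr 1
      rw [Polynomial.coe_add, Polynomial.coe_mul, Polynomial.coe_C, Polynomial.coe_X,
        Polynomial.coe_one]
      simp [PowerSeries.rescale_X, map_ofNat, mul_assoc]
    · simp only [PowerSeries.coeff_zero_eq_constantCoeff] at h2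
      rw [PowerSeries.coeff_zero_eq_constantCoeff, map_mul, h2,
        ← PowerSeries.coeff_zero_eq_constantCoeff, PowerSeries.coeff_rescale]
      simp
    · rw [card_insert_of_notMem ha, pow_succ']
      refine coeff_mul_le (by positivity) (by positivity) (fun n => ?_) h3 n
      rw [PowerSeries.coeff_rescale, abs_mul, abs_pow, abs_neg, mul_pow, mul_comm]
      have : |(a : ℤ)| ≤ K := by simpa using hs a (mem_insert_self _ _)
      gcongr
      exact h6 n

lemma eval_small {p : ℤ[X]} {h : ℕ} {L z : ℤ} (hz : 1 ≤ z) (h1 : ∀ n, h < n → p.coeff n = 0)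
    (h2 : ∀ n, |p.coeff n| ≤ L) : |p.eval z| ≤ (h + 1) * L * z ^ h := by
  rw [eval_eq_sum_range' (Nat.lt_succ_of_le (natDegree_le_iff_coeff_eq_zero.2 h1))]
  refine (abs_sum_le_sum_abs _ _).trans ((sum_le_card_nsmul _ _ (L * z ^ h)
    fun i hi => ?_).trans_eq (by simp [mul_assoc]))
  rw [abs_mul, abs_pow, abs_of_nonneg (by omega : 0 ≤ z)]
  exact mul_le_mul (h2 i) (pow_le_pow_right₀ hz (Nat.lt_succ_iff.1 (mem_range.1 hi)))
    (by positivity) ((abs_nonneg _).trans (h2 0))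

lemma eq_zero_of_eval {z : ℤ} (n : ℕ) : ∀ p : ℤ[X], p.natDegree ≤ n → (∀ i, |p.coeff i| < z) →
    p.eval z = 0 → p = 0 := by
  induction n with
  | zero =>
    intro p h _ h2
    rw [eq_C_of_natDegree_le_zero h] at h2 ⊢
    simpa using h2
  | succ n ih =>
    intro p h h1 h2
    have hz : 0 < z := (abs_nonneg _).trans_lt (h1 0)
    rw [← X_mul_divX_add p, eval_add, eval_mul, eval_X, eval_C] at h2
    have h3 : p.coeff 0 = 0 := Int.eq_zero_of_abs_lt_dvd ⟨-p.divX.eval z, by linarith⟩ (h1 0)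
    rw [h3, add_zero, mul_eq_zero] at h2
    rw [← X_mul_divX_add p, h3, ih p.divX (by rw [natDegree_divX_eq_natDegree_tsub_one]; omega)
      (fun i => by rw [coeff_divX]; exact h1 _) (h2.resolve_left hz.ne')]
    simp

theorem sq_gen {s : Finset ℕ} {h k t : ℕ} (hs : s.card = 2 * (h + 1)) (hk : ∀ a ∈ s, a ≤ 2 ^ k)
    (ht : 2 ^ (s.card * (k + 8)) ≤ t) : ¬ IsSquare (∏ a ∈ s, (t + a)) := by
  rintro ⟨Y, hY⟩
  obtain ⟨G, h1, h2, h3⟩ := root_series s hk
  set P : ℤ[X] := ∏ a ∈ s, (1 + C (4 * a : ℤ) * X) with hP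
  set B := PowerSeries.trunc (h + 2) G with hB
  obtain ⟨L, hL⟩ : ∃ L : ℤ, L = 2 * ((s.card + 1) * ((2 ^ s.card) ^ 2 *
    (2 * (4 * (2 ^ k : ℕ))) ^ s.card)) := ⟨_, rfl⟩
  have hM : (1 : ℤ) ≤ 2 * (4 * (2 ^ k : ℕ)) := by
    have := Nat.two_pow_pos k
    omega
  have hBd : B.natDegree ≤ h + 1 := Nat.lt_succ_iff.1 (PowerSeries.natDegree_trunc_lt G (h + 1))
  have e1 : ∀ s : Finset ℕ, (∏ a ∈ s, (1 + C (4 * a : ℤ) * X)).natDegree ≤ s.card ∧
      reflect s.card (∏ a ∈ s, (1 + C (4 * a : ℤ) * X)) = ∏ a ∈ s, (X + C (4 * a : ℤ)) := by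
    intro s
    induction s using Finset.induction_on with
    | empty => simp
    | insert a s ha ih =>
      have : (1 + C (4 * a : ℤ) * X).natDegree ≤ 1 := by compute_degree
      rw [prod_insert ha, prod_insert ha, card_insert_of_notMem ha, add_comm s.card,
        reflect_mul _ _ this ih.1, ih.2, reflect_add, reflect_C_mul, reflect_one, reflect_one_X]
      exact ⟨natDegree_mul_le.trans (add_le_add this ih.1), by simp⟩
  have e2 : ∏ a ∈ s, (X + C (4 * a : ℤ)) =
      reflect (h + 1) B * reflect (h + 1) B + reflect s.card (P - B * B) := by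
    rw [← reflect_mul _ _ hBd hBd, ← two_mul, ← hs, ← reflect_add, add_sub_cancel, (e1 s).2]
  have hBc : ∀ n, |PowerSeries.coeff n (B : PowerSeries ℤ)| ≤
      2 ^ s.card * (2 * (4 * (2 ^ k : ℕ))) ^ n := by
    intro n
    rw [Polynomial.coeff_coe, hB, PowerSeries.coeff_trunc]
    split_ifs
    · exact h3 n
    · simp
  have hD1 : ∀ n, h < n → (reflect s.card (P - B * B)).coeff n = 0 := by
    intro n hn
    rw [coeff_reflect]
    rcases le_or_gt n s.card with h4 | h4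
    · rw [revAt_le h4, coeff_sub, ← Polynomial.coeff_coe, ← Polynomial.coeff_coe, ← h1,
        PowerSeries.coeff_mul_eq_coeff_trunc_mul_trunc G G (by omega : s.card - n < h + 2),
        Polynomial.coe_mul, sub_self]
    · rw [revAt_eq_self_of_lt h4]
      exact coeff_eq_zero_of_natDegree_lt ((natDegree_sub_le _ _).trans_lt
        (max_lt ((e1 s).1.trans_lt h4) (natDegree_mul_le.trans_lt (by omega))))
  have hL0 : 0 ≤ L := by rw [hL]; positivity
  have hD2 : ∀ n, |(reflect s.card (P - B * B)).coeff n| ≤ L := by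
    intro n
    rcases le_or_gt n h with h4 | h4
    · rw [coeff_reflect, revAt_le (by omega), coeff_sub, ← Polynomial.coeff_coe,
        ← Polynomial.coeff_coe, ← h1, Polynomial.coe_mul, hL, two_mul]
      have h5 : ((s.card - n : ℕ) + 1 : ℤ) * ((2 ^ s.card) ^ 2 *
          (2 * (4 * (2 ^ k : ℕ))) ^ (s.card - n)) ≤ (s.card + 1) * ((2 ^ s.card) ^ 2 *
          (2 * (4 * (2 ^ k : ℕ))) ^ s.card) := by gcongr <;> omega
      exact (abs_sub _ _).trans (add_le_add
        ((coeff_sq_le (by omega) (by positivity) h3 _).trans h5)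
        ((coeff_sq_le (by omega) (by positivity) hBc _).trans h5))
    · rwa [hD1 n h4, abs_zero]
  have hE1 : ∀ n, h < n → (reflect (h + 1) B - X ^ (h + 1)).coeff n = 0 := by
    intro n hn
    rw [coeff_sub, coeff_reflect, coeff_X_pow]
    split_ifs with h4
    · rw [h4, revAt_le le_rfl, Nat.sub_self, hB, PowerSeries.coeff_trunc, if_pos (by omega), h2,
        sub_self]
    · rw [revAt_eq_self_of_lt (by omega), coeff_eq_zero_of_natDegree_lt (by omega), sub_self]
  have hE2 : ∀ n, |(reflect (h + 1) B - X ^ (h + 1)).coeff n| ≤ L := by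
    intro n
    rcases le_or_gt n h with h4 | h4
    · rw [coeff_sub, coeff_reflect, coeff_X_pow, if_neg (by omega), sub_zero, revAt_le (by omega),
        ← Polynomial.coeff_coe, hL]
      refine (hBc _).trans ?_
      have h5 : (1 : ℤ) ≤ 2 ^ s.card := one_le_pow₀ one_le_two
      have h6 := pow_le_pow_right₀ hM (by omega : h + 1 - n ≤ s.card)
      calc _ ≤ 1 * (1 * ((2 ^ s.card) ^ 2 * (2 * (4 * (2 ^ k : ℕ)) : ℤ) ^ s.card)) := by
            rw [one_mul, one_mul]
            gcongr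
            exact le_self_pow₀ h5 two_ne_zero
        _ ≤ _ := by gcongr <;> omega
    · rwa [hE1 n h4, abs_zero]
  have hz : 2 * ((h + 1) * L) < 4 * t := by
    have u1 : ((s.card : ℤ) + 1) ≤ 2 ^ s.card := by exact_mod_cast Nat.lt_two_pow_self
    have u2 : 2 * ((h : ℤ) + 1) = s.card := by rw [hs]; push_cast; ring
    have u3 : (2 : ℤ) ^ (s.card * (k + 8)) ≤ t := by exact_mod_cast ht
    calc _ = s.card * L := by rw [← u2]; ring
      _ ≤ 2 ^ s.card * (2 * (2 ^ s.card * ((2 ^ s.card) ^ 2 *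
          (2 * (4 * (2 ^ k : ℕ))) ^ s.card))) := by rw [hL]; gcongr; omega
      _ = 2 * 2 ^ (s.card * (k + 7)) := by
          push_cast
          rw [show (2 : ℤ) * (4 * 2 ^ k) = 2 ^ (k + 3) by ring, ← pow_mul, ← pow_mul,
            mul_left_comm, ← pow_add, ← pow_add, ← pow_add]
          congr 2
          ring
      _ ≤ 2 * 2 ^ (s.card * (k + 8)) := by gcongr <;> omega
      _ < _ := by have : (0 : ℤ) < 2 ^ (s.card * (k + 8)) := by positivity
                  omega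
  have hz1 : (1 : ℤ) ≤ 4 * t := by linarith [mul_nonneg (by omega : (0 : ℤ) ≤ h + 1) hL0]
  have hb := abs_le.1 (eval_small hz1 hE1 hE2)
  have hd := abs_le.1 (eval_small hz1 hD1 hD2)
  have e3 := congrArg (eval (4 * t : ℤ)) e2
  have e4 : eval (4 * t : ℤ) (∏ a ∈ s, (X + C (4 * a : ℤ))) = (4 ^ (h + 1) * Y) ^ 2 := by
    have : (∏ a ∈ s, ((t : ℤ) + a)) = Y * Y := by exact_mod_cast hY
    rw [eval_prod, mul_pow, ← pow_mul, mul_comm (h + 1), ← hs, sq, ← this, ← prod_const,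
      ← prod_mul_distrib]
    exact prod_congr rfl fun a _ => by simp; ring
  rw [e4, eval_add, eval_mul] at e3
  rw [eval_sub, eval_pow, eval_X, pow_succ] at hb
  have hp : (0 : ℤ) < (4 * t) ^ h := by positivity
  have hY0 : (0 : ℤ) ≤ 4 ^ (h + 1) * Y := by positivity
  have e5 := near_sq hY0 hd.1 hd.2 (by linarith [mul_lt_mul_of_pos_right hz hp, hb.1]) e3
  rw [eq_zero_of_eval _ _ le_rfl (fun i => (hD2 i).trans_lt
    (by linarith [mul_nonneg (by omega : (0 : ℤ) ≤ h) hL0])) e5, add_zero] at e2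
  obtain ⟨a, ha, hmin⟩ := s.exists_min_image id (card_pos.1 (by omega))
  have e6 := congrArg (eval (-4 * a - 2 : ℤ)) e2
  rw [eval_mul, eval_prod, ← mul_prod_erase _ _ ha] at e6
  have e7 : 0 < ∏ x ∈ s.erase a, eval (-4 * a - 2 : ℤ) (X + C (4 * x : ℤ)) := by
    refine prod_pos fun x hx => ?_
    have := hmin x (mem_of_mem_erase hx)
    have := ne_of_mem_erase hx
    simp only [eval_add, eval_X, eval_C, id] at *
    omega
  simp only [eval_add, eval_X, eval_C] at e6 e7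
  linarith [mul_self_nonneg (eval (-4 * a - 2 : ℤ) (reflect (h + 1) B))]

end Pool.Agent.P.MP_d9fb17_nt
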