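import Pool.Agent.P.MP_d9fb17_nt.CSum

/-! The lower part of the source. -/

namespace Pool.Agent.P.MP_d9fb17_nt

open Finset

attribute [local irreducible] posL negL hL tab tot ones tv f1

lemma Comp.fa (H : Comp) : (∀ k < 248, t12b (262145 + 32768 * k) = true) ∧
    (∀ i, 72 ≤ i → i < 108 → ps i + it i ≤ 262144) ∧
    (∀ i, 96 ≤ i → i < 448 → (ps i + it i) ^ 2 ≤ 4096 * mx (r4 i) 16777216) ∧
    40 * (t12 + t4 + tP) ≤ SS := by
  have h := H.finA
  unfold Pool.Agent.P.MP_d9fb17_nt.finA at h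
  simp only [Bool.and_eq_true] at h
  obtain ⟨⟨⟨h1, h2⟩, h3⟩, h4⟩ := h
  refine ⟨allTo_spec h1, fun i a b => ?_, fun i a b => ?_, Nat.le_of_ble_eq_true h4⟩
  · have := Nat.le_of_ble_eq_true (allTo_spec h2 (i - 72) (by omega))
    rwa [Nat.add_sub_of_le a] at this
  · have := Nat.le_of_ble_eq_true (allTo_spec h3 (i - 96) (by omega))
    rwa [Nat.add_sub_of_le a] at this

lemma le_pm1 (f : ℕ → ℕ) {a i : ℕ} (ha : 1 ≤ a) (hi : i < 32768) (h : t12b a = true) :
    f (ci (Q (a + i))) ≤ pm1 f a := by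
  have h1 := Nat.le_of_ble_eq_true h
  have h2 := ci_mono (Q_pos ha) (Q_strictMono.monotone (Nat.le_add_right a i))
  have h3 := ci_mono (Q_pos (by omega : 1 ≤ a + i))
    (Q_strictMono.monotone (by omega : a + i ≤ a + 32767))
  rw [pm1, mx_eq]
  change ci (Q (a + 32767)) ≤ ci (Q a) + 1 at h1
  rcases (by omega : ci (Q (a + i)) = ci (Q a) ∨ ci (Q (a + i)) = ci (Q (a + 32767))) with h | h <;>
    rw [h]
  · exact le_max_left _ _
  · exact le_max_right _ _

lemma t12_piece {a n : ℕ} (ha : 1 ≤ a) (hn : n = 32768) (h : t12b a = true) {f g : ℕ → ℕ}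
    (h1 : ∑ i ∈ range n, f (a + i) ≤ 16296) (h2 : ∑ i ∈ range n, g (a + i) ≤ 201) :
    ∑ i ∈ range n, ((f (a + i) * ps (ci (Q (a + i))) + g (a + i) * it (ci (Q (a + i))) : ℕ) : ℝ) /
      Q (a + i) * SS ≤ t12a a := by
  have h3 : ∑ i ∈ range n, (f (a + i) * ps (ci (Q (a + i))) + g (a + i) * it (ci (Q (a + i)))) ≤
      16296 * pm1 ps a + 201 * pm1 it a := by
    refine le_trans (sum_le_sum fun i hi => add_le_add
      (Nat.mul_le_mul_left _ (le_pm1 ps ha (hn ▸ mem_range.1 hi) h))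
      (Nat.mul_le_mul_left _ (le_pm1 it ha (hn ▸ mem_range.1 hi) h))) ?_
    rw [sum_add_distrib, ← sum_mul, ← sum_mul]
    gcongr
  refine le_trans ?_ (div_le_nat (Nat.mul_le_mul_right SS h3) (Q_pos ha) le_rfl)
  rw [sum_mul, Nat.cast_sum, sum_div]
  refine sum_le_sum fun i _ => ?_
  rw [Nat.cast_mul _ SS, div_mul_eq_mul_div]
  exact div_le_div_of_nonneg_left (by positivity) (Nat.cast_pos.2 (Q_pos ha))
    (Nat.cast_le.2 (Q_strictMono.monotone (Nat.le_add_right a i)))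

lemma blocks_le {F : ℕ → ℝ} {G : ℕ → ℕ} {a n m b : ℕ} (hb : b + 1 = a + 1 + n * m)
    (h : ∀ c < m, ∑ i ∈ range n, F (a + 1 + n * c + i) ≤ G c) :
    ∑ u ∈ Ioc a b, F u ≤ sumTo G m := by
  rw [← Ico_add_one_add_one_eq_Ioc, sum_Ico_eq_sum_range, hb, Nat.add_sub_cancel_left,
    ← sum_blocks fun i => F (a + 1 + i), sumTo_eq, Nat.cast_sum]
  exact sum_le_sum fun c hc => by simpa only [add_assoc] using h c (mem_range.1 hc)

lemma Comp.t12_le (H : Comp) : ∑ u ∈ Ioc 262144 8388608, (((f1 u).natAbs * ps (ci (Q u)) +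
    ((f1 u).natAbs - 4) * it (ci (Q u)) : ℕ) : ℝ) / Q u * SS ≤ t12 :=
  blocks_le (n := 32768) (by norm_num) fun c hc => t12_piece (f := fun u => (f1 u).natAbs)
    (g := fun u => (f1 u).natAbs - 4) (by omega) rfl (H.fa.1 c hc) (H.piece hc).1 (H.piece hc).2

lemma cell {K : ℕ} (hK : 2 < K) (v2 : tv 2 = 63) (R1 : ∑ d ∈ Ico 2 K, aw d * rt d ≤ 65668)
    (R2 : ∑ d ∈ Ico 2 K, aw d * (rt d * 1000000000000 / Q d + 1) ≤ 1429654000000) {f : ℕ → ℕ}
    (hf : ∀ u, f u ≤ (if ¬ Q 2 ∣ Q u then 1 else 0) + ∑ d ∈ Ico 3 K, if Q d ∣ Q u then aw d else 0)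
    {lo : ℕ} (hlo : 1 ≤ lo) (hi p : ℕ) :
    ∑ u ∈ Ico lo hi, ((f u * p : ℕ) : ℝ) / Q u * SS ≤ t4a p lo hi := by
  have a2 : aw 2 = 1 := by rw [aw, v2]
  have r2 : rt 2 = 4 := by decide
  rw [sum_eq_sum_Ico_succ_bot hK, a2, r2, show 2 + 1 = 3 from rfl] at R1 R2
  have hh : ∀ x y, 1 ≤ x → x ≤ y → (1 : ℝ) / Q y ≤ 1 / Q x := fun x y h1 h2 =>
    one_div_le_one_div_of_le (Nat.cast_pos.2 (Q_pos h1)) (Nat.cast_le.2 (Q_strictMono.monotone h2))
  have h1 := per (P := fun u => ¬ Q 2 ∣ Q u) (q := Q 2) (r := 2) (by decide)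
    (fun u => congrArg Not (perQ 2 u)) (by decide) (fun _ => by positivity) hh hi hi lo hlo (by omega)
  have h2 := sum_le_sum (s := Ico 3 K) fun d hd => mul_le_mul_of_nonneg_left (per (r := rt d)
    (Q_pos (by have := mem_Ico.1 hd; omega)) (perQ d) le_rfl (fun _ => by positivity) hh hi hi lo hlo
    (by omega)) (Nat.cast_nonneg (aw d))
  have h3 := sumQ (b := hi) hlo
  have h4 : ∑ d ∈ Ico 3 K, (aw d : ℝ) * rt d ≤ 65664 := by exact_mod_cast (by omega)
  have h5 : ∑ d ∈ Ico 3 K, (aw d : ℝ) * (rt d / Q d) ≤ 762988 / 1000000 := by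
    have h6 : (∑ d ∈ Ico 3 K, (aw d : ℝ) * (rt d / Q d)) * 1000000000000 ≤
        (∑ d ∈ Ico 3 K, aw d * (rt d * 1000000000000 / Q d + 1) : ℕ) := by
      rw [sum_mul, Nat.cast_sum]
      refine sum_le_sum fun d hd => ?_
      have := div_le_nat (le_refl (rt d * 1000000000000)) (Q_pos (by have := mem_Ico.1 hd; omega))
        (le_refl (Q d))
      rw [Nat.cast_mul, mul_assoc, div_mul_eq_mul_div]
      gcongr
      simpa only [Nat.cast_mul, Nat.cast_ofNat] using this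
    have h7 : ∑ d ∈ Ico 3 K, aw d * (rt d * 1000000000000 / Q d + 1) ≤ 762988000000 := by
      have : Q 2 = 6 := rfl
      rw [this] at R2
      omega
    have := h6.trans (Nat.cast_le.2 h7)
    push_cast at this
    linarith
  have h6 : ∑ u ∈ Ico lo hi, (f u : ℝ) / Q u ≤ ∑ u ∈ (Ico lo hi).filter (fun u => ¬ Q 2 ∣ Q u),
      (1 : ℝ) / Q u + ∑ d ∈ Ico 3 K, aw d * ∑ u ∈ (Ico lo hi).filter (fun u => Q d ∣ Q u),
      (1 : ℝ) / Q u := by
    simp only [sum_filter, mul_sum]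
    rw [sum_comm, ← sum_add_distrib]
    refine sum_le_sum fun u _ => (div_le_div_of_nonneg_right (Nat.cast_le.2 (hf u))
      (Nat.cast_nonneg _)).trans (le_of_eq ?_)
    rw [Nat.cast_add, Nat.cast_sum, add_div, sum_div]
    congr 1
    · split_ifs <;> simp
    · exact sum_congr rfl fun d _ => by split_ifs <;> simp [div_eq_mul_inv]
  simp only [mul_add, sum_add_distrib, ← mul_assoc, ← sum_mul] at h2
  have h7 : (0 : ℝ) ≤ ∑ u ∈ Ioo lo hi, (1 : ℝ) / Q u := sum_nonneg fun _ _ => by positivity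
  have h8 := mul_le_mul_of_nonneg_right h4 (by positivity : (0 : ℝ) ≤ 1 / Q lo)
  have h9 := mul_le_mul_of_nonneg_right h5 h7
  have e : ((Q 2 : ℕ) : ℝ) = 6 := by norm_num [Q]
  rw [e] at h1
  have h10 : ∑ u ∈ Ico lo hi, (f u : ℝ) / Q u ≤
      65666 / Q lo + 1096322 / 1000000 * ((hi - lo : ℕ) / (lo * hi)) := by
    push_cast at h1
    rw [div_eq_mul_one_div 65666]
    linarith
  have h11 := div_le_nat (le_refl (p * SS * 65666)) (Q_pos hlo) le_rfl
  rcases Nat.eq_zero_or_pos hi with rfl | h0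
  · simp
  have h12 := div_le_nat (le_refl (p * SS * 1096322 * (hi - lo)))
    (by positivity : 0 < 1000000 * lo * hi) le_rfl
  calc _ = (∑ u ∈ Ico lo hi, (f u : ℝ) / Q u) * (p * SS) := by
        rw [sum_mul]; exact sum_congr rfl fun u _ => by push_cast; ring
    _ ≤ _ := mul_le_mul_of_nonneg_right h10 (by positivity)
    _ ≤ _ := by
        rw [t4a, Nat.cast_add]
        refine le_trans (le_of_eq ?_) (add_le_add h11 h12)
        push_cast
        ring

lemma aw_nat (d : ℕ) : (mu0 d).natAbs = aw d := by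
  unfold aw mu0
  omega

lemma f1_aux {K K' : ℕ} (hK : 2 ≤ K) (hK' : K + 1 = K') (v1 : tv 1 = 65) (v2 : tv 2 = 63) (u : ℕ) :
    (∑ d ∈ (Icc 1 K).filter (fun d => Q d ∣ Q u), mu0 d).natAbs ≤
      (if ¬ Q 2 ∣ Q u then 1 else 0) + ∑ d ∈ Ico 3 K', if Q d ∣ Q u then aw d else 0 := by
  rw [sum_filter, ← Ico_add_one_right_eq_Icc, hK', sum_eq_sum_Ico_succ_bot (by omega),
    sum_eq_sum_Ico_succ_bot (by omega), if_pos (Q_one_dvd u), ← add_assoc]
  refine (Int.natAbs_add_le _ _).trans (add_le_add ?_ ((Int.natAbs_sum_le _ _).trans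
    (sum_le_sum fun d _ => ?_)))
  · simp only [mu0, v1, Nat.reduceAdd, v2]
    split_ifs <;> decide
  · split_ifs
    · exact (aw_nat d).le
    · rfl

lemma Comp.t4_le (H : Comp) {L : Finset ℕ} (hL : ∀ u ∈ L, 8388608 < u ∧ ci (Q u) < 448) :
    ∑ u ∈ L, (((f1 u).natAbs * ps (ci (Q u)) : ℕ) : ℝ) / Q u * SS ≤ t4 := by
  have F := H.fb
  have T := H.tb
  have h1 : ∀ u ∈ L, 92 ≤ ci (Q u) := fun u hu => (le_ci (Q_pos (by have := hL u hu; omega))).2
    (le_trans (by norm_num [Q]) (Nat.pow_le_pow_left (Q_strictMono.monotone (hL u hu).1.le) 2))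
  rw [t4, sumTo_eq, Nat.cast_sum, ← sum_fiberwise_of_maps_to (t := range 356)
    (g := fun u => ci (Q u) - 92) fun u hu => mem_range.2 (by have := hL u hu; omega)]
  refine sum_le_sum fun k hk => le_trans ?_ (cell (K := 4097) (f := fun u => (f1 u).natAbs)
    (by norm_num) F.v2 F.r1 F.rho1 (fun u => by unfold f1; exact f1_aux (by norm_num) rfl F.v1 F.v2 u)
    (by rw [mx_eq]; omega) _ _)
  have h2 : ∀ u ∈ L.filter fun u => ci (Q u) - 92 = k, u ∈ L ∧ ci (Q u) = 92 + k := fun u hu => by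
    rw [mem_filter] at hu
    exact ⟨hu.1, by have := h1 u hu.1; omega⟩
  rw [sum_congr rfl fun u hu => by rw [(h2 u hu).2]]
  refine sum_le_sum_of_subset_of_nonneg (fun u hu => ?_) fun _ _ _ => by positivity
  obtain ⟨h3, h4⟩ := h2 u hu
  have h5 := hL u h3
  have h6 := T.r4_le (by omega) (by omega) h4.ge
  have h7 := T.le_r4 (u := u) (i := 92 + k + 1) (by omega) (by omega) (by omega)
  rw [mem_Ico, mx_eq]
  omega

lemma Comp.wbd (H : Comp) {u : ℕ} (hu : 262144 < u) (hi : ci (Q u) < 448) :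
    (u < 134217728 → ps (ci (Q u)) + it (ci (Q u)) ≤ 262144) ∧
    (16777216 ≤ u → ((ps (ci (Q u)) + it (ci (Q u)) : ℕ) : ℝ) / Q u ≤ 64 * ga u) := by
  have hu1 : 1 ≤ u := by omega
  refine ⟨fun h => H.fa.2.1 _ (ci_Q_ge hu) ((ci_lt (Q_pos hu1)).2 (lt_of_le_of_lt
    (Nat.pow_le_pow_left (Q_strictMono.monotone (by omega : u ≤ 134217727)) 2) (by norm_num [Q]))),
    fun h => ?_⟩
  have h1 : 96 ≤ ci (Q u) := (le_ci (Q_pos hu1)).2
    (le_trans (by norm_num [Q]) (Nat.pow_le_pow_left (Q_strictMono.monotone h) 2))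
  have h2 := H.fa.2.2.1 _ h1 hi
  have h3 := H.tb.r4_le hu1 (by omega) le_rfl
  rw [mx_eq] at h2
  generalize ps (ci (Q u)) + it (ci (Q u)) = w at h2 ⊢
  have h5 : (0 : ℝ) < u := by exact_mod_cast hu1
  have h6 := Real.mul_self_sqrt h5.le
  have h7 := Real.sqrt_pos.2 h5
  have h4 : (w : ℝ) ≤ 64 * √u := (sq_le_sq₀ (by positivity) (by positivity)).1 (by
    rw [mul_pow, Real.sq_sqrt h5.le]
    exact_mod_cast h2.trans (Nat.mul_le_mul_left _ (max_le h3 h)))
  calc _ ≤ 64 * √u / (u * (√u * √u)) := div_le_div₀ (by positivity) h4 (by positivity)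
        (by rw [Q_cast]; exact mul_le_mul_of_nonneg_left (by linarith) h5.le)
    _ = _ := by rw [ga]; field_simp

lemma Comp.t3_one (H : Comp) {L : Finset ℕ} {X d : ℕ} (hd : 4096 < d)
    (hL : ∀ u ∈ L, (262144 < u ∧ u ≤ X) ∧ ci (Q u) < 448) :
    (∑ u ∈ L.filter (fun u => Q d ∣ Q u), ((ps (ci (Q u)) + it (ci (Q u)) : ℕ) : ℝ) / Q u) *
      18446744073709551616 ≤ (∑ x ∈ (Ioo 262144 134217728).filter (fun x => x < Q d ∧ Q d ∣ Q x),
      (4835703278458516698824704 / (x * x) + 1) +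
      rt d * (759266000 + 3541774862152233910272 / (Q d * d)) : ℕ) := by
  have hq : 16777216 ≤ Q d := le_trans (by norm_num [Q]) (Q_strictMono.monotone hd.le)
  set A := L.filter fun u => Q d ∣ Q u
  have hA : ∀ u ∈ A, 262144 < u ∧ u ≤ X ∧ ci (Q u) < 448 ∧ Q d ∣ Q u := fun u hu =>
    have := hL u (mem_filter.1 hu).1
    ⟨this.1.1, this.1.2, this.2, (mem_filter.1 hu).2⟩
  rw [← sum_filter_add_sum_filter_not A (· < Q d),
    ← sum_filter_add_sum_filter_not (A.filter _) (· < 134217728), add_assoc, add_mul, Nat.cast_add]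
  refine add_le_add ?_ ?_
  · rw [sum_mul, Nat.cast_sum]
    refine le_trans (sum_le_sum fun u hu => ?_) (sum_le_sum_of_subset_of_nonneg (fun u hu => ?_)
      fun _ _ _ => Nat.cast_nonneg _)
    · rw [mem_filter, mem_filter] at hu
      obtain ⟨a1, -, a2, -⟩ := hA u hu.1.1
      have := Nat.mul_le_mul_right 18446744073709551616 ((H.wbd a1 a2).1 hu.2)
      rw [div_mul_eq_mul_div]
      exact_mod_cast div_le_nat this (Nat.mul_pos (by omega) (by omega))
        (Nat.mul_le_mul_left u u.le_succ)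
    · rw [mem_filter, mem_filter] at hu
      obtain ⟨a1, -, -, a2⟩ := hA u hu.1.1
      exact mem_filter.2 ⟨mem_Ioo.2 ⟨a1, hu.2⟩, hu.1.2, a2⟩
  have h1 : ∑ u ∈ (A.filter (· < Q d)).filter (fun u => ¬ u < 134217728),
      ((ps (ci (Q u)) + it (ci (Q u)) : ℕ) : ℝ) / Q u ≤ rt d * (64 * ga 134217728) := by
    refine (sum_le_card_nsmul _ _ (64 * ga 134217728) fun u hu => ?_).trans ?_
    · rw [mem_filter, mem_filter] at hu
      obtain ⟨a1, -, a2, -⟩ := hA u hu.1.1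
      have := ga_anti _ _ (by norm_num) (not_lt.1 hu.2)
      linarith [(H.wbd a1 a2).2 (by omega)]
    · rw [nsmul_eq_mul]
      refine mul_le_mul_of_nonneg_right (Nat.cast_le.2 (card_le_card fun u hu => ?_))
        (mul_nonneg (by norm_num) (ga_nonneg _))
      rw [mem_filter, mem_filter] at hu
      exact mem_filter.2 ⟨mem_range.2 hu.1.2, (hA u hu.1.1).2.2.2⟩
  have h2 : ∑ u ∈ A.filter (fun u => ¬ u < Q d), ((ps (ci (Q u)) + it (ci (Q u)) : ℕ) : ℝ) / Q u ≤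
      64 * ∑ u ∈ (Ico (Q d) (X + 1)).filter (fun u => Q d ∣ Q u), ga u := by
    rw [mul_sum]
    refine le_trans (sum_le_sum fun u hu => ?_) (sum_le_sum_of_subset_of_nonneg (fun u hu => ?_)
      fun _ _ _ => mul_nonneg (by norm_num) (ga_nonneg _))
    · rw [mem_filter] at hu
      obtain ⟨a1, -, a2, -⟩ := hA u hu.1
      exact (H.wbd a1 a2).2 (by omega)
    · rw [mem_filter] at hu
      obtain ⟨-, a1, -, a2⟩ := hA u hu.1
      exact mem_filter.2 ⟨mem_Ico.2 (by omega), a2⟩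
  have h3 := per (r := rt d) (by omega) (perQ d) le_rfl ga_nonneg ga_anti (X + 1) (X + 1) (Q d)
    (by omega) (by omega)
  have h4 := sum_ga (a := Q d) (by omega) X
  rw [← Ioo_add_one_right_eq_Ioc] at h4
  have h5 : (0 : ℝ) < d := by exact_mod_cast (by omega : 0 < d)
  have h6 : (0 : ℝ) < Q d := by exact_mod_cast (by omega : 0 < Q d)
  have h7 : (d : ℝ) ≤ √(Q d) := Real.le_sqrt_of_sq_le (by rw [Q_cast]; nlinarith)
  have h8 : rt d * ga (Q d) + rt d / Q d * ∑ u ∈ Ioo (Q d) (X + 1), ga u ≤ rt d * (3 / (Q d * d)) := by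
    calc _ ≤ (rt d : ℝ) * (1 / (Q d * d)) + rt d / Q d * (2 / d) := by
          rw [ga]
          gcongr
          exact h4.trans (by gcongr)
      _ = _ := by field_simp; ring
  have h9 : ga 134217728 ≤ 1 / (134217728 * 11585) := by
    have : (11585 : ℝ) ≤ √134217728 := Real.le_sqrt_of_sq_le (by norm_num)
    rw [ga]
    push_cast
    gcongr
  have h10 := div_le_nat (le_refl 3541774862152233910272) (Nat.mul_pos (by omega) (by omega))
    (le_refl (Q d * d))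
  have h11 : (64 * ga 134217728 + 64 * (3 / (Q d * d))) * 18446744073709551616 ≤
      ((759266000 + 3541774862152233910272 / (Q d * d) : ℕ) : ℝ) := by
    rw [Nat.cast_add, Nat.cast_mul, div_eq_mul_one_div] at h10
    rw [Nat.cast_add, div_eq_mul_one_div 3]
    push_cast at h10 ⊢
    linarith
  rw [Nat.cast_mul]
  refine le_trans ?_ (mul_le_mul_of_nonneg_left h11 (Nat.cast_nonneg _))
  linarith

lemma t3_aux {D L : Finset ℕ} {w : ℕ → ℝ} {R : ℕ → ℕ} {C B : ℕ} (hD : ∀ d ∈ D, 1 ≤ d)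
    (h1 : ∀ d ∈ D, (∑ u ∈ L.filter (fun u => Q d ∣ Q u), w u) * B ≤ R d)
    (h2 : ∑ d ∈ D, (aw d * R d + (64 - tv d) * (B * rt d / Q d + 1)) ≤ C) :
    (∑ u ∈ L, (∑ d ∈ D.filter (fun d => Q d ∣ Q u), aw d : ℕ) * w u - ∑ d ∈ D, mu0 d * rho d) * B ≤
      C := by
  refine le_trans ?_ (Nat.cast_le.2 h2)
  simp only [Nat.cast_sum, sum_mul, sum_filter, Nat.cast_ite, ite_mul, Nat.cast_zero, zero_mul]
  rw [sum_comm, ← sum_sub_distrib, sum_mul]
  refine sum_le_sum fun d hd => ?_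
  have h3 := mul_le_mul_of_nonneg_left (h1 d hd) (Nat.cast_nonneg (aw d))
  have h4 := mul_le_mul_of_nonneg_left (div_le_nat (le_refl (B * rt d)) (Q_pos (hD d hd)) le_rfl)
    (Nat.cast_nonneg (α := ℝ) (64 - tv d))
  have h5 : -(mu0 d : ℝ) ≤ (64 - tv d : ℕ) := by exact_mod_cast (by unfold mu0; omega)
  have h6 := mul_le_mul_of_nonneg_right h5 (mul_nonneg (rho_nonneg d) (Nat.cast_nonneg B))
  rw [← sum_filter, ← mul_sum, Nat.cast_add, Nat.cast_mul, Nat.cast_mul]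
  rw [Nat.cast_mul, mul_div_assoc, ← rho] at h4
  linarith

lemma Comp.t3_le (H : Comp) {L : Finset ℕ} {X : ℕ}
    (hL : ∀ u ∈ L, (262144 < u ∧ u ≤ X) ∧ ci (Q u) < 448) :
    ∑ u ∈ L, (∑ d ∈ (Ioc 4096 262144).filter (fun d => Q d ∣ Q u), aw d : ℕ) *
      (((ps (ci (Q u)) + it (ci (Q u)) : ℕ) : ℝ) / Q u) - ∑ d ∈ Ioc 4096 262144, mu0 d * rho d ≤
      1 / 180 := by
  have h := t3_aux (B := 18446744073709551616) (fun d hd => by have := mem_Ioc.1 hd; omega)
    (fun d hd => H.t3_one (mem_Ioc.1 hd).1 hL) H.exc.1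
  exact le_of_mul_le_mul_right (h.trans (by norm_num)) (by norm_num)

end Pool.Agent.P.MP_d9fb17_nt
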