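import Pool.Agent.P.MP_d9fb17_nt.CPell

/-! Elementary sums, the duality step and the far part of the source. -/

namespace Pool.Agent.P.MP_d9fb17_nt

open Finset

lemma per {P : ℕ → Prop} [DecidablePred P] {q r : ℕ} (hq : 0 < q) (hP : Function.Periodic P q)
    (hr : ((range q).filter P).card ≤ r) {h : ℕ → ℝ} (h0 : ∀ x, 0 ≤ h x)
    (h1 : ∀ x y, 1 ≤ x → x ≤ y → h y ≤ h x) (b k : ℕ) : ∀ a, 1 ≤ a → b ≤ a + k →
    ∑ u ∈ (Ico a b).filter P, h u ≤ r * h a + r / q * ∑ u ∈ Ioo a b, h u := by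
  have key : ∀ a b, 1 ≤ a → b ≤ a + q → ∑ u ∈ (Ico a b).filter P, h u ≤ r * h a := by
    intro a b ha hb
    refine (sum_le_card_nsmul _ _ (h a) fun u hu =>
      h1 _ _ ha (mem_Ico.1 (mem_filter.1 hu).1).1).trans ?_
    rw [nsmul_eq_mul]
    refine mul_le_mul_of_nonneg_right (Nat.cast_le.2 ?_) (h0 a)
    refine (card_le_card (filter_subset_filter _ (Ico_subset_Ico_right hb))).trans ?_
    rwa [Nat.filter_Ico_card_eq_of_periodic _ _ _ hP, Nat.count_eq_card_filter_range]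
  have h2 : ∀ a, 0 ≤ (r : ℝ) / q * ∑ u ∈ Ioo a b, h u := fun a =>
    mul_nonneg (by positivity) (sum_nonneg fun u _ => h0 u)
  induction k with
  | zero => exact fun a ha hb => (key a b ha (by omega)).trans (le_add_of_nonneg_right (h2 a))
  | succ k ih =>
    intro a ha hb
    rcases le_or_gt b (a + q) with h3 | h3
    · exact (key a b ha h3).trans (le_add_of_nonneg_right (h2 a))
    have h4 := ih (a + q) (by omega) (by omega)
    have h5 := key a (a + q) ha le_rfl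
    have h6 : (q : ℝ) * h (a + q) ≤ ∑ u ∈ Ioc a (a + q), h u := by
      have := card_nsmul_le_sum (Ioc a (a + q)) h (h (a + q)) fun u hu =>
        h1 _ _ (by have := mem_Ioc.1 hu; omega) (mem_Ioc.1 hu).2
      rwa [Nat.card_Ioc, Nat.add_sub_cancel_left, nsmul_eq_mul] at this
    have h7 : ∑ u ∈ Ioo a b, h u = ∑ u ∈ Ioc a (a + q), h u + ∑ u ∈ Ioo (a + q) b, h u := by
      rw [← Ico_add_one_left_eq_Ioo, ← Ico_add_one_left_eq_Ioo, ← Ico_add_one_add_one_eq_Ioc,
        sum_Ico_consecutive _ (by omega) (by omega)]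
    have h8 : (r : ℝ) * h (a + q) = r / q * (q * h (a + q)) := by
      have : (0 : ℝ) < q := by exact_mod_cast hq
      field_simp
    rw [sum_filter, ← sum_Ico_consecutive _ (Nat.le_add_right a q) h3.le, ← sum_filter,
      ← sum_filter, h7, mul_add]
    have := mul_le_mul_of_nonneg_left h6 (by positivity : (0 : ℝ) ≤ r / q)
    linarith

lemma perQ (d : ℕ) : Function.Periodic (fun u => Q d ∣ Q u) (Q d) := fun _ =>
  propext (Q_congr Nat.add_modEq_right)

lemma sumQ {a b : ℕ} (ha : 1 ≤ a) :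
    ∑ u ∈ Ioo a b, (1 : ℝ) / Q u ≤ ((b - a : ℕ) : ℝ) / (a * b) := by
  refine le_trans (sum_le_sum_of_subset_of_nonneg Ioo_subset_Ico_self fun _ _ _ => by positivity) ?_
  rcases le_or_gt a b with h | h
  · have : (0 : ℝ) < a := by exact_mod_cast ha
    rw [Nat.cast_sub h]
    induction b, h using Nat.le_induction with
    | base => simp
    | succ b hb ih =>
      have : (0 : ℝ) < b := by exact_mod_cast ha.trans hb
      rw [sum_Ico_succ_top hb, Q_cast]
      refine (add_le_add_left ih _).trans (le_of_eq ?_)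
      push_cast
      field_simp
      ring
  · rw [Ico_eq_empty (by omega), sum_empty]
    positivity

/-- The weight `n ^ (-3/2)`. -/
noncomputable def ga (n : ℕ) : ℝ := 1 / (n * √n)

lemma ga_nonneg (n : ℕ) : 0 ≤ ga n := by unfold ga; positivity

lemma ga_anti (x y : ℕ) (hx : 1 ≤ x) (h : x ≤ y) : ga y ≤ ga x := by
  have : (0 : ℝ) < x := by exact_mod_cast hx
  unfold ga
  gcongr

lemma sum_ga {a : ℕ} (ha : 1 ≤ a) (X : ℕ) : ∑ n ∈ Ioc a X, ga n ≤ 2 / √a := by
  rcases le_or_gt a X with h | h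
  · refine le_trans (b := 2 / √a - 2 / √X) ?_ (sub_le_self _ (by positivity))
    induction X, h using Nat.le_induction with
    | base => simp
    | succ b hb ih =>
      have h0 : (0 : ℝ) < b := by exact_mod_cast ha.trans hb
      rw [sum_Ioc_succ_top hb, ga]
      have h1 := Real.sqrt_pos.2 h0
      have h2 := Real.sq_sqrt h0.le
      have h3 := Real.sqrt_pos.2 (by linarith : (0 : ℝ) < b + 1)
      have h4 := Real.sq_sqrt (by linarith : (0 : ℝ) ≤ b + 1)
      push_cast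
      generalize √(b : ℝ) = s at *
      generalize √((b : ℝ) + 1) = t at *
      have h5 : 2 / s - 2 / t - 1 / (t ^ 2 * t) = (t - s) ^ 2 * (2 * t + s) / (s * t ^ 3) := by
        have : (1 : ℝ) = t ^ 2 - s ^ 2 := by linarith
        rw [this]
        field_simp
        ring
      have h6 : 0 ≤ (t - s) ^ 2 * (2 * t + s) / (s * t ^ 3) := by positivity
      rw [← h4]
      linarith
  · rw [Ioc_eq_empty (by omega), sum_empty]
    positivity

/-- The source term of the identity for `n`. -/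
noncomputable def bb (μ : ℕ → ℤ) (W n : ℕ) : ℝ := (fW μ W n).natAbs +
  ∑ u ∈ (Ioo W n).filter (inW n), ((nuv n u).natAbs : ℝ) * (fW μ W u).natAbs

lemma wt_eq {e n : ℕ} (hd : Q e ∣ Q n) :
    (ps (ci (Q n)) : ℝ) / Q n * (nuv n e).natAbs = wt e n / Q e := by
  rw [wt, div_div, ← Nat.cast_mul, lab_mul hd]
  push_cast
  ring

lemma Comp.dual (H : Comp) {μ : ℕ → ℤ} {W : ℕ} (hW : 262144 ≤ W)
    (hrec : ∀ n, 2 ≤ n → μ n = -∑ d ∈ (Ico 1 n).filter (fun d => Q d ∣ Q n), μ d) (X : ℕ) :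
    ∑ e ∈ Ioc W X, rho e * (μ e).natAbs ≤ ∑ n ∈ Ioc W X, ps (ci (Q n)) / Q n * bb μ W n := by
  have h1 : ∀ n ∈ Ioc W X, (ps (ci (Q n)) : ℝ) / Q n * (μ n).natAbs ≤
      ps (ci (Q n)) / Q n * bb μ W n + ∑ e ∈ (Ioo W n).filter (fun e => Q e ∣ Q n ∧ ¬ inW n e),
        wt e n / Q e * (μ e).natAbs := by
    intro n hn
    rw [← sum_congr rfl fun e he => congrArg (· * ((μ e).natAbs : ℝ)) (wt_eq (mem_filter.1 he).2.1)]
    simp only [mul_assoc]
    rw [← mul_sum, ← mul_add]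
    refine mul_le_mul_of_nonneg_left ?_ (by positivity)
    have h2 := Int.natAbs_sum_le ((Ioo W n).filter (inW n)) fun u => nuv n u * fW μ W u
    have h3 := Int.natAbs_sum_le ((Ioo W n).filter fun e => Q e ∣ Q n ∧ ¬ inW n e)
      fun e => μ e * nuv n e
    simp only [Int.natAbs_mul] at h2 h3
    simp only [mul_comm (μ _).natAbs] at h3
    have h4 := window (by omega : 1 ≤ W) hrec (mem_Ioc.1 hn).1
    rw [bb]
    exact_mod_cast (by omega : (μ n).natAbs ≤ (fW μ W n).natAbs +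
      ∑ u ∈ (Ioo W n).filter (inW n), (nuv n u).natAbs * (fW μ W u).natAbs +
      ∑ e ∈ (Ioo W n).filter (fun e => Q e ∣ Q n ∧ ¬ inW n e), (nuv n e).natAbs * (μ e).natAbs)
  have h2 := sum_le_sum h1
  rw [sum_add_distrib, sum_comm' (t' := Ioc W X) (s' := fun e => Ex e X) fun n e => by
    simp only [mem_Ex, mem_filter, mem_Ioc, mem_Ioo]
    exact ⟨fun h => ⟨⟨by omega, h.2.2⟩, by omega⟩, fun h => ⟨by omega, by omega, h.1.2⟩⟩] at h2
  refine le_of_add_le_add_right (le_trans ?_ h2)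
  rw [← sum_add_distrib]
  refine sum_le_sum fun e he => ?_
  rw [← sum_mul, ← add_mul, ← sum_div, rho, ← add_div]
  gcongr
  exact H.super (by have := mem_Ioc.1 he; omega)

lemma fW_le {μ : ℕ → ℤ} {W : ℕ} (h : ∀ n, 1 ≤ n → n ≤ W → μ n = mu0 n) (u : ℕ) :
    (fW μ W u).natAbs ≤ W * 64 := by
  refine (Int.natAbs_sum_le _ _).trans ((sum_le_card_nsmul _ _ 64 fun d hd => ?_).trans ?_)
  · have h1 := mem_Icc.1 (mem_filter.1 hd).1
    have := tv_lt d
    rw [h d h1.1 h1.2, mu0]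
    omega
  · exact Nat.mul_le_mul_right _ ((card_filter_le _ _).trans (by simp))

lemma Comp.high (H : Comp) {μ : ℕ → ℤ} {W : ℕ} (hW : W = 262144)
    (h : ∀ n, 1 ≤ n → n ≤ W → μ n = mu0 n) (X : ℕ) :
    ∑ n ∈ (Ioc W X).filter (fun n => ¬ ci (Q n) < 448), ps (ci (Q n)) / Q n * bb μ W n ≤
      1 / 8192 := by
  have h1 : ∀ n ∈ (Ioc W X).filter (fun n => ¬ ci (Q n) < 448), n ∈ Ioc ((2 ^ 55) ^ 2) X ∧
      ps (ci (Q n)) / Q n * bb μ W n ≤ 2 ^ 40 * ga n := by
    intro n hn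
    simp only [mem_filter, mem_Ioc, not_lt] at hn ⊢
    have hn1 : 1 ≤ n := by omega
    have h2 : ∀ k, 8 * k ≤ ci (Q n) → (2 ^ k) ^ 2 ≤ n := fun k hk => by
      have h3 := (le_ci (Q_pos hn1)).1 hk
      have h4 : Q n ^ 2 < (n + 1) ^ 4 := by
        rw [show 4 = 2 * 2 from rfl, pow_mul]
        exact Nat.pow_lt_pow_left (by unfold Q; nlinarith) two_ne_zero
      refine Nat.lt_succ_iff.1 (lt_of_pow_lt_pow_left₀ 4 (Nat.zero_le _) (lt_of_le_of_lt ?_ h4))
      rwa [← pow_mul, ← pow_mul, mul_comm]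
    refine ⟨⟨lt_of_lt_of_le (by norm_num) (h2 56 hn.2), hn.1.2⟩, ?_⟩
    have h3 : bb μ W n ≤ 2 ^ (38 + ci (Q n) / 28) := by
      have h4 := sum_le_sum (s := (Ioo W n).filter (inW n)) fun u _ =>
        Nat.mul_le_mul_left (nuv n u).natAbs (fW_le h u)
      rw [← sum_mul] at h4
      have h5 := h4.trans (Nat.mul_le_mul (H.bwin hn.2 (W := W)) (by omega : W * 64 ≤ 2 ^ 24))
      have h6 := fW_le h n
      have h7 := Nat.two_pow_pos (ci (Q n) / 28)
      rw [pow_add] at h5 ⊢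
      rw [bb]
      exact_mod_cast (by omega : (fW μ W n).natAbs + ∑ u ∈ (Ioo W n).filter (inW n),
        (nuv n u).natAbs * (fW μ W u).natAbs ≤ 2 ^ 38 * 2 ^ (ci (Q n) / 28))
    have h4 : (2 : ℝ) ^ (ci (Q n) / 8) ≤ √n :=
      Real.le_sqrt_of_sq_le (by exact_mod_cast h2 _ (Nat.mul_div_le _ 8))
    have h5 : (0 : ℝ) < n := by exact_mod_cast hn1
    have h6 := Real.mul_self_sqrt h5.le
    have h7 := Real.sqrt_pos.2 h5
    calc _ ≤ (ps (ci (Q n)) : ℝ) / Q n * 2 ^ (38 + ci (Q n) / 28) := by gcongr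
      _ = 2 ^ (10 + ci (Q n) / 14 + (38 + ci (Q n) / 28)) / (n * (n + 1)) := by
        rw [ps_eq, if_pos (by omega), Q_cast, pow_add _ (10 + _)]; push_cast; ring
      _ ≤ 2 ^ (40 + ci (Q n) / 8) / (n * (√n * √n)) :=
        div_le_div₀ (by positivity) (pow_le_pow_right₀ one_le_two (by omega)) (by positivity)
          (mul_le_mul_of_nonneg_left (by linarith) h5.le)
      _ ≤ 2 ^ 40 * √n / (n * (√n * √n)) := by rw [pow_add]; gcongr
      _ = _ := by rw [ga]; field_simp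
  refine (sum_le_sum fun n hn => (h1 n hn).2).trans ?_
  rw [← mul_sum]
  have h2 := (sum_le_sum_of_subset_of_nonneg (fun n hn => (h1 n hn).1)
    fun n _ _ => ga_nonneg n).trans (sum_ga (by norm_num) X)
  rw [Nat.cast_pow, Real.sqrt_sq (by positivity)] at h2
  push_cast at h2
  linarith

end Pool.Agent.P.MP_d9fb17_nt
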