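import Pool.Agent.P.MP_d9fb17_nt.CCount

/-! The supersolution. -/

namespace Pool.Agent.P.MP_d9fb17_nt

open Finset

lemma abel_spec (A : Finset ℕ) (lv : ℕ → ℕ) (w : ℕ → ℝ) (cn t : ℕ → ℕ) (k : ℕ)
    (h1 : ∀ a ∈ A, lv a < k → w a ≤ t (lv a))
    (h2 : ∀ j < k, (A.filter fun a => lv a ≤ j).card ≤ cn j) (env : ℕ) :
    ∑ a ∈ A.filter (fun a => lv a < k), w a ≤
      env * (A.filter fun a => lv a < k).card + abel cn t k env := by
  induction k generalizing env with
  | zero => simp [abel]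
  | succ k ih =>
    replace ih := ih (fun a ha h => h1 a ha (by omega)) fun j hj => h2 j (by omega)
    have e : A.filter (fun a => lv a < k + 1) =
        A.filter (fun a => lv a < k) ∪ A.filter fun a => lv a = k := by
      rw [← filter_or]
      exact filter_congr fun a _ => by omega
    have hd : Disjoint (A.filter fun a => lv a < k) (A.filter fun a => lv a = k) :=
      disjoint_filter.2 fun a _ h => by omega
    have h3 : ∑ a ∈ A.filter (fun a => lv a = k), w a ≤ (A.filter fun a => lv a = k).card * t k := by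
      rw [← nsmul_eq_mul]
      refine sum_le_card_nsmul _ _ _ fun a ha => ?_
      rw [mem_filter] at ha
      exact ha.2 ▸ h1 a ha.1 (by omega)
    have h4 := h2 k (by omega)
    simp only [← Nat.lt_succ_iff] at h4
    rw [e, card_union_of_disjoint hd] at h4
    rw [e, sum_union hd, card_union_of_disjoint hd]
    change _ ≤ _ + ((Bool.rec (cn k * (t k - env) + abel cn t k (t k)) (abel cn t k env)
      (Nat.ble (t k) env) : ℕ) : ℝ)
    rw [rec_ble]
    split_ifs with h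
    · have := mul_le_mul_of_nonneg_left (Nat.cast_le (α := ℝ).2 h)
        (Nat.cast_nonneg (A.filter fun a => lv a = k).card)
      push_cast
      linarith [ih env]
    · obtain ⟨x, hx⟩ := Nat.exists_eq_add_of_le (not_le.1 h).le
      have := mul_le_mul_of_nonneg_right (Nat.cast_le (α := ℝ).2 h4) (Nat.cast_nonneg x)
      have h5 := ih (t k)
      rw [hx] at h3 h5 ⊢
      rw [Nat.add_sub_cancel_left]
      push_cast at *
      linarith

lemma div_le_nat {x v a k : ℕ} (h : x ≤ v) (ha : 0 < a) (hk : a ≤ k) :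
    (x : ℝ) / k ≤ (v / a + 1 : ℕ) := by
  rw [div_le_iff₀ (by exact_mod_cast ha.trans_le hk)]
  exact_mod_cast h.trans ((Nat.lt_mul_div_succ v ha).le.trans
    ((mul_comm _ _).le.trans (Nat.mul_le_mul_left _ hk)))

lemma Tabs.kl_pos (T : Tabs) {j : ℕ} (h1 : 1 ≤ j) (hj : j < 450) :
    0 < Pool.Agent.P.MP_d9fb17_nt.kl j := by
  by_contra h
  have : j ≤ ci 1 := (T.kl j hj 1 one_pos).1 (by omega)
  exact absurd (h1.trans this) (by decide)

lemma two_le_ci {k : ℕ} (h : 2 ≤ k) : 2 ≤ ci k :=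
  (le_ci (by omega)).2 (Nat.pow_le_pow_left h 2)

lemma ci_lab {e n : ℕ} (he : 1 ≤ e) (hen : e < n) (hd : Q e ∣ Q n) :
    ci (Q e) + ci (lab n e) ≤ ci (Q n) ∧ ci (Q n) ≤ ci (Q e) + ci (lab n e) + 1 := by
  have := ci_mul (Q_pos he) (lab_pos (by omega) hd)
  rwa [mul_comm, lab_mul hd] at this

lemma up_abel {e X : ℕ} {A : Finset ℕ} (hA : ∀ n ∈ A, (e < n ∧ n ≤ X) ∧ Q e ∣ Q n) (j : ℕ) :
    (A.filter fun n => ci (lab n e) ≤ j) ⊆ Up e X j := fun n hn =>
  mem_Up.2 ⟨(hA n (mem_filter.1 hn).1).1, (hA n (mem_filter.1 hn).1).2, (mem_filter.1 hn).2⟩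

/-- The multiples of `e` whose window does not contain `e`. -/
noncomputable def Ex (e X : ℕ) : Finset ℕ := (Ioc e X).filter fun n => Q e ∣ Q n ∧ ¬ inW n e

lemma mem_Ex {e X n : ℕ} : n ∈ Ex e X ↔ (e < n ∧ n ≤ X) ∧ Q e ∣ Q n ∧ ¬ inW n e := by
  simp [Ex]

/-- The weight of the pair `e`, `n`. -/
noncomputable def wt (e n : ℕ) : ℝ := (((nuv n e).natAbs * ps (ci (Q n)) : ℕ) : ℝ) / lab n e

variable {e X : ℕ}

lemma Comp.far (H : Comp) (he : 262144 < e) {a : ℕ} (ha : 4 ≤ a) :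
    ∑ n ∈ (Ex e X).filter (fun n => ¬ ci (lab n e) < 28 * a), wt e n ≤
      (ci (Q e) + 5) * 2 ^ (31 + ci (Q e) / 14) / 8 ^ a := by
  set A := (Ex e X).filter (fun n => ¬ ci (lab n e) < 28 * a)
  rw [← sum_fiberwise_of_maps_to (g := fun n => ci (lab n e) / 28)
    (t := Ico a (A.sup (fun n => ci (lab n e) / 28) + 1)) fun n hn => mem_Ico.2
      ⟨by have := (mem_filter.1 hn).2; omega, Nat.lt_succ_of_le
        (le_sup (f := fun n => ci (lab n e) / 28) hn)⟩]
  refine (sum_le_sum (g := fun y => (ci (Q e) + 5) * 2 ^ (30 + ci (Q e) / 14) * (8⁻¹ : ℝ) ^ y)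
    fun y hy => ?_).trans ?_
  · refine (sum_le_card_nsmul _ _ (2 ^ (23 + ci (Q e) / 14 + 4 * y) / 2 ^ (14 * y) : ℝ)
      fun n hn => ?_).trans ?_
    · obtain ⟨h1, h2⟩ := mem_filter.1 hn
      obtain ⟨h3, h4⟩ := mem_filter.1 h1
      obtain ⟨h5, h6, -⟩ := mem_Ex.1 h3
      have h7 := ci_lab (by omega) h5.1 h6
      have h8 := Nat.mul_le_mul (H.bfar he h5.1 h6 (by omega))
        (H.J (ci_Q_ge (he.trans h5.1))).2.2.2
      rw [← pow_add] at h8
      have h9 : 2 ^ (14 * y) ≤ lab n e := (Nat.pow_le_pow_iff_left two_ne_zero).1 (by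
        rw [← pow_mul]
        exact (le_ci (lab_pos (by omega) h6)).1 (by omega))
      unfold wt
      gcongr
      · exact_mod_cast h8.trans (Nat.pow_le_pow_right two_pos (by omega))
      · exact_mod_cast h9
    · have h1 : (A.filter fun n => ci (lab n e) / 28 = y).card ≤ (ci (Q e) + 5) * 2 ^ (7 * y + 7) :=
        (card_le_card fun n hn => by
          obtain ⟨h1, h2⟩ := mem_filter.1 hn
          obtain ⟨h5, h6, -⟩ := mem_Ex.1 (mem_filter.1 h1).1
          exact mem_Up.2 ⟨h5, h6, by omega⟩).trans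
          (up_plotkin (X := X) (j := 28 * y + 27) (by omega) (by omega))
      rw [nsmul_eq_mul]
      refine (mul_le_mul_of_nonneg_right (Nat.cast_le.2 h1) (by positivity)).trans_eq ?_
      push_cast
      rw [inv_pow, show (8 : ℝ) = 2 ^ 3 by norm_num, ← pow_mul]
      field_simp
      ring
  · rw [← mul_sum, mul_div_assoc, mul_assoc]
    gcongr
    refine (mul_le_mul_of_nonneg_left (geom_sum_Ico_le_of_lt_one (by norm_num) (by norm_num))
      (by positivity)).trans ?_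
    rw [inv_pow, show 31 + ci (Q e) / 14 = 30 + ci (Q e) / 14 + 1 by ring, pow_succ, mul_div_assoc]
    refine mul_le_mul_of_nonneg_left ?_ (by positivity)
    field_simp
    norm_num

lemma Ex_J (he : 262144 < e) {n : ℕ} (h : n ∈ Ex e X) : Jt (ci (Q n)) ≤ ci (lab n e) :=
  not_lt.1 fun h1 => (mem_Ex.1 h).2.2 ⟨he, (mem_Ex.1 h).2.1, h1⟩

lemma blk_spec (fuel : ℕ) : ∀ a, 0 < a → blk fuel a = true → ∀ i, a ≤ i → i < 16384 →
    ∃ a b, 0 < a ∧ a ≤ i ∧ i ≤ b ∧ blk1 a b = true := by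
  induction fuel with
  | zero => intro a _ h; exact absurd h (by simp [blk])
  | succ fuel ih =>
    intro a ha h i h1 h2
    change (Bool.rec (blk1 a (nx a) && blk fuel (nx a + 1)) true (Nat.ble 16384 a) : Bool) = true
      at h
    rw [rec_ble, if_neg (by omega), Bool.and_eq_true] at h
    rcases le_or_gt i (nx a) with h3 | h3
    · exact ⟨a, _, ha, h1, h3, h.1⟩
    · exact ih _ (by omega) h.2 i h3 h2

lemma SS_pos : (0 : ℝ) < SS := by unfold SS; norm_num

lemma Comp.sup1 (H : Comp) (he : 262144 < e) (hi : ci (Q e) < 280) :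
    rt e + ∑ n ∈ Ex e X, wt e n ≤ ps (ci (Q e)) := by
  have T := H.tb
  have h0 := ci_Q_ge he
  have hd := T.om _ _ (Q_pos (by omega : 1 ≤ e)) le_rfl (by omega)
  have h1 := abel_spec (Ex e X) (fun n => ci (lab n e)) (fun n => wt e n * SS)
    (cnt (ci (Q e)) (om (ci (Q e)))) (tE (ci (Q e))) 364 (fun n hn hj => ?_) (fun j hj =>
      (card_le_card (up_abel (fun n hn => ⟨(mem_Ex.1 hn).1, (mem_Ex.1 hn).2.1⟩) j)).trans
      (T.cnt (by omega) (by omega) le_rfl hd (by omega))) 0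
  · have h2 := H.far (X := X) he (a := 13) (by norm_num)
    have h3 : (rt e : ℝ) ≤ 2 ^ om (ci (Q e)) := by
      exact_mod_cast (rt_le (by omega)).trans (Nat.pow_le_pow_right two_pos hd)
    have h4 := Nat.cast_le (α := ℝ).2 (H.row h0 hi).1
    have h5 := div_le_nat (le_refl ((ci (Q e) + 5) * 2 ^ (ci (Q e) / 14) * SS)) (by norm_num)
      (le_refl 256)
    rw [← sum_filter_add_sum_filter_not _ fun n => ci (lab n e) < 364, ps_eq, if_neg (by omega)]
    rw [← sum_mul] at h1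
    rw [pow_add] at h2
    refine le_of_mul_le_mul_right ?_ SS_pos
    push_cast at h1 h4 h5
    linarith [mul_le_mul_of_nonneg_right h2 SS_pos.le, mul_le_mul_of_nonneg_right h3 SS_pos.le]
  · obtain ⟨h5, h6, -⟩ := mem_Ex.1 hn
    have h7 := two_le_lab h5.1 h6
    have h8 := H.bfw (he.trans h5.1) h6 hj
    have h9 : (nuv n e).natAbs * ps (ci (Q n)) ≤ te1 (ci (lab n e)) (ci (Q n)) := by
      unfold te1
      rw [rec_ble, if_pos ((H.J (ci_Q_ge (he.trans h5.1))).2.1.trans (Ex_J he hn))]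
      exact Nat.mul_le_mul_right _ (H.bnu he h5.1 h6 hj le_rfl h8.1 h8.2)
    rw [wt, div_mul_eq_mul_div, ← Nat.cast_mul]
    refine div_le_nat (Nat.mul_le_mul_right _ (h9.trans ?_))
      (T.kl_pos (by have := two_le_ci h7; omega) (by omega))
      ((T.kl _ (by omega) _ (by omega)).2 le_rfl)
    rw [mx_eq]
    rcases (by have := ci_lab (by omega) h5.1 h6; omega : ci (Q n) = ci (Q e) + ci (lab n e) ∨
      ci (Q n) = ci (Q e) + ci (lab n e) + 1) with h | h <;> rw [h]
    · exact le_max_left _ _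
    · exact le_max_right _ _

lemma rt_quarter (he : 1 ≤ e) : 4 * (rt e : ℝ) ≤ 2 ^ (10 + ci (Q e) / 14) := by
  have := (rt_le he).trans (Nat.pow_le_pow_right two_pos (omega_le (Q_pos he)))
  rw [show 10 + ci (Q e) / 14 = 2 + (8 + ci (Q e) / 14) by ring, pow_add]
  norm_num
  exact_mod_cast this

lemma ps_ratio (he : 1 ≤ e) {n : ℕ} (hen : e < n) (hd : Q e ∣ Q n) (hi : 280 ≤ ci (Q e)) :
    ps (ci (Q n)) ≤ 2 ^ ((ci (lab n e) + 1) / 14 + 1) * 2 ^ (10 + ci (Q e) / 14) := by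
  have := ci_lab he hen hd
  rw [ps_eq, if_pos (by omega), ← pow_add]
  exact Nat.pow_le_pow_right two_pos (by omega)

lemma Comp.sup2 (H : Comp) (he : 262144 < e) (hi : 280 ≤ ci (Q e)) (hi2 : ci (Q e) < 16384) :
    rt e + ∑ n ∈ Ex e X, wt e n ≤ ps (ci (Q e)) := by
  have T := H.tb
  obtain ⟨a, b, ha, h1, h2, h3⟩ := blk_spec 40 280 (by norm_num) H.blk _ hi hi2
  have hp : (0 : ℝ) < 2 ^ (10 + ci (Q e) / 14) := by positivity
  have h4 := abel_spec (Ex e X) (fun n => ci (lab n e))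
    (fun n => wt e n * (SS / 2 ^ (10 + ci (Q e) / 14)))
    (cnt a (omF b)) (t2 a) 364 (fun n hn hj => ?_) (fun j hj =>
      (card_le_card (up_abel (fun n hn => ⟨(mem_Ex.1 hn).1, (mem_Ex.1 hn).2.1⟩) j)).trans
      (T.cnt (by omega) ha h1 (omF_spec (Q_pos (by omega)) h2) (by omega))) 0
  · have h5 := H.far (X := X) he (a := 13) (by norm_num)
    have h6 := Nat.cast_le (α := ℝ).2 (Nat.le_of_ble_eq_true h3)
    have h7 := div_le_nat (Nat.mul_le_mul_right SS (Nat.add_le_add_right h2 5)) (by norm_num)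
      (le_refl 262144)
    have h8 := rt_quarter (by omega : 1 ≤ e)
    rw [← sum_filter_add_sum_filter_not _ fun n => ci (lab n e) < 364, ps_eq, if_pos hi]
    rw [← sum_mul, ← mul_div_assoc, div_le_iff₀ hp] at h4
    rw [show 31 + ci (Q e) / 14 = 21 + (10 + ci (Q e) / 14) by ring, pow_add] at h5
    refine le_of_mul_le_mul_right ?_ SS_pos
    push_cast at h4 h6 h7 ⊢
    linarith [mul_le_mul_of_nonneg_right h5 SS_pos.le, mul_le_mul_of_nonneg_right h8 SS_pos.le,
      mul_le_mul_of_nonneg_right h6 hp.le, mul_le_mul_of_nonneg_right h7 hp.le]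
  · obtain ⟨h5, h6, -⟩ := mem_Ex.1 hn
    have h7 := two_le_lab h5.1 h6
    have h8 := ci_lab (by omega) h5.1 h6
    have h9 := (H.J (ci_Q_ge (he.trans h5.1))).2.1.trans (Ex_J he hn)
    rw [jf_eq, if_pos (by omega)] at h9
    have h10 := Nat.cast_le (α := ℝ).2 (Nat.mul_le_mul (H.bnu he h5.1 h6 hj
      (i := a + ci (lab n e)) (by omega) (by rw [fwB, mx_eq]; omega) fun u hu => H.bfB hu h6 hj)
      (ps_ratio (by omega) h5.1 h6 hi))
    unfold t2
    rw [rec_ble, if_pos h9]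
    refine le_trans ?_ (div_le_nat le_rfl (T.kl_pos (by omega) (by omega))
      ((T.kl _ (by omega) _ (by omega)).2 le_rfl))
    rw [wt, div_mul_eq_mul_div, ← mul_div_assoc]
    gcongr
    rw [div_le_iff₀ hp]
    refine (mul_le_mul_of_nonneg_right h10 SS_pos.le).trans_eq ?_
    change _ = ((nu _ (a + _) _ * 2 ^ ((_ + 1) / 14 + 1) * SS : ℕ) : ℝ) * _
    push_cast
    ring

lemma Comp.sup3 (H : Comp) (he : 262144 < e) (hi : 16384 ≤ ci (Q e)) :
    rt e + ∑ n ∈ Ex e X, wt e n ≤ ps (ci (Q e)) := by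
  obtain ⟨a1, a2, a3, a4⟩ := log_facts hi
  obtain ⟨a, ha⟩ : ∃ a, Nat.log2 (ci (Q e)) = a + 1 := ⟨Nat.log2 (ci (Q e)) - 1, by omega⟩
  have h1 := H.far (X := X) he (a := a) (by omega)
  have h2 := rt_quarter (by omega : 1 ≤ e)
  have hp : (0 : ℝ) < 2 ^ (10 + ci (Q e) / 14) := by positivity
  have h3 : (Up e X (28 * a)).card ≤ ci (Q e) := by
    have h4 := up_welch (X := X) (j := 28 * a) (by omega) (by omega) le_rfl
      (omega_le (Q_pos (by omega : 1 ≤ e))) even_two
    have h5 : 13 * (8 + ci (Q e) / 14) ≤ ci (Q e) := by omega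
    have h6 : 0 < 8 + ci (Q e) / 14 := by omega
    rw [Mo_two] at h4
    rw [ha] at a4
    generalize 8 + ci (Q e) / 14 = d at *
    generalize (Up e X (28 * a)).card = c at *
    generalize ci (Q e) = i at *
    have h7 : 2 ^ d * d * ((c + 1) * i ^ 2) ≤
        2 ^ d * d * (d * ((i + 2) ^ 2 + c * (28 * a + 3) ^ 2)) := by
      refine (Nat.cast_le (α := ℝ)).1 ?_
      push_cast at h4 ⊢
      linarith
    replace h7 := Nat.le_of_mul_le_mul_left h7 (by positivity)
    have h8 : (28 * a + 3) ^ 2 ≤ 10 * i := by nlinarith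
    have h9 : (i + 2) ^ 2 ≤ 2 * i ^ 2 := by nlinarith
    have h10 := Nat.mul_le_mul h5 (add_le_add h9 (Nat.mul_le_mul_left c h8))
    refine Nat.le_of_mul_le_mul_right ?_ (by positivity : 0 < i ^ 2)
    nlinarith
  have h4 : ∑ n ∈ (Ex e X).filter (fun n => ci (lab n e) < 28 * a), wt e n ≤
      2 ^ (10 + ci (Q e) / 14) / 4 := by
    refine (sum_le_card_nsmul _ _ (2 ^ (10 + ci (Q e) / 14) / 2 ^ (a + 4) : ℝ)
      fun n hn => ?_).trans ?_
    · obtain ⟨h5, h6, -⟩ := mem_Ex.1 (mem_filter.1 hn).1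
      have h7 := ci_lab (by omega) h5.1 h6
      have h8 := Ex_J he (mem_filter.1 hn).1
      have h9 : Nat.log2 (ci (Q e)) ≤ Nat.log2 (ci (Q n)) :=
        (Nat.le_log2 (by omega)).2 (by omega)
      rw [Jt, if_neg (by omega)] at h8
      have h10 := Nat.mul_le_mul (H.bfar he h5.1 h6 (by omega))
        (ps_ratio (by omega) h5.1 h6 (by omega))
      have h11 : 2 ^ (ci (lab n e) / 2) ≤ lab n e := (Nat.pow_le_pow_iff_left two_ne_zero).1 (by
        rw [← pow_mul]
        exact (le_ci (lab_pos (by omega) h6)).1 (by omega))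
      rw [wt, div_le_div_iff₀ (by exact_mod_cast lab_pos (by omega) h6) (by positivity)]
      norm_cast
      refine (Nat.mul_le_mul_right _ h10).trans (le_trans ?_ (Nat.mul_le_mul_left _ h11))
      simp only [← pow_add]
      exact Nat.pow_le_pow_right two_pos (by omega)
    · have h5 : (((Ex e X).filter (fun n => ci (lab n e) < 28 * a)).card : ℝ) ≤ 2 ^ (a + 2) := by
        norm_cast
        refine (card_le_card fun n hn => ?_).trans (h3.trans (by rw [ha] at a3; exact a3.le))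
        obtain ⟨h5, h6, -⟩ := mem_Ex.1 (mem_filter.1 hn).1
        exact mem_Up.2 ⟨h5, h6, (mem_filter.1 hn).2.le⟩
      rw [nsmul_eq_mul]
      refine (mul_le_mul_of_nonneg_right h5 (by positivity)).trans_eq ?_
      field_simp
      ring
  have h5 : ((ci (Q e) : ℝ) + 5) * 2 ^ (31 + ci (Q e) / 14) / 8 ^ a ≤
      2 ^ (10 + ci (Q e) / 14) / 2 := by
    rw [div_le_div_iff₀ (by positivity) two_pos]
    have h6 : ci (Q e) + 5 ≤ 2 ^ (a + 3) := by
      rw [ha] at a3
      rw [pow_succ 2 (a + 1 + 1)]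
      omega
    norm_cast
    refine (Nat.mul_le_mul_right _ (Nat.mul_le_mul_right _ h6)).trans ?_
    rw [show 8 = 2 ^ 3 from rfl, ← pow_mul, ← pow_add, ← pow_add, ← pow_succ]
    exact Nat.pow_le_pow_right two_pos (by omega)
  rw [← sum_filter_add_sum_filter_not _ fun n => ci (lab n e) < 28 * a, ps_eq, if_pos (by omega)]
  push_cast
  linarith

theorem Comp.super (H : Comp) (he : 262144 < e) : rt e + ∑ n ∈ Ex e X, wt e n ≤ ps (ci (Q e)) := by
  rcases lt_or_ge (ci (Q e)) 280 with h | h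
  · exact H.sup1 he h
  rcases lt_or_ge (ci (Q e)) 16384 with h2 | h2
  · exact H.sup2 he h h2
  · exact H.sup3 he h2

end Pool.Agent.P.MP_d9fb17_nt
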