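import Pool.Agent.P.MP_d9fb17_nt.K3
import Mathlib.Tactic.IntervalCases

/-! Bounds for the enumeration. -/

namespace Pool.Agent.P.MP_d9fb17_nt

def enB : List Nat := [0,
  240840737002710581910976,
  77919063455707427192851,
  29514798480829497341549,
  5902962468568981596284,
  8264144638270543873196,
  21250651422537630879249,
  1911315631468524,
  4722367729363998162691,
  1180592707673957686449,
  817078452290697,
  1180592445115417839509,
  606755358896702,
  4722367061134198976463,
  496668146146617,
  440782692383121,
  369657965815745,
  363353525722191,
  362286737253659,
  1180591932703544324397,
  314517941347418,
  299007304102787,
  281313763660076,
  266373293339920,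
  269408638321673,
  212141134508475,
  229388358286503,
  196246282193211,
  208379189403994,
  214788292068673,
  185280355242815,
  196311228339700,
  185334910876167,
  231999531765283,
  180465515664471,
  168503575203364,
  192559567678233,
  168721505045180,
  173383861919468,
  169238486169873,
  151942511710615,
  176692286957709,
  165496223808545,
  153625942567812,
  171565597904900,
  170347970298507,
  164336666366870,
  147809138096103,
  157698952083231,
  156057270690356,
  150611151276153,
  151508671109116,
  154885052904280,
  151393436275185,
  153807459005403,
  153555940683278,
  142068678863525,
  154076245539486,
  145729718063056,
  142737248448577,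
  145437439939594,
  152162691829766,
  172464132722194,
  153357886389913]

end Pool.Agent.P.MP_d9fb17_nt
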