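import Pool.Agent.P.MP_d9fb17_nt.CPack
import Pool.Agent.P.MP_d9fb17_nt.K4

/-! Consequences of the table computations. -/

namespace Pool.Agent.P.MP_d9fb17_nt

open Finset

attribute [local irreducible] posL negL hL tab tot ones

/-- The facts computed by the kernel. -/
structure Comp : Prop where
  tabs : tabOK = true
  rowE : ∀ i, 72 ≤ i → i < 280 → rowE i = true
  rowI : ∀ i, 72 ≤ i → i < 448 → rowI i = true
  blk : blk 40 280 = true
  finA : finA = true
  finB : finB = true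
  lp : chkL (fun v => v - 64) 4095 posL = true
  ln : chkL (fun v => 64 - v) 4095 negL = true
  t0 : chkT0 = true
  t1 : ∀ c, 1 ≤ c → c < 64 → chkT c = true
  pc : ∀ c < 248, chkP c = true
  en : ∀ c, 1 ≤ c → c < 64 → en c ≤ enB.getD c 0

/-- The tabulated values. -/
noncomputable def mu0 (d : ℕ) : ℤ := (tv d : ℤ) - 64

lemma tv_lt (d : ℕ) : tv d < 128 := Nat.and_le_right.trans_lt (by norm_num)

lemma aw_eq (d : ℕ) : (aw d : ℤ) = |mu0 d| := by
  unfold aw mu0
  rcases abs_cases ((tv d : ℤ) - 64) with h | h <;> omega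

/-- Positive or negative part of the truncated sum. -/
noncomputable def pl (g : ℕ → ℕ) (u : ℕ) : ℕ := ∑ d ∈ Ico 2 4097, if Q d ∣ Q u then g (tv d) else 0

/-- The sum over `d ≤ 4096`. -/
noncomputable def f1 (u : ℕ) : ℤ := ∑ d ∈ (Icc 1 4096).filter (fun d => Q d ∣ Q u), mu0 d

structure FinB : Prop where
  v1 : tv 1 = 65
  v2 : tv 2 = 63
  lam : ∑ d ∈ Ico 2 4097, aw d * 1 ≤ 1976
  r1 : ∑ d ∈ Ico 2 4097, aw d * rt d ≤ 65668
  rho1 : ∑ d ∈ Ico 2 4097, aw d * (rt d * 1000000000000 / Q d + 1) ≤ 1429654000000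
  c1 : 36870000000 + ∑ d ∈ Ico 2 4097, (64 - tv d) * (rt d * 1000000000000 / Q d + 1) ≤
    1000000000000 + ∑ d ∈ Ico 2 4097, (tv d - 64) * (rt d * 1000000000000 / Q d)
  hv : ∀ e ∈ hL, 4096 < e.1 ∧ e.1 < e.2 ∧ e.2 ≤ 262144 ∧ Q e.1 ∣ Q e.2
  hs : (hL.map fun e => aw e.1).sum = 336
  nd : hL.Nodup
  tp : ∀ a n, tot a n posL = pk (fun i => pl (fun v => v - 64) (a + i)) n
  tn : ∀ a n, tot a n negL = pk (fun i => pl (fun v => 64 - v) (a + i)) n

lemma lsum_eq {g : ℕ → ℕ} (hg : ∀ d, g (tv d) < 65536) {k K : ℕ} (hk : k ≤ 4095) (hK : k + 2 = K)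
    {P : List En} (h : chkL g k P = true) (G : ℕ → ℕ → ℕ) :
    lsum G P = ∑ d ∈ Ico 2 K, g (tv d) * G (Q d) (rt d) :=
  hK ▸ (chkL_spec hg k hk P h).2 (fun _ q m r => m * G q r) (by simp)

lemma lsum_add {k K : ℕ} (hk : k ≤ 4095) (hK : k + 2 = K) {P N : List En}
    (hp : chkL (fun v => v - 64) k P = true) (hn : chkL (fun v => 64 - v) k N = true)
    (G : ℕ → ℕ → ℕ) {c : ℕ} (h : lsum G P + lsum G N ≤ c) :
    ∑ d ∈ Ico 2 K, aw d * G (Q d) (rt d) ≤ c := by
  rw [lsum_eq (fun d => by have := tv_lt d; omega) hk hK hp,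
    lsum_eq (fun d => by have := tv_lt d; omega) hk hK hn, ← sum_add_distrib] at h
  simpa only [aw, add_mul] using h

lemma fb_aux {k K : ℕ} (hk : k ≤ 4095) (hK : k + 2 = K) {P N : List En}
    (hp : chkL (fun v => v - 64) k P = true) (hn : chkL (fun v => 64 - v) k N = true)
    (h3 : lsum (fun _ _ => 1) P + lsum (fun _ _ => 1) N ≤ 1976)
    (h4 : lsum (fun _ r => r) P + lsum (fun _ r => r) N ≤ 65668)
    (h5 : lsum (fun q r => r * 1000000000000 / q + 1) P +
      lsum (fun q r => r * 1000000000000 / q + 1) N ≤ 1429654000000)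
    (h6 : 36870000000 + lsum (fun q r => r * 1000000000000 / q + 1) N ≤
      1000000000000 + lsum (fun q r => r * 1000000000000 / q) P) :
    ∑ d ∈ Ico 2 K, aw d * 1 ≤ 1976 ∧ ∑ d ∈ Ico 2 K, aw d * rt d ≤ 65668 ∧
    ∑ d ∈ Ico 2 K, aw d * (rt d * 1000000000000 / Q d + 1) ≤ 1429654000000 ∧
    36870000000 + ∑ d ∈ Ico 2 K, (64 - tv d) * (rt d * 1000000000000 / Q d + 1) ≤
      1000000000000 + ∑ d ∈ Ico 2 K, (tv d - 64) * (rt d * 1000000000000 / Q d) := by
  refine ⟨lsum_add hk hK hp hn _ h3, lsum_add hk hK hp hn _ h4, lsum_add hk hK hp hn _ h5, ?_⟩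
  rwa [lsum_eq (fun d => by have := tv_lt d; omega) hk hK hp,
    lsum_eq (fun d => by have := tv_lt d; omega) hk hK hn] at h6

lemma Comp.fb (H : Comp) : FinB := by
  obtain ⟨p1, p2⟩ := chkL_spec (fun d => by have := tv_lt d; omega) 4095 le_rfl _ H.lp
  obtain ⟨n1, n2⟩ := chkL_spec (fun d => by have := tv_lt d; omega) 4095 le_rfl _ H.ln
  have h := H.finB
  unfold Pool.Agent.P.MP_d9fb17_nt.finB at h
  simp only [Bool.and_eq_true] at h
  obtain ⟨⟨⟨⟨⟨⟨⟨⟨h1, h2⟩, h3⟩, h4⟩, h5⟩, h6⟩, h7⟩, h8⟩, h9⟩ := h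
  rw [Nat.beq_eq] at h1 h2 h8
  rw [Nat.ble_eq] at h3 h4 h5 h6
  replace h9 := of_decide_eq_true h9
  simp only [List.all_eq_true, Bool.and_eq_true, Nat.ble_eq, Nat.beq_eq] at h7
  obtain ⟨h11, h12, h13, h10⟩ := fb_aux (K := 4097) le_rfl rfl H.lp H.ln h3 h4 h5 h6
  refine ⟨h1, h2, h11, h12, h13, h10, fun e he => ?_, h8, ?_, fun a n => ?_, fun a n => ?_⟩
  · have := h7 e he
    exact ⟨this.1.1.1, this.1.1.2, this.1.2, Nat.dvd_of_mod_eq_zero this.2⟩
  · exact ((List.isChain_iff_pairwise.1 h9).imp ne_of_lt).of_map _ fun _ _ h h' => h (by rw [h'])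
  · rw [tot_spec _ _ _ p1]
    exact pk_congr fun i _ => p2 (fun _ q m _ => if q ∣ Q (a + i) then m else 0) (by simp)
  · rw [tot_spec _ _ _ n1]
    exact pk_congr fun i _ => n2 (fun _ q m _ => if q ∣ Q (a + i) then m else 0) (by simp)

lemma FinB.pl_le (H : FinB) (u : ℕ) : pl (fun v => v - 64) u + pl (fun v => 64 - v) u ≤ 1976 := by
  unfold pl
  rw [← sum_add_distrib]
  refine le_trans (sum_le_sum fun d _ => ?_) H.lam
  split_ifs
  · exact (mul_one _).ge
  · exact Nat.zero_le _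

lemma Q_one_dvd (u : ℕ) : Q 1 ∣ Q u := (Nat.even_mul_succ_self u).two_dvd

lemma FinB.f1_eq (H : FinB) (u : ℕ) :
    f1 u = 1 + pl (fun v => v - 64) u - pl (fun v => 64 - v) u := by
  unfold f1 pl
  rw [sum_filter, ← Ico_add_one_right_eq_Icc, sum_eq_sum_Ico_succ_bot (by norm_num),
    if_pos (Q_one_dvd u), mu0, H.v1, add_sub_assoc]
  push_cast
  rw [← sum_sub_distrib]
  congr 1
  refine sum_congr rfl fun d _ => ?_
  unfold mu0
  split_ifs <;> omega

lemma Comp.piece (H : Comp) {c : ℕ} (hc : c < 248) :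
    ∑ i ∈ range 32768, (f1 (262145 + 32768 * c + i)).natAbs ≤ 16296 ∧
    ∑ i ∈ range 32768, ((f1 (262145 + 32768 * c + i)).natAbs - 4) ≤ 201 := by
  have h := H.pc c hc
  have F := H.fb
  simp only [chkP, chkP1, F.tp, F.tn, Bool.and_eq_true, Nat.ble_eq] at h
  generalize 262145 + 32768 * c = a at h ⊢
  have h1 := fun i => F.pl_le (a + i)
  have h2 := fun i => F.f1_eq (a + i)
  refine ⟨le_trans ?_ ((add_le_add (rl_spec fun i _ => ?_) (rl_spec fun i _ => ?_)).trans h.1),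
    le_trans ?_ ((add_le_add (rl_spec fun i _ => ?_) (rl_spec fun i _ => ?_)).trans h.2)⟩
  · rw [← sum_add_distrib]
    exact sum_le_sum fun i _ => by have := h1 i; have := h2 i; omega
  · have := h1 i; omega
  · have := h1 i; omega
  · rw [← sum_add_distrib]
    exact sum_le_sum fun i _ => by have := h1 i; have := h2 i; omega
  · have := h1 i; omega
  · have := h1 i; omega

lemma hs_spec (a : ℕ) (g : ℕ → ℕ) (l : List (ℕ × ℕ)) : hs a g l =
    pk (fun i => (l.map fun e => if e.2 = a + i then g (tv e.1) else 0).sum) 4096 := by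
  induction l with
  | nil => simp [pk]; rfl
  | cons e l ih =>
    simp only [List.map_cons, List.sum_cons]
    rw [← pk_add, ← ih]
    change (Bool.rec (hs a g l) (Bool.rec (hs a g l + g (tv e.1) * 65536 ^ (e.2 - a)) (hs a g l)
      (Nat.ble (a + 4096) e.2)) (Nat.ble a e.2) : ℕ) = _
    rw [rec_ble, rec_ble, pk]
    split_ifs with h1 h2
    · rw [sum_eq_zero fun i hi => by rw [if_neg (by have := mem_range.1 hi; omega), zero_mul],
        zero_add]
    · rw [sum_eq_single_of_mem (e.2 - a) (mem_range.2 (by omega)), if_pos (by omega), add_comm]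
      intro i _ hi
      rw [if_neg (by omega), zero_mul]
    · rw [sum_eq_zero fun i hi => by rw [if_neg (by omega), zero_mul], zero_add]

lemma tv_eq (c i : ℕ) (hi : i < 4096) : tv (4096 * c + 1 + i) = lv (tab.getD c 0) i := by
  unfold tv
  rw [show (4096 * c + 1 + i - 1) / 4096 = c by omega, show (4096 * c + 1 + i - 1) % 4096 = i by omega]

lemma Comp.small (H : Comp) {n : ℕ} (h1 : 1 ≤ n) (h2 : n ≤ 4096) :
    f1 n = if n = 1 then 1 else 0 := by
  have h := Nat.eq_of_beq_eq_true H.t0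
  have F := H.fb
  have e0 : ∀ n, 1 = pk (fun i => if i = 0 then 1 else 0) (n + 1) := fun n => by
    rw [pk_succ]; simp [pk]
  have e : 1 = pk (fun i => if i = 0 then 1 else 0) 4096 := e0 4095
  rw [F.tp, F.tn, ones_eq, pk_add] at h
  nth_rewrite 4 [e] at h
  rw [pk_add] at h
  have h3 := congrArg (fun x => x / 65536 ^ (n - 1) % 65536) h
  rw [pk_lane (fun i _ => by have := F.pl_le (1 + i); omega) (by omega),
    pk_lane (fun i _ => by have := F.pl_le (1 + i); split_ifs <;> omega) (by omega),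
    show 1 + (n - 1) = n by omega] at h3
  rw [F.f1_eq]
  split_ifs at h3 ⊢ <;> omega

lemma Comp.mid (H : Comp) {n : ℕ} (h1 : 4096 < n) (h2 : n ≤ 262144) :
    f1 n + mu0 n + ∑ e ∈ hL.toFinset.filter (fun e => e.2 = n), mu0 e.1 = 0 := by
  have F := H.fb
  obtain ⟨c, i, hi, rfl⟩ : ∃ c i, i < 4096 ∧ n = 4096 * c + 1 + i :=
    ⟨(n - 1) / 4096, (n - 1) % 4096, by omega, by omega⟩
  have h := Nat.eq_of_beq_eq_true (H.t1 c (by omega) (by omega))
  change (tab.getD c 0 &&& _) + _ + _ + _ = _ at h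
  rw [F.tp, F.tn, ones_eq, pk_mul, pk_mul, hs_spec, hs_spec, land_pk _ (by simp)] at h
  simp only [pk_add] at h
  have h4 : ∀ n, (hL.map fun e => if e.2 = n then tv e.1 - 64 else 0).sum +
      (hL.map fun e => if e.2 = n then 64 - tv e.1 else 0).sum ≤ 336 := by
    intro n
    rw [← List.sum_map_add, ← F.hs]
    refine List.sum_le_sum fun e _ => ?_
    split_ifs
    · exact le_rfl
    · exact Nat.zero_le _
  have h3 := congrArg (fun x => x / 65536 ^ i % 65536) h
  rw [pk_lane (fun i _ => by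
      have := F.pl_le (4096 * c + 1 + i)
      have := h4 (4096 * c + 1 + i)
      have : tab.getD c 0 / 65536 ^ i &&& 127 * 1 ≤ _ := Nat.and_le_right
      omega) hi,
    pk_lane (fun i _ => by
      have := F.pl_le (4096 * c + 1 + i)
      have := h4 (4096 * c + 1 + i)
      omega) hi] at h3
  have h5 : tab.getD c 0 / 65536 ^ i &&& 127 * 1 = tv (4096 * c + 1 + i) := by
    rw [tv_eq c i hi]
    change _ = tab.getD c 0 >>> (16 * i) &&& 127
    rw [Nat.shiftRight_eq_div_pow, pow_mul]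
    norm_num
  rw [h5, ← List.sum_toFinset _ F.nd, ← List.sum_toFinset _ F.nd] at h3
  rw [F.f1_eq, sum_filter]
  generalize 4096 * c + 1 + i = n at h3
  have h6 : ∑ e ∈ hL.toFinset, (if e.2 = n then mu0 e.1 else 0) =
      (∑ e ∈ hL.toFinset, (if e.2 = n then tv e.1 - 64 else 0) : ℕ) -
      (∑ e ∈ hL.toFinset, (if e.2 = n then 64 - tv e.1 else 0) : ℕ) := by
    push_cast
    rw [← sum_sub_distrib]
    refine sum_congr rfl fun e _ => ?_
    unfold mu0
    split_ifs <;> omega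
  rw [h6, mu0]
  omega

/-- The part of the enumeration bound which is not an exceptional pair. -/
noncomputable def rest (d : ℕ) : ℕ :=
  aw d * (∑ x ∈ (Ioo 262144 134217728).filter (fun x => x < Q d ∧ Q d ∣ Q x),
    (4835703278458516698824704 / (x * x) + 1) +
    rt d * (759266000 + 3541774862152233910272 / (Q d * d))) +
  (64 - tv d) * (18446744073709551616 * rt d / Q d + 1)

lemma one_spec {d : ℕ} (hd : 4096 < d) (hd2 : d ≤ 262144) (h : one d (tv d) < 2 ^ 100) :
    2 ^ 70 * (aw d * ((Ioc d 262144).filter fun x => Q d ∣ Q x).card) + rest d ≤ one d (tv d) := by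
  unfold one at h ⊢
  rw [rec_beq] at h ⊢
  split_ifs at h ⊢ with h1
  · simp [rest, aw, h1]
  unfold one2 at h ⊢
  rw [rec_beq] at h ⊢
  split_ifs at h ⊢ with h2
  · exact absurd h (not_lt.2 (le_trans (by norm_num) (Nat.le_add_left _ _)))
  have h3 := hit_sum hd hd2 h2
  have h4 := rt_le_rr (by omega) hd2 h2
  have h5 : 2 ^ 70 * ((Ioc d 262144).filter fun x => Q d ∣ Q x).card +
      ∑ x ∈ (Ioo 262144 134217728).filter (fun x => x < Q d ∧ Q d ∣ Q x),
        (4835703278458516698824704 / (x * x) + 1) ≤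
      ∑ x ∈ (range (Q d)).filter (fun x => Q d ∣ Q x), hit d x := by
    have hq : 262144 < Q d := by unfold Q; nlinarith
    rw [mul_comm, ← smul_eq_mul, ← sum_const, sum_congr rfl (g := hit d),
      sum_congr (s₁ := filter _ (Ioo _ _)) rfl (g := hit d), ← sum_union]
    · refine sum_le_sum_of_subset fun x hx => ?_
      simp only [mem_union, mem_filter, mem_Ioc, mem_Ioo, mem_range] at hx ⊢
      rcases hx with hx | hx
      · exact ⟨by omega, hx.2⟩
      · exact hx.2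
    · refine disjoint_left.2 fun x h1 h2 => ?_
      simp only [mem_filter, mem_Ioc, mem_Ioo] at h1 h2
      omega
    · intro x hx
      simp only [mem_filter, mem_Ioo] at hx
      simp only [hit, rec_ble]
      rw [if_pos (by omega), if_neg (by omega)]
      rfl
    · intro x hx
      simp only [mem_filter, mem_Ioc] at hx
      simp only [hit, rec_ble]
      rw [if_neg (by omega), if_pos (by omega)]
      norm_num
  change _ ≤ aw d * (outer d (d + 1) (134217728 / d + 1) (half d) (mir (d + 1) (half (d + 1))) +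
    rr d * (759266000 + 3541774862152233910272 / (Q d * d))) +
    (64 - tv d) * (18446744073709551616 * rr d / Q d + 1)
  rw [rest, ← add_assoc, mul_left_comm, ← mul_add, ← add_assoc]
  gcongr
  exact h5.trans h3

attribute [local irreducible] rest

lemma sum_blocks {M : Type*} [AddCommMonoid M] (f : ℕ → M) (a n : ℕ) :
    ∑ c ∈ range n, ∑ i ∈ range a, f (a * c + i) = ∑ i ∈ range (a * n), f i := by
  induction n with
  | zero => simp
  | succ n ih => rw [sum_range_succ, ih, mul_add_one, sum_range_add]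

lemma Comp.enum (H : Comp) : ∑ d ∈ Ioc 4096 262144, one d (tv d) ≤ 2 ^ 70 * 336 + 2 ^ 64 / 180 := by
  have h1 : ∀ c, Pool.Agent.P.MP_d9fb17_nt.en (c + 1) = ∑ i ∈ range 4096,
      (fun k => one (4097 + k) (tv (4097 + k))) (4096 * c + i) := by
    intro c
    unfold Pool.Agent.P.MP_d9fb17_nt.en
    rw [sumTo_eq, ← sum_blocks _ 64 64]
    refine sum_congr rfl fun a ha => (sumTo_eq _ _).trans (sum_congr rfl fun b hb => ?_)
    rw [mem_range] at ha hb
    have e : 4097 + (4096 * c + (64 * a + b)) = 4096 * (c + 1) + 1 + (64 * a + b) := by ring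
    change one (4096 * (c + 1) + (64 * a + b) + 1) (lv _ (64 * a + b)) = _
    simp only [e]
    rw [tv_eq _ _ (by omega), add_right_comm]
  have h2 : ∑ c ∈ range 63, enB.getD (c + 1) 0 ≤ 2 ^ 70 * 336 + 2 ^ 64 / 180 := by decide +kernel
  refine le_trans (le_of_eq ?_) ((sum_le_sum fun c hc => H.en (c + 1) (by omega)
    (by have := mem_range.1 hc; omega)).trans h2)
  rw [sum_congr rfl fun c _ => h1 c, sum_blocks fun k => one (4097 + k) (tv (4097 + k)),
    ← Ico_add_one_add_one_eq_Ioc, sum_Ico_eq_sum_range]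
  norm_num

lemma exc_aux {a b B C N : ℕ} {L : List (ℕ × ℕ)} {r : ℕ → ℕ}
    (hv : ∀ e ∈ L, a < e.1 ∧ e.1 < e.2 ∧ e.2 ≤ b ∧ Q e.1 ∣ Q e.2)
    (h4 : (L.map fun e => aw e.1).sum = N) (nd : L.Nodup) (hC : C < B)
    (h1 : ∑ d ∈ Ioc a b, (B * (aw d * ((Ioc d b).filter fun x => Q d ∣ Q x).card) + r d) ≤
      B * N + C) : ∑ d ∈ Ioc a b, r d ≤ C ∧
    ∀ n, a < n → n ≤ b → ∑ d ∈ (Ioo a n).filter (fun d => Q d ∣ Q n), mu0 d =
      ∑ e ∈ L.toFinset.filter (fun e => e.2 = n), mu0 e.1 := by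
  rw [sum_add_distrib, ← mul_sum] at h1
  set E := (Ioc a b ×ˢ Ioc a b).filter fun e : ℕ × ℕ => e.1 < e.2 ∧ Q e.1 ∣ Q e.2 with hE
  have h2 : ∑ d ∈ Ioc a b, aw d * ((Ioc d b).filter fun x => Q d ∣ Q x).card =
      ∑ e ∈ E, aw e.1 := by
    rw [hE, sum_filter, sum_product]
    refine sum_congr rfl fun d hd => ?_
    dsimp only
    rw [← sum_filter, sum_const, smul_eq_mul, mul_comm]
    congr 2
    ext x
    simp only [mem_filter, mem_Ioc] at hd ⊢
    constructor
    · rintro ⟨h, h'⟩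
      exact ⟨by omega, h.1, h'⟩
    · rintro ⟨h, h'⟩
      exact ⟨by omega, h'.2⟩
  have h3 : L.toFinset ⊆ E := by
    intro e he
    have := hv e (List.mem_toFinset.1 he)
    simp only [hE, mem_filter, mem_product, mem_Ioc]
    exact ⟨by omega, this.2.1, this.2.2.2⟩
  rw [← List.sum_toFinset _ nd] at h4
  rw [h2, ← sum_sdiff h3, h4, mul_add] at h1
  refine ⟨by omega, fun n hn hn2 => ?_⟩
  have h5 : ∑ e ∈ E \ L.toFinset, aw e.1 = 0 := by
    by_contra h
    have := Nat.le_mul_of_pos_right B (Nat.pos_of_ne_zero h)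
    omega
  rw [sum_eq_zero_iff] at h5
  rw [sum_subset (s₂ := E.filter fun e => e.2 = n) (filter_subset_filter _ h3)]
  · refine sum_bij (fun d _ => (d, n)) (fun d hd => ?_) (fun _ _ _ _ h => (Prod.mk.inj h).1)
      (fun e he => ?_) fun _ _ => rfl
    · simp only [hE, mem_filter, mem_product, mem_Ioc, mem_Ioo] at hd ⊢
      exact ⟨⟨by omega, hd.1.2, hd.2⟩, trivial⟩
    · simp only [hE, mem_filter, mem_product, mem_Ioc, mem_Ioo] at he ⊢
      obtain ⟨⟨h6, h7, h8⟩, rfl⟩ := he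
      exact ⟨e.1, ⟨⟨h6.1.1, h7⟩, h8⟩, rfl⟩
  · intro e he he2
    rw [mem_filter] at he he2
    have := aw_eq e.1
    rw [h5 e (mem_sdiff.2 ⟨he.1, fun h => he2 ⟨h, he.2⟩⟩)] at this
    exact abs_eq_zero.1 this.symm

lemma Comp.exc (H : Comp) : ∑ d ∈ Ioc 4096 262144, rest d ≤ 2 ^ 64 / 180 ∧
    ∀ n, 4096 < n → n ≤ 262144 → ∑ d ∈ (Ioo 4096 n).filter (fun d => Q d ∣ Q n), mu0 d =
      ∑ e ∈ hL.toFinset.filter (fun e => e.2 = n), mu0 e.1 := by
  have h0 := H.enum
  refine exc_aux (B := 2 ^ 70) H.fb.hv H.fb.hs H.fb.nd (by norm_num)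
    (le_trans (sum_le_sum fun d hd => ?_) h0)
  exact one_spec (mem_Ioc.1 hd).1 (mem_Ioc.1 hd).2 (((single_le_sum
    (f := fun d => one d (tv d)) (fun _ _ => Nat.zero_le _) hd).trans h0).trans_lt (by norm_num))

lemma le_of_Q_dvd {d n : ℕ} (hn : 1 ≤ n) (h : Q d ∣ Q n) : d ≤ n :=
  Q_strictMono.le_iff_le.1 (Nat.le_of_dvd (Q_pos hn) h)

theorem Comp.mu_eq (H : Comp) {μ : ℕ → ℤ} (h1 : μ 1 = 1)
    (hrec : ∀ n, 2 ≤ n → μ n = -∑ d ∈ (Ico 1 n).filter (fun d => Q d ∣ Q n), μ d) :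
    ∀ n, 1 ≤ n → n ≤ 262144 → μ n = mu0 n := by
  intro n
  induction n using Nat.strong_induction_on with
  | _ n ih =>
  intro hn hn2
  rcases hn.eq_or_lt with rfl | hn1
  · rw [h1, mu0, H.fb.v1]; rfl
  rw [hrec n hn1, sum_congr rfl fun d hd => ih d (mem_Ico.1 (mem_filter.1 hd).1).2
    (mem_Ico.1 (mem_filter.1 hd).1).1 (by have := mem_Ico.1 (mem_filter.1 hd).1; omega)]
  rcases le_or_gt n 4096 with h | h
  · have h2 := H.small hn h
    have e : (Icc 1 4096).filter (fun d => Q d ∣ Q n) =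
        insert n ((Ico 1 n).filter fun d => Q d ∣ Q n) := by
      ext d
      simp only [mem_insert, mem_filter, mem_Icc, mem_Ico]
      constructor
      · rintro ⟨h3, h4⟩
        have := le_of_Q_dvd hn h4
        by_cases h5 : d = n
        · exact Or.inl h5
        · exact Or.inr ⟨by omega, h4⟩
      · rintro (rfl | ⟨h3, h4⟩)
        · exact ⟨by omega, dvd_rfl⟩
        · exact ⟨by omega, h4⟩
    rw [f1, e, sum_insert (by simp), if_neg (by omega)] at h2
    linarith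
  · have h2 := H.mid h hn2
    rw [← H.exc.2 n h hn2, f1, sum_filter, sum_filter, ← Ico_add_one_right_eq_Icc,
      ← Ico_add_one_left_eq_Ioo] at h2
    rw [sum_filter, ← sum_Ico_consecutive _ (by norm_num : 1 ≤ 4096 + 1) h]
    linarith

end Pool.Agent.P.MP_d9fb17_nt
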