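import Mathlib

/-! The Euler characteristic of a clique complex: deletion, recursion, the bound `4^(m/5)`. -/

namespace Pool.Agent.P.MP_d9fb17_nt

open Finset

open Classical in
/-- Alternating count of the cliques inside `S`. -/
noncomputable def chi (adj : ℕ → ℕ → Prop) (S : Finset ℕ) : ℤ :=
  ∑ C ∈ S.powerset, if (C : Set ℕ).Pairwise adj then (-1) ^ C.card else 0

variable {adj : ℕ → ℕ → Prop} [DecidableRel adj]

omit [DecidableRel adj] in
lemma chi_empty : chi adj ∅ = 1 := by simp [chi]

lemma chi_insert (hs : ∀ a b, adj a b → adj b a) {S : Finset ℕ} {v : ℕ} (hv : v ∉ S) :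
    chi adj (insert v S) = chi adj S - chi adj (S.filter (adj v)) := by
  classical
  unfold chi
  rw [Finset.sum_powerset_insert hv, sub_eq_add_neg, ← Finset.sum_neg_distrib]
  congr 1
  symm
  refine Finset.sum_subset_zero_on_sdiff (Finset.powerset_mono.2 (filter_subset _ _)) ?_ ?_
  · intro C hC
    rw [mem_sdiff, mem_powerset, mem_powerset] at hC
    rw [if_neg]
    intro h
    refine hC.2 fun x hx => mem_filter.2 ⟨hC.1 hx, h (by simp) (by simp [hx]) ?_⟩
    rintro rfl
    exact hv (hC.1 hx)
  · intro C hC
    rw [mem_powerset] at hC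
    have hvC : v ∉ C := fun h => hv (mem_filter.1 (hC h)).1
    have : ((insert v C : Finset ℕ) : Set ℕ).Pairwise adj ↔ (C : Set ℕ).Pairwise adj := by
      rw [coe_insert, Set.pairwise_insert]
      refine ⟨fun h => h.1, fun h => ⟨h, fun b hb _ => ?_⟩⟩
      have := (mem_filter.1 (hC hb)).2
      exact ⟨this, hs _ _ this⟩
    simp only [this, card_insert_of_notMem hvC]
    split_ifs
    · ring
    · simp

lemma chi_rec (hs : ∀ a b, adj a b → adj b a) (S : Finset ℕ) :
    chi adj S = 1 - ∑ u ∈ S, chi adj (S.filter fun v => u < v ∧ adj u v) := by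
  induction S using Finset.induction_on_min with
  | empty => simp [chi_empty]
  | insert a S ha ih =>
    have haS : a ∉ S := fun h => lt_irrefl _ (ha a h)
    rw [chi_insert hs haS, Finset.sum_insert haS, ih]
    have e1 : (insert a S).filter (fun v => a < v ∧ adj a v) = S.filter (adj a) := by
      ext v
      simp only [mem_filter, mem_insert]
      constructor
      · rintro ⟨rfl | h, h1, h2⟩
        · exact absurd h1 (lt_irrefl _)
        · exact ⟨h, h2⟩
      · rintro ⟨h, h2⟩
        exact ⟨Or.inr h, ha v h, h2⟩
    have e2 : ∀ u ∈ S, (insert a S).filter (fun v => u < v ∧ adj u v) =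
        S.filter fun v => u < v ∧ adj u v := by
      intro u hu
      rw [filter_insert, if_neg]
      exact fun h => absurd (ha u hu) (not_lt.2 h.1.le)
    rw [e1, Finset.sum_congr rfl fun u hu => congrArg (chi adj) (e2 u hu)]
    ring

lemma pow_five_le (d : ℕ) : d ^ 5 ≤ 4 ^ (d + 1) := by
  rcases lt_or_ge d 4 with h | h
  · interval_cases d <;> norm_num
  · induction d, h using Nat.le_induction with
    | base => norm_num
    | succ d hd ih =>
      have h1 : (4 * (d + 1)) ^ 5 ≤ (5 * d) ^ 5 := Nat.pow_le_pow_left (by omega) 5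
      rw [mul_pow, mul_pow] at h1
      rw [pow_succ 4]
      omega

theorem zieg (hs : ∀ a b, adj a b → adj b a) (S : Finset ℕ) :
    (chi adj S).natAbs ^ 5 ≤ 4 ^ S.card := by
  obtain ⟨c, hc0, hc⟩ : ∃ c : ℝ, 0 < c ∧ c ^ 5 = 4 :=
    ⟨(4 : ℝ) ^ ((5 : ℕ) : ℝ)⁻¹, by positivity, Real.rpow_inv_natCast_pow (by norm_num) (by norm_num)⟩
  have hc1 : 1 ≤ c := by
    by_contra h
    have := pow_le_one₀ (n := 5) hc0.le (not_le.1 h).le
    linarith
  have key : ∀ n, ∀ S : Finset ℕ, S.card = n → |(chi adj S : ℝ)| ≤ c ^ n := by
    intro n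
    induction n using Nat.strong_induction_on with
    | _ n ih =>
    intro S hS
    rcases S.eq_empty_or_nonempty with rfl | hne
    · simp [chi_empty, one_le_pow₀ hc1]
    obtain ⟨v, hv, hmin⟩ := Finset.exists_min_image S
      (fun v => ((S.erase v).filter fun u => ¬ adj v u).card) hne
    set N := (S.erase v).filter fun u => ¬ adj v u with hN
    have hNS : N.card + 1 ≤ n := by
      have := card_filter_le (S.erase v) fun u => ¬ adj v u
      rw [card_erase_of_mem hv, ← hN] at this
      have := card_pos.2 hne
      omega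
    have step : ∀ T : Finset ℕ, T ⊆ N →
        |(chi adj ((S \ N) ∪ T) : ℝ)| ≤ T.card * c ^ (n - (N.card + 1)) := by
      intro T
      induction T using Finset.induction_on with
      | empty =>
        intro _
        have h1 : v ∈ S \ N := by simp [hN, hv]
        rw [union_empty, ← insert_erase h1, chi_insert hs (notMem_erase _ _), filter_true_of_mem]
        · simp
        · intro x hx
          simp only [hN, mem_erase, mem_sdiff, mem_filter, not_and, not_not] at hx
          exact hx.2.2 ⟨hx.1, hx.2.1⟩
      | insert w T hw ihT =>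
        intro hT
        have hwN : w ∈ N := hT (mem_insert_self _ _)
        have hwS : w ∈ S := mem_of_mem_erase (mem_filter.1 hwN).1
        have h1 : w ∉ (S \ N) ∪ T := by simp [hw, hwN]
        rw [union_insert, chi_insert hs h1, card_insert_of_notMem hw]
        have h2 := ihT ((subset_insert _ _).trans hT)
        have h3 : ((S \ N) ∪ T).filter (adj w) ⊆ (S.erase w).filter (adj w) := by
          refine filter_subset_filter _ fun x hx => mem_erase.2 ⟨?_, ?_⟩
          · rintro rfl
            exact h1 hx
          · rcases mem_union.1 hx with h | h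
            · exact (mem_sdiff.1 h).1
            · exact mem_of_mem_erase (mem_filter.1 (hT (mem_insert_of_mem h))).1
        have h4 := card_le_card h3
        have h5 := card_filter_add_card_filter_not (s := S.erase w) (adj w)
        rw [card_erase_of_mem hwS] at h5
        have h6 := hmin w hwS
        have h7 := ih _ (by omega) (((S \ N) ∪ T).filter (adj w)) rfl
        have h8 : c ^ (((S \ N) ∪ T).filter (adj w)).card ≤ c ^ (n - (N.card + 1)) :=
          pow_le_pow_right₀ hc1 (by omega)
        push_cast
        refine (abs_sub _ _).trans ?_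
        linarith
    have h1 := step N subset_rfl
    rw [sdiff_union_of_subset ((filter_subset _ _).trans (erase_subset _ _))] at h1
    refine h1.trans ?_
    have h2 : (N.card : ℝ) ≤ c ^ (N.card + 1) := by
      refine le_of_pow_le_pow_left₀ (n := 5) (by norm_num) (by positivity) ?_
      rw [← pow_mul, mul_comm, pow_mul, hc]
      exact_mod_cast pow_five_le N.card
    calc _ ≤ c ^ (N.card + 1) * c ^ (n - (N.card + 1)) := by gcongr
      _ = c ^ n := by rw [← pow_add]; congr 1; omega
  have h := pow_le_pow_left₀ (abs_nonneg _) (key _ S rfl) 5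
  rw [← pow_mul, mul_comm, pow_mul, hc, ← Int.cast_abs, ← Nat.cast_natAbs] at h
  exact_mod_cast h

end Pool.Agent.P.MP_d9fb17_nt
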