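import Pool.Agent.P.MP_d9fb17_nt.COmega
import Pool.Agent.P.MP_d9fb17_nt.CRunge
import Pool.Agent.P.MP_d9fb17_nt.CZieg

/-! Windows: the identity for the Moebius function and the size of intervals. -/

namespace Pool.Agent.P.MP_d9fb17_nt

open Finset
open scoped symmDiff

/-- The ratio of `n` over `u`. -/
def lab (n u : ℕ) : ℕ := Q n / Q u

lemma lab_mul {n u : ℕ} (h : Q u ∣ Q n) : lab n u * Q u = Q n := Nat.div_mul_cancel h

lemma lab_pos {n u : ℕ} (hn : 1 ≤ n) (h : Q u ∣ Q n) : 0 < lab n u :=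
  Nat.pos_of_ne_zero fun h0 => by
    have := lab_mul h
    rw [h0, zero_mul] at this
    exact (Q_pos hn).ne this

lemma lab_inj {n u v : ℕ} (hn : 1 ≤ n) (hu : Q u ∣ Q n) (hv : Q v ∣ Q n) (h : lab n u = lab n v) :
    u = v := by
  have h1 := lab_mul hu
  rw [h, ← lab_mul hv] at h1
  exact Q_inj (Nat.eq_of_mul_eq_mul_left (lab_pos hn hv) h1)

lemma lab_dvd {n u e : ℕ} (h1 : Q e ∣ Q u) (h2 : Q u ∣ Q n) : lab n u ∣ lab n e :=
  Nat.div_dvd_div_left h2 h1

lemma pigeon {K : ℕ} (hK : K ≠ 0) (f : ℕ → ℕ) (F : Finset (Finset ℕ))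
    (h : ∀ s ∈ F, ∀ u ∈ s, f u ∣ K) (hc : 2 ^ K.primeFactors.card < F.card) :
    ∃ s ∈ F, ∃ t ∈ F, s ≠ t ∧ IsSquare (∏ u ∈ s ∆ t, f u) := by
  choose a b hab using fun s : Finset ℕ => Nat.sq_mul_squarefree (∏ u ∈ s, f u)
  rw [← card_powerset] at hc
  obtain ⟨s, hs, t, ht, hst, h1⟩ := exists_ne_map_eq_of_card_lt_of_maps_to hc
    (f := fun s => (a s).primeFactors) fun s hs => by
      refine mem_coe.2 (mem_powerset.2 fun p hp => ?_)
      have hp1 := Nat.prime_of_mem_primeFactors hp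
      have h2 : p ∣ ∏ u ∈ s, f u :=
        (Nat.dvd_of_mem_primeFactors hp).trans (Dvd.intro_left _ (hab s).1)
      obtain ⟨u, hu, h3⟩ := (Prime.dvd_finsetProd_iff hp1.prime _).1 h2
      exact Nat.mem_primeFactors.2 ⟨hp1, h3.trans (h s hs u hu), hK⟩
  refine ⟨s, hs, t, ht, hst, ?_⟩
  have h2 : a s = a t := by
    rw [← Nat.prod_primeFactors_of_squarefree (hab s).2, h1,
      Nat.prod_primeFactors_of_squarefree (hab t).2]
  have h3 : (∏ u ∈ s ∆ t, f u) * (∏ u ∈ s ∩ t, f u) ^ 2 = (b s * b t * a s) ^ 2 := by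
    have e1 := prod_inter_mul_prod_sdiff s t f
    have e2 := prod_inter_mul_prod_sdiff t s f
    rw [inter_comm] at e2
    rw [symmDiff_def, sup_eq_union, prod_union disjoint_sdiff_sdiff]
    calc _ = ((∏ u ∈ s ∩ t, f u) * ∏ u ∈ s \ t, f u) * ((∏ u ∈ s ∩ t, f u) * ∏ u ∈ t \ s, f u) := by
          ring
      _ = _ := by rw [e1, e2, ← (hab s).1, ← (hab t).1, ← h2]; ring
  have h4 : 0 < ∏ u ∈ s ∩ t, f u := prod_pos fun u hu =>
    Nat.pos_of_dvd_of_pos (h s hs u (mem_inter.1 hu).1) (Nat.pos_of_ne_zero hK)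
  obtain ⟨w, hw⟩ := (Nat.pow_dvd_pow_iff two_ne_zero).1 (Dvd.intro_left _ h3)
  rw [hw, mul_pow, mul_comm] at h3
  exact ⟨w, by rw [Nat.eq_of_mul_eq_mul_left (by positivity) h3, sq]⟩

lemma card_sd (s t : Finset ℕ) : (s ∆ t).card + 2 * (s ∩ t).card = s.card + t.card := by
  have e1 := card_inter_add_card_sdiff s t
  have e2 := card_inter_add_card_sdiff t s
  rw [inter_comm] at e2
  rw [symmDiff_def, sup_eq_union, card_union_of_disjoint disjoint_sdiff_sdiff]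
  omega

lemma sq_shift {n : ℕ} {s : Finset ℕ} (h : ∀ u ∈ s, Q u ∣ Q n) (h1 : IsSquare (∏ u ∈ s, lab n u)) :
    IsSquare (∏ u ∈ s, (4 * Q n + lab n u)) := by
  have : ∏ u ∈ s, (4 * Q n + lab n u) = (∏ u ∈ s, lab n u) * (∏ u ∈ s, (2 * u + 1)) ^ 2 := by
    rw [← prod_pow, ← prod_mul_distrib]
    refine prod_congr rfl fun u hu => ?_
    rw [← lab_mul (h u hu), Q]
    ring
  rw [this]
  exact h1.mul (IsSquare.sq _)

lemma sidon {n K : ℕ} (hn : 5 ≤ n) (hK : K ≠ 0) {A : Finset ℕ}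
    (h : ∀ u ∈ A, Q u ∣ Q n ∧ lab n u ∣ K ∧ 3 * (ci (lab n u) + 1) ≤ ci (Q n) + 4) :
    A.card * (A.card - 1) ≤ 2 ^ (K.primeFactors.card + 1) := by
  by_contra hc
  have hn1 : 1 ≤ n := by omega
  obtain ⟨s, hs, t, ht, hst, h1⟩ := pigeon hK (lab n) (powersetCard 2 A)
    (fun s hs u hu => (h u ((mem_powersetCard.1 hs).1 hu)).2.1)
    (by rw [card_powersetCard, Nat.choose_two_right]
        have := Nat.even_mul_pred_self A.card
        rw [pow_succ] at hc
        obtain ⟨r, hr⟩ := this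
        omega)
  rw [mem_powersetCard] at hs ht
  have h2 : s ∆ t ⊆ A := symmDiff_subset_union.trans (union_subset hs.1 ht.1)
  have h3 := card_sd s t
  have h4 := card_pos.2 (symmDiff_nonempty.2 hst)
  obtain ⟨Y, hY⟩ := sq_shift (fun u hu => (h u (h2 hu)).1) h1
  have h5 : ∀ u ∈ A, (0 : ℤ) < lab n u ∧ (lab n u : ℤ) ^ 3 ≤ 4 * Q n := by
    intro u hu
    refine ⟨by exact_mod_cast lab_pos hn1 (h u hu).1, ?_⟩
    have h6 : (lab n u ^ 3) ^ 2 ≤ (4 * Q n) ^ 2 := by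
      calc _ = (lab n u ^ 2) ^ 3 := by ring
        _ ≤ (2 ^ (ci (lab n u) + 1)) ^ 3 := Nat.pow_le_pow_left (lt_ci _).le 3
        _ ≤ 2 ^ (4 + ci (Q n)) := by
          rw [← pow_mul]; exact Nat.pow_le_pow_right two_pos (by have := (h u hu).2.2; omega)
        _ ≤ _ := by rw [pow_add, mul_pow]; exact Nat.mul_le_mul_left _ (ci_le (Q_pos hn1))
    exact_mod_cast (Nat.pow_le_pow_iff_left two_ne_zero).1 h6
  have h6 : ∀ u ∈ A, ∀ v ∈ A, u ≠ v → (lab n u : ℤ) ≠ lab n v := fun u hu v hv huv h7 =>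
    huv (lab_inj hn1 (h u hu).1 (h v hv).1 (by exact_mod_cast h7))
  generalize s ∆ t = S at *
  rcases (by omega : S.card = 2 ∨ S.card = 3 + 1) with h7 | h7
  · obtain ⟨a, b, hab, rfl⟩ := card_eq_two.1 h7
    rw [prod_pair hab] at hY
    have ha := h2 (mem_insert_self _ _)
    have hb := h2 (mem_insert_of_mem (mem_singleton_self _))
    rcases lt_or_gt_of_ne (h6 a ha b hb hab) with h8 | h8
    · exact sq_two (Y := Y) (h5 a ha).1 h8 (h5 b hb).2 (by rw [sq]; exact_mod_cast hY)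
    · exact sq_two (Y := Y) (h5 b hb).1 h8 (h5 a ha).2 (by rw [sq, mul_comm]; exact_mod_cast hY)
  · obtain ⟨x, hx, hmax⟩ := S.exists_max_image (lab n) (card_pos.1 h4)
    obtain ⟨a, R, ha, rfl, hR⟩ := card_eq_succ.1 h7
    obtain ⟨b, c, d, hbc, hbd, hcd, rfl⟩ := card_eq_three.1 hR
    rw [prod_insert ha, prod_insert (by simp [hbc, hbd]), prod_pair hcd] at hY
    simp only [mem_insert, mem_singleton, not_or] at ha
    have hq : 30 ≤ Q n := Q_strictMono.monotone hn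
    refine sq_four (Y := Y) (h5 a (h2 (by simp))).1 (h5 b (h2 (by simp))).1 (h5 c (h2 (by simp))).1
      (h5 d (h2 (by simp))).1 (by exact_mod_cast hmax a (by simp))
      (by exact_mod_cast hmax b (by simp)) (by exact_mod_cast hmax c (by simp))
      (by exact_mod_cast hmax d (by simp)) (h5 x (h2 hx)).2 (by omega)
      (h6 _ (h2 (by simp)) _ (h2 (by simp)) ha.1) (h6 _ (h2 (by simp)) _ (h2 (by simp)) ha.2.1)
      (h6 _ (h2 (by simp)) _ (h2 (by simp)) ha.2.2) ?_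
    rw [sq, mul_assoc, mul_assoc]
    exact_mod_cast hY

lemma affine {n K k : ℕ} (hn : 1 ≤ n) (hK : K ≠ 0) {A : Finset ℕ}
    (h : ∀ u ∈ A, Q u ∣ Q n ∧ lab n u ∣ K ∧ lab n u ≤ 2 ^ k)
    (ht : 2 ^ ((K.primeFactors.card + 2) * (k + 8)) ≤ 4 * Q n) :
    A.card ≤ K.primeFactors.card + 1 := by
  by_contra hc
  obtain ⟨B, hB, hB2⟩ := exists_subset_card_eq (s := A) (n := K.primeFactors.card + 2) (by omega)
  have key : ∀ F ⊆ B.powerset, (∀ s ∈ F, ∀ t ∈ F, Even (s.card + t.card)) →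
      F.card ≤ 2 ^ K.primeFactors.card := by
    intro F hF h1
    by_contra hc
    obtain ⟨s, hs, t, ht', hst, h2⟩ := pigeon hK (lab n) F
      (fun s hs u hu => (h u (hB (mem_powerset.1 (hF hs) hu))).2.1) (not_le.1 hc)
    have h3 : s ∆ t ⊆ B := symmDiff_subset_union.trans
      (union_subset (mem_powerset.1 (hF hs)) (mem_powerset.1 (hF ht')))
    have h4 := card_sd s t
    have h5 := card_pos.2 (symmDiff_nonempty.2 hst)
    obtain ⟨r, hr⟩ := h1 s hs t ht'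
    have h6 := sq_shift (fun u hu => (h u (hB (h3 hu))).1) h2
    have h7 : Set.InjOn (lab n) (s ∆ t : Finset ℕ) := fun u hu v hv =>
      lab_inj hn (h u (hB (h3 hu))).1 (h v (hB (h3 hv))).1
    rw [← prod_image (f := fun a => 4 * Q n + a) h7] at h6
    refine sq_gen (h := (s ∆ t).card / 2 - 1) (k := k) ?_ (fun a ha => ?_) ?_ h6
    · rw [card_image_of_injOn h7]; omega
    · obtain ⟨u, hu, rfl⟩ := mem_image.1 ha
      exact (h u (hB (h3 hu))).2.2
    · rw [card_image_of_injOn h7]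
      exact (Nat.pow_le_pow_right two_pos (Nat.mul_le_mul_right _ (hB2 ▸ card_le_card h3))).trans ht
  have h1 := key _ (filter_subset (fun s => Even s.card) _) fun s hs t ht =>
    (mem_filter.1 hs).2.add (mem_filter.1 ht).2
  have h2 := key _ (filter_subset (fun s => ¬ Even s.card) _) fun s hs t ht =>
    (Nat.not_even_iff_odd.1 (mem_filter.1 hs).2).add_odd (Nat.not_even_iff_odd.1 (mem_filter.1 ht).2)
  have h3 := card_filter_add_card_filter_not (s := B.powerset) fun s => Even s.card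
  rw [card_powerset, hB2, pow_add] at h3
  have := Nat.two_pow_pos K.primeFactors.card
  omega

/-- The length of the window. -/
noncomputable def Jt (i : ℕ) : ℕ := if i < 16384 then jf i else 7 * Nat.log2 i

/-- `u` lies in the window below `n`. -/
def inW (n u : ℕ) : Prop := 262144 < u ∧ Q u ∣ Q n ∧ ci (lab n u) < Jt (ci (Q n))

noncomputable instance (n : ℕ) : DecidablePred (inW n) := Classical.decPred _

/-- Comparability. -/
def adj (a b : ℕ) : Prop := Q a ∣ Q b ∨ Q b ∣ Q a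

instance : DecidableRel adj := fun _ _ => instDecidableOr

/-- The part of the window strictly between `e` and `n`. -/
noncomputable def Sw (n e : ℕ) : Finset ℕ := (Ioo e n).filter fun u => inW n u ∧ Q e ∣ Q u

/-- The coefficient of `e` in the identity for `n`. -/
noncomputable def nuv (n e : ℕ) : ℤ := chi adj (Sw n e)

lemma nuv_rec {n e : ℕ} : nuv n e = 1 - ∑ u ∈ Sw n e, nuv n u := by
  rw [nuv, chi_rec (adj := adj) fun _ _ => Or.symm]
  congr 1
  refine sum_congr rfl fun u hu => congrArg _ ?_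
  ext v
  simp only [Sw, mem_filter, mem_Ioo] at hu ⊢
  constructor
  · rintro ⟨⟨h1, h2, -⟩, h3, h4 | h4⟩
    · exact ⟨⟨h3, h1.2⟩, h2, h4⟩
    · exact absurd (le_of_Q_dvd (by omega) h4) (by omega)
  · rintro ⟨h1, h2, h3⟩
    exact ⟨⟨by omega, h2, hu.2.2.trans h3⟩, h1.1, Or.inl h3⟩

/-- The truncated sum. -/
def fW (μ : ℕ → ℤ) (W u : ℕ) : ℤ := ∑ d ∈ (Icc 1 W).filter (fun d => Q d ∣ Q u), μ d

lemma window {μ : ℕ → ℤ} {W : ℕ} (hW : 1 ≤ W)
    (hrec : ∀ n, 2 ≤ n → μ n = -∑ d ∈ (Ico 1 n).filter (fun d => Q d ∣ Q n), μ d)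
    {n : ℕ} (hn : W < n) : μ n = -fW μ W n + ∑ u ∈ (Ioo W n).filter (inW n), nuv n u * fW μ W u -
      ∑ e ∈ (Ioo W n).filter (fun e => Q e ∣ Q n ∧ ¬ inW n e), μ e * nuv n e := by
  have h1 : ∀ u, W < u →
      ∑ e ∈ (Ioo W u).filter (fun e => Q e ∣ Q u), μ e = -fW μ W u - μ u := by
    intro u hu
    rw [hrec u (by omega), fW, sum_filter, sum_filter, sum_filter, ← Ico_add_one_right_eq_Icc,
      ← Ico_add_one_left_eq_Ioo, ← sum_Ico_consecutive _ (by omega : 1 ≤ W + 1) hu]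
    ring
  have h2 : ∑ u ∈ (Ioo W n).filter (inW n), nuv n u *
      ∑ e ∈ (Ioo W u).filter (fun e => Q e ∣ Q u), μ e =
      ∑ e ∈ (Ioo W n).filter (fun e => Q e ∣ Q n), μ e * ∑ u ∈ Sw n e, nuv n u := by
    simp only [mul_sum]
    simp only [mul_comm (μ _)]
    apply sum_comm'
    intro u e
    simp only [Sw, mem_filter, mem_Ioo]
    constructor
    · rintro ⟨⟨h1, h2⟩, h3, h4⟩
      exact ⟨⟨⟨h3.2, h1.2⟩, h2, h4⟩, by omega, h4.trans h2.2.1⟩
    · rintro ⟨⟨h1, h2, h3⟩, h4, -⟩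
      exact ⟨⟨by omega, h2⟩, by omega, h3⟩
  rw [sum_congr rfl fun u hu => by rw [h1 u (mem_Ioo.1 (mem_filter.1 hu).1).1],
    sum_congr (s₁ := filter (fun e => Q e ∣ Q n) _) rfl
      (g := fun e => μ e - μ e * nuv n e) fun e _ => by rw [nuv_rec (n := n) (e := e)]; ring,
    sum_sub_distrib, h1 n hn,
    ← sum_filter_add_sum_filter_not (filter (fun e => Q e ∣ Q n) _) (inW n), filter_filter,
    filter_filter, filter_congr (p := fun e => Q e ∣ Q n ∧ inW n e) (q := inW n)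
      fun e _ => ⟨fun h => h.2, fun h => ⟨h.2.1, h⟩⟩] at h2
  simp only [mul_sub, mul_neg, sum_sub_distrib, sum_neg_distrib, mul_comm (nuv n _) (μ _)] at h2
  linarith

end Pool.Agent.P.MP_d9fb17_nt
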