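import Pool.Agent.P.MP_d9fb17_nt.Basic

/-! Counting chains when every label is used at most once. -/

namespace Pool.Agent.P.MP_d9fb17_nt

open Finset

lemma dual (S : Finset ℕ) (F : ℕ → ℕ → Prop) [DecidableRel F] (G D b : ℕ → ℝ) {v : ℕ}
    (hv : v ∈ S) (hG0 : ∀ u ∈ S, 0 ≤ G u) (hD0 : ∀ u ∈ S, 0 ≤ D u)
    (hG : ∀ u ∈ S, G u ≤ b u + ∑ w ∈ S.filter (fun w => F u w), G w)
    (hD : ∀ w ∈ S, (if w = v then 1 else 0) + ∑ u ∈ S.filter (fun u => F u w), D u ≤ D w) :
    G v ≤ ∑ u ∈ S, D u * b u := by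
  have h1 : ∑ u ∈ S, D u * G u ≤
      ∑ u ∈ S, D u * b u + ∑ u ∈ S, ∑ w ∈ S.filter (fun w => F u w), D u * G w := by
    rw [← Finset.sum_add_distrib]
    refine Finset.sum_le_sum fun u hu => ?_
    rw [← Finset.mul_sum, ← mul_add]
    exact mul_le_mul_of_nonneg_left (hG u hu) (hD0 u hu)
  have h2 : ∑ u ∈ S, ∑ w ∈ S.filter (fun w => F u w), D u * G w =
      ∑ w ∈ S, (∑ u ∈ S.filter (fun u => F u w), D u) * G w := by
    simp only [Finset.sum_filter, Finset.sum_mul]
    rw [Finset.sum_comm]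
    refine Finset.sum_congr rfl fun w _ => Finset.sum_congr rfl fun u _ => ?_
    split_ifs <;> simp
  have h3 : G v + ∑ w ∈ S, (∑ u ∈ S.filter (fun u => F u w), D u) * G w ≤
      ∑ w ∈ S, D w * G w := by
    have : G v = ∑ w ∈ S, (if w = v then 1 else 0) * G w := by
      simp [Finset.sum_ite_eq', hv]
    rw [this, ← Finset.sum_add_distrib]
    refine Finset.sum_le_sum fun w hw => ?_
    rw [← add_mul]
    exact mul_le_mul_of_nonneg_right (hD w hw) (hG0 w hw)
  linarith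

lemma super {ε : ℝ} (hε : 0 < ε) {m : ℕ} (hm : 1 ≤ m) :
    ∃ C : ℝ, ∃ D : ℕ → ℝ, 1 ≤ C ∧ (∀ P, 1 ≤ P → 1 ≤ D P) ∧ (∀ P, D P ≤ C * (P : ℝ) ^ ε) ∧
      ∀ P : ℕ, 1 ≤ P → ∀ T : Finset ℕ, (∀ P' ∈ T, ∃ k, P = P' * k ∧ P' < P ∧ P < k ^ m) →
        ∑ P' ∈ T, D P' ≤ D P := by
  have hm0 : (0 : ℝ) < m := by exact_mod_cast hm
  obtain ⟨C₀, hC₀, hdiv⟩ := div_bound (ε := ε / (2 * m)) (by positivity)
  obtain ⟨P₀, hP₀1, hP₀⟩ : ∃ P₀ : ℕ, 1 ≤ P₀ ∧ ∀ P : ℕ, P₀ ≤ P → C₀ ≤ (P : ℝ) ^ (ε / (2 * m)) := by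
    have := (tendsto_rpow_atTop (y := ε / (2 * m)) (by positivity)).comp
      tendsto_natCast_atTop_atTop
    obtain ⟨N, hN⟩ := Filter.eventually_atTop.1 (this.eventually_ge_atTop C₀)
    exact ⟨max N 1, le_max_right _ _, fun P hP => hN P ((le_max_left _ _).trans hP)⟩
  have hP₀r : (1 : ℝ) ≤ P₀ := by exact_mod_cast hP₀1
  refine ⟨(P₀ : ℝ) ^ P₀, fun P => (P₀ : ℝ) ^ (min P P₀) * (P : ℝ) ^ ε, one_le_pow₀ hP₀r,
    fun P hP => ?_, fun P => ?_, fun P hP T hT => ?_⟩
  · have h1 : (1 : ℝ) ≤ (P : ℝ) ^ ε := Real.one_le_rpow (by exact_mod_cast hP) hε.le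
    have h2 : (1 : ℝ) ≤ (P₀ : ℝ) ^ (min P P₀) := one_le_pow₀ hP₀r
    nlinarith
  · refine mul_le_mul_of_nonneg_right (pow_le_pow_right₀ hP₀r (min_le_right _ _)) (by positivity)
  · have hTc : T.card ≤ P.divisors.card := by
      refine Finset.card_le_card fun P' hP' => ?_
      obtain ⟨k, hk, -, -⟩ := hT P' hP'
      exact Nat.mem_divisors.2 ⟨⟨k, hk⟩, by omega⟩
    have hPr : (1 : ℝ) ≤ P := by exact_mod_cast hP
    by_cases hPP : P ≤ P₀
    · have : ∀ P' ∈ T, (P₀ : ℝ) ^ (min P' P₀) * (P' : ℝ) ^ ε ≤ (P₀ : ℝ) ^ (P - 1) * (P : ℝ) ^ ε := by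
        intro P' hP'
        obtain ⟨k, hk, h1, -⟩ := hT P' hP'
        refine mul_le_mul (pow_le_pow_right₀ hP₀r (by omega)) ?_ (by positivity) (by positivity)
        exact Real.rpow_le_rpow (by positivity) (by exact_mod_cast h1.le) hε.le
      refine (Finset.sum_le_card_nsmul _ _ _ this).trans ?_
      beta_reduce
      rw [nsmul_eq_mul, min_eq_left hPP]
      have h2 : (T.card : ℝ) ≤ P₀ := by
        exact_mod_cast hTc.trans ((Nat.card_divisors_le_self P).trans hPP)
      have h3 : (P₀ : ℝ) ^ P = P₀ * (P₀ : ℝ) ^ (P - 1) := by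
        rw [← pow_succ']; congr 1; omega
      rw [h3, mul_assoc]
      gcongr
    · push Not at hPP
      have : ∀ P' ∈ T, (P₀ : ℝ) ^ (min P' P₀) * (P' : ℝ) ^ ε ≤
          (P₀ : ℝ) ^ P₀ * (P : ℝ) ^ (ε - ε / m) := by
        intro P' hP'
        obtain ⟨k, hk, h1, h2⟩ := hT P' hP'
        refine mul_le_mul (pow_le_pow_right₀ hP₀r (min_le_right _ _)) ?_ (by positivity)
          (by positivity)
        have h3 : P' ^ m * P ≤ P ^ m := by
          conv_rhs => rw [hk, mul_pow]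
          exact Nat.mul_le_mul_left _ h2.le
        have h4 : (P' : ℝ) ^ m ≤ (P : ℝ) ^ ((m : ℝ) - 1) := by
          rw [Real.rpow_sub_one (by positivity), Real.rpow_natCast, le_div_iff₀ (by positivity)]
          exact_mod_cast h3
        have h5 := Real.rpow_le_rpow (by positivity) h4 (by positivity : 0 ≤ ε / m)
        rw [← Real.rpow_natCast, ← Real.rpow_mul (by positivity),
          ← Real.rpow_mul (by positivity)] at h5
        have e1 : (m : ℝ) * (ε / m) = ε := by field_simp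
        have e2 : ((m : ℝ) - 1) * (ε / m) = ε - ε / m := by field_simp
        rwa [e1, e2] at h5
      refine (Finset.sum_le_card_nsmul _ _ _ this).trans ?_
      beta_reduce
      rw [nsmul_eq_mul, min_eq_right hPP.le]
      have h2 : (T.card : ℝ) ≤ (P : ℝ) ^ (ε / m) := by
        have a1 : (T.card : ℝ) ≤ P.divisors.card := by exact_mod_cast hTc
        have a2 := hdiv P (by omega)
        have a3 := hP₀ P hPP.le
        have a4 : (P : ℝ) ^ (ε / m) = (P : ℝ) ^ (ε / (2 * m)) * (P : ℝ) ^ (ε / (2 * m)) := by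
          rw [← Real.rpow_add (by positivity)]; congr 1; field_simp; ring
        rw [a4]
        have a5 : C₀ * (P : ℝ) ^ (ε / (2 * m)) ≤
          (P : ℝ) ^ (ε / (2 * m)) * (P : ℝ) ^ (ε / (2 * m)) := by gcongr
        linarith
      have h3 : (P : ℝ) ^ ε = (P : ℝ) ^ (ε / m) * (P : ℝ) ^ (ε - ε / m) := by
        rw [← Real.rpow_add (by positivity)]; congr 1; ring
      rw [h3]
      calc (T.card : ℝ) * ((P₀ : ℝ) ^ P₀ * (P : ℝ) ^ (ε - ε / m))
          ≤ (P : ℝ) ^ (ε / m) * ((P₀ : ℝ) ^ P₀ * (P : ℝ) ^ (ε - ε / m)) := by gcongr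
        _ = _ := by ring

lemma tele (e : ℕ → ℝ) (t : ℕ) :
    1 + ∑ u ∈ range t, e u * Real.exp (∑ i ∈ range u, e i) ≤ Real.exp (∑ i ∈ range t, e i) := by
  induction t with
  | zero => simp
  | succ t ih =>
    rw [Finset.sum_range_succ, Finset.sum_range_succ (fun i => e i), Real.exp_add]
    have h1 := Real.add_one_le_exp (e t)
    have h2 := Real.exp_pos (∑ i ∈ range t, e i)
    nlinarith

lemma label_sum (S : Finset ℕ)
    (uniq : ∀ y ∈ S, ∀ x ∈ S, ∀ y' ∈ S, ∀ x' ∈ S, ∀ k, 2 ≤ k → Q x = k * Q y → Q x' = k * Q y' →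
      y = y') :
    ∑ u ∈ S, ∑ w ∈ S.filter (fun w => w < u ∧ Q w ∣ Q u), (((Q u / Q w : ℕ) : ℝ) ^ 2)⁻¹ ≤ 1 := by
  rw [Finset.sum_sigma']
  set E := S.sigma fun u => S.filter (fun w => w < u ∧ Q w ∣ Q u) with hE
  have hmem : ∀ e ∈ E, e.1 ∈ S ∧ e.2 ∈ S ∧ 2 ≤ Q e.1 / Q e.2 ∧ Q e.1 = (Q e.1 / Q e.2) * Q e.2 := by
    intro e he
    simp only [hE, Finset.mem_sigma, Finset.mem_filter] at he
    obtain ⟨h1, h2, h3, h4⟩ := he
    have h5 := (Nat.div_mul_cancel h4).symm
    refine ⟨h1, h2, ?_, h5⟩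
    have h6 := Q_strictMono h3
    by_contra h
    have h7 : Q e.1 / Q e.2 ≤ 1 := by omega
    have := Nat.mul_le_mul_right (Q e.2) h7
    omega
  have hinj : Set.InjOn (fun e : (Σ _ : ℕ, ℕ) => Q e.1 / Q e.2) E := by
    intro e he e' he' h
    obtain ⟨h1, h2, h3, h4⟩ := hmem e he
    obtain ⟨h1', h2', h3', h4'⟩ := hmem e' he'
    simp only at h
    rw [← h] at h4'
    have h5 := uniq _ h2 _ h1 _ h2' _ h1' _ h3 h4 h4'
    have h6 : e.1 = e'.1 := Q_inj (by rw [h4, h4', h5])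
    obtain ⟨a, b⟩ := e
    obtain ⟨a', b'⟩ := e'
    simp only at h5 h6
    subst h5 h6
    rfl
  rw [← Finset.sum_image (f := fun k : ℕ => ((k : ℝ) ^ 2)⁻¹) hinj]
  set T := E.image (fun e : (Σ _ : ℕ, ℕ) => Q e.1 / Q e.2)
  have hT : T ⊆ Ioo 1 (T.sup id + 1) := by
    intro k hk
    have h1 : k ≤ T.sup id := Finset.le_sup (f := id) hk
    obtain ⟨e, he, rfl⟩ := Finset.mem_image.1 hk
    have := (hmem e he).2.2.1
    exact Finset.mem_Ioo.2 ⟨by omega, by omega⟩
  refine (Finset.sum_le_sum_of_subset_of_nonneg hT fun _ _ _ => by positivity).trans ?_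
  have := sum_Ioo_inv_sq_le (α := ℝ) 1 (T.sup id + 1)
  norm_num at this ⊢
  exact this

lemma chain_bound {ε : ℝ} (hε : 0 < ε) : ∃ C : ℝ, 1 ≤ C ∧
    ∀ (S : Finset ℕ) (N K : ℕ) (G : ℕ → ℝ) (Γ : ℝ), 0 ≤ Γ → 0 < N →
      (∀ x ∈ S, 1 ≤ x ∧ N ≤ K * Q x ∧ Q x ≤ N) → (∀ x ∈ S, 0 ≤ G x) →
      (∀ x ∈ S, G x ≤ Γ + ∑ y ∈ S.filter (fun y => y < x ∧ Q y ∣ Q x), G y) →
      (∀ y ∈ S, ∀ x ∈ S, ∀ y' ∈ S, ∀ x' ∈ S, ∀ k, 2 ≤ k → Q x = k * Q y → Q x' = k * Q y' →
        y = y') →
      ∀ v ∈ S, G v ≤ C * Γ * S.card * (K : ℝ) ^ (3 * ε) := by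
  obtain ⟨m, hm1, hm⟩ : ∃ m : ℕ, 1 ≤ m ∧ 2 ≤ (m : ℝ) * ε := by
    refine ⟨⌈2 / ε⌉₊, Nat.one_le_iff_ne_zero.2 (Nat.ceil_pos.2 (by positivity)).ne', ?_⟩
    have := Nat.le_ceil (2 / ε)
    rwa [div_le_iff₀ hε] at this
  obtain ⟨C, D, hC, hD1, hD2, hD3⟩ := super hε hm1
  refine ⟨C * Real.exp C, by have := Real.add_one_le_exp C; nlinarith, ?_⟩
  intro S N K G Γ hΓ hN hS hG0 hG uniq
  have hNr : (0 : ℝ) < N := by exact_mod_cast hN
  set e : ℕ → ℝ := fun u => if u ∈ S then
    ∑ w ∈ S.filter (fun w => w < u ∧ Q w ∣ Q u), C * (((Q u / Q w : ℕ) : ℝ) ^ 2)⁻¹ else 0 with he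
  have he0 : ∀ u, 0 ≤ e u := by
    intro u
    simp only [he]
    split_ifs
    · exact Finset.sum_nonneg fun _ _ => by positivity
    · exact le_rfl
  have hetot : ∀ t, ∑ u ∈ range t, e u ≤ C := by
    intro t
    have h1 : ∑ u ∈ range t, e u ≤ ∑ u ∈ S, e u := by
      have : ∑ u ∈ range t, e u = ∑ u ∈ (range t).filter (· ∈ S), e u := by
        rw [Finset.sum_filter]
        refine Finset.sum_congr rfl fun u _ => ?_
        split_ifs with h
        · rfl
        · simp [he, h]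
      rw [this]
      exact Finset.sum_le_sum_of_subset_of_nonneg (fun u hu => (Finset.mem_filter.1 hu).2)
        fun _ _ _ => he0 _
    have h2 : ∑ u ∈ S, e u = C * ∑ u ∈ S, ∑ w ∈ S.filter (fun w => w < u ∧ Q w ∣ Q u),
        (((Q u / Q w : ℕ) : ℝ) ^ 2)⁻¹ := by
      rw [Finset.mul_sum]
      refine Finset.sum_congr rfl fun u hu => ?_
      simp only [he, hu, if_true, Finset.mul_sum]
    have h3 := label_sum S uniq
    nlinarith
  set Γ' : ℝ := C * Γ * S.card * (K : ℝ) ^ ε with hΓ'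
  have hΓ'0 : 0 ≤ Γ' := by positivity
  set R : ℕ → ℝ := fun x => ((Q x : ℝ) * K / N) ^ (2 * ε) with hR
  have hR1 : ∀ x ∈ S, 1 ≤ R x := by
    intro x hx
    refine Real.one_le_rpow ?_ (by positivity)
    rw [le_div_iff₀ hNr, one_mul, mul_comm]
    exact_mod_cast (hS x hx).2.1
  have main : ∀ v, v ∈ S → G v ≤ Γ' * R v * Real.exp (∑ u ∈ range (v + 1), e u) := by
    intro v
    induction v using Nat.strong_induction_on with
    | _ v ih =>
    intro hv
    have hQv : 0 < Q v := Q_pos (hS v hv).1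
    set Sv := S.filter (fun u => Q u ∣ Q v) with hSv
    have hSvle : ∀ u ∈ Sv, u ∈ S ∧ Q u ∣ Q v ∧ u ≤ v := by
      intro u hu
      obtain ⟨h1, h2⟩ := Finset.mem_filter.1 hu
      exact ⟨h1, h2, Q_strictMono.le_iff_le.1 (Nat.le_of_dvd hQv h2)⟩
    have hd := dual Sv (fun u w => w < u ∧ Q w ∣ Q u ∧ Q v / Q w < (Q u / Q w) ^ m) G
      (fun u => D (Q v / Q u))
      (fun u => Γ + ∑ w ∈ S.filter (fun w => (w < u ∧ Q w ∣ Q u) ∧ (Q u / Q w) ^ m ≤ Q v / Q w), G w)
      (v := v) (Finset.mem_filter.2 ⟨hv, dvd_rfl⟩) (fun u hu => hG0 u (hSvle u hu).1) ?_ ?_ ?_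
    rotate_left
    · intro u hu
      obtain ⟨h1, h2, h3⟩ := hSvle u hu
      exact zero_le_one.trans (hD1 _ (Nat.div_pos (Nat.le_of_dvd hQv h2) (Q_pos (hS u h1).1)))
    · intro u hu
      obtain ⟨h1, h2, h3⟩ := hSvle u hu
      refine (hG u h1).trans (le_of_eq ?_)
      rw [add_assoc]
      congr 1
      rw [← Finset.sum_filter_add_sum_filter_not (S.filter fun y => y < u ∧ Q y ∣ Q u)
        (fun w => (Q u / Q w) ^ m ≤ Q v / Q w), Finset.filter_filter, Finset.filter_filter, hSv,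
        Finset.filter_filter]
      congr 1
      refine Finset.sum_congr ?_ fun _ _ => rfl
      ext w
      simp only [Finset.mem_filter, not_le]
      constructor
      · rintro ⟨a, ⟨b, c⟩, d⟩
        exact ⟨a, c.trans h2, b, c, d⟩
      · rintro ⟨a, -, b, c, d⟩
        exact ⟨a, ⟨b, c⟩, d⟩
    · intro w hw
      obtain ⟨h1, h2, h3⟩ := hSvle w hw
      have hQw : 0 < Q w := Q_pos (hS w h1).1
      have hP : 1 ≤ Q v / Q w := Nat.div_pos (Nat.le_of_dvd hQv h2) hQw
      split_ifs with hwv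
      · subst hwv
        rw [Finset.sum_eq_zero, add_zero]
        · exact hD1 _ hP
        · intro u hu
          obtain ⟨a, b, -⟩ := Finset.mem_filter.1 hu
          have := (hSvle u a).2.2
          omega
      · rw [zero_add]
        have hinj : Set.InjOn (fun u => Q v / Q u)
            (Sv.filter fun u => w < u ∧ Q w ∣ Q u ∧ Q v / Q w < (Q u / Q w) ^ m) := by
          intro u hu u' hu' h
          have a1 := (hSvle u (Finset.mem_filter.1 hu).1).2.1
          have a2 := (hSvle u' (Finset.mem_filter.1 hu').1).2.1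
          simp only at h
          have b1 := Nat.div_mul_cancel a1
          have b2 := Nat.div_mul_cancel a2
          rw [← h] at b2
          have b3 : 0 < Q v / Q u := by
            refine Nat.pos_of_ne_zero fun h0 => ?_
            rw [h0, zero_mul] at b1
            omega
          exact Q_inj (Nat.eq_of_mul_eq_mul_left b3 (b1.trans b2.symm))
        rw [← Finset.sum_image (f := D) hinj]
        refine hD3 _ hP _ fun P' hP' => ?_
        obtain ⟨u, hu, rfl⟩ := Finset.mem_image.1 hP'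
        obtain ⟨a, b, c, d⟩ := Finset.mem_filter.1 hu
        obtain ⟨k, hk⟩ := c
        obtain ⟨p, hp⟩ := (hSvle u a).2.1
        have hQu : 0 < Q u := Q_pos (hS u (hSvle u a).1).1
        have e1 : Q u / Q w = k := by rw [hk]; exact Nat.mul_div_cancel_left _ hQw
        have e2 : Q v / Q u = p := by rw [hp]; exact Nat.mul_div_cancel_left _ hQu
        have e3 : Q v / Q w = p * k := by
          rw [hp, hk, mul_assoc, Nat.mul_div_cancel_left _ hQw, mul_comm]
        rw [e1, e3] at d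
        rw [e2, e3]
        refine ⟨k, rfl, ?_, d⟩
        have hk2 : 2 ≤ k := by
          have := Q_strictMono b
          by_contra h0
          have h7 : k ≤ 1 := by omega
          have := Nat.mul_le_mul_left (Q w) h7
          omega
        have hp0 : 0 < p := by
          by_contra h0
          have : p = 0 := by omega
          rw [this] at hp
          omega
        nlinarith
    refine hd.trans ?_
    have hterm : ∀ u ∈ Sv, D (Q v / Q u) * (Γ + ∑ w ∈ S.filter
        (fun w => (w < u ∧ Q w ∣ Q u) ∧ (Q u / Q w) ^ m ≤ Q v / Q w), G w) ≤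
        C * Γ * (K : ℝ) ^ ε * R v + Γ' * R v * (e u * Real.exp (∑ i ∈ range u, e i)) := by
      intro u hu
      obtain ⟨h1, h2, h3⟩ := hSvle u hu
      have hQu : 0 < Q u := Q_pos (hS u h1).1
      obtain ⟨p, hp⟩ := h2
      have e2 : Q v / Q u = p := by rw [hp]; exact Nat.mul_div_cancel_left _ hQu
      have hp0 : 0 < p := by
        by_contra h0
        have : p = 0 := by omega
        rw [this] at hp
        omega
      have hD0 : 0 ≤ D p := zero_le_one.trans (hD1 p hp0)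
      rw [e2, mul_add]
      refine add_le_add ?_ ?_
      · have a1 : p ≤ K := by
          have b1 := (hS u h1).2.1
          have b2 := (hS v hv).2.2
          have : Q u * p ≤ Q u * K := by rw [← hp, mul_comm]; omega
          exact Nat.le_of_mul_le_mul_left this hQu
        have a2 : (p : ℝ) ^ ε ≤ (K : ℝ) ^ ε :=
          Real.rpow_le_rpow (by positivity) (by exact_mod_cast a1) hε.le
        calc D p * Γ ≤ C * (p : ℝ) ^ ε * Γ := by gcongr; exact hD2 p
          _ ≤ C * (K : ℝ) ^ ε * Γ := by gcongr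
          _ = C * Γ * (K : ℝ) ^ ε * 1 := by ring
          _ ≤ _ := by gcongr; exact hR1 v hv
      · have heu : e u = ∑ w ∈ S.filter (fun w => w < u ∧ Q w ∣ Q u),
            C * (((Q u / Q w : ℕ) : ℝ) ^ 2)⁻¹ := by simp only [he, h1, if_true]
        rw [heu, Finset.mul_sum, Finset.sum_mul, Finset.mul_sum]
        refine le_trans (Finset.sum_le_sum fun w hw => ?_)
          (Finset.sum_le_sum_of_subset_of_nonneg
            (s := S.filter (fun w => (w < u ∧ Q w ∣ Q u) ∧ (Q u / Q w) ^ m ≤ Q v / Q w))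
            (fun w hw => ?_) fun w _ _ => ?_)
        rotate_left
        · simp only [Finset.mem_filter] at hw ⊢
          exact ⟨hw.1, hw.2.1⟩
        · have := hR1 v hv
          have h0 : 0 ≤ R v := by linarith
          exact mul_nonneg (mul_nonneg hΓ'0 h0) (mul_nonneg (by positivity) (Real.exp_pos _).le)
        obtain ⟨a, ⟨b, c⟩, d⟩ := Finset.mem_filter.1 hw
        have hQw : 0 < Q w := Q_pos (hS w a).1
        obtain ⟨k, hk⟩ := c
        have e1 : Q u / Q w = k := by rw [hk]; exact Nat.mul_div_cancel_left _ hQw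
        have e3 : Q v / Q w = p * k := by
          rw [hp, hk, mul_assoc, Nat.mul_div_cancel_left _ hQw, mul_comm]
        have hk0 : 0 < k := by
          by_contra h0
          have : k = 0 := by omega
          rw [this] at hk
          omega
        rw [e1, e3] at d
        rw [e1]
        have i1 := ih w (by omega) a
        have i2 : Real.exp (∑ i ∈ range (w + 1), e i) ≤ Real.exp (∑ i ∈ range u, e i) := by
          refine Real.exp_le_exp.2 (Finset.sum_le_sum_of_subset_of_nonneg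
            (Finset.range_subset_range.2 (by omega)) fun _ _ _ => he0 _)
        have hP0 : (0 : ℝ) < (p * k : ℕ) := by exact_mod_cast Nat.mul_pos hp0 hk0
        have i3 : R v = ((p * k : ℕ) : ℝ) ^ (2 * ε) * R w := by
          simp only [hR]
          rw [← Real.mul_rpow (by positivity) (by positivity)]
          congr 1
          rw [hp, hk]; push_cast; ring
        have i4 : D p ≤ C * ((p * k : ℕ) : ℝ) ^ ε := by
          refine (hD2 p).trans ?_
          gcongr
          exact Nat.le_mul_of_pos_right _ hk0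
        have i5 : (k : ℝ) ^ 2 ≤ ((p * k : ℕ) : ℝ) ^ ε := by
          have b1 : ((k : ℝ) ^ m) ^ ε ≤ ((p * k : ℕ) : ℝ) ^ ε :=
            Real.rpow_le_rpow (by positivity) (by exact_mod_cast d) hε.le
          refine le_trans ?_ b1
          rw [← Real.rpow_natCast, ← Real.rpow_natCast, ← Real.rpow_mul (by positivity)]
          exact Real.rpow_le_rpow_of_exponent_le (by exact_mod_cast hk0) (by simpa using hm)
        have i6 : ((p * k : ℕ) : ℝ) ^ (2 * ε) = ((p * k : ℕ) : ℝ) ^ ε * ((p * k : ℕ) : ℝ) ^ ε := by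
          rw [← Real.rpow_add hP0]; congr 1; ring
        have hRw : 0 ≤ R w := zero_le_one.trans (hR1 w a)
        have hk2 : (0 : ℝ) < (k : ℝ) ^ 2 := by positivity
        have i7 : 1 ≤ ((p * k : ℕ) : ℝ) ^ ε * ((k : ℝ) ^ 2)⁻¹ := by
          rw [← div_eq_mul_inv, le_div_iff₀ hk2, one_mul]; exact i5
        rw [i3, i6]
        have hX0 : 0 ≤ ((p * k : ℕ) : ℝ) ^ ε := by positivity
        have hY0 := (Real.exp_pos (∑ i ∈ range u, e i)).le
        generalize ((p * k : ℕ) : ℝ) ^ ε = X at *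
        generalize Real.exp (∑ i ∈ range u, e i) = Y at *
        have hC0 : 0 ≤ C := by linarith
        have j1 : 0 ≤ Γ' * R w := mul_nonneg hΓ'0 hRw
        have j2 : 0 ≤ (C * X) * (Γ' * R w * Y) := mul_nonneg (mul_nonneg hC0 hX0) (mul_nonneg j1 hY0)
        calc D p * G w ≤ (C * X) * (Γ' * R w * Y) :=
              mul_le_mul i4 (i1.trans (mul_le_mul_of_nonneg_left i2 j1))
                (hG0 w a) (mul_nonneg hC0 hX0)
          _ = (C * X) * (Γ' * R w * Y) * 1 := by ring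
          _ ≤ (C * X) * (Γ' * R w * Y) * (X * ((k : ℝ) ^ 2)⁻¹) := mul_le_mul_of_nonneg_left i7 j2
          _ = _ := by ring
    refine (Finset.sum_le_sum hterm).trans ?_
    rw [Finset.sum_add_distrib, Finset.sum_const, nsmul_eq_mul, ← Finset.mul_sum]
    have c1 : (Sv.card : ℝ) ≤ S.card := by exact_mod_cast Finset.card_filter_le _ _
    have c2 : ∑ u ∈ Sv, e u * Real.exp (∑ i ∈ range u, e i) ≤
        ∑ u ∈ range (v + 1), e u * Real.exp (∑ i ∈ range u, e i) := by
      refine Finset.sum_le_sum_of_subset_of_nonneg (fun u hu => ?_) fun u _ _ => ?_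
      · have := (hSvle u hu).2.2
        exact Finset.mem_range.2 (by omega)
      · have := he0 u
        positivity
    have c3 := tele e (v + 1)
    have hRv : 0 ≤ R v := zero_le_one.trans (hR1 v hv)
    calc (Sv.card : ℝ) * (C * Γ * (K : ℝ) ^ ε * R v) +
          Γ' * R v * ∑ u ∈ Sv, e u * Real.exp (∑ i ∈ range u, e i)
        ≤ (S.card : ℝ) * (C * Γ * (K : ℝ) ^ ε * R v) +
          Γ' * R v * ∑ u ∈ range (v + 1), e u * Real.exp (∑ i ∈ range u, e i) := by gcongr
      _ = Γ' * R v * (1 + ∑ u ∈ range (v + 1), e u * Real.exp (∑ i ∈ range u, e i)) := by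
          rw [hΓ']; ring
      _ ≤ _ := by gcongr
  intro v hv
  refine (main v hv).trans ?_
  have a1 : R v ≤ (K : ℝ) ^ (2 * ε) := by
    refine Real.rpow_le_rpow (by positivity) ?_ (by positivity)
    rw [div_le_iff₀ hNr, mul_comm (K : ℝ)]
    gcongr
    exact_mod_cast (hS v hv).2.2
  have a2 := Real.exp_le_exp.2 (hetot (v + 1))
  have hK : 0 < K := by
    by_contra h0
    have h1 := (hS v hv).2.1
    have : K = 0 := by omega
    rw [this] at h1
    omega
  have a3 : (K : ℝ) ^ (3 * ε) = (K : ℝ) ^ ε * (K : ℝ) ^ (2 * ε) := by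
    rw [← Real.rpow_add (by positivity)]; congr 1; ring
  calc Γ' * R v * Real.exp (∑ u ∈ range (v + 1), e u)
      ≤ Γ' * (K : ℝ) ^ (2 * ε) * Real.exp C := by gcongr
    _ = _ := by rw [a3, hΓ']; ring

end Pool.Agent.P.MP_d9fb17_nt
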