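import Pool.Agent.P.MP_d9fb17_nt.K0

/-! The checkers for the supersolution and the source sums. -/

namespace Pool.Agent.P.MP_d9fb17_nt

noncomputable section

def mn (a b : Nat) : Nat := Bool.rec b a (Nat.ble a b)
def mx (a b : Nat) : Nat := Bool.rec a b (Nat.ble a b)
def allTo (f : Nat → Bool) (n : Nat) : Bool :=
  Nat.rec true (fun i r => Bool.rec false r (f i)) n
def sumTo (f : Nat → Nat) (n : Nat) : Nat := Nat.rec 0 (fun i r => Nat.add r (f i)) n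
def maxTo (f : Nat → Nat) (n : Nat) : Nat := Nat.rec 0 (fun i r => mx r (f i)) n
def ci (N : Nat) : Nat := Nat.log2 (N * N)

def omA (b fuel : Nat) : Nat → Nat → Nat → Nat :=
  Nat.rec (motive := fun _ => Nat → Nat → Nat → Nat) (fun _ _ _ => b) (fun _ ih n a c =>
    Bool.rec (Bool.rec (ih (Nat.succ n) a c) (ih (Nat.succ n) (Nat.mul a n) (Nat.succ c))
      (Nat.beq (Nat.gcd n a) 1)) (Nat.pred c) (Nat.ble b (Nat.mul a a))) fuel
def omF (i : Nat) : Nat := omA (2 ^ (i + 1)) 8000 2 1 0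

def om (i : Nat) : Nat := Nat.land (Nat.shiftRight omT (Nat.mul 8 i)) 255
def mT (j : Nat) : Nat := Nat.land (Nat.shiftRight mTT (Nat.mul 32 j)) 4294967295
def zt (m : Nat) : Nat := Nat.land (Nat.shiftRight zTT (Nat.mul 32 m)) 4294967295
def kl (j : Nat) : Nat := Nat.mod (Nat.shiftRight klT (Nat.mul 256 j)) (Nat.pow 2 256)
def r4 (j : Nat) : Nat := Nat.mod (Nat.shiftRight r4T (Nat.mul 128 j)) (Nat.pow 2 128)
def jt (i : Nat) : Nat := Nat.land (Nat.shiftRight jT (Nat.mul 8 i)) 255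
def pst (i : Nat) : Nat := Nat.land (Nat.shiftRight psT (Nat.mul 64 i)) 18446744073709551615
def it (i : Nat) : Nat := Nat.land (Nat.shiftRight iT (Nat.mul 64 i)) 18446744073709551615
def jf (n : Nat) : Nat := Bool.rec (jt n) 46 (Nat.ble 280 n)
def ps (n : Nat) : Nat := Bool.rec (pst n) (Nat.pow 2 (Nat.add 10 (Nat.div n 14))) (Nat.ble 280 n)
def fwB (j : Nat) : Nat := mx 48 (zt (Nat.pred (om j)))
def fw (n j : Nat) : Nat :=
  Bool.rec (zt (Nat.sub (mT (Nat.pred (jt n))) 2)) (fwB j) (Nat.ble 280 n)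
def nu1 (m o f : Nat) : Nat :=
  Bool.rec (Nat.mul m f) (mn (Nat.mul m f) (zt (Nat.sub m o))) (Nat.ble m 46)
def nu (j n f : Nat) : Nat :=
  nu1 (mT j) (Bool.rec 1 2 (Nat.ble (Nat.mul 3 (Nat.succ j)) (Nat.add n 4))) f
def SS : Nat := 340282366920938463463374607431768211456
def te1 (j n : Nat) : Nat :=
  Bool.rec 0 (Nat.mul (nu j n (fw n j)) (ps n)) (Nat.ble (jf n) j)
def tE (i j : Nat) : Nat :=
  Nat.succ (Nat.div (Nat.mul (mx (te1 j (Nat.add i j)) (te1 j (Nat.succ (Nat.add i j)))) SS) (kl j))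
def zi1 (j n : Nat) : Nat := Bool.rec (ps n) 0 (Nat.ble (jf n) j)
def zI (i j : Nat) : Nat :=
  Nat.mul (mx (zi1 j (Nat.add i j)) (zi1 j (Nat.succ (Nat.add i j)))) (zt (Nat.sub (mT j) 2))
def tI (i j : Nat) : Nat := Nat.succ (Nat.div (Nat.mul (zI i j) SS) (kl j))
def t2 (i j : Nat) : Nat :=
  Bool.rec 0 (Nat.succ (Nat.div (Nat.mul (Nat.mul (nu j (Nat.add i j) (fwB j))
    (Nat.pow 2 (Nat.succ (Nat.div (Nat.succ j) 14)))) SS) (kl j))) (Nat.ble 46 j)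

def moA (d s fuel : Nat) : Nat → Nat → Nat :=
  Nat.rec (motive := fun _ => Nat → Nat → Nat) (fun _ _ => 0) (fun _ ih a c =>
    Nat.add (Nat.mul c (Nat.pow (Nat.add (Nat.sub d (Nat.mul 2 a)) (Nat.sub (Nat.mul 2 a) d)) s))
      (ih (Nat.succ a) (Nat.div (Nat.mul c (Nat.sub d a)) (Nat.succ a)))) fuel
def mo (d s : Nat) : Nat := moA d s (Nat.succ d) 0 1
def wl2 (c L den A B : Nat) : Nat :=
  Bool.rec (mn c (Nat.pred (Nat.div (Nat.mul den (Nat.sub A B)) (Nat.sub L (Nat.mul den B))))) c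
    (Nat.ble L (Nat.mul den B))
def wl (i d j s c : Nat) : Nat :=
  wl2 c (Nat.mul (mo d s) (Nat.pow i s)) (Nat.mul (Nat.pow 2 d) (Nat.pow d s))
    (Nat.pow (Nat.add i 2) s) (Nat.pow (Nat.add j 3) s)
def cnt0 (i d j : Nat) : Nat :=
  mn (Nat.sub (kl (Nat.succ j)) 2) (Bool.rec
    (Nat.mul (Nat.pow 2 d) (Nat.succ (Nat.pow 2 (Nat.div (Nat.add (Nat.sub (Nat.succ j) i) 3) 4))))
    (Nat.pred (Nat.pow 2 (Nat.pred d))) (Nat.ble (Nat.add j 5) i))
def cnt (i d j : Nat) : Nat :=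
  Bool.rec (Nat.rec (cnt0 i d j) (fun s c => wl i d j (Nat.mul 2 (Nat.succ s)) c) 8) (cnt0 i d j)
    (Nat.ble (Nat.mul 7 (Nat.mul i i)) (Nat.mul d (Nat.mul (Nat.add j 3) (Nat.add j 3))))
def ab1 (c v env : Nat) (k : Nat → Nat) : Nat :=
  Bool.rec (Nat.add (Nat.mul c (Nat.sub v env)) (k v)) (k env) (Nat.ble v env)
def abel (cn t : Nat → Nat) (k : Nat) : Nat → Nat :=
  Nat.rec (motive := fun _ => Nat → Nat) (fun _ => 0) (fun j ih env => ab1 (cn j) (t j) env ih) k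

def tabOK : Bool :=
  allTo (fun i => Nat.ble (omF i) (om i)) 448 &&
  allTo (fun j => Nat.ble (2 ^ (om j + 1) + 1) ((mT j + 1) * mT j)) 364 &&
  allTo (fun m => Nat.ble (4 ^ m + 1) ((zt m + 1) ^ 5)) 47 &&
  allTo (fun j => Nat.ble ((kl j - 1) ^ 2 + 1) (2 ^ j) && Nat.ble (2 ^ j) (kl j ^ 2)) 450 &&
  allTo (fun j => Nat.ble (r4 j ^ 4) (2 ^ j) && Nat.ble (2 ^ j + 1) ((r4 j + 1) ^ 4)) 450 &&
  allTo (fun j => Nat.ble (om j) 46) 364
def rowE (i : Nat) : Bool :=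
  Nat.ble (2 ^ om i * SS + abel (cnt i (om i)) (tE i) 364 0 + (i + 5) * 2 ^ (i / 14) * SS / 256 + 1)
    (pst i * SS) && Nat.ble (3 * jt i) (i + 4) && Nat.ble 1 (jt i) && Nat.ble (jt i) 46 &&
    Nat.ble (pst i) (2 ^ (12 + i / 14))
def rowI (i : Nat) : Bool := Nat.ble (abel (cnt i (om i)) (tI i) 46 0) (it i * SS)
def blk1 (a b : Nat) : Bool :=
  Nat.ble (4 * (abel (cnt a (omF b)) (t2 a) 364 0 + (b + 5) * SS / 262144 + 1)) (3 * SS)
def nx (a : Nat) : Nat := a + Bool.rec (a / 8) (a / 3) (Nat.ble 2100 a)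
def blk (fuel : Nat) : Nat → Bool :=
  Nat.rec (motive := fun _ => Nat → Bool) (fun _ => false) (fun _ ih a =>
    Bool.rec (blk1 a (nx a) && ih (nx a + 1)) true (Nat.ble 16384 a)) fuel

end

end Pool.Agent.P.MP_d9fb17_nt
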