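import Pool.Agent.P.MP_d9fb17_nt.K2
import Mathlib.Data.List.Chain

/-! The final sums. -/

namespace Pool.Agent.P.MP_d9fb17_nt

noncomputable section

def pm1 (f : Nat → Nat) (a : Nat) : Nat :=
  mx (f (ci (a * (a + 1)))) (f (ci ((a + 32767) * (a + 32767 + 1))))
def t12a (a : Nat) : Nat := (16296 * pm1 ps a + 201 * pm1 it a) * SS / (a * (a + 1)) + 1
def t12 : Nat := sumTo (fun k => t12a (262145 + 32768 * k)) 248
def t12b (a : Nat) : Bool :=
  Nat.ble (ci ((a + 32767) * (a + 32767 + 1))) (ci (a * (a + 1)) + 1)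
def t4a (p lo hi : Nat) : Nat :=
  p * SS * 65666 / (lo * (lo + 1)) + 1 + (p * SS * 1096322 * (hi - lo) / (1000000 * lo * hi) + 1)
def t4 : Nat := sumTo (fun k => t4a (ps (92 + k)) (mx (r4 (92 + k)) 8388609) (r4 (92 + k + 1) + 1)) 356
def ct (j : Nat) : Nat :=
  2 * sumTo (fun a => (kl (j + 1) - 2) / (a + 1) - (kl j - 2) / (a + 1)) (r4 (j + 1))
def lam (i : Nat) : Nat := Bool.rec 4 1977 (Nat.ble 92 i)
def wP (i j : Nat) : Nat := lam i * zI i j * SS / kl i + 1
def tP1 (j : Nat) : Nat := ct j * sumTo (fun b => maxTo (fun t => wP (72 + (8 + j) * b + t) j) (8 + j))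
  (376 / (8 + j) + 1) / kl j + 1
def tP : Nat := sumTo (fun j => tP1 (j + 2)) 44
def aw (d : Nat) : Nat := tv d - 64 + (64 - tv d)
def lsum (F : Nat → Nat → Nat) (l : List En) : Nat := (l.map fun e => e.m * F e.q e.r).sum
def finA : Bool :=
  allTo (fun k => t12b (262145 + 32768 * k)) 248 &&
  allTo (fun k => Nat.ble (ps (72 + k) + it (72 + k)) 262144) 36 &&
  allTo (fun k => Nat.ble ((ps (96 + k) + it (96 + k)) ^ 2) (4096 * mx (r4 (96 + k)) 16777216)) 352 &&
  Nat.ble (40 * (t12 + t4 + tP)) SS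
def finB : Bool :=
  Nat.beq (tv 1) 65 && Nat.beq (tv 2) 63 &&
  Nat.ble (lsum (fun _ _ => 1) posL + lsum (fun _ _ => 1) negL) 1976 &&
  Nat.ble (lsum (fun _ r => r) posL + lsum (fun _ r => r) negL) 65668 &&
  Nat.ble (lsum (fun q r => r * 1000000000000 / q + 1) posL +
    lsum (fun q r => r * 1000000000000 / q + 1) negL) 1429654000000 &&
  Nat.ble (36870000000 + lsum (fun q r => r * 1000000000000 / q + 1) negL)
    (1000000000000 + lsum (fun q r => r * 1000000000000 / q) posL) &&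
  hL.all (fun e => Nat.ble 4097 e.1 && Nat.ble (e.1 + 1) e.2 && Nat.ble e.2 262144 &&
    Nat.beq (e.2 * (e.2 + 1) % (e.1 * (e.1 + 1))) 0) &&
  Nat.beq (hL.map fun e => aw e.1).sum 336 && 
  decide (List.IsChain (· < ·) (hL.map fun e => e.1 * 524288 + e.2))

end

end Pool.Agent.P.MP_d9fb17_nt
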