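import Pool.Agent.P.MP_d9fb17_nt.Main

/-! Logarithmic asymptotic of the weighted partial sums of the Moebius function of the
triangular divisibility order. -/

namespace Pool.Agent.P.MP_d9fb17_nt.LogAsymptotic

open Finset Filter Topology

/-- The proportion of residues `x` modulo `d (d+1)` with `d (d+1) ∣ x (x+1)`. -/
noncomputable def dens (d : ℕ) : ℝ :=
  (((range (d * (d + 1))).filter fun x => d * (d + 1) ∣ x * (x + 1)).card : ℝ) /
    ((d * (d + 1) : ℕ) : ℝ)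

theorem result (μ : ℕ → ℤ) (h1 : μ 1 = 1)
    (hrec : ∀ n, 2 ≤ n →
      μ n = -∑ d ∈ (Ico 1 n).filter (fun d => d * (d + 1) ∣ n * (n + 1)), μ d) :
    Summable (fun d => (μ d : ℝ) * dens d) ∧
      (∃ B : ℝ, Tendsto (fun n : ℕ => ∑ i ∈ Icc 1 n, (μ i : ℝ) / i +
        (∑' d, (μ d : ℝ) * dens d) * Real.log n) atTop (𝓝 B)) ∧
      ((∃ L : ℝ, Tendsto (fun n : ℕ => ∑ i ∈ Icc 1 n, (μ i : ℝ) / i) atTop (𝓝 L)) ↔
        ∑' d, (μ d : ℝ) * dens d = 0) := by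
  obtain ⟨hs, B, hB⟩ : Summable (fun d => (μ d : ℝ) * dens d) ∧
      (∃ B : ℝ, Tendsto (fun n : ℕ => ∑ i ∈ Icc 1 n, (μ i : ℝ) / i +
        (∑' d, (μ d : ℝ) * dens d) * Real.log n) atTop (𝓝 B)) :=
    Pool.Agent.P.MP_d9fb17_nt.main (fun n => (μ n : ℝ)) (by simp [h1]) fun n hn => by
      rw [hrec n hn]
      push_cast
      rfl
  refine ⟨hs, ⟨B, hB⟩, ⟨?_, fun h => ⟨B, by simpa [h] using hB⟩⟩⟩
  rintro ⟨L, hL⟩
  by_contra hc
  have h2 := (hB.sub hL).const_mul (∑' d, (μ d : ℝ) * dens d)⁻¹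
  simp only [add_sub_cancel_left, ← mul_assoc, inv_mul_cancel₀ hc, one_mul] at h2
  exact not_tendsto_nhds_of_tendsto_atTop
    (Real.tendsto_log_atTop.comp tendsto_natCast_atTop_atTop) _ h2

end Pool.Agent.P.MP_d9fb17_nt.LogAsymptotic
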