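import Pool.Agent.P.MP_d9fb17_nt.Chains

/-! The pointwise bound `μ n = O(n^θ)`. -/

namespace Pool.Agent.P.MP_d9fb17_nt

open Finset

lemma uniq_label {N K : ℕ} (hN : K ^ 6 < N) {y x y' x' k : ℕ} (hy : 1 ≤ y)
    (h1 : Q y ∣ N) (h2 : Q y' ∣ N) (h3 : N ≤ K * Q y) (h4 : N ≤ K * Q y') (h5 : Q x ≤ N)
    (hk : 2 ≤ k) (hx : Q x = k * Q y) (hx' : Q x' = k * Q y') (hlt : y < y') : False := by
  have hQy := Q_pos hy
  have hQy' : 0 < Q y' := Q_pos (by omega)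
  obtain ⟨a, ha⟩ := h1
  obtain ⟨b, hb⟩ := h2
  have haK : a ≤ K := by
    have : Q y * a ≤ Q y * K := by rw [← ha, mul_comm]; exact h3
    exact Nat.le_of_mul_le_mul_left this hQy
  have hbK : b ≤ K := by
    have : Q y' * b ≤ Q y' * K := by rw [← hb, mul_comm]; exact h4
    exact Nat.le_of_mul_le_mul_left this hQy'
  have hkK : k ≤ K := by
    have : k * Q y ≤ K * Q y := by rw [← hx]; omega
    exact Nat.le_of_mul_le_mul_right this hQy
  have hN0 : 0 < N := by omega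
  have ha0 : 0 < a := Nat.pos_of_ne_zero fun h => by rw [h] at ha; omega
  have hb0 : 0 < b := Nat.pos_of_ne_zero fun h => by rw [h] at hb; omega
  set g := Nat.gcd (Q y) (Q y') with hg
  have hg0 : 0 < g := Nat.gcd_pos_of_pos_left _ hQy
  obtain ⟨α, hα⟩ := Nat.gcd_dvd_left (Q y) (Q y')
  obtain ⟨β, hβ⟩ := Nat.gcd_dvd_right (Q y) (Q y')
  rw [← hg] at hα hβ
  have hα0 : 0 < α := Nat.pos_of_ne_zero fun h => by rw [h] at hα; omega
  have hαβ : α < β := by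
    have := Q_strictMono hlt
    rw [hα, hβ] at this
    exact Nat.lt_of_mul_lt_mul_left this
  have hdv : N ∣ a * b * g := by
    rw [hg, ← Nat.gcd_mul_left]
    refine Nat.dvd_gcd ⟨b, ?_⟩ ⟨a, ?_⟩
    · rw [ha]; ring
    · rw [hb]; ring
  have hNle : N ≤ a * b * g := Nat.le_of_dvd (by positivity) hdv
  have hβa : β ≤ a := by
    have : (b * g) * β ≤ (b * g) * a := by
      calc (b * g) * β = Q y' * b := by rw [hβ]; ring
        _ = N := hb.symm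
        _ ≤ a * b * g := hNle
        _ = _ := by ring
    exact Nat.le_of_mul_le_mul_left this (by positivity)
  have hgap := gap (g := g) (k := k) (α := α) (β := β) (a := y) (b := y') (a' := x) (b' := x') hg0 hk
    hα0 hαβ (by rw [hα, mul_comm]) (by rw [hβ, mul_comm]) hx hx'
  have c1 : β ^ 2 * (k + 1) ^ 2 ≤ K ^ 2 * (2 * K) ^ 2 := by
    gcongr
    · omega
    · omega
  have c2 : a * b * g ≤ K * K * g := by gcongr
  have c3 : g ≤ K ^ 4 := by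
    have : K ^ 2 * (2 * K) ^ 2 = 4 * K ^ 4 := by ring
    omega
  have c4 : K * K * g ≤ K * K * K ^ 4 := by gcongr
  have : K * K * K ^ 4 = K ^ 6 := by ring
  omega

theorem mu_bound (μ : ℕ → ℝ)
    (hrec : ∀ n, 2 ≤ n → |μ n| ≤ ∑ d ∈ (Ico 1 n).filter (fun d => Q d ∣ Q n), |μ d|)
    {θ : ℝ} (hθ : 0 < θ) : ∃ A : ℝ, 0 ≤ A ∧ ∀ n, 1 ≤ n → |μ n| ≤ A * (Q n : ℝ) ^ θ := by
  obtain ⟨C, hC, hch⟩ := chain_bound (ε := θ / 6) (by positivity)
  obtain ⟨C₀, hC₀, hdiv⟩ := div_bound (ε := θ / 56) (by positivity)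
  obtain ⟨n₀, hn₀2, hn₀⟩ : ∃ n₀ : ℕ, 2 ≤ n₀ ∧ ∀ n : ℕ, n₀ ≤ n →
      C * C₀ ^ 2 * 2 ^ (θ / 2) ≤ (Q n : ℝ) ^ (θ / 28) := by
    have h0 : Filter.Tendsto Q Filter.atTop Filter.atTop := Q_strictMono.tendsto_atTop
    have := ((tendsto_rpow_atTop (y := θ / 28) (by positivity)).comp
      tendsto_natCast_atTop_atTop).comp h0
    obtain ⟨N, hN⟩ := Filter.eventually_atTop.1 (this.eventually_ge_atTop (C * C₀ ^ 2 * 2 ^ (θ / 2)))
    exact ⟨max N 2, le_max_right _ _, fun P hP => hN P ((le_max_left _ _).trans hP)⟩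
  set A : ℝ := ∑ n ∈ range n₀, |μ n| with hA
  have hA0 : 0 ≤ A := Finset.sum_nonneg fun _ _ => abs_nonneg _
  refine ⟨A, hA0, fun n => ?_⟩
  induction n using Nat.strong_induction_on with
  | _ n ih =>
  intro hn
  have hQn : 0 < Q n := Q_pos hn
  have hQr : (1 : ℝ) ≤ Q n := by exact_mod_cast hQn
  by_cases hsmall : n < n₀
  · have h1 : |μ n| ≤ A :=
      Finset.single_le_sum (f := fun n => |μ n|) (fun _ _ => abs_nonneg _) (mem_range.2 hsmall)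
    have h2 : (1 : ℝ) ≤ (Q n : ℝ) ^ θ := Real.one_le_rpow hQr hθ.le
    nlinarith
  push Not at hsmall
  have hn2 : 2 ≤ n := by omega
  have hQ6 : 6 ≤ Q n := by
    have : Q 2 ≤ Q n := Q_strictMono.monotone hn2
    exact this
  set N := Q n with hNdef
  set Z : ℝ := (N : ℝ) ^ ((1 : ℝ) / 7) with hZ
  have hZ1 : 1 ≤ Z := Real.one_le_rpow hQr (by norm_num)
  have hZ7 : Z ^ 7 = N := by
    rw [hZ, ← Real.rpow_natCast, ← Real.rpow_mul (by positivity)]; norm_num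
  set K := ⌊Z⌋₊ with hK
  have hK1 : 1 ≤ K := Nat.le_floor (by simpa using hZ1)
  have hKZ : (K : ℝ) ≤ Z := Nat.floor_le (by linarith)
  have hZK : Z ≤ 2 * K := by
    have h1 := Nat.lt_floor_add_one Z
    have h2 : (1 : ℝ) ≤ K := by exact_mod_cast hK1
    rw [← hK] at h1
    linarith
  have hK7 : K ^ 7 ≤ N := by
    have : (K : ℝ) ^ 7 ≤ N := by rw [← hZ7]; gcongr
    exact_mod_cast this
  have hK6 : K ^ 6 < N := by
    rcases Nat.eq_or_lt_of_le hK1 with h | h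
    · rw [← h]; omega
    · have : K ^ 6 < K ^ 7 := Nat.pow_lt_pow_right h (by norm_num)
      omega
  have hKN : 2 * K < N := by
    rcases Nat.eq_or_lt_of_le hK1 with h | h
    · rw [← h]; omega
    · have h1 : K ^ 2 ≤ K ^ 6 := Nat.pow_le_pow_right hK1 (by norm_num)
      have h2 : 2 * K ≤ K ^ 2 := by nlinarith
      omega
  have hKr : (0 : ℝ) < K := by exact_mod_cast hK1
  set S := (Icc 1 n).filter (fun x => Q x ∣ N ∧ N ≤ K * Q x) with hS
  have hτ : ∀ s : Finset ℕ, (∀ d ∈ s, Q d ∣ N) → (s.card : ℝ) ≤ C₀ * (N : ℝ) ^ (θ / 56) := by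
    intro s hs
    have h1 : (s.card : ℝ) ≤ N.divisors.card := by exact_mod_cast card_Q_dvd_le N hQn.ne' s hs
    exact h1.trans (hdiv N hQn.ne')
  set Γ : ℝ := C₀ * (N : ℝ) ^ (θ / 56) * (A * ((N : ℝ) / K) ^ θ) with hΓ
  have hmemS : ∀ x ∈ S, 1 ≤ x ∧ x ≤ n ∧ Q x ∣ N ∧ N ≤ K * Q x := by
    intro x hx
    simp only [hS, mem_filter, mem_Icc] at hx
    tauto
  have hb := hch S N K (fun x => |μ x|) Γ (by positivity) hQn ?_ (fun _ _ => abs_nonneg _) ?_ ?_ n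
    (by simp only [hS, mem_filter, mem_Icc]
        exact ⟨⟨hn, le_rfl⟩, dvd_rfl, Nat.le_mul_of_pos_left _ hK1⟩)
  rotate_left
  · intro x hx
    obtain ⟨a, b, c, d⟩ := hmemS x hx
    exact ⟨a, d, Nat.le_of_dvd hQn c⟩
  · intro x hx
    obtain ⟨a, b, c, d⟩ := hmemS x hx
    have hx2 : 2 ≤ x := by
      by_contra h
      have : x = 1 := by omega
      subst this
      have : Q 1 = 2 := rfl
      rw [this] at d
      omega
    refine (hrec x hx2).trans ?_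
    rw [← Finset.sum_filter_add_sum_filter_not ((Ico 1 x).filter fun d => Q d ∣ Q x)
      (fun d => K * Q d < N)]
    refine add_le_add ?_ (le_of_eq ?_)
    · have : ∀ d ∈ ((Ico 1 x).filter fun d => Q d ∣ Q x).filter (fun d => K * Q d < N),
          |μ d| ≤ A * ((N : ℝ) / K) ^ θ := by
        intro d hd
        simp only [mem_filter, mem_Ico] at hd
        refine (ih d (by omega) hd.1.1.1).trans ?_
        gcongr
        rw [le_div_iff₀ hKr, mul_comm]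
        exact_mod_cast hd.2.le
      refine (Finset.sum_le_card_nsmul _ _ _ this).trans ?_
      rw [nsmul_eq_mul, hΓ]
      gcongr
      refine hτ _ fun d hd => ?_
      simp only [mem_filter, mem_Ico] at hd
      exact hd.1.2.trans c
    · refine Finset.sum_congr ?_ fun _ _ => rfl
      ext d
      simp only [hS, mem_filter, mem_Ico, mem_Icc, not_lt]
      constructor
      · rintro ⟨⟨⟨p1, p2⟩, p3⟩, p4⟩
        exact ⟨⟨⟨p1, by omega⟩, p3.trans c, p4⟩, p2, p3⟩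
      · rintro ⟨⟨⟨p1, -⟩, -, p4⟩, p2, p3⟩
        exact ⟨⟨⟨p1, p2⟩, p3⟩, p4⟩
  · intro y hy x hx y' hy' x' hx' k hk e1 e2
    obtain ⟨a, b, c, d⟩ := hmemS y hy
    obtain ⟨a', b', c', d'⟩ := hmemS y' hy'
    rcases lt_trichotomy y y' with h | h | h
    · exact (uniq_label hK6 a c c' d d' (Nat.le_of_dvd hQn (hmemS x hx).2.2.1) hk e1 e2 h).elim
    · exact h
    · exact (uniq_label hK6 a' c' c d' d (Nat.le_of_dvd hQn (hmemS x' hx').2.2.1) hk e2 e1 h).elim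
  refine hb.trans ?_
  have hSc := hτ S fun d hd => (hmemS d hd).2.2.1
  have hN0 : (0 : ℝ) < N := by linarith
  have e1 : ((N : ℝ) / K) ^ θ = (N : ℝ) ^ θ / ((K : ℝ) ^ (θ / 2) * (K : ℝ) ^ (θ / 2)) := by
    rw [Real.div_rpow hN0.le hKr.le, ← Real.rpow_add hKr]; congr 2; ring
  have e2 : 3 * (θ / 6) = θ / 2 := by ring
  have e3 : (N : ℝ) ^ (θ / 56) * (N : ℝ) ^ (θ / 56) = (N : ℝ) ^ (θ / 28) := by
    rw [← Real.rpow_add hN0]; congr 1; ring
  have e4 : (N : ℝ) ^ (θ / 28) * (N : ℝ) ^ (θ / 28) ≤ 2 ^ (θ / 2) * (K : ℝ) ^ (θ / 2) := by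
    rw [← Real.mul_rpow (by norm_num) hKr.le, ← Real.rpow_add hN0]
    have : (N : ℝ) ^ (θ / 28 + θ / 28) = Z ^ (θ / 2) := by
      rw [hZ, ← Real.rpow_mul hN0.le]; congr 1; ring
    rw [this]
    exact Real.rpow_le_rpow (by linarith) hZK (by positivity)
  have e5 := hn₀ n hsmall
  rw [← hNdef] at e5
  have hKp : (0 : ℝ) < (K : ℝ) ^ (θ / 2) := by positivity
  have h2p : (0 : ℝ) < (2 : ℝ) ^ (θ / 2) := by positivity
  have e6 : C * C₀ ^ 2 * (N : ℝ) ^ (θ / 28) ≤ (K : ℝ) ^ (θ / 2) := by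
    have : 2 ^ (θ / 2) * (C * C₀ ^ 2 * (N : ℝ) ^ (θ / 28)) ≤ 2 ^ (θ / 2) * (K : ℝ) ^ (θ / 2) := by
      calc 2 ^ (θ / 2) * (C * C₀ ^ 2 * (N : ℝ) ^ (θ / 28))
          = (C * C₀ ^ 2 * 2 ^ (θ / 2)) * (N : ℝ) ^ (θ / 28) := by ring
        _ ≤ (N : ℝ) ^ (θ / 28) * (N : ℝ) ^ (θ / 28) := by gcongr
        _ ≤ _ := e4
    exact le_of_mul_le_mul_left this h2p
  rw [e2]
  calc C * Γ * S.card * (K : ℝ) ^ (θ / 2)
      ≤ C * Γ * (C₀ * (N : ℝ) ^ (θ / 56)) * (K : ℝ) ^ (θ / 2) := by gcongr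
    _ = (C * C₀ ^ 2 * ((N : ℝ) ^ (θ / 56) * (N : ℝ) ^ (θ / 56))) / (K : ℝ) ^ (θ / 2) *
          (A * (N : ℝ) ^ θ) := by rw [hΓ, e1]; field_simp
    _ ≤ 1 * (A * (N : ℝ) ^ θ) := by
        rw [e3]
        gcongr
        rwa [div_le_one hKp]
    _ = _ := one_mul _

end Pool.Agent.P.MP_d9fb17_nt
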