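import Pool.Agent.P.MP_d9fb17_nt.Near
import Pool.Agent.P.MP_d9fb17_nt.Pointwise

/-! The logarithmic asymptotic. -/

namespace Pool.Agent.P.MP_d9fb17_nt

open Finset Filter Topology

lemma abel_eq (b e : ℕ → ℝ) (he : ∀ n, e (n + 1) = e n + b n) (s : ℕ) (N : ℕ)
    (hN : s ≤ N) : ∑ n ∈ Ico s N, b n / n =
      e N / N - e s / s + ∑ n ∈ Ico s N, e (n + 1) * ((n : ℝ)⁻¹ - ((n : ℝ) + 1)⁻¹) := by
  induction N, hN using Nat.le_induction with
  | base => simp
  | succ N hN ih =>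
    rw [Finset.sum_Ico_succ_top hN, Finset.sum_Ico_succ_top hN, ih, he N]
    push_cast
    ring

lemma tele_inv (s : ℕ) (N : ℕ) (hN : s ≤ N) :
    ∑ n ∈ Ico s N, ((n : ℝ)⁻¹ - ((n : ℝ) + 1)⁻¹) = (s : ℝ)⁻¹ - (N : ℝ)⁻¹ := by
  induction N, hN using Nat.le_induction with
  | base => simp
  | succ N hN ih =>
    rw [Finset.sum_Ico_succ_top hN, ih]
    push_cast
    ring

lemma inv_sub_nonneg (n : ℕ) (hn : 1 ≤ n) : 0 ≤ (n : ℝ)⁻¹ - ((n : ℝ) + 1)⁻¹ := by
  have : (0 : ℝ) < n := by exact_mod_cast hn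
  exact sub_nonneg.2 (inv_anti₀ this (by linarith))

lemma abel_bound (b e : ℕ → ℝ) (he : ∀ n, e (n + 1) = e n + b n) (r : ℝ) (hr : ∀ n, |e n| ≤ r)
    (s : ℕ) (hs : 1 ≤ s) (N : ℕ) (hN : s ≤ N) : |∑ n ∈ Ico s N, b n / n| ≤ 2 * (r / s) := by
  rw [abel_eq b e he s N hN]
  have hs0 : (0 : ℝ) < s := by exact_mod_cast hs
  have hN0 : (0 : ℝ) < N := by exact_mod_cast (by omega : 0 < N)
  have h1 : |e N / N| ≤ r * (N : ℝ)⁻¹ := by
    rw [div_eq_mul_inv, abs_mul, abs_of_pos (inv_pos.2 hN0)]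
    gcongr; exact hr N
  have h2 : |e s / s| ≤ r * (s : ℝ)⁻¹ := by
    rw [div_eq_mul_inv, abs_mul, abs_of_pos (inv_pos.2 hs0)]
    gcongr; exact hr s
  have h3 : |∑ n ∈ Ico s N, e (n + 1) * ((n : ℝ)⁻¹ - ((n : ℝ) + 1)⁻¹)| ≤
      r * ((s : ℝ)⁻¹ - (N : ℝ)⁻¹) := by
    rw [← tele_inv s N hN, Finset.mul_sum]
    refine (Finset.abs_sum_le_sum_abs _ _).trans (Finset.sum_le_sum fun n hn => ?_)
    have h0 := inv_sub_nonneg n (hs.trans (mem_Ico.1 hn).1)
    rw [abs_mul, abs_of_nonneg h0]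
    gcongr; exact hr _
  have h4 := abs_le.1 h1
  have h5 := abs_le.1 h2
  have h6 := abs_le.1 h3
  rw [div_eq_mul_inv r]
  refine abs_le.2 ⟨?_, ?_⟩ <;> linarith [h4.1, h4.2, h5.1, h5.2, h6.1, h6.2]

lemma abel_conv (b e : ℕ → ℝ) (he : ∀ n, e (n + 1) = e n + b n) (r : ℝ) (hr : ∀ n, |e n| ≤ r)
    (s : ℕ) (hs : 1 ≤ s) :
    ∃ l, Tendsto (fun N => ∑ n ∈ Ico s N, b n / n) atTop (𝓝 l) := by
  refine cauchySeq_tendsto_of_complete ?_
  refine cauchySeq_of_le_tendsto_0' (fun N : ℕ => if s ≤ N then 2 * (r / N) else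
    ∑ n ∈ range s, 2 * (r / 1) + 2 * r + 2 * r) ?_ ?_
  · intro n m hnm
    have hr0 : 0 ≤ r := (abs_nonneg _).trans (hr 0)
    split_ifs with h
    · rw [Real.dist_eq, abs_sub_comm, ← Finset.sum_Ico_consecutive _ h hnm, add_sub_cancel_left]
      exact abel_bound b e he r hr n (hs.trans h) m hnm
    · rw [Real.dist_eq, Finset.Ico_eq_empty (by omega), Finset.sum_empty, zero_sub, abs_neg]
      have h0 : 0 ≤ ∑ n ∈ range s, 2 * (r / 1) := Finset.sum_nonneg fun _ _ => by positivity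
      rcases le_or_gt s m with h' | h'
      · have := abel_bound b e he r hr s hs m h'
        have h1 : r / s ≤ r := div_le_self hr0 (by exact_mod_cast hs)
        linarith
      · rw [Finset.Ico_eq_empty (by omega), Finset.sum_empty, abs_zero]
        positivity
  · have h1 : Tendsto (fun N : ℕ => 2 * (r / N)) atTop (𝓝 (2 * 0)) :=
      (tendsto_const_div_atTop_nhds_zero_nat r).const_mul 2
    rw [mul_zero] at h1
    refine h1.congr' ?_
    filter_upwards [eventually_ge_atTop s] with N hN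
    rw [if_pos hN]

/-- The number of roots of `x (x+1)` modulo `d (d+1)`. -/
def rt (d : ℕ) : ℕ := ((range (Q d)).filter fun x => Q d ∣ Q x).card

/-- The density of the multiples of `d`. -/
noncomputable def rho (d : ℕ) : ℝ := (rt d : ℝ) / Q d

lemma rho_nonneg (d : ℕ) : 0 ≤ rho d := by unfold rho; positivity

/-- The indicator of the multiples of `d`. -/
noncomputable def ind (d n : ℕ) : ℝ := if Q d ∣ Q n then 1 else 0

/-- The discrepancy. -/
noncomputable def disc (d n : ℕ) : ℝ := ∑ i ∈ range n, (ind d i - rho d)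

lemma ind_add (d n : ℕ) : ind d (Q d + n) = ind d n := by
  unfold ind
  have : Q (Q d + n) = Q d * (Q d + 2 * n + 1) + Q n := by
    generalize Q d = m
    unfold Q; ring
  rw [this]
  simp only [Nat.dvd_add_right (Dvd.intro _ rfl)]

lemma sum_ind (d : ℕ) : ∑ i ∈ range (Q d), ind d i = rt d := by
  unfold ind rt
  rw [Finset.sum_boole]

lemma disc_bound (d : ℕ) (hd : 1 ≤ d) (n : ℕ) : |disc d n| ≤ rt d := by
  have hm := Q_pos hd
  have hm0 : (0 : ℝ) < Q d := by exact_mod_cast hm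
  have hρ : (Q d : ℝ) * rho d = rt d := by unfold rho; field_simp
  induction n using Nat.strong_induction_on with
  | _ n ih =>
    rcases lt_or_ge n (Q d) with h | h
    · unfold disc
      rw [Finset.sum_sub_distrib, Finset.sum_const, card_range, nsmul_eq_mul]
      have h1 : 0 ≤ ∑ i ∈ range n, ind d i :=
        Finset.sum_nonneg fun i _ => by unfold ind; positivity
      have h2 : ∑ i ∈ range n, ind d i ≤ rt d := by
        rw [← sum_ind]
        exact Finset.sum_le_sum_of_subset_of_nonneg (Finset.range_subset_range.2 h.le)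
          fun i _ _ => by unfold ind; positivity
      have h3 : 0 ≤ (n : ℝ) * rho d := mul_nonneg (by positivity) (rho_nonneg d)
      have h4 : (n : ℝ) * rho d ≤ Q d * rho d :=
        mul_le_mul_of_nonneg_right (by exact_mod_cast h.le) (rho_nonneg d)
      exact abs_le.2 ⟨by linarith, by linarith⟩
    · obtain ⟨k, rfl⟩ := Nat.exists_eq_add_of_le h
      have : disc d (Q d + k) = disc d k := by
        unfold disc
        rw [Finset.sum_range_add]
        simp only [ind_add]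
        rw [Finset.sum_sub_distrib, sum_ind, Finset.sum_const, card_range, nsmul_eq_mul, hρ]
        ring
      rw [this]
      exact ih k (by omega)

lemma disc_succ (d n : ℕ) : disc d (n + 1) = disc d n + (ind d n - rho d) :=
  Finset.sum_range_succ _ _

/-- The sum of `1/n` over the proper multiples `n ≤ x` of `d`. -/
noncomputable def LL (d x : ℕ) : ℝ := ∑ n ∈ (Ioc d x).filter (fun n => Q d ∣ Q n), (n : ℝ)⁻¹

lemma lt_Q {d : ℕ} (hd : 1 ≤ d) : d < Q d := by unfold Q; nlinarith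

lemma harm_eq (x : ℕ) : (harmonic x : ℝ) = ∑ n ∈ Ico 1 (x + 1), (n : ℝ)⁻¹ := by
  rw [harmonic_eq_sum_Icc]
  push_cast
  rfl

lemma LL_eq (d : ℕ) (hd : 1 ≤ d) (x : ℕ) (hx : Q d ≤ x + 1) :
    LL d x = near d + ∑ n ∈ Ico (Q d) (x + 1), (ind d n - rho d) / n +
      rho d * (harmonic x - ∑ n ∈ Ico 1 (Q d), (n : ℝ)⁻¹) := by
  have h1 : (harmonic x : ℝ) - ∑ n ∈ Ico 1 (Q d), (n : ℝ)⁻¹ =
      ∑ n ∈ Ico (Q d) (x + 1), (n : ℝ)⁻¹ := by
    rw [harm_eq, ← Finset.sum_Ico_consecutive _ (Q_pos hd) hx]; ring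
  rw [h1, Finset.mul_sum, add_assoc, ← Finset.sum_add_distrib]
  unfold LL near
  have e1 : Ioc d x = Ico (d + 1) (x + 1) := by ext n; simp only [mem_Ioc, mem_Ico]; omega
  have e2 : Ioo d (Q d) = Ico (d + 1) (Q d) := by ext n; simp only [mem_Ioo, mem_Ico]; omega
  rw [e1, e2, Finset.sum_filter, Finset.sum_filter,
    ← Finset.sum_Ico_consecutive _ (Nat.succ_le_of_lt (lt_Q hd)) hx]
  congr 1
  refine Finset.sum_congr rfl fun n _ => ?_
  unfold ind
  split_ifs <;> ring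

lemma LL_zero (x : ℕ) : LL 0 x = 0 := by
  unfold LL
  refine Finset.sum_eq_zero fun n hn => ?_
  simp only [mem_filter, mem_Ioc] at hn
  have := Q_pos hn.1.1
  have h2 : Q 0 = 0 := rfl
  rw [h2, zero_dvd_iff] at hn
  omega

lemma rho_zero : rho 0 = 0 := by simp [rho, Q]

lemma T_conv (d : ℕ) : ∃ l, Tendsto (fun x : ℕ => LL d x - rho d * Real.log x) atTop (𝓝 l) := by
  rcases Nat.eq_zero_or_pos d with rfl | hd
  · exact ⟨0, by simp [LL_zero, rho_zero]⟩
  obtain ⟨l, hl⟩ := abel_conv (fun n => ind d n - rho d) (disc d) (disc_succ d) _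
    (disc_bound d hd) (Q d) (Q_pos hd)
  have h1 := hl.comp (tendsto_add_atTop_nat 1)
  have h2 := Real.tendsto_harmonic_sub_log
  refine ⟨_, ((h1.const_add (near d)).add
    ((h2.sub_const (∑ n ∈ Ico 1 (Q d), (n : ℝ)⁻¹)).const_mul (rho d))).congr' ?_⟩
  filter_upwards [eventually_ge_atTop (Q d)] with x hx
  rw [LL_eq d hd x (by omega)]
  simp only [Function.comp]
  ring

lemma T_bound (d x : ℕ) (hx : 1 ≤ x) :
    |LL d x - rho d * Real.log x| ≤ near d + rho d * (4 + Real.log (Q d)) := by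
  rcases Nat.eq_zero_or_pos d with rfl | hd
  · simp [LL_zero, rho_zero, near_nonneg]
  have hρ := rho_nonneg d
  have hn := near_nonneg d
  have hx1 : (1 : ℝ) ≤ x := by exact_mod_cast hx
  have hlx : 0 ≤ Real.log x := Real.log_nonneg hx1
  have hm1 : (1 : ℝ) ≤ Q d := by exact_mod_cast Q_pos hd
  have hlm : 0 ≤ Real.log (Q d) := Real.log_nonneg hm1
  rcases le_or_gt (Q d) (x + 1) with h | h
  · rw [LL_eq d hd x h]
    have h1 := abel_bound (fun n => ind d n - rho d) (disc d) (disc_succ d) _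
      (disc_bound d hd) (Q d) (Q_pos hd) (x + 1) h
    change _ ≤ 2 * rho d at h1
    have h2 := abs_le.1 h1
    have h3 : (harmonic x : ℝ) ≤ 1 + Real.log x := harmonic_le_one_add_log x
    have h4 : Real.log x ≤ harmonic x :=
      (Real.log_le_log (by linarith) (by push_cast; linarith)).trans (log_add_one_le_harmonic x)
    have h5 : 0 ≤ ∑ n ∈ Ico 1 (Q d), (n : ℝ)⁻¹ := Finset.sum_nonneg fun _ _ => by positivity
    have h6 : ∑ n ∈ Ico 1 (Q d), (n : ℝ)⁻¹ ≤ 1 + Real.log (Q d) := by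
      refine le_trans ?_ (harmonic_le_one_add_log (Q d))
      rw [harm_eq]
      exact Finset.sum_le_sum_of_subset_of_nonneg (Finset.Ico_subset_Ico le_rfl (by omega))
        fun _ _ _ => by positivity
    set H := ∑ n ∈ Ico 1 (Q d), (n : ℝ)⁻¹
    have h7 : rho d * (harmonic x - Real.log x) ≤ rho d * 1 := by gcongr; linarith
    have h8 : 0 ≤ rho d * (harmonic x - Real.log x) := mul_nonneg hρ (by linarith)
    have h9 : rho d * H ≤ rho d * (1 + Real.log (Q d)) := by gcongr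
    have h10 : 0 ≤ rho d * H := mul_nonneg hρ h5
    have h11 : 0 ≤ rho d * Real.log (Q d) := mul_nonneg hρ hlm
    refine abs_le.2 ⟨?_, ?_⟩ <;> nlinarith [h2.1, h2.2]
  · have h1 : 0 ≤ LL d x := Finset.sum_nonneg fun _ _ => by positivity
    have h2 : LL d x ≤ near d := by
      refine Finset.sum_le_sum_of_subset_of_nonneg (fun n hn => ?_) fun _ _ _ => by positivity
      simp only [mem_filter, mem_Ioc, mem_Ioo] at hn ⊢
      exact ⟨⟨hn.1.1, by omega⟩, hn.2⟩
    have h3 : Real.log x ≤ Real.log (Q d) :=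
      Real.log_le_log (by linarith) (by exact_mod_cast (by omega : x ≤ Q d))
    have h4 : rho d * Real.log x ≤ rho d * Real.log (Q d) := by gcongr
    have h5 : 0 ≤ rho d * Real.log x := mul_nonneg hρ hlx
    refine abs_le.2 ⟨?_, ?_⟩ <;> nlinarith

lemma summable_rho :
    Summable fun d => (Q d : ℝ) ^ ((1 : ℝ) / 100) * (rho d * (4 + Real.log (Q d))) := by
  obtain ⟨C₀, hC₀, hdiv⟩ := div_bound (ε := 1 / 100) (by positivity)
  have hs : Summable fun d : ℕ => (104 * C₀) * (d : ℝ) ^ (-(97 : ℝ) / 50) :=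
    (Real.summable_nat_rpow.2 (by norm_num)).mul_left _
  refine Summable.of_nonneg_of_le (fun d => ?_) (fun d => ?_) hs
  · exact mul_nonneg (by positivity) (mul_nonneg (rho_nonneg d)
      (add_nonneg (by norm_num) (Real.log_natCast_nonneg _)))
  rcases Nat.eq_zero_or_pos d with rfl | hd
  · simp only [rho_zero, zero_mul, mul_zero]; positivity
  have hd0 : (0 : ℝ) < d := by exact_mod_cast hd
  have hm1 : (1 : ℝ) ≤ Q d := by exact_mod_cast Q_pos hd
  have hm0 : (0 : ℝ) < Q d := by linarith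
  set t := (Q d : ℝ) ^ ((1 : ℝ) / 100) with ht
  have ht1 : 1 ≤ t := Real.one_le_rpow hm1 (by norm_num)
  have h1 : rho d ≤ C₀ * t * (Q d : ℝ)⁻¹ := by
    unfold rho
    rw [div_eq_mul_inv]
    gcongr
    refine le_trans ?_ (hdiv (Q d) (Q_pos hd).ne')
    exact_mod_cast roots_le (Q d) (Q_pos hd).ne'
  have h2 : Real.log (Q d) ≤ 100 * t := by
    have := Real.log_le_rpow_div hm0.le (by norm_num : (0 : ℝ) < 1 / 100)
    linarith
  have h3 : t * t * t * (Q d : ℝ)⁻¹ = (Q d : ℝ) ^ (-(97 : ℝ) / 100) := by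
    rw [ht, ← Real.rpow_neg_one, ← Real.rpow_add hm0, ← Real.rpow_add hm0, ← Real.rpow_add hm0]
    norm_num
  have h4 : (Q d : ℝ) ^ (-(97 : ℝ) / 100) ≤ (d : ℝ) ^ (-(97 : ℝ) / 50) := by
    have a1 : (d : ℝ) ^ 2 ≤ Q d := by rw [Q_cast]; nlinarith
    refine (Real.rpow_le_rpow_of_nonpos (by positivity) a1 (by norm_num)).trans_eq ?_
    rw [← Real.rpow_natCast, ← Real.rpow_mul hd0.le]
    norm_num
  have h5 : 0 ≤ Real.log (Q d) := Real.log_nonneg hm1
  calc t * (rho d * (4 + Real.log (Q d))) ≤ t * ((C₀ * t * (Q d : ℝ)⁻¹) * (104 * t)) := by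
        gcongr; linarith
    _ = (104 * C₀) * (t * t * t * (Q d : ℝ)⁻¹) := by ring
    _ ≤ _ := by rw [h3]; gcongr

lemma S_eq (μ : ℕ → ℝ) (h1 : μ 1 = 1)
    (hrec : ∀ n, 2 ≤ n → μ n = -∑ d ∈ (Ico 1 n).filter (fun d => Q d ∣ Q n), μ d)
    (x : ℕ) (hx : 1 ≤ x) : ∑ i ∈ Icc 1 x, μ i / i = 1 - ∑ d ∈ range (x + 1), μ d * LL d x := by
  have e1 : ∑ d ∈ range (x + 1), μ d * LL d x =
      ∑ n ∈ Icc 1 x, (∑ d ∈ (Ico 1 n).filter (fun d => Q d ∣ Q n), μ d) / n := by
    unfold LL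
    simp only [Finset.mul_sum, div_eq_mul_inv, Finset.sum_mul]
    refine Finset.sum_comm' fun d n => ?_
    simp only [mem_range, mem_filter, mem_Ioc, mem_Icc, mem_Ico]
    constructor
    · rintro ⟨a, ⟨b, c⟩, e⟩
      refine ⟨⟨⟨?_, b⟩, e⟩, by omega, c⟩
      by_contra h0
      have h2 : d = 0 := by omega
      subst h2
      have := Q_pos (n := n) (by omega)
      have h2 : Q 0 = 0 := rfl
      rw [h2, zero_dvd_iff] at e
      omega
    · rintro ⟨⟨⟨a, b⟩, e⟩, -, c⟩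
      exact ⟨by omega, ⟨b, c⟩, e⟩
  rw [e1, eq_sub_iff_add_eq, ← Finset.sum_add_distrib,
    ← Finset.add_sum_erase _ _ (mem_Icc.2 ⟨le_rfl, hx⟩)]
  rw [Finset.sum_eq_zero (s := (Icc 1 x).erase 1)]
  · simp [h1]
  · intro n hn
    simp only [mem_erase, mem_Icc] at hn
    rw [hrec n (by omega)]
    ring

theorem main (μ : ℕ → ℝ) (h1 : μ 1 = 1)
    (hrec : ∀ n, 2 ≤ n → μ n = -∑ d ∈ (Ico 1 n).filter (fun d => Q d ∣ Q n), μ d) :
    Summable (fun d => μ d * rho d) ∧ ∃ B, Tendsto (fun x : ℕ => ∑ i ∈ Icc 1 x, μ i / i +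
      (∑' d, μ d * rho d) * Real.log x) atTop (𝓝 B) := by
  obtain ⟨A, hA, hμ⟩ := mu_bound μ (θ := 1 / 100)
    (fun n hn => by rw [hrec n hn, abs_neg]; exact Finset.abs_sum_le_sum_abs _ _) (by norm_num)
  have hs : Summable fun d => A * ((Q d : ℝ) ^ ((1 : ℝ) / 100) * near d +
      (Q d : ℝ) ^ ((1 : ℝ) / 100) * (rho d * (4 + Real.log (Q d)))) :=
    (summable_near.add summable_rho).mul_left A
  have hb : ∀ d (t : ℝ), |t| ≤ near d + rho d * (4 + Real.log (Q d)) →
      ‖μ d * t‖ ≤ A * ((Q d : ℝ) ^ ((1 : ℝ) / 100) * near d +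
      (Q d : ℝ) ^ ((1 : ℝ) / 100) * (rho d * (4 + Real.log (Q d)))) := by
    intro d t ht
    rcases Nat.eq_zero_or_pos d with rfl | hd
    · have : t = 0 := by
        have h2 : near 0 = 0 := by simp [near, Q]
        rw [h2, rho_zero] at ht
        simpa using ht
      simp [this, Q]
    rw [Real.norm_eq_abs, abs_mul, ← mul_add, ← mul_assoc]
    exact mul_le_mul (hμ d hd) ht (abs_nonneg _) (by positivity)
  have hsρ : Summable (fun d => μ d * rho d) := by
    refine Summable.of_norm_bounded hs fun d => hb d _ ?_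
    rw [abs_of_nonneg (rho_nonneg d)]
    have := near_nonneg d
    have h2 := rho_nonneg d
    have h3 := Real.log_natCast_nonneg (Q d)
    nlinarith
  refine ⟨hsρ, ?_⟩
  choose l hl using T_conv
  have hT := tendsto_tsum_of_dominated_convergence (𝓕 := atTop)
    (f := fun (x : ℕ) d => μ d * (LL d x - rho d * Real.log x)) (g := fun d => μ d * l d) hs
    (fun d => (hl d).const_mul _)
    (by filter_upwards [eventually_ge_atTop 1] with x hx d using hb d _ (T_bound d x hx))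
  refine ⟨_, (hT.const_sub 1).congr' ?_⟩
  filter_upwards [eventually_ge_atTop 1] with x hx
  have h0 : ∀ d ∉ range (x + 1), μ d * LL d x = 0 := by
    intro d hd
    rw [mem_range] at hd
    unfold LL
    rw [Finset.Ioc_eq_empty (by omega)]
    simp
  have h2 : HasSum (fun d => μ d * LL d x) (∑ d ∈ range (x + 1), μ d * LL d x) :=
    hasSum_sum_of_ne_finset_zero h0
  have h3 := (h2.sub (hsρ.hasSum.mul_right (Real.log x))).tsum_eq
  rw [S_eq μ h1 hrec x hx]
  simp only [mul_sub, ← mul_assoc]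
  rw [h3]
  ring

end Pool.Agent.P.MP_d9fb17_nt
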