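import Pool.Agent.P.MP_d9fb17_nt.Basic

/-! Counting close pairs. -/

namespace Pool.Agent.P.MP_d9fb17_nt

open Finset

lemma pell_eq {k d n : ℕ} (h : Q n = k * Q d) :
    ((2 * n + 1 : ℤ)) ^ 2 = k * (2 * d + 1) ^ 2 - (k - 1) := by
  have : ((Q n : ℕ) : ℤ) = ((k * Q d : ℕ) : ℤ) := by rw [h]
  unfold Q at this
  push_cast at this
  linear_combination 4 * this

lemma pell_b_bound {k X₁ Y₁ X₂ Y₂ : ℤ} (hk : 2 ≤ k) (hX₁ : 0 < X₁) (hX₂ : 0 < X₂) (hY₁ : 0 < Y₁)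
    (hY₂ : 0 < Y₂) (h1 : X₁ ^ 2 = k * Y₁ ^ 2 - (k - 1)) (h2 : X₂ ^ 2 = k * Y₂ ^ 2 - (k - 1))
    (r1 : Y₁ ≤ 2 * Y₂) (r2 : Y₂ ≤ 2 * Y₁) : |X₁ * Y₂ - X₂ * Y₁| ≤ 3 * k := by
  have hid : (k * Y₁ * Y₂ - X₁ * X₂) ^ 2 - k * (X₁ * Y₂ - X₂ * Y₁) ^ 2 = (k - 1) ^ 2 := by
    have : (k * Y₁ * Y₂ - X₁ * X₂) ^ 2 - k * (X₁ * Y₂ - X₂ * Y₁) ^ 2 =
      (k * Y₁ ^ 2 - X₁ ^ 2) * (k * Y₂ ^ 2 - X₂ ^ 2) := by ring
    rw [this, h1, h2]; ring
  have hp : (k * Y₁ * Y₂ - X₁ * X₂) * (k * Y₁ * Y₂ + X₁ * X₂) =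
      (k - 1) * k * (Y₁ ^ 2 + Y₂ ^ 2) - (k - 1) ^ 2 := by
    have : (k * Y₁ * Y₂ - X₁ * X₂) * (k * Y₁ * Y₂ + X₁ * X₂) =
      k ^ 2 * Y₁ ^ 2 * Y₂ ^ 2 - X₁ ^ 2 * X₂ ^ 2 := by ring
    rw [this, h1, h2]; ring
  have hYY : 0 < Y₁ * Y₂ := by positivity
  have hXX : 0 < X₁ * X₂ := by positivity
  have hk0 : 0 < k := by linarith
  have hsum : Y₁ ^ 2 + Y₂ ^ 2 ≤ 3 * (Y₁ * Y₂) := by
    nlinarith [mul_nonneg (sub_nonneg.2 r1) (sub_nonneg.2 r2)]
  have hW : 0 < k * Y₁ * Y₂ + X₁ * X₂ := by positivity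
  set s := k * Y₁ * Y₂ - X₁ * X₂ with hs
  have hs0 : 0 ≤ s := by
    by_contra h
    push Not at h
    have a1 := mul_neg_of_neg_of_pos h hW
    have a2 : 1 ≤ Y₁ ^ 2 := by nlinarith
    have a3 : 0 ≤ Y₂ ^ 2 := by positivity
    have a4 : (k - 1) * k * 1 ≤ (k - 1) * k * (Y₁ ^ 2 + Y₂ ^ 2) := by
      gcongr
      · exact mul_nonneg (by linarith) hk0.le
      · linarith
    nlinarith
  have hs1 : s ≤ 3 * k := by
    have a1 : s * (k * Y₁ * Y₂) ≤ s * (k * Y₁ * Y₂ + X₁ * X₂) := by gcongr; linarith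
    have a2 : (k - 1) * k * (Y₁ ^ 2 + Y₂ ^ 2) ≤ k * k * (3 * (Y₁ * Y₂)) := by
      gcongr; linarith
    have a3 : s * (k * (Y₁ * Y₂)) ≤ (3 * k) * (k * (Y₁ * Y₂)) := by
      nlinarith [sq_nonneg (k - 1)]
    exact le_of_mul_le_mul_right a3 (by positivity)
  refine abs_le_of_sq_le_sq' ?_ (by positivity) |> fun h => abs_le.2 h
  have a1 : s ^ 2 ≤ (3 * k) ^ 2 := by gcongr
  have a2 : 1 * (X₁ * Y₂ - X₂ * Y₁) ^ 2 ≤ k * (X₁ * Y₂ - X₂ * Y₁) ^ 2 := by gcongr; linarith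
  nlinarith [sq_nonneg (k - 1)]

lemma pell_b_inj {k X₁ Y₁ X₂ Y₂ X₃ Y₃ : ℤ} (hk : 2 ≤ k) (hX₁ : 0 < X₁) (hX₂ : 0 < X₂)
    (hX₃ : 0 < X₃) (hY₁ : 0 < Y₁) (hY₂ : 0 < Y₂) (hY₃ : 0 < Y₃)
    (h1 : X₁ ^ 2 = k * Y₁ ^ 2 - (k - 1)) (h2 : X₂ ^ 2 = k * Y₂ ^ 2 - (k - 1))
    (h3 : X₃ ^ 2 = k * Y₃ ^ 2 - (k - 1)) (hb : X₁ * Y₂ - X₂ * Y₁ = X₁ * Y₃ - X₃ * Y₁) :
    Y₂ = Y₃ := by
  have hk0 : 0 < k := by linarith
  have lt : ∀ X Y : ℤ, 0 < X → 0 < Y → X ^ 2 = k * Y ^ 2 - (k - 1) → X₁ * X < k * Y₁ * Y := by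
    intro X Y hX hY h
    have a1 : X₁ ^ 2 < k * Y₁ ^ 2 := by linarith
    have a2 : X ^ 2 < k * Y ^ 2 := by linarith
    have a3 : X₁ ^ 2 * X ^ 2 < (k * Y₁ ^ 2) * (k * Y ^ 2) :=
      mul_lt_mul'' a1 a2 (by positivity) (by positivity)
    have a4 : (X₁ * X) ^ 2 < (k * Y₁ * Y) ^ 2 := by nlinarith
    exact lt_of_pow_lt_pow_left₀ 2 (by positivity) a4
  have l2 := lt X₂ Y₂ hX₂ hY₂ h2
  have l3 := lt X₃ Y₃ hX₃ hY₃ h3
  have e : (Y₂ - Y₃) * (X₁ * (X₂ + X₃) - k * Y₁ * (Y₂ + Y₃)) = 0 := by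
    have e1 : X₁ * (Y₂ - Y₃) = Y₁ * (X₂ - X₃) := by linarith
    have e2 : (X₂ - X₃) * (X₂ + X₃) = k * (Y₂ - Y₃) * (Y₂ + Y₃) := by linear_combination h2 - h3
    linear_combination (X₂ + X₃) * e1 + Y₁ * e2
  rcases mul_eq_zero.1 e with h | h
  · linarith
  · exfalso; linarith

/-- For a fixed ratio `k` there are few solutions in a dyadic range. -/
lemma card_pell (k y : ℕ) (hk : 2 ≤ k) (P : Finset (ℕ × ℕ))
    (hP : ∀ p ∈ P, y ≤ p.1 ∧ p.1 < 2 * y ∧ Q p.2 = k * Q p.1) : P.card ≤ 7 * k := by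
  rcases P.eq_empty_or_nonempty with h | ⟨p₁, hp₁⟩
  · simp [h]
  have hk' : (2 : ℤ) ≤ k := by exact_mod_cast hk
  have h1 := pell_eq (hP p₁ hp₁).2.2
  have : P.card ≤ (Icc (-(3 * k : ℤ)) (3 * k)).card := by
    refine Finset.card_le_card_of_injOn
      (fun p => (2 * p₁.2 + 1 : ℤ) * (2 * p.1 + 1) - (2 * p.2 + 1) * (2 * p₁.1 + 1)) ?_ ?_
    · intro p hp
      have h2 := pell_eq (hP p hp).2.2
      obtain ⟨a, b, -⟩ := hP p hp
      obtain ⟨a', b', -⟩ := hP p₁ hp₁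
      have := pell_b_bound hk' (by positivity) (by positivity) (by positivity) (by positivity)
        h1 h2 (by omega) (by omega)
      simp only [coe_Icc, Set.mem_Icc]
      exact abs_le.1 this
    · intro p hp p' hp' h
      have h2 := pell_eq (hP p hp).2.2
      have h3 := pell_eq (hP p' hp').2.2
      have h4 := pell_b_inj hk' (by positivity) (by positivity) (by positivity) (by positivity)
        (by positivity) (by positivity) h1 h2 h3 h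
      have h5 : p.1 = p'.1 := by omega
      have h6 : p.2 = p'.2 := Q_inj (by rw [(hP p hp).2.2, (hP p' hp').2.2, h5])
      exact Prod.ext h5 h6
  rw [Int.card_Icc] at this
  omega

lemma dyadic_summable {f g : ℕ → ℝ} (hf : ∀ n, 0 ≤ f n) (hg : Summable g)
    (h : ∀ j, ∑ d ∈ Ico (2 ^ j) (2 ^ (j + 1)), f d ≤ g j) : Summable f := by
  have hg0 : ∀ j, 0 ≤ g j := fun j => (Finset.sum_nonneg fun d _ => hf d).trans (h j)
  have key : ∀ J, ∑ d ∈ range (2 ^ J), f d ≤ f 0 + ∑ j ∈ range J, g j := by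
    intro J
    induction J with
    | zero => simp
    | succ J ih =>
      rw [← Finset.sum_range_add_sum_Ico f (Nat.pow_le_pow_right two_pos (Nat.le_succ J)),
        Finset.sum_range_succ]
      have := h J
      linarith
  refine summable_of_sum_range_le (c := f 0 + ∑' j, g j) hf fun n => ?_
  have h1 : ∑ d ∈ range n, f d ≤ ∑ d ∈ range (2 ^ n), f d :=
    Finset.sum_le_sum_of_subset_of_nonneg (Finset.range_subset_range.2 Nat.lt_two_pow_self.le)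
      fun _ _ _ => hf _
  have h2 := hg.sum_le_tsum (range n) fun j _ => hg0 j
  linarith [key n]

/-- The sum of `1/n` over the multiples of `d` below `Q d`. -/
noncomputable def near (d : ℕ) : ℝ := ∑ n ∈ (Ioo d (Q d)).filter (fun n => Q d ∣ Q n), (n : ℝ)⁻¹

lemma near_nonneg (d : ℕ) : 0 ≤ near d := Finset.sum_nonneg fun _ _ => by positivity

lemma Q_le (d : ℕ) (hd : 1 ≤ d) : (Q d : ℝ) ≤ 2 * (d : ℝ) ^ 2 := by
  rw [Q_cast]
  have : (1 : ℝ) ≤ d := by exact_mod_cast hd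
  nlinarith

lemma summable_near : Summable fun d => (Q d : ℝ) ^ ((1 : ℝ) / 100) * near d := by
  obtain ⟨C₀, hC₀, hdiv⟩ := div_bound (ε := 1 / 100) (by positivity)
  set A : ℕ → ℝ := fun d => ∑ n ∈ ((Ioo d (Q d)).filter (fun n => Q d ∣ Q n)).filter
    (fun n => d < (Q n / Q d) ^ 4), (n : ℝ)⁻¹ with hA
  set B : ℕ → ℝ := fun d => ∑ n ∈ ((Ioo d (Q d)).filter (fun n => Q d ∣ Q n)).filter
    (fun n => ¬ d < (Q n / Q d) ^ 4), (n : ℝ)⁻¹ with hB
  have hAB : ∀ d, near d = A d + B d := fun d => (Finset.sum_filter_add_sum_filter_not _ _ _).symm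
  simp only [hAB, mul_add]
  have hQp : ∀ d : ℕ, 1 ≤ d → (Q d : ℝ) ^ ((1 : ℝ) / 100) ≤ 2 * (d : ℝ) ^ ((1 : ℝ) / 50) := by
    intro d hd
    have hd0 : (0 : ℝ) < d := by exact_mod_cast hd
    refine (Real.rpow_le_rpow (by positivity) (Q_le d hd) (by norm_num)).trans ?_
    rw [Real.mul_rpow (by norm_num) (by positivity), ← Real.rpow_natCast,
      ← Real.rpow_mul hd0.le]
    have : (2 : ℝ) ^ ((1 : ℝ) / 100) ≤ 2 := by
      have := Real.rpow_le_rpow_of_exponent_le (x := 2) (by norm_num) (by norm_num : (1 : ℝ) / 100 ≤ 1)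
      simpa using this
    norm_num at this ⊢
    gcongr
  refine Summable.add ?_ ?_
  · have hs : Summable fun d : ℕ => (8 * C₀) * (d : ℝ) ^ (-(217 : ℝ) / 200) :=
      (Real.summable_nat_rpow.2 (by norm_num)).mul_left _
    refine Summable.of_nonneg_of_le (fun d => ?_) (fun d => ?_) hs
    · exact mul_nonneg (by positivity) (Finset.sum_nonneg fun _ _ => by positivity)
    rcases Nat.eq_zero_or_pos d with rfl | hd
    · simp [hA, Q]
    have hd0 : (0 : ℝ) < d := by exact_mod_cast hd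
    have h1 : ∀ n ∈ ((Ioo d (Q d)).filter (fun n => Q d ∣ Q n)).filter
        (fun n => d < (Q n / Q d) ^ 4), (n : ℝ)⁻¹ ≤ 2 * (d : ℝ) ^ (-(9 : ℝ) / 8) := by
      intro n hn
      simp only [mem_filter, mem_Ioo] at hn
      obtain ⟨⟨⟨a, b⟩, k, hk⟩, c⟩ := hn
      rw [hk, Nat.mul_div_cancel_left _ (Q_pos hd)] at c
      have hn0 : (0 : ℝ) < n := by exact_mod_cast (by omega : 0 < n)
      have a1 : (d : ℝ) ^ 2 * k ≤ 2 * (n : ℝ) ^ 2 := by
        have b1 := Q_le n (by omega)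
        rw [hk] at b1
        push_cast at b1
        rw [Q_cast] at b1
        have : (d : ℝ) ^ 2 * k ≤ d * (d + 1) * k := by gcongr; nlinarith
        linarith
      have a2 : (d : ℝ) ^ 9 ≤ (2 * n) ^ 8 := by
        have b1 : (d : ℝ) ≤ (k : ℝ) ^ 4 := by exact_mod_cast c.le
        calc (d : ℝ) ^ 9 = d ^ 8 * d := by ring
          _ ≤ d ^ 8 * (k : ℝ) ^ 4 := by gcongr
          _ = ((d : ℝ) ^ 2 * k) ^ 4 := by ring
          _ ≤ (2 * (n : ℝ) ^ 2) ^ 4 := by gcongr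
          _ = 16 * (n : ℝ) ^ 8 := by ring
          _ ≤ 256 * (n : ℝ) ^ 8 := by gcongr; norm_num
          _ = _ := by ring
      have a3 : (d : ℝ) ^ ((9 : ℝ) / 8) ≤ 2 * n := by
        have := Real.rpow_le_rpow (by positivity) a2 (by norm_num : (0 : ℝ) ≤ 1 / 8)
        rw [← Real.rpow_natCast, ← Real.rpow_natCast, ← Real.rpow_mul hd0.le,
          ← Real.rpow_mul (by positivity)] at this
        norm_num at this ⊢
        exact this
      rw [neg_div, Real.rpow_neg hd0.le, ← div_eq_mul_inv, le_div_iff₀ (by positivity),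
        inv_mul_le_iff₀ hn0]
      linarith
    have h2 := Finset.sum_le_card_nsmul _ _ _ h1
    rw [nsmul_eq_mul] at h2
    have h3 : ((((Ioo d (Q d)).filter (fun n => Q d ∣ Q n)).filter
        (fun n => d < (Q n / Q d) ^ 4)).card : ℝ) ≤ C₀ * (2 * (d : ℝ) ^ ((1 : ℝ) / 50)) := by
      have a1 : (((Ioo d (Q d)).filter (fun n => Q d ∣ Q n)).filter
          (fun n => d < (Q n / Q d) ^ 4)).card ≤ (Q d).divisors.card := by
        refine le_trans (Finset.card_le_card fun n hn => ?_) (roots_le (Q d) (Q_pos hd).ne')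
        simp only [mem_filter, mem_Ioo, mem_range] at hn ⊢
        exact ⟨hn.1.1.2, hn.1.2⟩
      have a2 := hdiv (Q d) (Q_pos hd).ne'
      have a3 := hQp d hd
      calc _ ≤ (((Q d).divisors.card : ℕ) : ℝ) := by exact_mod_cast a1
        _ ≤ _ := a2
        _ ≤ _ := by gcongr
    have h4 : (d : ℝ) ^ (-(217 : ℝ) / 200) =
        (d : ℝ) ^ ((1 : ℝ) / 50) * (d : ℝ) ^ ((1 : ℝ) / 50) * (d : ℝ) ^ (-(9 : ℝ) / 8) := by
      rw [← Real.rpow_add hd0, ← Real.rpow_add hd0]; norm_num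
    calc (Q d : ℝ) ^ ((1 : ℝ) / 100) * A d
        ≤ (2 * (d : ℝ) ^ ((1 : ℝ) / 50)) *
          (C₀ * (2 * (d : ℝ) ^ ((1 : ℝ) / 50)) * (2 * (d : ℝ) ^ (-(9 : ℝ) / 8))) := by
          refine mul_le_mul (hQp d hd) (h2.trans ?_)
            (Finset.sum_nonneg fun _ _ => by positivity) (by positivity)
          gcongr
      _ = _ := by rw [h4]; ring
  · set r : ℝ := (2 : ℝ) ^ (-(12 : ℝ) / 25) with hr
    have hr0 : 0 ≤ r := by positivity
    have hr1 : r < 1 := Real.rpow_lt_one_of_one_lt_of_neg (by norm_num) (by norm_num)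
    refine dyadic_summable (g := fun j => 56 * r ^ j) (fun d => ?_)
      ((summable_geometric_of_lt_one hr0 hr1).mul_left _) fun j => ?_
    · exact mul_nonneg (by positivity) (Finset.sum_nonneg fun _ _ => by positivity)
    set y := 2 ^ j with hy
    have hy1 : 1 ≤ y := Nat.one_le_two_pow
    have hy0 : (0 : ℝ) < y := by exact_mod_cast hy1
    have e2 : 2 ^ (j + 1) = 2 * y := by rw [pow_succ']
    rw [e2]
    set K := Nat.sqrt (Nat.sqrt (2 * y)) with hK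
    set E := (Ico y (2 * y)).sigma fun d => ((Ioo d (Q d)).filter (fun n => Q d ∣ Q n)).filter
      (fun n => ¬ d < (Q n / Q d) ^ 4) with hE
    have h1 : ∑ d ∈ Ico y (2 * y), (Q d : ℝ) ^ ((1 : ℝ) / 100) * B d ≤
        E.card * (4 * (y : ℝ) ^ ((1 : ℝ) / 50) * (y : ℝ)⁻¹) := by
      simp only [hB, Finset.mul_sum]
      rw [Finset.sum_sigma', ← nsmul_eq_mul]
      refine Finset.sum_le_card_nsmul _ _ _ fun e he => ?_
      simp only [mem_sigma, mem_filter, mem_Ico, mem_Ioo] at he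
      obtain ⟨⟨a, b⟩, ⟨⟨c, -⟩, -⟩, -⟩ := he
      refine mul_le_mul ((hQp _ (by omega)).trans ?_) ?_ (by positivity) (by positivity)
      · have a1 : (e.1 : ℝ) ^ ((1 : ℝ) / 50) ≤ (2 * y) ^ ((1 : ℝ) / 50) :=
          Real.rpow_le_rpow (by positivity) (by exact_mod_cast b.le) (by norm_num)
        rw [Real.mul_rpow (by norm_num) hy0.le] at a1
        have a2 : (2 : ℝ) ^ ((1 : ℝ) / 50) ≤ 2 := by
          have := Real.rpow_le_rpow_of_exponent_le (x := 2) (by norm_num)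
            (by norm_num : (1 : ℝ) / 50 ≤ 1)
          simpa using this
        have a3 : (2 : ℝ) ^ ((1 : ℝ) / 50) * (y : ℝ) ^ ((1 : ℝ) / 50) ≤
          2 * (y : ℝ) ^ ((1 : ℝ) / 50) := by gcongr
        linarith
      · exact inv_anti₀ hy0 (by exact_mod_cast (by omega : y ≤ e.2))
    have h2 : E.card ≤ K * (7 * K) := by
      have a1 : ∀ e ∈ E, Q e.2 / Q e.1 ∈ Icc 1 K := by
        intro e he
        simp only [hE, mem_sigma, mem_filter, mem_Ico, mem_Ioo, not_lt] at he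
        obtain ⟨⟨a, b⟩, ⟨⟨c, -⟩, d⟩, f⟩ := he
        refine mem_Icc.2 ⟨Nat.div_pos (Q_strictMono c).le (Q_pos (by omega)), ?_⟩
        rw [hK, Nat.le_sqrt', Nat.le_sqrt', ← pow_mul]
        exact f.trans b.le
      rw [Finset.card_eq_sum_card_fiberwise a1]
      have a2 : ∀ k ∈ Icc 1 K, (E.filter fun e => Q e.2 / Q e.1 = k).card ≤ 7 * K := by
        intro k hk
        rcases (E.filter fun e => Q e.2 / Q e.1 = k).eq_empty_or_nonempty with h | ⟨e₀, he₀⟩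
        · simp [h]
        have b0 : ∀ e ∈ E.filter fun e => Q e.2 / Q e.1 = k,
            y ≤ e.1 ∧ e.1 < 2 * y ∧ Q e.2 = k * Q e.1 ∧ e.1 < e.2 := by
          intro e he
          simp only [hE, mem_sigma, mem_filter, mem_Ico, mem_Ioo, not_lt] at he
          obtain ⟨⟨⟨a, b⟩, ⟨⟨c, -⟩, d⟩, -⟩, f⟩ := he
          exact ⟨a, b, by rw [← f, Nat.div_mul_cancel d], c⟩
        have hk2 : 2 ≤ k := by
          obtain ⟨-, -, c, d⟩ := b0 e₀ he₀
          have := Q_strictMono d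
          by_contra h0
          have h7 : k ≤ 1 := by omega
          have := Nat.mul_le_mul_right (Q e₀.1) h7
          omega
        have b1 := card_pell k y hk2
          ((E.filter fun e => Q e.2 / Q e.1 = k).image fun e => (e.1, e.2)) (by
            intro p hp
            obtain ⟨e, he, rfl⟩ := Finset.mem_image.1 hp
            obtain ⟨a, b, c, -⟩ := b0 e he
            exact ⟨a, b, c⟩)
        rw [Finset.card_image_of_injective] at b1
        · have := (mem_Icc.1 hk).2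
          omega
        · rintro ⟨a, b⟩ ⟨a', b'⟩ h
          simp only [Prod.mk.injEq] at h
          obtain ⟨rfl, rfl⟩ := h
          rfl
      refine (Finset.sum_le_card_nsmul _ _ _ a2).trans ?_
      simp
    have h3 : (K : ℝ) ^ 2 ≤ 2 * (y : ℝ) ^ ((1 : ℝ) / 2) := by
      have a1 : K ^ 2 ≤ Nat.sqrt (2 * y) := Nat.sqrt_le' _
      have a2 : (K ^ 2) ^ 2 ≤ 2 * y := (Nat.pow_le_pow_left a1 2).trans (Nat.sqrt_le' _)
      refine le_of_sq_le_sq_of_nonneg (by positivity) ?_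
      rw [mul_pow, ← Real.rpow_natCast ((y : ℝ) ^ ((1 : ℝ) / 2)), ← Real.rpow_mul hy0.le]
      have a3 : ((K : ℝ) ^ 2) ^ 2 ≤ 2 * y := by exact_mod_cast a2
      norm_num
      linarith
    have h4 : (E.card : ℝ) ≤ 14 * (y : ℝ) ^ ((1 : ℝ) / 2) := by
      have : (E.card : ℝ) ≤ K * (7 * K) := by exact_mod_cast h2
      linarith
    have h5 : r ^ j = (y : ℝ) ^ ((1 : ℝ) / 2) * (y : ℝ) ^ ((1 : ℝ) / 50) * (y : ℝ)⁻¹ := by
      rw [← Real.rpow_neg_one, ← Real.rpow_add hy0, ← Real.rpow_add hy0, hr, hy,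
        ← Real.rpow_natCast, ← Real.rpow_mul (by norm_num)]
      push_cast
      rw [← Real.rpow_natCast, ← Real.rpow_mul (by norm_num)]
      congr 1; ring
    refine h1.trans ?_
    calc (E.card : ℝ) * (4 * (y : ℝ) ^ ((1 : ℝ) / 50) * (y : ℝ)⁻¹)
        ≤ 14 * (y : ℝ) ^ ((1 : ℝ) / 2) * (4 * (y : ℝ) ^ ((1 : ℝ) / 50) * (y : ℝ)⁻¹) := by gcongr
      _ = _ := by rw [h5]; ring

end Pool.Agent.P.MP_d9fb17_nt
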